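import Pool.Agent.P.MP_442888_an.Coord

/-!
The Liouville frequency and the smooth time-change function.
-/

set_option autoImplicit false

open MeasureTheory Filter Topology Set Real
open scoped ContDiff

namespace Pool.Agent.P.MP_442888_an

/-- A smooth periodic function taking the values `0` and `3 ^ n` off a small set. -/
noncomputable def GG (n : ℕ) (r : ℝ) : ℝ :=
  3 ^ n * smoothTransition (2 ^ (n + 1) * cos (2 * π * r))

lemma GG_contDiff (n : ℕ) : ContDiff ℝ ∞ (GG n) := by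
  unfold GG
  refine contDiff_const.mul (smoothTransition.contDiff.comp ?_)
  fun_prop

lemma GG_periodic (n : ℕ) : Function.Periodic (GG n) 1 := fun r => by
  unfold GG
  rw [mul_add, mul_one, cos_add_two_pi]

lemma dGG_contDiff (n : ℕ) : ContDiff ℝ ∞ (deriv (GG n)) :=
  (contDiff_infty_iff_deriv.1 (GG_contDiff n)).2

lemma dGG_periodic (n : ℕ) : Function.Periodic (deriv (GG n)) 1 := fun r => by
  rw [← deriv_comp_add_const]
  congr 1
  exact funext (GG_periodic n)

lemma GG_hasDerivAt (n : ℕ) (r : ℝ) : HasDerivAt (GG n) (deriv (GG n) r) r :=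
  ((contDiff_infty_iff_deriv.1 (GG_contDiff n)).1 r).hasDerivAt

/-- The linear form `q y - p x`. -/
noncomputable def Lin (p q : ℤ) : (ℝ × ℝ × ℝ) →L[ℝ] ℝ :=
  (q : ℝ) • ((ContinuousLinearMap.fst ℝ ℝ ℝ).comp (ContinuousLinearMap.snd ℝ ℝ (ℝ × ℝ))) -
    (p : ℝ) • ContinuousLinearMap.fst ℝ ℝ (ℝ × ℝ)

lemma Lin_apply (p q : ℤ) (v : ℝ × ℝ × ℝ) : Lin p q v = q * v.2.1 - p * v.1 := by
  simp [Lin]

lemma exists_bound (f : ℝ → ℝ) (hf : ContDiff ℝ ∞ f) (hper : Function.Periodic f 1)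
    (L : (ℝ × ℝ × ℝ) →L[ℝ] ℝ) (n : ℕ) :
    ∃ B : ℝ, 0 ≤ B ∧ ∀ k ≤ n, ∀ v, ‖iteratedFDeriv ℝ k (f ∘ L) v‖ ≤ B := by
  have h1 : ∀ k : ℕ, ∃ B : ℝ, 0 ≤ B ∧ ∀ v, ‖iteratedFDeriv ℝ k (f ∘ L) v‖ ≤ B := fun k => by
    have hp : Function.Periodic (iteratedFDeriv ℝ k f) 1 := fun x => by
      rw [← iteratedFDeriv_comp_add_right]
      congr 1
      exact funext hper
    have hc : Continuous (iteratedFDeriv ℝ k f) :=
      hf.continuous_iteratedFDeriv (by exact_mod_cast le_top)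
    obtain ⟨C, hC⟩ := (hp.isBounded_of_continuous one_ne_zero hc).exists_norm_le
    have hC0 : 0 ≤ C := (norm_nonneg _).trans (hC _ ⟨0, rfl⟩)
    refine ⟨C * ∏ _i : Fin k, ‖L‖, by positivity, fun v => ?_⟩
    rw [L.iteratedFDeriv_comp_right hf v (by exact_mod_cast le_top)]
    refine (ContinuousMultilinearMap.norm_compContinuousLinearMap_le _ _).trans ?_
    exact mul_le_mul_of_nonneg_right (hC _ ⟨_, rfl⟩) (by positivity)
  choose B hB0 hB using h1
  refine ⟨∑ k ∈ Finset.range (n + 1), B k, Finset.sum_nonneg fun k _ => hB0 k, fun k hk v => ?_⟩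
  exact (hB k v).trans (Finset.single_le_sum (fun k _ => hB0 k)
    (Finset.mem_range.2 (Nat.lt_succ_of_le hk)))

/-- The data of the construction. -/
structure Data where
  /-- the frequency -/
  β : ℝ
  /-- numerators -/
  p : ℕ → ℤ
  /-- denominators -/
  q : ℕ → ℤ
  /-- bounds for derivatives -/
  B : ℕ → ℝ
  hβ : Irrational β
  hq : ∀ n, q n ≠ 0
  hB0 : ∀ n, 0 ≤ B n
  hB : ∀ n, ∀ k ≤ n, ∀ v, ‖iteratedFDeriv ℝ k (deriv (GG n) ∘ Lin (p n) (q n)) v‖ ≤ B n
  h0 : |q 0 * β - p 0| * (1 + B 0) ≤ 1 / 4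
  hs : ∀ n, |q (n + 1) * β - p (n + 1)| * (1 + B (n + 1)) ≤ |q n * β - p n| / 2

lemma delta_ne_zero {β : ℝ} (hβ : Irrational β) (p q : ℤ) (hq : q ≠ 0) : q * β - p ≠ 0 := by
  intro h
  have := (hβ.intCast_mul hq).sub_intCast p
  rw [h] at this
  simp at this

theorem nonempty_data : Nonempty Data := by
  choose B hB0 hB using fun (n : ℕ) (p q : ℤ) =>
    exists_bound _ (dGG_contDiff n) (dGG_periodic n) (Lin p q) n
  have hres : ∀ᶠ β : ℝ in residual ℝ, ∀ nm : ℕ × ℕ, ∃ p q : ℤ, q ≠ 0 ∧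
      |q * β - p| * (1 + B nm.1 p q) < 1 / ((nm.2 : ℝ) + 1) := by
    rw [eventually_countable_forall]
    rintro ⟨n, m⟩
    refine residual_of_dense_open ?_ ?_
    · have : {β : ℝ | ∃ p q : ℤ, q ≠ 0 ∧ |q * β - p| * (1 + B n p q) < 1 / ((m : ℝ) + 1)} =
          ⋃ p : ℤ, ⋃ q : ℤ, ⋃ _ : q ≠ 0,
            {β : ℝ | |q * β - p| * (1 + B n p q) < 1 / ((m : ℝ) + 1)} := by
        ext β
        simp only [mem_ofPred_eq, mem_iUnion, exists_prop]
      change IsOpen {β : ℝ | ∃ p q : ℤ, q ≠ 0 ∧ |q * β - p| * (1 + B n p q) < 1 / ((m : ℝ) + 1)}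
      rw [this]
      exact isOpen_iUnion fun p => isOpen_iUnion fun q => isOpen_iUnion fun _ =>
        isOpen_lt (by fun_prop) continuous_const
    · refine Dense.mono ?_ (Rat.denseRange_cast (𝕜 := ℝ))
      rintro _ ⟨r, rfl⟩
      refine ⟨r.num, r.den, by exact_mod_cast r.den_nz, ?_⟩
      have : ((r.den : ℤ) : ℝ) * (r : ℝ) - r.num = 0 := by
        rw [Rat.cast_def]
        have : (r.den : ℝ) ≠ 0 := by exact_mod_cast r.den_nz
        push_cast
        field_simp
        ring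
      rw [this]
      simp only [abs_zero, zero_mul]
      positivity
  obtain ⟨β, hβ, hL⟩ := (dense_of_mem_residual (eventually_residual_irrational.and hres)).nonempty
  have hL' : ∀ (n : ℕ) (η : ℝ), 0 < η → ∃ pq : ℤ × ℤ, pq.2 ≠ 0 ∧
      |pq.2 * β - pq.1| * (1 + B n pq.1 pq.2) ≤ η := fun n η hη => by
    obtain ⟨m, hm⟩ := exists_nat_one_div_lt hη
    obtain ⟨p, q, hq, h⟩ := hL (n, m)
    exact ⟨(p, q), hq, (h.trans hm).le⟩
  choose F hF1 hF2 using hL'
  let step : ℕ → {pq : ℤ × ℤ // pq.2 ≠ 0} → {pq : ℤ × ℤ // pq.2 ≠ 0} := fun n x =>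
    ⟨F (n + 1) (|x.1.2 * β - x.1.1| / 2)
      (half_pos (abs_pos.2 (delta_ne_zero hβ _ _ x.2))), hF1 _ _ _⟩
  let s : ℕ → {pq : ℤ × ℤ // pq.2 ≠ 0} := fun n =>
    Nat.rec ⟨F 0 (1 / 4) (by norm_num), hF1 _ _ _⟩ step n
  exact ⟨{ β := β
           p := fun n => (s n).1.1
           q := fun n => (s n).1.2
           B := fun n => B n (s n).1.1 (s n).1.2
           hβ := hβ
           hq := fun n => (s n).2
           hB0 := fun n => hB0 _ _ _
           hB := fun n => hB _ _ _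
           h0 := hF2 _ _ _
           hs := fun n => hF2 _ _ _ }⟩

namespace Data

variable (D : Data)

/-- The small divisors. -/
noncomputable def δ (n : ℕ) : ℝ := D.q n * D.β - D.p n

lemma δ_ne (n : ℕ) : D.δ n ≠ 0 := delta_ne_zero D.hβ _ _ (D.hq n)

lemma δ_succ (n : ℕ) : |D.δ (n + 1)| * (1 + D.B (n + 1)) ≤ |D.δ n| / 2 := D.hs n

lemma δ_le (n : ℕ) : |D.δ n| ≤ |D.δ n| * (1 + D.B n) :=
  le_mul_of_one_le_right (abs_nonneg _) (by linarith [D.hB0 n])

lemma δ_tail (n k : ℕ) :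
    |D.δ (k + (n + 1))| * (1 + D.B (k + (n + 1))) ≤ |D.δ n| / 2 * (1 / 2) ^ k := by
  induction k with
  | zero => simpa using D.δ_succ n
  | succ k ih =>
    have h1 := D.δ_succ (k + (n + 1))
    have h2 := D.δ_le (k + (n + 1))
    rw [show k + 1 + (n + 1) = k + (n + 1) + 1 by ring, pow_succ]
    linarith

lemma δ_bound (n : ℕ) : |D.δ n| * (1 + D.B n) ≤ 1 / 4 * (1 / 2) ^ n := by
  induction n with
  | zero => rw [pow_zero, mul_one]; exact D.h0
  | succ k ih =>
    have h1 := D.δ_succ k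
    have h2 := D.δ_le k
    rw [pow_succ]
    linarith

/-- The terms of the series defining the time-change. -/
noncomputable def aa (n : ℕ) (v : ℝ × ℝ × ℝ) : ℝ :=
  D.δ n • (deriv (GG n) ∘ Lin (D.p n) (D.q n)) v

lemma aa_contDiff (n : ℕ) : ContDiff ℝ ∞ (D.aa n) :=
  ((dGG_contDiff n).comp (Lin _ _).contDiff).const_smul _

lemma aa_deriv_le (n k : ℕ) (hk : k ≤ n) (v : ℝ × ℝ × ℝ) :
    ‖iteratedFDeriv ℝ k (D.aa n) v‖ ≤ |D.δ n| * (1 + D.B n) := by
  unfold aa
  rw [iteratedFDeriv_const_smul_apply'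
    (((dGG_contDiff n).comp (Lin _ _).contDiff).of_le (by exact_mod_cast le_top)).contDiffAt,
    norm_smul, Real.norm_eq_abs]
  exact mul_le_mul_of_nonneg_left ((D.hB n k hk v).trans (by linarith)) (abs_nonneg _)

lemma aa_le (n : ℕ) (v : ℝ × ℝ × ℝ) : |D.aa n v| ≤ |D.δ n| * (1 + D.B n) := by
  have := D.aa_deriv_le n 0 (Nat.zero_le _) v
  rwa [norm_iteratedFDeriv_zero, Real.norm_eq_abs] at this

lemma aa_le' (n : ℕ) (v : ℝ × ℝ × ℝ) : |D.aa n v| ≤ 1 / 4 * (1 / 2) ^ n :=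
  (D.aa_le n v).trans (D.δ_bound n)

lemma geo_summable : Summable fun n : ℕ => (1 / 4 : ℝ) * (1 / 2) ^ n :=
  summable_geometric_two.mul_left _

lemma aa_summable (v : ℝ × ℝ × ℝ) : Summable fun n => D.aa n v :=
  Summable.of_norm_bounded geo_summable (fun n => D.aa_le' n v)

/-- The time-change function on `G`. -/
noncomputable def αt (v : ℝ × ℝ × ℝ) : ℝ := 1 + ∑' n, D.aa n v

lemma αt_contDiff : ContDiff ℝ ∞ D.αt := by
  refine contDiff_const.add (contDiff_tsum_of_eventually (N := (⊤ : ℕ∞))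
    (v := fun _ n => (1 / 4 : ℝ) * (1 / 2) ^ n) D.aa_contDiff (fun _ _ => geo_summable)
    (fun k _ => ?_))
  rw [Nat.cofinite_eq_atTop]
  filter_upwards [eventually_ge_atTop k] with n hn v
  exact (D.aa_deriv_le n k hn v).trans (D.δ_bound n)

lemma abs_tsum_aa_le (v : ℝ × ℝ × ℝ) : |∑' n, D.aa n v| ≤ 1 / 2 := by
  have h := tsum_of_norm_bounded (f := fun n => D.aa n v) (geo_summable.hasSum)
    (fun n => D.aa_le' n v)
  rw [tsum_mul_left, tsum_geometric_two, Real.norm_eq_abs] at h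
  linarith

lemma aa_lattice (n : ℕ) (a b c : ℤ) (v : ℝ × ℝ × ℝ) :
    D.aa n (hmul ((a : ℝ), (b : ℝ), (c : ℝ)) v) = D.aa n v := by
  unfold aa
  simp only [Function.comp_apply, Lin_apply, hmul]
  congr 1
  have := (dGG_periodic n).int_mul (D.q n * b - D.p n * a) (D.q n * v.2.1 - D.p n * v.1)
  rw [← this]
  congr 1
  push_cast
  ring

/-- The time-change function on `M`. -/
noncomputable def α : Nil → ℝ := Quotient.lift D.αt (by
  rintro g h ⟨a, b, c, rfl⟩
  simp only [αt, aa_lattice])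

lemma α_proj (v : ℝ × ℝ × ℝ) : D.α (proj v) = D.αt v := rfl

lemma α_contDiff : ContDiff ℝ ∞ (D.α ∘ proj) := D.αt_contDiff

lemma α_continuous : Continuous D.α := by
  rw [isQuotientMap_proj.continuous_iff]
  exact D.α_contDiff.continuous

lemma α_bounds (m : Nil) : 1 / 2 ≤ D.α m ∧ D.α m ≤ 3 / 2 := by
  obtain ⟨v, rfl⟩ := proj_surjective m
  have := abs_le.1 (D.abs_tsum_aa_le v)
  rw [α_proj, αt]
  constructor <;> linarith

/-- The flow. -/
noncomputable abbrev φ : ℝ → Nil → Nil := nilflow (1, D.β, 0)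

/-- The slowly moving angle. -/
noncomputable def θ (n : ℕ) (m : Nil) : UnitAddCircle := D.q n • cy m - D.p n • cx m

lemma θ_proj (n : ℕ) (v : ℝ × ℝ × ℝ) :
    D.θ n (proj v) = ((Lin (D.p n) (D.q n) v : ℝ) : UnitAddCircle) := by
  rw [θ, cx_proj, cy_proj, Lin_apply, ← AddCircle.coe_zsmul, ← AddCircle.coe_zsmul,
    ← AddCircle.coe_sub, zsmul_eq_mul, zsmul_eq_mul]

lemma θ_continuous (n : ℕ) : Continuous (D.θ n) :=
  (continuous_cy.zsmul _).sub (continuous_cx.zsmul _)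

lemma Lin_flow (n : ℕ) (v : ℝ × ℝ × ℝ) (s : ℝ) :
    Lin (D.p n) (D.q n) (hmul v (hexp (1, D.β, 0) s)) = Lin (D.p n) (D.q n) v + s * D.δ n := by
  simp only [Lin_apply, hmul, hexp, δ]
  ring

lemma φ_proj (s : ℝ) (v : ℝ × ℝ × ℝ) : D.φ s (proj v) = proj (hmul v (hexp (1, D.β, 0) s)) := rfl

lemma θ_flow (n : ℕ) (s : ℝ) (m : Nil) :
    D.θ n (D.φ s m) = D.θ n m + ((s * D.δ n : ℝ) : UnitAddCircle) := by
  obtain ⟨v, rfl⟩ := proj_surjective m
  rw [φ_proj, θ_proj, θ_proj, Lin_flow, AddCircle.coe_add]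

/-- `GG n` on the circle. -/
noncomputable def Gc (n : ℕ) (x : UnitAddCircle) : ℝ :=
  3 ^ n * smoothTransition (2 ^ (n + 1) * cos (2 * π * ‖x‖))

lemma Gc_coe (n : ℕ) (r : ℝ) : Gc n (r : UnitAddCircle) = GG n r := by
  unfold Gc GG
  congr 3
  rw [UnitAddCircle.norm_eq, ← abs_of_pos (by positivity : 0 < 2 * π), ← abs_mul, cos_abs,
    abs_of_pos (by positivity : 0 < 2 * π), mul_sub, mul_comm (2 * π) (round r : ℝ),
    cos_sub_int_mul_two_pi]

lemma Gc_continuous (n : ℕ) : Continuous (Gc n) := by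
  unfold Gc
  refine continuous_const.mul (smoothTransition.continuous.comp ?_)
  fun_prop

lemma Gc_nonneg (n : ℕ) (x : UnitAddCircle) : 0 ≤ Gc n x :=
  mul_nonneg (by positivity) (smoothTransition.nonneg _)

lemma Gc_le (n : ℕ) (x : UnitAddCircle) : Gc n x ≤ 3 ^ n :=
  mul_le_of_le_one_right (by positivity) (smoothTransition.le_one _)

lemma Gc_eq_zero (n : ℕ) (x : UnitAddCircle) (h : 1 / 4 ≤ ‖x‖) : Gc n x = 0 := by
  have h2 : ‖x‖ ≤ 1 / 2 := by simpa using AddCircle.norm_le_half_period (1 : ℝ) (x := x) one_ne_zero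
  have h3 : cos (2 * π * ‖x‖) ≤ 0 :=
    cos_nonpos_of_pi_div_two_le_of_le (by nlinarith [pi_pos]) (by nlinarith [pi_pos])
  rw [Gc, smoothTransition.zero_of_nonpos (mul_nonpos_of_nonneg_of_nonpos (by positivity) h3),
    mul_zero]

lemma Gc_eq_top (n : ℕ) (x : UnitAddCircle) (h : ‖x‖ ≤ 1 / 4 - 1 / 8 * (1 / 2) ^ n) :
    Gc n x = 3 ^ n := by
  have h0 : (0 : ℝ) < (1 / 2) ^ n := by positivity
  have h1 := one_sub_mul_le_cos (x := 2 * π * ‖x‖) (by positivity) (by nlinarith [pi_pos])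
  have h2 : 2 / π * (2 * π * ‖x‖) = 4 * ‖x‖ := by
    field_simp
    ring
  have h3 : (2 : ℝ) ^ (n + 1) * (1 / 2 * (1 / 2) ^ n) = 1 := by
    rw [← pow_succ', ← mul_pow]
    norm_num
  have h4 : (1 : ℝ) ≤ 2 ^ (n + 1) * cos (2 * π * ‖x‖) := by
    refine h3.symm.le.trans ?_
    exact mul_le_mul_of_nonneg_left (by linarith) (by positivity)
  rw [Gc, smoothTransition.one_of_one_le h4, mul_one]

/-- The transfer functions. -/
noncomputable def g (n : ℕ) (m : Nil) : ℝ := Gc n (D.θ n m)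

lemma g_continuous (n : ℕ) : Continuous (D.g n) := (Gc_continuous n).comp (D.θ_continuous n)

lemma g_flow (n : ℕ) (t : ℝ) (v : ℝ × ℝ × ℝ) :
    D.g n (D.φ t (proj v)) - D.g n (proj v) =
      ∫ s in (0 : ℝ)..t, D.aa n (hmul v (hexp (1, D.β, 0) s)) := by
  have h : ∀ s, HasDerivAt (fun s => GG n (Lin (D.p n) (D.q n) v + s * D.δ n))
      (D.aa n (hmul v (hexp (1, D.β, 0) s))) s := fun s => by
    have h1 : HasDerivAt (fun s => Lin (D.p n) (D.q n) v + s * D.δ n) (D.δ n) s := by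
      simpa using ((hasDerivAt_id s).mul_const (D.δ n)).const_add (Lin (D.p n) (D.q n) v)
    have h2 := (GG_hasDerivAt n _).comp s h1
    rw [aa, Function.comp_apply, Lin_flow, smul_eq_mul, mul_comm]
    exact h2
  have hc : Continuous fun s => D.aa n (hmul v (hexp (1, D.β, 0) s)) := by
    refine (D.aa_contDiff n).continuous.comp ?_
    unfold hmul hexp
    fun_prop
  rw [intervalIntegral.integral_eq_sub_of_hasDerivAt (fun s _ => h s) (hc.intervalIntegrable _ _),
    g, g, φ_proj, θ_proj, θ_proj, Gc_coe, Gc_coe, Lin_flow, zero_mul, add_zero]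

lemma g_flow_le (n : ℕ) (t : ℝ) (m : Nil) :
    |D.g n (D.φ t m) - D.g n m| ≤ |D.δ n| * (1 + D.B n) * |t| := by
  obtain ⟨v, rfl⟩ := proj_surjective m
  rw [g_flow]
  have := intervalIntegral.norm_integral_le_of_norm_le_const (a := 0) (b := t)
    (f := fun s => D.aa n (hmul v (hexp (1, D.β, 0) s))) (fun s _ => D.aa_le n _)
  rwa [sub_zero] at this

lemma α_flow_continuous (m : Nil) : Continuous fun s => D.α (D.φ s m) := by
  obtain ⟨v, rfl⟩ := proj_surjective m
  refine D.αt_contDiff.continuous.comp (f := fun s => hmul v (hexp (1, D.β, 0) s)) ?_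
  unfold hmul hexp
  fun_prop

lemma hasSum_g (t : ℝ) (m : Nil) :
    HasSum (fun n => D.g n (D.φ t m) - D.g n m) ((∫ s in (0 : ℝ)..t, D.α (D.φ s m)) - t) := by
  have e : (∫ s in (0 : ℝ)..t, D.α (D.φ s m)) - t = ∫ s in (0 : ℝ)..t, (D.α (D.φ s m) - 1) := by
    rw [intervalIntegral.integral_sub ((D.α_flow_continuous m).intervalIntegrable _ _)
      intervalIntegrable_const]
    simp
  rw [e]
  obtain ⟨v, rfl⟩ := proj_surjective m
  simp only [g_flow]
  refine intervalIntegral.hasSum_integral_of_dominated_convergence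
    (fun n _ => (1 / 4 : ℝ) * (1 / 2) ^ n) (fun n => ?_)
    (fun n => Eventually.of_forall fun s _ => D.aa_le' n _)
    (Eventually.of_forall fun s _ => geo_summable) intervalIntegrable_const
    (Eventually.of_forall fun s _ => ?_)
  · refine Continuous.aestronglyMeasurable ((D.aa_contDiff n).continuous.comp ?_)
    unfold hmul hexp
    fun_prop
  · rw [φ_proj, α_proj, αt, add_sub_cancel_left]
    exact (D.aa_summable _).hasSum

lemma θ_measurePreserving (n : ℕ) : MeasurePreserving (D.θ n) haar volume := by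
  have h1 : MeasurePreserving (fun t : UnitAddCircle × UnitAddCircle × UnitAddCircle =>
      (t.1, t.2.1)) volume (volume.prod volume) :=
    (MeasurePreserving.id volume).prod (measurePreserving_fst (μ := volume) (ν := volume))
  have h2 : MeasurePreserving (fun t : UnitAddCircle × UnitAddCircle =>
      (t.1, D.q n • t.2 - D.p n • t.1)) (volume.prod volume) (volume.prod volume) :=
    MeasurePreserving.skew_product (g := fun a b => D.q n • b - D.p n • a)
      (MeasurePreserving.id volume)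
      ((continuous_snd.zsmul _).sub (continuous_fst.zsmul _)).measurable
      (Eventually.of_forall fun a =>
        ((measurePreserving_sub_right volume (D.p n • a)).comp
          (Measure.measurePreserving_zsmul volume (D.hq n))).map_eq)
  exact (measurePreserving_snd.comp (h2.comp (h1.comp measurePreserving_coord)) :)

end Data

end Pool.Agent.P.MP_442888_an
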