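import Pool.Agent.P.MP_442888_an.Defs

/-!
Measurable coordinates on the Heisenberg nilmanifold and invariance of Haar measure.
-/

set_option autoImplicit false

open MeasureTheory Filter Topology Set

namespace Pool.Agent.P.MP_442888_an

lemma coe_int (n : ℤ) : ((n : ℝ) : UnitAddCircle) = 0 :=
  (AddCircle.coe_eq_zero_iff (p := (1 : ℝ))).2 ⟨n, by simp⟩

lemma coe_add_int (x : ℝ) (n : ℤ) : ((x + n : ℝ) : UnitAddCircle) = (x : UnitAddCircle) := by
  rw [AddCircle.coe_add, coe_int, add_zero]

lemma coe_eq_of_int {x y : ℝ} (n : ℤ) (h : x = y + n) :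
    (x : UnitAddCircle) = (y : UnitAddCircle) := by
  rw [h, coe_add_int]

lemma proj_surjective : Function.Surjective proj := Quotient.mk_surjective

lemma proj_eq_iff (g h : ℝ × ℝ × ℝ) :
    proj g = proj h ↔ ∃ a b c : ℤ, h = hmul ((a : ℝ), (b : ℝ), (c : ℝ)) g :=
  Quotient.eq (r := latticeSetoid)

lemma continuous_proj : Continuous proj := continuous_quotient_mk'

lemma isQuotientMap_proj : IsQuotientMap proj := isQuotientMap_quotient_mk'

lemma continuous_hmul : Continuous fun p : (ℝ × ℝ × ℝ) × (ℝ × ℝ × ℝ) => hmul p.1 p.2 := by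
  unfold hmul
  fun_prop

lemma isOpenMap_proj : IsOpenMap proj := by
  intro U hU
  rw [← isQuotientMap_proj.isOpen_preimage]
  have : proj ⁻¹' (proj '' U) =
      ⋃ a : ℤ, ⋃ b : ℤ, ⋃ c : ℤ, (fun g => hmul ((a : ℝ), (b : ℝ), (c : ℝ)) g) ⁻¹' U := by
    ext g
    simp only [mem_preimage, mem_image, mem_iUnion]
    constructor
    · rintro ⟨h, hU, hh⟩
      obtain ⟨a, b, c, rfl⟩ := (proj_eq_iff _ _).1 hh.symm
      exact ⟨a, b, c, hU⟩
    · rintro ⟨a, b, c, hU⟩
      exact ⟨_, hU, ((proj_eq_iff _ _).2 ⟨a, b, c, rfl⟩).symm⟩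
  rw [this]
  refine isOpen_iUnion fun a => isOpen_iUnion fun b => isOpen_iUnion fun c => hU.preimage ?_
  exact continuous_hmul.comp (continuous_const.prodMk continuous_id)

lemma isOpenQuotientMap_proj : IsOpenQuotientMap proj :=
  ⟨proj_surjective, continuous_proj, isOpenMap_proj⟩

lemma rmul_proj (g h : ℝ × ℝ × ℝ) : rmul g (proj h) = proj (hmul h g) := rfl

lemma continuous_rmul (g : ℝ × ℝ × ℝ) : Continuous (rmul g) := by
  rw [isQuotientMap_proj.continuous_iff]
  exact continuous_proj.comp (continuous_hmul.comp (continuous_id.prodMk continuous_const))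

lemma measurable_rmul (g : ℝ × ℝ × ℝ) : Measurable (rmul g) := (continuous_rmul g).measurable

/-- First coordinate modulo one. -/
noncomputable def cx : Nil → UnitAddCircle :=
  Quotient.lift (fun g : ℝ × ℝ × ℝ => (g.1 : UnitAddCircle)) (by
    rintro g h ⟨a, b, c, rfl⟩
    exact (coe_eq_of_int a (by simp [hmul, add_comm])).symm)

/-- Second coordinate modulo one. -/
noncomputable def cy : Nil → UnitAddCircle :=
  Quotient.lift (fun g : ℝ × ℝ × ℝ => (g.2.1 : UnitAddCircle)) (by
    rintro g h ⟨a, b, c, rfl⟩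
    exact (coe_eq_of_int b (by simp [hmul, add_comm])).symm)

/-- Third coordinate modulo one, with a cut at `x + r ∈ ℤ`. -/
noncomputable def czAt (r : ℝ) : Nil → UnitAddCircle :=
  Quotient.lift (fun g : ℝ × ℝ × ℝ => ((g.2.2 - ⌊g.1 + r⌋ * g.2.1 : ℝ) : UnitAddCircle)) (by
    rintro g h ⟨a, b, c, rfl⟩
    refine (coe_eq_of_int (c - (⌊g.1 + r⌋ + a) * b) ?_).symm
    have : ⌊(a : ℝ) + g.1 + r⌋ = ⌊g.1 + r⌋ + a := by
      rw [add_assoc, add_comm (a : ℝ), Int.floor_add_intCast]
    simp only [hmul, this]
    push_cast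
    ring)

/-- Third coordinate modulo one. -/
noncomputable def cz : Nil → UnitAddCircle := czAt 0

lemma cx_proj (g : ℝ × ℝ × ℝ) : cx (proj g) = (g.1 : UnitAddCircle) := rfl
lemma cy_proj (g : ℝ × ℝ × ℝ) : cy (proj g) = (g.2.1 : UnitAddCircle) := rfl
lemma czAt_proj (r : ℝ) (g : ℝ × ℝ × ℝ) :
    czAt r (proj g) = ((g.2.2 - ⌊g.1 + r⌋ * g.2.1 : ℝ) : UnitAddCircle) := rfl
lemma cz_proj (g : ℝ × ℝ × ℝ) :
    cz (proj g) = ((g.2.2 - ⌊g.1⌋ * g.2.1 : ℝ) : UnitAddCircle) := by
  rw [cz, czAt_proj, add_zero]

lemma continuous_coe_circle : Continuous fun x : ℝ => (x : UnitAddCircle) :=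
  AddCircle.continuous_mk' 1

lemma continuous_cx : Continuous cx := by
  rw [isQuotientMap_proj.continuous_iff]
  exact continuous_coe_circle.comp continuous_fst

lemma continuous_cy : Continuous cy := by
  rw [isQuotientMap_proj.continuous_iff]
  exact continuous_coe_circle.comp (continuous_fst.comp continuous_snd)

lemma continuousAt_czAt (r : ℝ) (g : ℝ × ℝ × ℝ) (h : g.1 + r ≠ ⌊g.1 + r⌋) :
    ContinuousAt (czAt r) (proj g) := by
  rw [← isOpenQuotientMap_proj.continuousAt_comp_iff]
  have h1 : ContinuousAt (fun g : ℝ × ℝ × ℝ => Int.fract (g.1 + r)) g :=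
    ContinuousAt.comp (f := fun g : ℝ × ℝ × ℝ => g.1 + r) (continuousAt_fract h) (by fun_prop)
  have h2 : ContinuousAt (fun g : ℝ × ℝ × ℝ => (⌊g.1 + r⌋ : ℝ)) g := by
    have : (fun g : ℝ × ℝ × ℝ => (⌊g.1 + r⌋ : ℝ)) = fun g => g.1 + r - Int.fract (g.1 + r) := by
      ext g
      rw [Int.self_sub_fract]
    rw [this]
    exact ContinuousAt.sub (by fun_prop) h1
  exact continuous_coe_circle.continuousAt.comp
    (ContinuousAt.sub (by fun_prop) (h2.mul (by fun_prop)))

lemma measurable_cz : Measurable cz := by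
  classical
  have hF : MeasurableSet {m : Nil | cx m = 0} :=
    (isClosed_eq continuous_cx continuous_const).measurableSet
  have key : ∀ g : ℝ × ℝ × ℝ, cx (proj g) = 0 ↔ ∃ n : ℤ, (n : ℝ) = g.1 := fun g => by
    rw [cx_proj, AddCircle.coe_eq_zero_iff]
    simp
  have h1 : ContinuousOn (czAt (1 / 2)) {m : Nil | cx m = 0} := by
    intro m hm
    obtain ⟨g, rfl⟩ := proj_surjective m
    obtain ⟨n, hn⟩ := (key g).1 hm
    refine (continuousAt_czAt _ g ?_).continuousWithinAt
    rw [← hn, add_comm, Int.floor_add_intCast]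
    norm_num
  have h2 : ContinuousOn (czAt 0) {m : Nil | cx m = 0}ᶜ := by
    intro m hm
    obtain ⟨g, rfl⟩ := proj_surjective m
    refine (continuousAt_czAt _ g ?_).continuousWithinAt
    intro h
    rw [add_zero] at h
    exact hm ((key g).2 ⟨_, h.symm⟩)
  have h3 := h1.measurable_piecewise h2 hF
  have h4 : cz = {m : Nil | cx m = 0}.piecewise (czAt (1 / 2)) (czAt 0) := by
    ext m
    by_cases hm : m ∈ {m : Nil | cx m = 0}
    · rw [piecewise_eq_of_mem _ _ _ hm]
      obtain ⟨g, rfl⟩ := proj_surjective m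
      obtain ⟨n, hn⟩ := (key g).1 hm
      rw [cz_proj, czAt_proj, ← hn, add_comm (n : ℝ), Int.floor_add_intCast]
      norm_num
    · rw [piecewise_eq_of_notMem _ _ _ hm, cz]
  rwa [h4]

/-- The representative in `[0,1)` of a point of the circle. -/
noncomputable def rep (θ : UnitAddCircle) : ℝ := (AddCircle.measurableEquivIco (1 : ℝ) 0 θ : ℝ)

lemma measurable_rep : Measurable rep :=
  measurable_subtype_coe.comp (AddCircle.measurableEquivIco (1 : ℝ) 0).measurable

lemma rep_coe (x : ℝ) : rep (x : UnitAddCircle) = Int.fract x := by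
  have := AddCircle.coe_equivIco_mk_apply (p := (1 : ℝ)) x
  rw [div_one, mul_one] at this
  exact this

lemma coe_fract (x : ℝ) : ((Int.fract x : ℝ) : UnitAddCircle) = (x : UnitAddCircle) :=
  (coe_eq_of_int ⌊x⌋ (by simp)).symm

lemma coe_rep (θ : UnitAddCircle) : ((rep θ : ℝ) : UnitAddCircle) = θ := by
  induction θ using QuotientAddGroup.induction_on with
  | H x => rw [rep_coe, coe_fract]

lemma floor_rep (θ : UnitAddCircle) : ⌊rep θ⌋ = 0 := by
  induction θ using QuotientAddGroup.induction_on with
  | H x => rw [rep_coe, Int.floor_fract]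

/-- Measurable coordinates. -/
noncomputable def coord (m : Nil) : UnitAddCircle × UnitAddCircle × UnitAddCircle :=
  (cx m, cy m, cz m)

/-- The inverse of `coord`. -/
noncomputable def sec (t : UnitAddCircle × UnitAddCircle × UnitAddCircle) : Nil :=
  proj (rep t.1, rep t.2.1, rep t.2.2)

lemma measurable_coord : Measurable coord :=
  continuous_cx.measurable.prodMk (continuous_cy.measurable.prodMk measurable_cz)

lemma measurable_sec : Measurable sec :=
  continuous_proj.measurable.comp ((measurable_rep.comp measurable_fst).prodMk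
    ((measurable_rep.comp (measurable_fst.comp measurable_snd)).prodMk
      (measurable_rep.comp (measurable_snd.comp measurable_snd))))

lemma sec_coord (m : Nil) : sec (coord m) = m := by
  obtain ⟨⟨x, y, z⟩, rfl⟩ := proj_surjective m
  simp only [sec, coord, cx_proj, cy_proj, cz_proj, rep_coe]
  rw [proj_eq_iff]
  refine ⟨⌊x⌋, ⌊y⌋, ⌊z - ⌊x⌋ * y⌋ + ⌊x⌋ * ⌊y⌋, ?_⟩
  ext
  · simp [hmul]
  · simp [hmul]
  · simp only [hmul, Int.fract]
    push_cast
    ring

lemma coord_sec (t : UnitAddCircle × UnitAddCircle × UnitAddCircle) : coord (sec t) = t := by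
  obtain ⟨a, b, c⟩ := t
  simp only [sec, coord, cx_proj, cy_proj, cz_proj, floor_rep, coe_rep, Int.cast_zero, zero_mul,
    sub_zero]

lemma measurePreserving_coe_Ico : MeasurePreserving (fun x : ℝ => (x : UnitAddCircle))
    (volume.restrict (Ico 0 1)) volume := by
  have h := UnitAddCircle.measurePreserving_mk 0
  rw [zero_add, ← Measure.restrict_congr_set Ico_ae_eq_Ioc] at h
  exact h

lemma haar_eq : haar = Measure.map sec volume := by
  have h := measurePreserving_coe_Ico.prod
    (measurePreserving_coe_Ico.prod measurePreserving_coe_Ico)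
  rw [Measure.prod_restrict, ← Measure.volume_eq_prod, Measure.prod_restrict,
    ← Measure.volume_eq_prod, ← Measure.volume_eq_prod, ← Measure.volume_eq_prod] at h
  rw [← h.map_eq, Measure.map_map measurable_sec h.measurable, haar]
  refine Measure.map_congr ?_
  have hm : MeasurableSet (Ico (0 : ℝ) 1 ×ˢ Ico (0 : ℝ) 1 ×ˢ Ico (0 : ℝ) 1) :=
    measurableSet_Ico.prod (measurableSet_Ico.prod measurableSet_Ico)
  filter_upwards [ae_restrict_mem hm] with v hv
  obtain ⟨x, y, z⟩ := v
  obtain ⟨hx, hy, hz⟩ := hv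
  simp only [Function.comp_apply, sec, Prod.map, rep_coe]
  rw [Int.fract_eq_self.2 hx, Int.fract_eq_self.2 hy, Int.fract_eq_self.2 hz]

instance : IsProbabilityMeasure (volume : Measure UnitAddCircle) :=
  ⟨UnitAddCircle.measure_univ⟩

instance : IsProbabilityMeasure haar := by
  rw [haar_eq]
  exact Measure.isProbabilityMeasure_map measurable_sec.aemeasurable

lemma measurePreserving_sec : MeasurePreserving sec volume haar := ⟨measurable_sec, haar_eq.symm⟩

lemma measurePreserving_coord : MeasurePreserving coord haar volume := by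
  refine ⟨measurable_coord, ?_⟩
  rw [haar_eq, Measure.map_map measurable_coord measurable_sec]
  have : coord ∘ sec = id := funext coord_sec
  rw [this, Measure.map_id]

/-- `haar` is invariant under all right translations. -/
theorem measurePreserving_rmul (g : ℝ × ℝ × ℝ) : MeasurePreserving (rmul g) haar haar := by
  let φ : UnitAddCircle → UnitAddCircle → UnitAddCircle := fun a b =>
    ((g.2.2 + rep a * g.2.1 - ⌊rep a + g.1⌋ * (rep b + g.2.1) : ℝ) : UnitAddCircle)
  have hφ : Measurable fun p : UnitAddCircle × UnitAddCircle => φ p.1 p.2 := by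
    refine continuous_coe_circle.measurable.comp ?_
    have h1 : Measurable fun p : UnitAddCircle × UnitAddCircle => rep p.1 :=
      measurable_rep.comp measurable_fst
    have h2 : Measurable fun p : UnitAddCircle × UnitAddCircle => rep p.2 :=
      measurable_rep.comp measurable_snd
    have h3 : Measurable fun p : UnitAddCircle × UnitAddCircle => (⌊rep p.1 + g.1⌋ : ℝ) :=
      (measurable_from_top (f := fun n : ℤ => (n : ℝ))).comp (h1.add_const _).floor
    exact (measurable_const.add (h1.mul_const _)).sub (h3.mul (h2.add_const _))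
  have inner : ∀ a : UnitAddCircle, MeasurePreserving
      (fun p : UnitAddCircle × UnitAddCircle => (p.1 + (g.2.1 : UnitAddCircle), p.2 + φ a p.1))
      (volume.prod volume) (volume.prod volume) := fun a =>
    MeasurePreserving.skew_product (g := fun b c => c + φ a b)
      (measurePreserving_add_right volume (g.2.1 : UnitAddCircle))
      (measurable_snd.add (hφ.comp (measurable_const.prodMk measurable_fst)))
      (Eventually.of_forall fun b => (measurePreserving_add_right volume (φ a b)).map_eq)
  have outer := MeasurePreserving.skew_product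
    (g := fun a (p : UnitAddCircle × UnitAddCircle) =>
      (p.1 + (g.2.1 : UnitAddCircle), p.2 + φ a p.1))
    (measurePreserving_add_right volume (g.1 : UnitAddCircle))
    (((measurable_fst.comp measurable_snd).add_const _).prodMk
      ((measurable_snd.comp measurable_snd).add
        (hφ.comp (measurable_fst.prodMk (measurable_fst.comp measurable_snd)))))
    (Eventually.of_forall fun a => (inner a).map_eq)
  rw [← Measure.volume_eq_prod, ← Measure.volume_eq_prod] at outer
  have h := measurePreserving_sec.comp (outer.comp measurePreserving_coord)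
  have e : rmul g = sec ∘ (fun p : UnitAddCircle × UnitAddCircle × UnitAddCircle =>
      (p.1 + (g.1 : UnitAddCircle), p.2.1 + (g.2.1 : UnitAddCircle), p.2.2 + φ p.1 p.2.1))
      ∘ coord := by
    ext m
    rw [← sec_coord (rmul g m), Function.comp_apply, Function.comp_apply]
    congr 1
    conv_lhs => rw [← sec_coord m]
    generalize coord m = t
    obtain ⟨a, b, c⟩ := t
    simp only [sec, rmul_proj, coord, cx_proj, cy_proj, cz_proj, hmul, φ]
    refine Prod.ext ?_ (Prod.ext ?_ ?_)
    · simp [coe_rep]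
    · simp [coe_rep]
    · dsimp only
      conv_rhs => rw [← coe_rep c]
      rw [← AddCircle.coe_add]
      exact congrArg _ (by ring)
  rw [e]
  exact h

end Pool.Agent.P.MP_442888_an
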