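import Mathlib

/-!
The Heisenberg nilmanifold, its nilflows, time-changes, and the mixing notions.
-/

set_option autoImplicit false

open MeasureTheory Filter Topology Set

namespace Pool.Agent.P.MP_442888_an

/-- Product of the Heisenberg group `G` in the coordinates
`(x, y, z) = !![1, x, z; 0, 1, y; 0, 0, 1]` (see `toMatrix_hmul`). -/
def hmul (g h : ℝ × ℝ × ℝ) : ℝ × ℝ × ℝ :=
  (g.1 + h.1, g.2.1 + h.2.1, g.2.2 + h.2.2 + g.1 * h.2.1)

/-- `g ~ h` iff `h = γ g` for some `γ` in the lattice `Γ` of integer points of `G`. -/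
def latticeSetoid : Setoid (ℝ × ℝ × ℝ) where
  r g h := ∃ a b c : ℤ, h = hmul ((a : ℝ), (b : ℝ), (c : ℝ)) g
  iseqv :=
    { refl := fun g => ⟨0, 0, 0, by simp [hmul]⟩
      symm := by
        rintro g h ⟨a, b, c, rfl⟩
        refine ⟨-a, -b, a * b - c, ?_⟩
        ext <;> simp [hmul]
        ring
      trans := by
        rintro g h k ⟨a, b, c, rfl⟩ ⟨a', b', c', rfl⟩
        refine ⟨a' + a, b' + b, c' + c + a' * b, ?_⟩
        ext <;> simp [hmul] <;> ring }

/-- The Heisenberg nilmanifold `M = Γ \ G`. -/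
def Nil : Type := Quotient latticeSetoid

/-- The quotient topology on `M`. -/
instance : TopologicalSpace Nil := inferInstanceAs (TopologicalSpace (Quotient latticeSetoid))

/-- The Borel sigma-algebra on `M`. -/
instance : MeasurableSpace Nil := borel Nil

instance : BorelSpace Nil := ⟨rfl⟩

/-- The covering map `G → M`, `g ↦ Γ g`. -/
def proj (g : ℝ × ℝ × ℝ) : Nil := Quotient.mk latticeSetoid g

/-- Right translation `Γ h ↦ Γ h g` on `M`. -/
def rmul (g : ℝ × ℝ × ℝ) : Nil → Nil :=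
  Quotient.map (fun h => hmul h g) (by
    rintro h h' ⟨a, b, c, rfl⟩
    refine ⟨a, b, c, ?_⟩
    ext <;> simp [hmul] <;> ring)

/-- Normalised Haar measure on `M`: the image of Lebesgue measure (the Haar measure of `G` in
these coordinates) on the fundamental domain `[0,1)^3`. -/
noncomputable def haar : Measure Nil :=
  (volume.restrict (Ico (0 : ℝ) 1 ×ˢ Ico (0 : ℝ) 1 ×ˢ Ico (0 : ℝ) 1)).map proj

/-- `exp (t X)` for the Lie algebra element `X = !![0, a, c; 0, 0, b; 0, 0, 0]` with coordinates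
`(a, b, c)` (see `toMatrix_hexp`). -/
noncomputable def hexp (X : ℝ × ℝ × ℝ) (t : ℝ) : ℝ × ℝ × ℝ :=
  (t * X.1, t * X.2.1, t * X.2.2 + t ^ 2 * X.1 * X.2.1 / 2)

/-- The nilflow `φ_t (Γ g) = Γ g exp (t X)`. -/
noncomputable def nilflow (X : ℝ × ℝ × ℝ) (t : ℝ) : Nil → Nil := rmul (hexp X t)

/-- `μ` is the one and only Borel probability measure invariant under the flow `φ`. -/
def UniquelyErgodic (φ : ℝ → Nil → Nil) (μ : Measure Nil) : Prop :=
  IsProbabilityMeasure μ ∧ (∀ t, MeasurePreserving (φ t) μ μ) ∧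
    ∀ ν : Measure Nil, IsProbabilityMeasure ν → (∀ t, MeasurePreserving (φ t) ν ν) → ν = μ

/-- `ψ` is the flow generated by the vector field `X / α`, where `X` generates `φ`:
`ψ_τ p = φ_{h(τ,p)} p` with `h(0,p) = 0` and `∂h/∂τ (τ,p) = 1 / α (ψ_τ p)`. -/
def IsTimeChange (φ : ℝ → Nil → Nil) (α : Nil → ℝ) (ψ : ℝ → Nil → Nil) : Prop :=
  ∃ h : ℝ → Nil → ℝ, (∀ τ p, ψ τ p = φ (h τ p) p) ∧ (∀ p, h 0 p = 0) ∧
    ∀ τ p, HasDerivAt (fun σ => h σ p) (α (ψ τ p))⁻¹ τ

/-- The probability measure proportional to `α dμ`. -/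
noncomputable def timeChangeMeasure (α : Nil → ℝ) (μ : Measure Nil) : Measure Nil :=
  (∫⁻ p, ENNReal.ofReal (α p) ∂μ)⁻¹ • μ.withDensity (fun p => ENNReal.ofReal (α p))

/-- `α` is measurably cohomologous to a constant. -/
def MeasurablyTrivial (φ : ℝ → Nil → Nil) (μ : Measure Nil) (α : Nil → ℝ) : Prop :=
  ∃ (c : ℝ) (u : Nil → ℝ), AEMeasurable u μ ∧
    ∀ t : ℝ, ∀ᵐ p ∂μ, u (φ t p) - u p = ∫ s in (0 : ℝ)..t, (α (φ s p) - c)

/-- Mixing: `ν (ψ_t A ∩ B) → ν A ν B`. -/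
def Mixing (ψ : ℝ → Nil → Nil) (ν : Measure Nil) : Prop :=
  ∀ A B : Set Nil, MeasurableSet A → MeasurableSet B →
    Tendsto (fun t => ν.real (ψ t '' A ∩ B)) atTop (𝓝 (ν.real A * ν.real B))

/-- Weak mixing: `(1/t) ∫_0^t |ν (ψ_s A ∩ B) - ν A ν B| ds → 0` (Lebesgue integral of a
nonnegative function). -/
def WeaklyMixing (ψ : ℝ → Nil → Nil) (ν : Measure Nil) : Prop :=
  ∀ A B : Set Nil, MeasurableSet A → MeasurableSet B →
    Tendsto (fun t : ℝ =>
      (∫⁻ s in Ioc 0 t, ENNReal.ofReal |ν.real (ψ s '' A ∩ B) - ν.real A * ν.real B|) /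
        ENNReal.ofReal t) atTop (𝓝 0)

/-! Sanity checks: the coordinates are those of the group of unipotent upper triangular matrices. -/

/-- The matrix with coordinates `g`. -/
def toMatrix (g : ℝ × ℝ × ℝ) : Matrix (Fin 3) (Fin 3) ℝ := !![1, g.1, g.2.2; 0, 1, g.2.1; 0, 0, 1]

/-- The Lie algebra element with coordinates `X`. -/
def toLie (X : ℝ × ℝ × ℝ) : Matrix (Fin 3) (Fin 3) ℝ := !![0, X.1, X.2.2; 0, 0, X.2.1; 0, 0, 0]

theorem toMatrix_hmul (g h : ℝ × ℝ × ℝ) : toMatrix (hmul g h) = toMatrix g * toMatrix h := by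
  ext i j
  fin_cases i <;> fin_cases j <;> simp [toMatrix, hmul, Matrix.mul_apply, Fin.sum_univ_three] <;>
    ring

theorem toLie_pow_three (X : ℝ × ℝ × ℝ) : toLie X ^ 3 = 0 := by
  ext i j
  fin_cases i <;> fin_cases j <;> simp [toLie, pow_succ, Matrix.mul_apply, Fin.sum_univ_three]

/-- Since `X ^ 3 = 0`, the exponential series of `t X` is `1 + t X + (t X) ^ 2 / 2`. -/
theorem toMatrix_hexp (X : ℝ × ℝ × ℝ) (t : ℝ) :
    toMatrix (hexp X t) = 1 + t • toLie X + (1 / 2 : ℝ) • (t • toLie X) ^ 2 := by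
  ext i j
  fin_cases i <;> fin_cases j <;>
    simp [toMatrix, toLie, hexp, pow_succ]
  ring

end Pool.Agent.P.MP_442888_an
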