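import Pool.Agent.P.MP_442888_an.Coord

/-!
Unique ergodicity of the Heisenberg nilflow generated by `(1, β, 0)`, `β` irrational.
-/

set_option autoImplicit false

open MeasureTheory Filter Topology Set
open scoped ComplexConjugate InnerProductSpace

namespace Pool.Agent.P.MP_442888_an

/-- The standard character of the circle. -/
noncomputable def ech (θ : UnitAddCircle) : ℂ := (AddCircle.toCircle θ : ℂ)

lemma ech_add (a b : UnitAddCircle) : ech (a + b) = ech a * ech b := by
  simp [ech, AddCircle.toCircle_add]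

lemma ech_zero : ech 0 = 1 := by simp [ech]

lemma norm_ech (a : UnitAddCircle) : ‖ech a‖ = 1 := Circle.norm_coe _

lemma ech_neg (a : UnitAddCircle) : ech (-a) = conj (ech a) := by
  rw [ech, AddCircle.toCircle_neg, Circle.coe_inv_eq_conj, ech]

lemma ech_ne_one {a : UnitAddCircle} (h : a ≠ 0) : ech a ≠ 1 := by
  intro h1
  apply h
  apply AddCircle.injective_toCircle one_ne_zero
  rw [AddCircle.toCircle_zero]
  exact Circle.ext h1

lemma continuous_ech : Continuous ech :=
  continuous_subtype_val.comp AddCircle.continuous_toCircle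

lemma integral_ech_shift {ν : Measure Nil} {T : Nil → Nil} (hT : MeasurePreserving T ν ν)
    {W V : Nil → UnitAddCircle} (hW : Measurable W) (c : UnitAddCircle)
    (h : ∀ m, W (T m) = V m + c) : ∫ m, ech (W m) ∂ν = (∫ m, ech (V m) ∂ν) * ech c := by
  have h1 : ∫ m, ech (W m) ∂ν = ∫ m, ech (W (T m)) ∂ν := by
    conv_lhs => rw [← hT.map_eq]
    exact integral_map hT.measurable.aemeasurable
      (continuous_ech.measurable.comp hW).aestronglyMeasurable
  rw [h1, ← integral_mul_const]
  simp only [h, ech_add]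

lemma integral_ech_eig {ν : Measure Nil} {T : Nil → Nil} (hT : MeasurePreserving T ν ν)
    {W : Nil → UnitAddCircle} (hW : Measurable W) {c : UnitAddCircle} (hc : c ≠ 0)
    (h : ∀ m, W (T m) = W m + c) : ∫ m, ech (W m) ∂ν = 0 := by
  have h1 := integral_ech_shift hT hW c h
  have h2 : (∫ m, ech (W m) ∂ν) * (1 - ech c) = 0 := by
    rw [mul_sub, mul_one, ← h1, sub_self]
  rcases mul_eq_zero.1 h2 with h3 | h3
  · exact h3
  · exact absurd (sub_eq_zero.1 h3).symm (ech_ne_one hc)

lemma cx_nilflow (β t : ℝ) (m : Nil) :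
    cx (nilflow (1, β, 0) t m) = cx m + (t : UnitAddCircle) := by
  obtain ⟨g, rfl⟩ := proj_surjective m
  simp [nilflow, rmul_proj, cx_proj, hmul, hexp]

lemma cy_nilflow (β t : ℝ) (m : Nil) :
    cy (nilflow (1, β, 0) t m) = cy m + ((t * β : ℝ) : UnitAddCircle) := by
  obtain ⟨g, rfl⟩ := proj_surjective m
  simp [nilflow, rmul_proj, cy_proj, hmul, hexp]

/-- The functions `l (β x - y)`, with `x ∈ [0,1)`. -/
noncomputable def WW (β : ℝ) (l : ℤ) (m : Nil) : UnitAddCircle :=
  ((l * β * rep (cx m) : ℝ) : UnitAddCircle) - l • cy m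

lemma measurable_WW (β : ℝ) (l : ℤ) : Measurable (WW β l) :=
  (continuous_coe_circle.measurable.comp
    ((measurable_rep.comp continuous_cx.measurable).const_mul _)).sub
    (continuous_cy.zsmul l).measurable

lemma WW_add (β : ℝ) (l l' : ℤ) (m : Nil) : WW β (l + l') m = WW β l m + WW β l' m := by
  unfold WW
  push_cast
  rw [add_mul, add_mul, AddCircle.coe_add, add_zsmul]
  abel

lemma WW_zero (β : ℝ) (m : Nil) : WW β 0 m = 0 := by simp [WW]

lemma WW_neg (β : ℝ) (l : ℤ) (m : Nil) : WW β (-l) m = -WW β l m := by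
  have := WW_add β (-l) l m
  rw [neg_add_cancel, WW_zero] at this
  exact eq_neg_of_add_eq_zero_left this.symm

lemma zsmul_WW (β : ℝ) (k l : ℤ) (m : Nil) : k • WW β l m = WW β (k * l) m := by
  unfold WW
  rw [zsmul_sub, ← AddCircle.coe_zsmul, mul_zsmul, zsmul_eq_mul]
  push_cast
  congr 2
  ring

lemma WW_nilflow (β : ℝ) (l : ℤ) (m : Nil) :
    WW β l (nilflow (1, β, 0) 1 m) = WW β l m + ((-(l * β) : ℝ) : UnitAddCircle) := by
  unfold WW
  have h1 : ((1 : ℝ) : UnitAddCircle) = 0 := by simp
  rw [cx_nilflow, cy_nilflow, h1, add_zero, one_mul, zsmul_add, ← AddCircle.coe_zsmul,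
    zsmul_eq_mul, AddCircle.coe_neg]
  abel

lemma cz_nilflow (β : ℝ) (j : ℤ) (m : Nil) :
    cz (nilflow (1, β, 0) j m) =
      cz m + WW β j m + ((-((j : ℝ) ^ 2 * β / 2) : ℝ) : UnitAddCircle) := by
  obtain ⟨⟨x, y, z⟩, rfl⟩ := proj_surjective m
  simp only [nilflow, rmul_proj, cz_proj, hmul, hexp, WW, cx_proj, cy_proj, rep_coe, mul_one,
    Int.floor_add_intCast]
  rw [← AddCircle.coe_zsmul, ← AddCircle.coe_sub, ← AddCircle.coe_add, ← AddCircle.coe_add]
  refine congrArg _ ?_
  rw [Int.fract, zsmul_eq_mul]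
  push_cast
  ring

lemma coe_mul_irrational_ne_zero {β : ℝ} (hβ : Irrational β) {l : ℤ} (hl : l ≠ 0) :
    ((l * β : ℝ) : UnitAddCircle) ≠ 0 := by
  intro h
  obtain ⟨n, hn⟩ := (AddCircle.coe_eq_zero_iff (p := (1 : ℝ))).1 h
  have := hβ.intCast_mul hl
  rw [← hn] at this
  simp at this

section

variable {β : ℝ} (hβ : Irrational β) {ν : Measure Nil} [IsProbabilityMeasure ν]
  (hν : ∀ t, MeasurePreserving (nilflow (1, β, 0) t) ν ν)

include hβ hν

omit [IsProbabilityMeasure ν] in
lemma integral_WW {l : ℤ} (hl : l ≠ 0) : ∫ m, ech (WW β l m) ∂ν = 0 := by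
  refine integral_ech_eig (hν 1) (measurable_WW β l) ?_ (WW_nilflow β l)
  rw [AddCircle.coe_neg, neg_ne_zero]
  exact coe_mul_irrational_ne_zero hβ hl

lemma integral_char (a b k : ℤ) (h : ¬(a = 0 ∧ b = 0 ∧ k = 0)) :
    ∫ m, ech (a • cx m + b • cy m + k • cz m) ∂ν = 0 := by
  have hχ : Measurable fun m => a • cx m + b • cy m + k • cz m :=
    ((continuous_cx.zsmul a).measurable.add (continuous_cy.zsmul b).measurable).add
      ((continuous_zsmul k).measurable.comp measurable_cz)
  by_cases hk : k = 0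
  · have hne : (a : ℝ) + b * β ≠ 0 := by
      intro h0
      by_cases hb : b = 0
      · rw [hb] at h0
        simp only [Int.cast_zero, zero_mul, add_zero, Int.cast_eq_zero] at h0
        exact h ⟨h0, hb, hk⟩
      · have := (hβ.intCast_mul hb).intCast_add a
        rw [h0] at this
        simp at this
    refine integral_ech_eig (hν (1 / 2 / (a + b * β))) hχ (c := ((1 / 2 : ℝ) : UnitAddCircle))
      ?_ (fun m => ?_)
    · intro h0
      obtain ⟨n, hn⟩ := (AddCircle.coe_eq_zero_iff (p := (1 : ℝ))).1 h0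
      rw [zsmul_eq_mul, mul_one] at hn
      have h2 : (2 * n : ℤ) = 1 := by
        have : (2 * n : ℝ) = 1 := by rw [hn]; norm_num
        exact_mod_cast this
      omega
    · rw [hk, zero_zsmul, zero_zsmul, cx_nilflow, cy_nilflow, zsmul_add, zsmul_add,
        ← AddCircle.coe_zsmul, ← AddCircle.coe_zsmul, zsmul_eq_mul, zsmul_eq_mul]
      have : (1 / 2 : ℝ) = a * (1 / 2 / (a + b * β)) + b * (1 / 2 / (a + b * β) * β) := by
        field_simp
      conv_rhs => rw [this, AddCircle.coe_add]
      abel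
  · set χ : Nil → UnitAddCircle := fun m => a • cx m + b • cy m + k • cz m with hχdef
    have hshift : ∀ j : ℕ, ‖∫ m, ech (χ m) ∂ν‖ = ‖∫ m, ech (χ m + WW β (k * j) m) ∂ν‖ := by
      intro j
      have h1 := integral_ech_shift (hν ((j : ℤ) : ℝ)) (W := χ)
        (V := fun m => χ m + WW β (k * j) m) hχ
        (b • ((((j : ℤ) : ℝ) * β : ℝ) : UnitAddCircle) +
          k • ((-((((j : ℤ) : ℝ)) ^ 2 * β / 2) : ℝ) : UnitAddCircle)) (fun m => by
          simp only [hχdef]
          rw [cx_nilflow, cy_nilflow, cz_nilflow, coe_int, add_zero, zsmul_add, zsmul_add,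
            zsmul_add, zsmul_WW]
          abel)
      rw [h1, norm_mul, norm_ech, mul_one]
    have hmem : ∀ {W : Nil → UnitAddCircle}, Measurable W → MemLp (fun m => ech (W m)) 2 ν :=
      fun hW => MemLp.of_bound (continuous_ech.measurable.comp hW).aestronglyMeasurable 1
        (Eventually.of_forall fun m => (norm_ech _).le)
    have hinner : ∀ {W V : Nil → UnitAddCircle} (hW : Measurable W) (hV : Measurable V),
        ⟪(hmem hW).toLp _, (hmem hV).toLp _⟫_ℂ = ∫ m, ech (V m + -W m) ∂ν := by
      intro W V hW hV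
      rw [L2.inner_def]
      refine integral_congr_ae ?_
      filter_upwards [(hmem hW).coeFn_toLp, (hmem hV).coeFn_toLp] with m h1 h2
      rw [h1, h2, ech_add, ech_neg]
      simp
    let v : ℕ → Lp ℂ 2 ν := fun j => (hmem (measurable_WW β (-(k * j)))).toLp _
    have hv : Orthonormal ℂ v := by
      rw [orthonormal_iff_ite]
      intro i j
      rw [hinner (measurable_WW β _) (measurable_WW β _)]
      simp only [← WW_neg, ← WW_add]
      split_ifs with hij
      · subst hij
        simp [WW_zero, ech_zero]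
      · refine integral_WW hβ hν ?_
        intro h0
        have h1 : k * ((i : ℤ) - j) = 0 := by linarith
        rcases mul_eq_zero.1 h1 with h2 | h2
        · exact hk h2
        · exact hij (by omega)
    have hs := hv.inner_products_summable ((hmem hχ).toLp _)
    have hs2 : Summable fun _ : ℕ => ‖∫ m, ech (χ m) ∂ν‖ ^ 2 := by
      refine hs.congr (fun j => ?_)
      rw [hinner (measurable_WW β _) hχ, hshift j]
      simp only [← WW_neg, neg_neg]
    rw [summable_const_iff] at hs2
    simpa using hs2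

end

/-- Finite measures on the torus are determined by their Fourier coefficients. -/
lemma torus_measure_ext (P Q : Measure (UnitAddTorus (Fin 3))) [IsFiniteMeasure P]
    [IsFiniteMeasure Q]
    (h : ∀ n : Fin 3 → ℤ, ∫ x, UnitAddTorus.mFourier n x ∂P = ∫ x, UnitAddTorus.mFourier n x ∂Q) :
    P = Q := by
  have hL : ∀ (ρ : Measure (UnitAddTorus (Fin 3))) [IsFiniteMeasure ρ],
      ∃ L : C(UnitAddTorus (Fin 3), ℂ) →L[ℂ] ℂ, ∀ f : C(UnitAddTorus (Fin 3), ℂ),
        L f = ∫ x, (f x) ∂ρ := by
    intro ρ _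
    refine ⟨(L1.integralCLM' ℂ).comp (ContinuousMap.toLp 1 ρ ℂ), fun f => ?_⟩
    rw [ContinuousLinearMap.comp_apply, ← L1.integral_eq' ℂ, L1.integral_eq_integral]
    exact integral_congr_ae (ContinuousMap.coeFn_toLp ρ f)
  obtain ⟨LP, hLP⟩ := hL P
  obtain ⟨LQ, hLQ⟩ := hL Q
  have hPQ : LP = LQ := by
    refine ContinuousLinearMap.ext_on (s := range UnitAddTorus.mFourier) ?_ ?_
    · rw [Submodule.dense_iff_topologicalClosure_eq_top]
      exact UnitAddTorus.span_mFourier_closure_eq_top
    · rintro _ ⟨n, rfl⟩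
      rw [hLP, hLQ, h]
  refine ext_of_forall_integral_eq_of_IsFiniteMeasure (fun f => ?_)
  let F : C(UnitAddTorus (Fin 3), ℂ) := ⟨fun x => (f x : ℂ), by fun_prop⟩
  have h1 := hLP F
  rw [hPQ, hLQ] at h1
  simp only [F, ContinuousMap.coe_mk, integral_complex_ofReal] at h1
  exact_mod_cast h1.symm

theorem uniquelyErgodic_nilflow {β : ℝ} (hβ : Irrational β) :
    UniquelyErgodic (nilflow (1, β, 0)) haar := by
  have hinv : ∀ t, MeasurePreserving (nilflow (1, β, 0) t) haar haar :=
    fun t => measurePreserving_rmul _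
  refine ⟨inferInstance, hinv, fun ν hν hνi => ?_⟩
  let C : Nil → UnitAddTorus (Fin 3) := fun m => ![cx m, cy m, cz m]
  have hC : Measurable C := by
    refine measurable_pi_lambda _ (fun i => ?_)
    fin_cases i
    · exact continuous_cx.measurable
    · exact continuous_cy.measurable
    · exact measurable_cz
  let S : UnitAddTorus (Fin 3) → Nil := fun t => sec (t 0, t 1, t 2)
  have hS : Measurable S := measurable_sec.comp (by fun_prop)
  have hSC : S ∘ C = id := funext fun m => sec_coord m
  have key : ∀ (ρ : Measure Nil) [IsProbabilityMeasure ρ],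
      (∀ t, MeasurePreserving (nilflow (1, β, 0) t) ρ ρ) → ∀ n : Fin 3 → ℤ,
      ∫ x, UnitAddTorus.mFourier n x ∂(ρ.map C) = if n = 0 then 1 else 0 := by
    intro ρ _ hρ n
    rw [integral_map hC.aemeasurable (UnitAddTorus.mFourier n).continuous.aestronglyMeasurable]
    have e : ∀ m, UnitAddTorus.mFourier n (C m) =
        ech (n 0 • cx m + n 1 • cy m + n 2 • cz m) := fun m => by
      rw [ech_add, ech_add]
      simp only [UnitAddTorus.mFourier, ContinuousMap.coe_mk, Fin.prod_univ_three, fourier_apply]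
      rfl
    simp only [e]
    split_ifs with hn
    · simp [hn, ech_zero]
    · refine integral_char hβ hρ _ _ _ (fun h0 => hn ?_)
      ext i
      fin_cases i
      · exact h0.1
      · exact h0.2.1
      · exact h0.2.2
  have h1 : ν.map C = haar.map C :=
    torus_measure_ext _ _ (fun n => by rw [key ν hνi, key haar hinv])
  have h2 := congrArg (Measure.map S) h1
  rwa [Measure.map_map hS hC, Measure.map_map hS hC, hSC, Measure.map_id, Measure.map_id] at h2

end Pool.Agent.P.MP_442888_an
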