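import Pool.Agent.P.MP_442888_an.FreeDefs

/-!
Abstract criteria: existence of the time-change, absence of weak mixing from an eigenfunction
built out of integer valued transfer functions, non-triviality from tightness.
-/

set_option autoImplicit false

open MeasureTheory Filter Topology Set Metric

namespace Pool.Agent.P.MP_442888_an.Free

lemma coe_int (n : ℤ) : ((n : ℝ) : UnitAddCircle) = 0 :=
  (AddCircle.coe_eq_zero_iff (p := (1 : ℝ))).2 ⟨n, by simp⟩

lemma coe_add_int (x : ℝ) (n : ℤ) : ((x + n : ℝ) : UnitAddCircle) = (x : UnitAddCircle) := by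
  rw [AddCircle.coe_add, coe_int, add_zero]

lemma coe_eq_of_int {x y : ℝ} (n : ℤ) (h : x = y + n) :
    (x : UnitAddCircle) = (y : UnitAddCircle) := by
  rw [h, coe_add_int]

lemma continuous_coe_circle : Continuous fun x : ℝ => (x : UnitAddCircle) :=
  AddCircle.continuous_mk' 1

section TimeChange

variable {M : Type} {φ : ℝ → M → M} {α : M → ℝ}

/-- The new time along an orbit. -/
noncomputable def clock (φ : ℝ → M → M) (α : M → ℝ) (m : M) (t : ℝ) : ℝ :=
  ∫ s in (0 : ℝ)..t, α (φ s m)

lemma clock_hasDerivAt (hc : ∀ m, Continuous fun s => α (φ s m)) (m : M) (t : ℝ) :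
    HasDerivAt (clock φ α m) (α (φ t m)) t :=
  ((hc m).integral_hasStrictDerivAt 0 t).hasDerivAt

lemma clock_zero (m : M) : clock φ α m 0 = 0 := by simp [clock]

theorem exists_timeChange (hc : ∀ m, Continuous fun s => α (φ s m)) {ε : ℝ} (hε : 0 < ε)
    (hb : ∀ m, ε ≤ α m) : ∃ ψ, IsTimeChange φ α ψ := by
  have hmono : ∀ m, StrictMono (clock φ α m) := fun m =>
    strictMono_of_hasDerivAt_pos (clock_hasDerivAt hc m) (fun t => by linarith [hb (φ t m)])
  have hsurj : ∀ m, Function.Surjective (clock φ α m) := fun m => by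
    have h1 : Monotone fun t => clock φ α m t - ε * t :=
      monotone_of_hasDerivAt_nonneg
        (fun t => (clock_hasDerivAt hc m t).sub ((hasDerivAt_id t).const_mul ε))
        (fun t => by
          have := hb (φ t m)
          simp only [Pi.zero_apply, mul_one]
          linarith)
    have hc' : Continuous (clock φ α m) :=
      continuous_iff_continuousAt.2 fun t => (clock_hasDerivAt hc m t).continuousAt
    refine hc'.surjective ?_ ?_
    · refine tendsto_atTop_mono' atTop ?_ (tendsto_id.const_mul_atTop hε)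
      filter_upwards [eventually_ge_atTop 0] with t ht
      have := h1 ht
      simp only [clock_zero, id] at this ⊢
      linarith
    · refine tendsto_atBot_mono' atBot ?_ (tendsto_id.const_mul_atBot hε)
      filter_upwards [eventually_le_atBot 0] with t ht
      have := h1 ht
      simp only [clock_zero, id] at this ⊢
      linarith
  let e : M → ℝ ≃o ℝ := fun m => (hmono m).orderIsoOfSurjective _ (hsurj m)
  have he : ∀ m τ, clock φ α m ((e m).symm τ) = τ := fun m τ => (e m).apply_symm_apply τ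
  refine ⟨fun τ m => φ ((e m).symm τ) m, fun τ m => (e m).symm τ, fun _ _ => rfl, fun m => ?_,
    fun τ m => ?_⟩
  · apply (hmono m).injective
    rw [he, clock_zero]
  · exact HasDerivAt.of_local_left_inverse (e m).symm.continuous.continuousAt
      (clock_hasDerivAt hc m _) (by linarith [hb (φ ((e m).symm τ) m)])
      (Eventually.of_forall (he m))

lemma timeChange_spec (hc : ∀ m, Continuous fun s => α (φ s m)) (hb : ∀ m, 0 < α m)
    {ψ : ℝ → M → M} (hψ : IsTimeChange φ α ψ) (τ : ℝ) (m : M) :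
    ∃ t, ψ τ m = φ t m ∧ clock φ α m t = τ := by
  obtain ⟨h, h1, h2, h3⟩ := hψ
  refine ⟨h τ m, h1 τ m, ?_⟩
  have hd : ∀ σ, HasDerivAt (fun σ => clock φ α m (h σ m) - σ) 0 σ := fun σ => by
    have a := ((clock_hasDerivAt hc m (h σ m)).comp σ (h3 σ m)).sub (hasDerivAt_id σ)
    rw [← h1, mul_inv_cancel₀ (hb (ψ σ m)).ne', sub_self] at a
    exact a
  have := is_const_of_deriv_eq_zero (fun σ => (hd σ).differentiableAt) (fun σ => (hd σ).deriv) τ 0
  simp only [h2, clock_zero, sub_zero] at this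
  linarith

end TimeChange

section Eigen

variable {M : Type} [MeasurableSpace M] {μ : Measure M} [IsProbabilityMeasure μ]
  {φ : ℝ → M → M} {α : M → ℝ}

lemma real_pos (hα : Measurable α) (hb : ∀ m, 1 / 2 ≤ α m ∧ α m ≤ 3 / 2) {A : Set M}
    (hA : μ A ≠ 0) : 0 < (timeChangeMeasure α μ).real A := by
  have hm : Measurable fun p => ENNReal.ofReal (α p) := hα.ennreal_ofReal
  have hle : ∫⁻ p, ENNReal.ofReal (α p) ∂μ ≤ ENNReal.ofReal (3 / 2) := by
    refine (lintegral_mono fun p => ENNReal.ofReal_le_ofReal (hb p).2).trans ?_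
    simp
  have hge : ENNReal.ofReal (1 / 2) ≤ ∫⁻ p, ENNReal.ofReal (α p) ∂μ := by
    refine le_trans ?_ (lintegral_mono fun p => ENNReal.ofReal_le_ofReal (hb p).1)
    simp
  have hac : μ ≪ μ.withDensity fun p => ENNReal.ofReal (α p) :=
    withDensity_absolutelyContinuous' hm.aemeasurable (Eventually.of_forall fun p => by
      have := (hb p).1
      simp only [ne_eq, ENNReal.ofReal_eq_zero, not_le]
      linarith)
  have h1 : (μ.withDensity fun p => ENNReal.ofReal (α p)) A ≠ 0 := fun h => hA (hac h)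
  have h2 : (μ.withDensity fun p => ENNReal.ofReal (α p)) A ≠ ⊤ := by
    refine ne_top_of_le_ne_top ?_ (measure_mono (subset_univ A))
    rw [withDensity_apply _ MeasurableSet.univ, Measure.restrict_univ]
    exact ne_top_of_le_ne_top ENNReal.ofReal_ne_top hle
  rw [Measure.real, timeChangeMeasure, Measure.smul_apply, smul_eq_mul]
  refine ENNReal.toReal_pos (mul_ne_zero ?_ h1) (ENNReal.mul_ne_top ?_ h2)
  · exact ENNReal.inv_ne_zero.2 (ne_top_of_le_ne_top ENNReal.ofReal_ne_top hle)
  · refine ENNReal.inv_ne_top.2 (fun h => ?_)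
    rw [h] at hge
    simp at hge

omit [IsProbabilityMeasure μ] in
/-- A set of positive measure that does not return at times near half-integers. -/
lemma not_mixing_of_set {ν : Measure M} {ψ : ℝ → M → M} {A : Set M} (hA : MeasurableSet A)
    (hpos : 0 < ν.real A)
    (hemp : ∀ (N : ℕ) (s : ℝ), N + 3 / 8 ≤ s → s ≤ N + 5 / 8 → ψ s '' A ∩ A = ∅) :
    ¬WeaklyMixing ψ ν ∧ ¬Mixing ψ ν := by
  constructor
  · intro h
    have h1 := (h _ _ hA hA).comp (tendsto_natCast_atTop_atTop (R := ℝ))
    set κ := ν.real A * ν.real A with hκ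
    have κ0 : 0 < κ := mul_pos hpos hpos
    set F : ℝ → ENNReal := fun s => ENNReal.ofReal |ν.real (ψ s '' A ∩ A) - κ| with hF
    have hlow : ∀ N : ℕ, ENNReal.ofReal (κ / 4 * N) ≤ ∫⁻ s in Ioc (0 : ℝ) N, F s := by
      intro N
      induction N with
      | zero => simp
      | succ N ih =>
        have hN : (0 : ℝ) ≤ N := Nat.cast_nonneg N
        have e : Ioc (0 : ℝ) (N + 1 : ℕ) = Ioc (0 : ℝ) N ∪ Ioc (N : ℝ) (N + 1) := by
          push_cast
          rw [Ioc_union_Ioc_eq_Ioc hN (by linarith)]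
        have hstep : ENNReal.ofReal (κ / 4) ≤ ∫⁻ s in Ioc (N : ℝ) (N + 1), F s := by
          refine le_trans ?_ (lintegral_mono_set (s := Icc ((N : ℝ) + 3 / 8) (N + 5 / 8))
            (fun s hs => ⟨by linarith [hs.1], by linarith [hs.2]⟩))
          have : ∫⁻ s in Icc ((N : ℝ) + 3 / 8) (N + 5 / 8), F s =
              ∫⁻ _ in Icc ((N : ℝ) + 3 / 8) (N + 5 / 8), ENNReal.ofReal κ := by
            refine setLIntegral_congr_fun measurableSet_Icc (fun s hs => ?_)
            simp only [hF]
            rw [hemp N s hs.1 hs.2]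
            simp [abs_of_pos κ0]
          rw [this, setLIntegral_const, Real.volume_Icc, ← ENNReal.ofReal_mul κ0.le]
          exact ENNReal.ofReal_le_ofReal (le_of_eq (by ring))
        rw [e, lintegral_union measurableSet_Ioc (Ioc_disjoint_Ioc_of_le le_rfl)]
        refine le_trans ?_ (add_le_add ih hstep)
        rw [← ENNReal.ofReal_add (by positivity) (by positivity)]
        exact ENNReal.ofReal_le_ofReal (le_of_eq (by push_cast; ring))
    have h2 : ENNReal.ofReal (κ / 4) ≤ 0 := by
      refine ge_of_tendsto h1 ?_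
      filter_upwards [eventually_gt_atTop 0] with N hN
      have hN' : (0 : ℝ) < N := by exact_mod_cast hN
      simp only [Function.comp_apply]
      rw [ENNReal.le_div_iff_mul_le (Or.inl (by simpa using hN.ne'))
        (Or.inl ENNReal.ofReal_ne_top), ← ENNReal.ofReal_mul (by positivity)]
      exact hlow N
    rw [nonpos_iff_eq_zero, ENNReal.ofReal_eq_zero] at h2
    linarith
  · intro h
    have h1 := (h _ _ hA hA).comp
      (tendsto_atTop_add_const_right atTop (1 / 2 : ℝ) tendsto_natCast_atTop_atTop)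
    have h2 : ((fun t => ν.real (ψ t '' A ∩ A)) ∘ fun N : ℕ => (N : ℝ) + 1 / 2) = fun _ => 0 := by
      ext N
      rw [Function.comp_apply, hemp N _ (by linarith) (by linarith)]
      simp
    rw [h2] at h1
    have := tendsto_nhds_unique h1 tendsto_const_nhds
    nlinarith

theorem not_mixing_of_eigen (hα : Measurable α) (hc : ∀ m, Continuous fun s => α (φ s m))
    (hb : ∀ m, 1 / 2 ≤ α m ∧ α m ≤ 3 / 2) {c : M → UnitAddCircle} (hcm : Measurable c)
    (hcφ : ∀ t m, c (φ t m) = c m + (t : UnitAddCircle)) {g : ℕ → M → ℝ}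
    (hgm : ∀ n, Measurable (g n))
    (hsum : ∀ t m, HasSum (fun n => g n (φ t m) - g n m) (clock φ α m t - t))
    (hint : ∀ᵐ m ∂μ, ∀ᶠ n in atTop, ∃ k : ℤ, g n m = k)
    {ψ : ℝ → M → M} (hψ : IsTimeChange φ α ψ) :
    ¬WeaklyMixing ψ (timeChangeMeasure α μ) ∧ ¬Mixing ψ (timeChangeMeasure α μ) := by
  let σ : ℕ → M → UnitAddCircle := fun N m =>
    c m + ((∑ n ∈ Finset.range N, g n m : ℝ) : UnitAddCircle)
  have hσm : ∀ N, Measurable (σ N) := fun N =>
    hcm.add (continuous_coe_circle.measurable.comp (Finset.measurable_sum _ fun n _ => hgm n))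
  let AA : UnitAddCircle → Set M := fun x => {m | ∃ N₀, ∀ N, N₀ ≤ N → σ N m ∈ closedBall x (1 / 8)}
  have hAm : ∀ x, MeasurableSet (AA x) := fun x => by
    have : AA x = ⋃ N₀, ⋂ N, ⋂ _ : N₀ ≤ N, σ N ⁻¹' closedBall x (1 / 8) := by
      ext m
      simp only [AA, mem_ofPred_eq, mem_iUnion, mem_iInter, mem_preimage]
    rw [this]
    exact MeasurableSet.iUnion fun N₀ => MeasurableSet.iInter fun N =>
      MeasurableSet.iInter fun _ => hσm N measurableSet_closedBall
  have hclock : ∀ {x : UnitAddCircle} {m : M} {t : ℝ}, m ∈ AA x → φ t m ∈ AA x →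
      ‖((clock φ α m t : ℝ) : UnitAddCircle)‖ ≤ 1 / 4 := by
    rintro x m t ⟨N₁, h1⟩ ⟨N₂, h2⟩
    have hs := (hsum t m).tendsto_sum_nat
    have hs2 : Tendsto (fun N => σ N (φ t m) - σ N m) atTop
        (𝓝 ((clock φ α m t : ℝ) : UnitAddCircle)) := by
      have a := (continuous_coe_circle.tendsto _).comp (hs.const_add t)
      rw [add_sub_cancel] at a
      refine a.congr (fun N => ?_)
      simp only [Function.comp_apply, σ, hcφ, Finset.sum_sub_distrib, AddCircle.coe_add,
        AddCircle.coe_sub]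
      abel
    refine le_of_tendsto hs2.norm ?_
    filter_upwards [eventually_ge_atTop N₁, eventually_ge_atTop N₂] with N a b
    have a1 := h1 N a
    have b1 := h2 N b
    rw [mem_closedBall] at a1 b1
    rw [← dist_eq_norm]
    linarith [dist_triangle_right (σ N (φ t m)) (σ N m) x]
  have hex : ∃ x, μ (AA x) ≠ 0 := by
    have hae : ∀ᵐ m ∂μ, m ∈ ⋃ k, AA (TopologicalSpace.denseSeq UnitAddCircle k) := by
      filter_upwards [hint] with m hm
      obtain ⟨N₀, hN₀⟩ := eventually_atTop.1 hm
      have hstep : ∀ N, N₀ ≤ N → σ (N + 1) m = σ N m := fun N hN => by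
        obtain ⟨k, hk⟩ := hN₀ N hN
        simp only [σ]
        rw [Finset.sum_range_succ, hk, coe_add_int]
      have hconst : ∀ N, N₀ ≤ N → σ N m = σ N₀ m := fun N hN => by
        induction N, hN using Nat.le_induction with
        | base => rfl
        | succ N hN ih => rw [hstep N hN, ih]
      obtain ⟨k, hk⟩ := (TopologicalSpace.denseRange_denseSeq UnitAddCircle).exists_dist_lt
        (σ N₀ m) (by norm_num : (0 : ℝ) < 1 / 8)
      exact mem_iUnion.2 ⟨k, N₀, fun N hN => by rw [hconst N hN]; exact hk.le⟩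
    by_contra hcon
    push Not at hcon
    have h0 : μ (⋃ k, AA (TopologicalSpace.denseSeq UnitAddCircle k)) = 0 :=
      measure_iUnion_null fun k => hcon _
    obtain ⟨m, hm1, hm2⟩ := (hae.and (measure_eq_zero_iff_ae_notMem.1 h0)).exists
    exact hm2 hm1
  obtain ⟨x, hx⟩ := hex
  refine not_mixing_of_set (hAm x) (real_pos hα hb hx) (fun N s h1 h2 => ?_)
  rw [eq_empty_iff_forall_notMem]
  rintro _ ⟨⟨m, hm, rfl⟩, hm'⟩
  obtain ⟨t, ht1, ht2⟩ := timeChange_spec hc (fun m => by linarith [(hb m).1]) hψ s m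
  rw [ht1] at hm'
  have h := hclock hm hm'
  rw [ht2, UnitAddCircle.norm_eq, abs_le] at h
  rcases le_or_gt (round s) N with h3 | h3
  · have : (round s : ℝ) ≤ N := by exact_mod_cast h3
    linarith [h.2]
  · have : (N : ℝ) + 1 ≤ round s := by exact_mod_cast h3
    linarith [h.1]

/-- Tightness of coboundaries. -/
lemma tight {u : M → ℝ} (hu : AEMeasurable u μ) {ε : ENNReal} (hε : 0 < ε) :
    ∃ R : ℝ, ∀ T : M → M, MeasurePreserving T μ μ → μ {p | R < |u (T p) - u p|} < ε := by
  obtain ⟨v, hvm, hve⟩ := hu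
  let S : ℕ → Set M := fun R => {p | (R : ℝ) < |v p|}
  have hSm : ∀ R, MeasurableSet (S R) := fun R => measurableSet_lt measurable_const hvm.abs
  have hS0 : Tendsto (fun R => μ (S R)) atTop (𝓝 0) := by
    have h := tendsto_measure_iInter_atTop (μ := μ) (fun R => (hSm R).nullMeasurableSet)
      (fun R R' hR p (hp : (R' : ℝ) < |v p|) =>
        lt_of_le_of_lt (by exact_mod_cast hR : (R : ℝ) ≤ R') hp) ⟨0, measure_ne_top _ _⟩
    have e : ⋂ R, S R = ∅ := by
      rw [eq_empty_iff_forall_notMem]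
      intro p hp
      obtain ⟨R, hR⟩ := exists_nat_gt |v p|
      exact absurd (mem_iInter.1 hp R) (not_lt.2 hR.le)
    rwa [e, measure_empty] at h
  obtain ⟨R, hR⟩ := (hS0.eventually (gt_mem_nhds (ENNReal.half_pos hε.ne'))).exists
  refine ⟨2 * R, fun T hT => ?_⟩
  have h1 : μ {p | 2 * (R : ℝ) < |u (T p) - u p|} ≤ μ (S R ∪ T ⁻¹' S R) := by
    refine measure_mono_ae ?_
    filter_upwards [hve, hT.quasiMeasurePreserving.ae hve] with p h2 h3 hx
    by_contra h4
    have h5 : ¬((R : ℝ) < |v p|) := fun h => h4 (Or.inl h)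
    have h6 : ¬((R : ℝ) < |v (T p)|) := fun h => h4 (Or.inr h)
    have h7 := abs_sub (v (T p)) (v p)
    have h8 : 2 * (R : ℝ) < |u (T p) - u p| := hx
    rw [h2, h3] at h8
    linarith [not_lt.1 h5, not_lt.1 h6]
  refine h1.trans_lt ((measure_union_le _ _).trans_lt ?_)
  rw [hT.measure_preimage (hSm R).nullMeasurableSet, ← ENNReal.add_halves ε]
  exact ENNReal.add_lt_add hR hR

theorem not_cohomologous (hφ : ∀ t, MeasurePreserving (φ t) μ μ)
    (hc : ∀ m, Continuous fun s => α (φ s m)) {R : M → M} (hR : MeasurePreserving R μ μ)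
    (hRφ : ∀ t p, φ t (R p) = R (φ t p)) (hαR : ∀ p, α (R p) = 2 - α p) {ε : ENNReal}
    (hε : 0 < ε) (hbig : ∀ K : ℝ, ∃ t, ε ≤ μ {p | K < |clock φ α p t - t|})
    {β u : M → ℝ} (hβ : ∀ p, β (R p) = β p) (hu : AEMeasurable u μ) :
    ¬∀ t : ℝ, ∀ᵐ p ∂μ,
      u (φ t p) - u p = (∫ s in (0 : ℝ)..t, α (φ s p)) - ∫ s in (0 : ℝ)..t, β (φ s p) := by
  intro h
  have hu' : AEMeasurable (fun p => u p - u (R p)) μ :=
    hu.sub (hu.comp_quasiMeasurePreserving hR.quasiMeasurePreserving)
  obtain ⟨K, hK⟩ := tight hu' hε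
  obtain ⟨t, ht⟩ := hbig (K / 2)
  refine absurd (ht.trans (measure_mono_ae ?_)) (not_le.2 (hK (φ t) (hφ t)))
  filter_upwards [h t, hR.quasiMeasurePreserving.ae (h t)] with p h1 h2 hp
  have hp' : K / 2 < |clock φ α p t - t| := hp
  simp only [hRφ, hαR, hβ] at h2
  rw [intervalIntegral.integral_sub intervalIntegrable_const ((hc p).intervalIntegrable _ _)] at h2
  simp only [intervalIntegral.integral_const, sub_zero, smul_eq_mul] at h2
  have e : u (φ t p) - u (R (φ t p)) - (u p - u (R p)) = 2 * (clock φ α p t - t) := by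
    unfold clock
    linarith
  change K < |u (φ t p) - u (R (φ t p)) - (u p - u (R p))|
  rw [e, abs_mul, abs_two]
  linarith

end Eigen

end Pool.Agent.P.MP_442888_an.Free
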