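import Pool.Agent.P.MP_442888_an.FreeCoord

/-!
The building blocks: smooth functions on slowly moving Heisenberg factors of the nilmanifold.
-/

set_option autoImplicit false

open MeasureTheory Filter Topology Set Real
open scoped ContDiff

namespace Pool.Agent.P.MP_442888_an.Free

/-- A smooth periodic function taking the values `0` and `3 ^ n` off a small set. -/
noncomputable def GG (n : ℕ) (r : ℝ) : ℝ :=
  3 ^ n * smoothTransition (2 ^ (n + 1) * cos (2 * π * r))

lemma GG_contDiff (n : ℕ) : ContDiff ℝ ∞ (GG n) := by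
  unfold GG
  refine contDiff_const.mul (smoothTransition.contDiff.comp ?_)
  fun_prop

lemma cos_norm_coe (r : ℝ) : cos (2 * π * ‖(r : UnitAddCircle)‖) = cos (2 * π * r) := by
  rw [UnitAddCircle.norm_eq, ← abs_of_pos (by positivity : 0 < 2 * π), ← abs_mul, cos_abs,
    abs_of_pos (by positivity : 0 < 2 * π), mul_sub, mul_comm (2 * π) (round r : ℝ),
    cos_sub_int_mul_two_pi]

/-- `GG n` on the circle. -/
noncomputable def Gc (n : ℕ) (x : UnitAddCircle) : ℝ :=
  3 ^ n * smoothTransition (2 ^ (n + 1) * cos (2 * π * ‖x‖))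

lemma Gc_coe (n : ℕ) (r : ℝ) : Gc n (r : UnitAddCircle) = GG n r := by
  rw [Gc, GG, cos_norm_coe]

lemma Gc_nonneg (n : ℕ) (x : UnitAddCircle) : 0 ≤ Gc n x :=
  mul_nonneg (by positivity) (smoothTransition.nonneg _)

lemma Gc_le (n : ℕ) (x : UnitAddCircle) : Gc n x ≤ 3 ^ n :=
  mul_le_of_le_one_right (by positivity) (smoothTransition.le_one _)

lemma norm_le_half (x : UnitAddCircle) : ‖x‖ ≤ 1 / 2 := by
  simpa using AddCircle.norm_le_half_period (1 : ℝ) (x := x) one_ne_zero

lemma Gc_eq_zero (n : ℕ) (x : UnitAddCircle) (h : 1 / 4 ≤ ‖x‖) : Gc n x = 0 := by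
  have h2 := norm_le_half x
  have h3 : cos (2 * π * ‖x‖) ≤ 0 :=
    cos_nonpos_of_pi_div_two_le_of_le (by nlinarith [pi_pos]) (by nlinarith [pi_pos])
  rw [Gc, smoothTransition.zero_of_nonpos (mul_nonpos_of_nonneg_of_nonpos (by positivity) h3),
    mul_zero]

lemma Gc_eq_top (n : ℕ) (x : UnitAddCircle) (h : ‖x‖ ≤ 1 / 4 - 1 / 8 * (1 / 2) ^ n) :
    Gc n x = 3 ^ n := by
  have h0 : (0 : ℝ) < (1 / 2) ^ n := by positivity
  have h1 := one_sub_mul_le_cos (x := 2 * π * ‖x‖) (by positivity) (by nlinarith [pi_pos])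
  have h2 : 2 / π * (2 * π * ‖x‖) = 4 * ‖x‖ := by
    field_simp
    ring
  have h3 : (2 : ℝ) ^ (n + 1) * (1 / 2 * (1 / 2) ^ n) = 1 := by
    rw [← pow_succ', ← mul_pow]
    norm_num
  have h4 : (1 : ℝ) ≤ 2 ^ (n + 1) * cos (2 * π * ‖x‖) := by
    refine h3.symm.le.trans ?_
    exact mul_le_mul_of_nonneg_left (by linarith) (by positivity)
  rw [Gc, smoothTransition.one_of_one_le h4, mul_one]

/-- A smooth periodic cut-off vanishing near the integers. -/
noncomputable def PP (n : ℕ) (r : ℝ) : ℝ :=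
  smoothTransition (16 * 4 ^ n * (1 - cos (2 * π * r)) - 1)

lemma PP_contDiff (n : ℕ) : ContDiff ℝ ∞ (PP n) := by
  unfold PP
  refine smoothTransition.contDiff.comp ?_
  fun_prop

/-- `PP n` on the circle. -/
noncomputable def Pc (n : ℕ) (x : UnitAddCircle) : ℝ :=
  smoothTransition (16 * 4 ^ n * (1 - cos (2 * π * ‖x‖)) - 1)

lemma Pc_coe (n : ℕ) (r : ℝ) : Pc n (r : UnitAddCircle) = PP n r := by
  rw [Pc, PP, cos_norm_coe]

lemma Pc_nonneg (n : ℕ) (x : UnitAddCircle) : 0 ≤ Pc n x := smoothTransition.nonneg _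

lemma Pc_le (n : ℕ) (x : UnitAddCircle) : Pc n x ≤ 1 := smoothTransition.le_one _

lemma Pc_eq_one (n : ℕ) (x : UnitAddCircle) (h : 1 / 8 * (1 / 2) ^ n ≤ ‖x‖) : Pc n x = 1 := by
  have h0 := norm_le_half x
  have h1 := cos_le_one_sub_mul_cos_sq (x := 2 * π * ‖x‖) (by
    rw [abs_of_nonneg (by positivity)]
    nlinarith [pi_pos])
  have h2 : 2 / π ^ 2 * (2 * π * ‖x‖) ^ 2 = 8 * ‖x‖ ^ 2 := by
    field_simp
    ring
  have h3 : (1 / 8 * (1 / 2) ^ n) ^ 2 ≤ ‖x‖ ^ 2 := pow_le_pow_left₀ (by positivity) h 2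
  have h4 : (4 : ℝ) ^ n * (1 / 8 * (1 / 2) ^ n) ^ 2 = 1 / 64 := by
    rw [mul_pow, ← pow_mul, mul_comm n 2, pow_mul, mul_left_comm, ← mul_pow]
    norm_num
  have h5 : (0 : ℝ) < 4 ^ n := by positivity
  refine smoothTransition.one_of_one_le ?_
  nlinarith

lemma PP_eventually_zero (n : ℕ) (k : ℤ) : ∀ᶠ r in 𝓝 (k : ℝ), PP n r = 0 := by
  have h : Continuous fun r : ℝ => 16 * 4 ^ n * (1 - cos (2 * π * r)) - 1 := by fun_prop
  have h1 : 16 * 4 ^ n * (1 - cos (2 * π * (k : ℝ))) - 1 < 0 := by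
    rw [mul_comm (2 * π), cos_int_mul_two_pi]
    norm_num
  filter_upwards [(h.tendsto k).eventually (gt_mem_nhds h1)] with r hr
  exact smoothTransition.zero_of_nonpos hr.le

/-- The model function on the Heisenberg group. -/
noncomputable def HH (n : ℕ) (v : ℝ × ℝ × ℝ) : ℝ :=
  PP n v.1 * (GG n (v.2.2 - 2 * ⌊v.1⌋ * v.2.1) - GG n (v.2.2 - 2 * ⌊v.1⌋ * v.2.1 + 1 / 2))

lemma HH_contDiff (n : ℕ) : ContDiff ℝ ∞ (HH n) := by
  refine contDiff_iff_contDiffAt.2 fun v => ?_
  by_cases h : (⌊v.1⌋ : ℝ) = v.1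
  · refine (contDiffAt_const (c := (0 : ℝ))).congr_of_eventuallyEq ?_
    have h1 := PP_eventually_zero n ⌊v.1⌋
    rw [h] at h1
    filter_upwards [(continuous_fst.tendsto v).eventually h1] with u hu
    rw [HH, hu, zero_mul]
  · have h1 : ∀ᶠ s in 𝓝 v.1, ⌊s⌋ = ⌊v.1⌋ := by
      filter_upwards [Ioo_mem_nhds (lt_of_le_of_ne (Int.floor_le v.1) h)
        (Int.lt_floor_add_one v.1)] with s hs
      exact Int.floor_eq_iff.2 ⟨hs.1.le, hs.2⟩
    have h2 : ContDiff ℝ ∞ fun u : ℝ × ℝ × ℝ => PP n u.1 *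
        (GG n (u.2.2 - 2 * ⌊v.1⌋ * u.2.1) - GG n (u.2.2 - 2 * ⌊v.1⌋ * u.2.1 + 1 / 2)) :=
      ((PP_contDiff n).comp contDiff_fst).mul
        (((GG_contDiff n).comp (by fun_prop)).sub ((GG_contDiff n).comp (by fun_prop)))
    refine h2.contDiffAt.congr_of_eventuallyEq ?_
    filter_upwards [(continuous_fst.tendsto v).eventually h1] with u hu
    rw [HH, hu]

lemma HH_differentiable (n : ℕ) : Differentiable ℝ (HH n) :=
  (HH_contDiff n).differentiable (by simp)

section Block

variable (p r q N : ℤ)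

/-- First slow linear form. -/
def ξ (g : G) : ℝ := q * g.1 1 - p * g.1 0

/-- Second slow linear form. -/
def η (g : G) : ℝ := q * g.1 2 - r * g.1 0

/-- The central coordinate of the Heisenberg factor. -/
def ww (g : G) : ℝ :=
  q * (q * g.2 0 + p * g.2 1 + r * g.2 2) + N * g.1 0 + ξ p q g * η r q g

/-- Third slow linear form. -/
def ρ (g : G) : ℝ := q * (q * g.2 0 + p * g.2 1 + r * g.2 2) + N * g.1 0

/-- The projection to the Heisenberg factor. -/
def Pr (g : G) : ℝ × ℝ × ℝ := (ξ p q g, η r q g, ww p r q N g)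

lemma Pr_contDiff : ContDiff ℝ ∞ (Pr p r q N) := by
  unfold Pr ww ξ η
  fun_prop

/-- The central angle. -/
noncomputable def wt (g : G) : ℝ := ww p r q N g - 2 * ⌊ξ p q g⌋ * η r q g

lemma ξ_lattice (a c : Fin 3 → ℤ) (g : G) :
    ξ p q (gmul (iv a, iv c) g) = ξ p q g + (q * a 1 - p * a 0 : ℤ) := by
  simp only [ξ, gmul, Pi.add_apply, iv_apply]
  push_cast
  ring

lemma wt_lattice (a c : Fin 3 → ℤ) (g : G) : ∃ K : ℤ,
    wt p r q N (gmul (iv a, iv c) g) = wt p r q N g + K := by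
  refine ⟨q * (q * c 0 + p * c 1 + r * c 2) + N * a 0 - (q * a 1 - p * a 0) * (q * a 2 - r * a 0) -
    2 * ⌊ξ p q g⌋ * (q * a 2 - r * a 0), ?_⟩
  rw [wt, wt, ξ_lattice, Int.floor_add_intCast]
  generalize ⌊ξ p q g⌋ = k
  simp only [ww, ξ, η, gmul, Pi.add_apply, iv_apply, cross0, cross1, cross2]
  push_cast
  ring

/-- The slow toral angle on `M`. -/
noncomputable def θc : Nil → UnitAddCircle :=
  Quotient.lift (fun g : G => (ξ p q g : UnitAddCircle)) (by
    rintro g h ⟨a, c, rfl⟩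
    exact (coe_eq_of_int _ (ξ_lattice p q a c g)).symm)

/-- The slow central angle on `M`. -/
noncomputable def ωc : Nil → UnitAddCircle :=
  Quotient.lift (fun g : G => (wt p r q N g : UnitAddCircle)) (by
    rintro g h ⟨a, c, rfl⟩
    obtain ⟨K, hK⟩ := wt_lattice p r q N a c g
    exact (coe_eq_of_int _ hK).symm)

lemma θc_proj (g : G) : θc p q (proj g) = (ξ p q g : UnitAddCircle) := rfl

lemma ωc_proj (g : G) : ωc p r q N (proj g) = (wt p r q N g : UnitAddCircle) := rfl

lemma measurable_θc : Measurable (θc p q) :=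
  measurable_of_comp_proj (continuous_coe_circle.measurable.comp (by unfold ξ; fun_prop))

lemma measurable_ωc : Measurable (ωc p r q N) := by
  refine measurable_of_comp_proj (continuous_coe_circle.measurable.comp ?_)
  have h1 : Measurable (ξ p q) := by unfold ξ; fun_prop
  have h2 : Measurable fun g => (⌊ξ p q g⌋ : ℝ) :=
    (measurable_from_top (f := fun n : ℤ => (n : ℝ))).comp h1.floor
  exact (by unfold ww ξ η; fun_prop : Measurable (ww p r q N)).sub
    ((h2.const_mul 2).mul (by unfold η; fun_prop))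

lemma ξ_central (z : Fin 3 → ℝ) (g : G) : ξ p q (gmul g (0, z)) = ξ p q g := by
  simp [ξ, gmul]

lemma wt_central (z : Fin 3 → ℝ) (g : G) :
    wt p r q N (gmul g (0, z)) = wt p r q N g + q * (q * z 0 + p * z 1 + r * z 2) := by
  rw [wt, wt, ξ_central]
  simp only [ww, ξ, η, gmul, add_zero, map_zero, Pi.add_apply]
  ring

lemma θc_central (z : Fin 3 → ℝ) (m : Nil) : θc p q (rmul (0, z) m) = θc p q m := by
  obtain ⟨g, rfl⟩ := proj_surjective m
  rw [rmul_proj, θc_proj, θc_proj, ξ_central]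

lemma ωc_central (z : Fin 3 → ℝ) (m : Nil) : ωc p r q N (rmul (0, z) m) =
    ωc p r q N m + ((q * (q * z 0 + p * z 1 + r * z 2) : ℝ) : UnitAddCircle) := by
  obtain ⟨g, rfl⟩ := proj_surjective m
  rw [rmul_proj, ωc_proj, ωc_proj, wt_central, AddCircle.coe_add]

lemma Pr_flow (X g : G) (s : ℝ) :
    Pr p r q N (gmul g (s • X)) =
      (ξ p q g + s * ξ p q X, η r q g + s * η r q X,
        ww p r q N g + 2 * ξ p q g * (s * η r q X) + s * ξ p q X * (s * η r q X) +
          s * ρ p r q N X) := by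
  simp only [Pr, ww, ξ, η, ρ, gmul, Prod.smul_fst, Prod.smul_snd, Pi.add_apply, Pi.smul_apply,
    smul_eq_mul, cross0, cross1, cross2, Prod.mk.injEq]
  refine ⟨?_, ?_, ?_⟩ <;> ring

lemma ξ_flow (X g : G) (s : ℝ) : ξ p q (gmul g (s • X)) = ξ p q g + s * ξ p q X :=
  congrArg Prod.fst (Pr_flow p 0 q 0 X g s)

/-- The transfer function on `M`. -/
noncomputable def uu (n : ℕ) (m : Nil) : ℝ :=
  Pc n (θc p q m) * (Gc n (ωc p r q N m) - Gc n (ωc p r q N m + ((1 / 2 : ℝ) : UnitAddCircle)))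

lemma uu_proj (n : ℕ) (g : G) : uu p r q N n (proj g) = HH n (Pr p r q N g) := by
  rw [uu, θc_proj, ωc_proj, ← AddCircle.coe_add, Pc_coe, Gc_coe, Gc_coe]
  rfl

lemma uu_continuous (n : ℕ) : Continuous (uu p r q N n) := by
  rw [isQuotientMap_proj.continuous_iff]
  have : uu p r q N n ∘ proj = HH n ∘ Pr p r q N := funext (uu_proj p r q N n)
  rw [this]
  exact (HH_contDiff n).continuous.comp (Pr_contDiff p r q N).continuous

lemma abs_uu_le (n : ℕ) (m : Nil) : |uu p r q N n m| ≤ 3 ^ n := by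
  rw [uu, abs_mul, abs_of_nonneg (Pc_nonneg _ _)]
  refine (mul_le_of_le_one_left (abs_nonneg _) (Pc_le _ _)).trans ?_
  rw [abs_le]
  constructor <;> linarith [Gc_nonneg n (ωc p r q N m), Gc_le n (ωc p r q N m),
    Gc_nonneg n (ωc p r q N m + ((1 / 2 : ℝ) : UnitAddCircle)),
    Gc_le n (ωc p r q N m + ((1 / 2 : ℝ) : UnitAddCircle))]

/-- The central element of order two modulo the lattice. -/
noncomputable def z₀ : Fin 3 → ℝ := ![1 / 2, 0, 0]

lemma half_add_half : ((1 / 2 : ℝ) : UnitAddCircle) + ((1 / 2 : ℝ) : UnitAddCircle) = 0 := by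
  rw [← AddCircle.coe_add]
  norm_num

lemma uu_odd (hq : Odd q) (n : ℕ) (m : Nil) : uu p r q N n (rmul (0, z₀) m) = -uu p r q N n m := by
  obtain ⟨k, hk⟩ := hq.mul hq
  have e : ((q * (q * z₀ 0 + p * z₀ 1 + r * z₀ 2) : ℝ) : UnitAddCircle) =
      ((1 / 2 : ℝ) : UnitAddCircle) := by
    refine coe_eq_of_int k ?_
    have : (q : ℝ) * q = 2 * k + 1 := by exact_mod_cast hk
    simp only [z₀, Matrix.cons_val_zero, Matrix.cons_val_one, Matrix.cons_val]
    linarith
  rw [uu, uu, θc_central, ωc_central, e, add_assoc, half_add_half, add_zero]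
  ring

/-- The three components of the derivative of the transfer function along the flow. -/
noncomputable def AB (n : ℕ) (g : G) : ℝ × ℝ × ℝ :=
  (fderiv ℝ (HH n) (Pr p r q N g) (1, 0, 0), fderiv ℝ (HH n) (Pr p r q N g) (0, 1, 2 * ξ p q g),
    fderiv ℝ (HH n) (Pr p r q N g) (0, 0, 1))

lemma AB_contDiff (n : ℕ) : ContDiff ℝ ∞ (AB p r q N n) := by
  have h : ContDiff ℝ ∞ fun g => fderiv ℝ (HH n) (Pr p r q N g) :=
    (contDiff_infty_iff_fderiv.1 (HH_contDiff n)).2.comp (Pr_contDiff p r q N)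
  exact (h.clm_apply contDiff_const).prodMk ((h.clm_apply (by unfold ξ; fun_prop)).prodMk
    (h.clm_apply contDiff_const))

/-- The derivative of the transfer function along the flow generated by `X`. -/
noncomputable def da (n : ℕ) (X g : G) : ℝ :=
  ξ p q X * (AB p r q N n g).1 + η r q X * (AB p r q N n g).2.1 + ρ p r q N X * (AB p r q N n g).2.2

lemma da_contDiff (n : ℕ) (X : G) : ContDiff ℝ ∞ (da p r q N n X) :=
  ((contDiff_const.mul (AB_contDiff p r q N n).fst).add
    (contDiff_const.mul (AB_contDiff p r q N n).snd.fst)).add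
      (contDiff_const.mul (AB_contDiff p r q N n).snd.snd)

lemma uu_hasDerivAt (n : ℕ) (X g : G) (s : ℝ) :
    HasDerivAt (fun s : ℝ => uu p r q N n (proj (gmul g (s • X))))
      (da p r q N n X (gmul g (s • X))) s := by
  simp only [uu_proj]
  set κ := ξ p q X with hκ
  set l := η r q X with hl
  set c := ρ p r q N X with hc
  have h1 : HasDerivAt (fun s : ℝ => Pr p r q N (gmul g (s • X)))
      (κ, l, 2 * ξ p q g * l + (κ * (s * l) + s * κ * l) + c) s := by
    simp only [Pr_flow]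
    have a : ∀ c : ℝ, HasDerivAt (fun s : ℝ => s * c) c s := fun c => by
      simpa using (hasDerivAt_id s).mul_const c
    refine ((a κ).const_add _).prodMk (((a l).const_add _).prodMk ?_)
    exact ((((a l).const_mul _).const_add _).add ((a κ).mul (a l))).add (a c)
  have h2 := ((HH_differentiable n) _).hasFDerivAt.comp_hasDerivAt s h1
  refine h2.congr_deriv ?_
  have e : (κ, l, 2 * ξ p q g * l + (κ * (s * l) + s * κ * l) + c) =
      κ • ((1 : ℝ), (0 : ℝ), (0 : ℝ)) + l • ((0 : ℝ), (1 : ℝ), 2 * ξ p q (gmul g (s • X))) +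
        c • ((0 : ℝ), (0 : ℝ), (1 : ℝ)) := by
    rw [ξ_flow, ← hκ]
    simp only [Prod.smul_mk, smul_eq_mul, Prod.mk_add_mk, Prod.mk.injEq]
    refine ⟨?_, ?_, ?_⟩ <;> ring
  rw [e, map_add, map_add, map_smul, map_smul, map_smul]
  rfl

lemma da_lattice (n : ℕ) (X : G) (a c : Fin 3 → ℤ) (g : G) :
    da p r q N n X (gmul (iv a, iv c) g) = da p r q N n X g := by
  have h1 := uu_hasDerivAt p r q N n X (gmul (iv a, iv c) g) 0
  have h2 := uu_hasDerivAt p r q N n X g 0
  simp only [gmul_assoc, proj_lattice] at h1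
  have := h1.unique h2
  simpa only [zero_smul, gmul_zero] using this

lemma da_odd (hq : Odd q) (n : ℕ) (X g : G) :
    da p r q N n X (gmul g (0, z₀)) = -da p r q N n X g := by
  have h1 := uu_hasDerivAt p r q N n X (gmul g (0, z₀)) 0
  have h2 := (uu_hasDerivAt p r q N n X g 0).neg
  have e : ∀ s : ℝ, uu p r q N n (proj (gmul (gmul g (0, z₀)) (s • X))) =
      -uu p r q N n (proj (gmul g (s • X))) := fun s => by
    rw [← uu_odd p r q N hq, rmul_proj, gmul_assoc, gmul_assoc, gmul_central]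
  simp only [e] at h1
  have := h1.unique h2
  simpa only [zero_smul, gmul_zero] using this

end Block

/-- A function equivariant under a transitive family of translations is uniformly distributed. -/
lemma map_eq_smul {ρ : Measure Nil} [IsFiniteMeasure ρ] {f : Nil → UnitAddCircle}
    (hf : Measurable f)
    (h : ∀ s : ℝ, ∃ T, MeasurePreserving T ρ ρ ∧ ∀ m, f (T m) = f m + (s : UnitAddCircle))
    {S : Set UnitAddCircle} (hS : MeasurableSet S) : ρ (f ⁻¹' S) = ρ univ * volume S := by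
  have hinv : (ρ.map f).IsAddLeftInvariant := ⟨fun x => by
    induction x using QuotientAddGroup.induction_on with
    | H s =>
      obtain ⟨T, hT, hT'⟩ := h s
      rw [Measure.map_map (measurable_const_add _) hf]
      conv_rhs => rw [← hT.map_eq, Measure.map_map hf hT.measurable]
      congr 1
      ext m
      simp only [Function.comp_apply, hT', add_comm]⟩
  have h1 := Measure.isAddInvariant_eq_smul_of_compactSpace (ρ.map f) volume
  have h2 := congrArg (fun μ : Measure UnitAddCircle => μ univ) h1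
  simp only [Measure.map_apply hf MeasurableSet.univ, preimage_univ, Measure.smul_apply,
    measure_univ] at h2
  rw [← Measure.map_apply hf hS, h1, Measure.smul_apply, h2]
  simp [ENNReal.smul_def]

lemma measure_θc (p : ℤ) {q : ℤ} (hq : q ≠ 0) {S : Set UnitAddCircle} (hS : MeasurableSet S) :
    haar (θc p q ⁻¹' S) = volume S := by
  rw [map_eq_smul (measurable_θc p q) (fun s => ?_) hS, measure_univ, one_mul]
  refine ⟨rmul ((s / q) • (![0, 1, 0], 0)), measurePreserving_rmul _, fun m => ?_⟩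
  obtain ⟨g, rfl⟩ := proj_surjective m
  rw [rmul_proj, θc_proj, θc_proj, ξ_flow, AddCircle.coe_add]
  congr 2
  have : (q : ℝ) ≠ 0 := by exact_mod_cast hq
  simp only [ξ, Matrix.cons_val_zero, Matrix.cons_val_one]
  field_simp
  ring

lemma measure_ωc_inter (p r N : ℤ) {q : ℤ} (hq : q ≠ 0) {S S' : Set UnitAddCircle}
    (hS : MeasurableSet S) (hS' : MeasurableSet S') :
    haar (ωc p r q N ⁻¹' S' ∩ θc p q ⁻¹' S) = volume S * volume S' := by
  have hm := measurable_θc p q hS
  rw [← Measure.restrict_apply (measurable_ωc p r q N hS'),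
    map_eq_smul (measurable_ωc p r q N) (fun s => ?_) hS', Measure.restrict_apply_univ,
    measure_θc p hq hS]
  refine ⟨rmul (0, ![s / q ^ 2, 0, 0]), ?_, fun m => ?_⟩
  · have h := (measurePreserving_rmul (0, ![s / q ^ 2, 0, 0])).restrict_preimage hm
    have e : rmul (0, ![s / q ^ 2, 0, 0]) ⁻¹' (θc p q ⁻¹' S) = θc p q ⁻¹' S := by
      ext m
      simp only [mem_preimage, θc_central]
    rwa [e] at h
  · rw [ωc_central]
    congr 2
    have : (q : ℝ) ≠ 0 := by exact_mod_cast hq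
    simp only [Matrix.cons_val_zero, Matrix.cons_val_one, Matrix.cons_val]
    field_simp
    ring

lemma measure_ωc (p r N : ℤ) {q : ℤ} (hq : q ≠ 0) {S : Set UnitAddCircle} (hS : MeasurableSet S) :
    haar (ωc p r q N ⁻¹' S) = volume S := by
  have := measure_ωc_inter p r N hq MeasurableSet.univ hS
  simpa using this

end Pool.Agent.P.MP_442888_an.Free
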