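import Pool.Agent.P.MP_442888_an.FreeBlock

/-!
The Liouville frequency vector and the smooth time-change function.
-/

set_option autoImplicit false

open MeasureTheory Filter Topology Set Real
open scoped ContDiff

namespace Pool.Agent.P.MP_442888_an.Free

/-- A bump function equal to one near the fundamental domain. -/
noncomputable def bump : ContDiffBump (0 : G) := ⟨2, 3, by norm_num, by norm_num⟩

lemma exists_bound (f : G → ℝ × ℝ × ℝ) (hf : ContDiff ℝ ∞ f) (n : ℕ) :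
    ∃ B : ℝ, 0 ≤ B ∧ ∀ k ≤ n, ∀ g, ‖iteratedFDeriv ℝ k (fun g => bump g • f g) g‖ ≤ B := by
  have hs : ContDiff ℝ ∞ fun g => bump g • f g := bump.contDiff.smul hf
  have hc : HasCompactSupport fun g => bump g • f g := bump.hasCompactSupport.smul_right
  have h1 : ∀ k : ℕ, ∃ B : ℝ, ∀ g, ‖iteratedFDeriv ℝ k (fun g => bump g • f g) g‖ ≤ B := fun k =>
    (hs.continuous_iteratedFDeriv (by exact_mod_cast le_top)).bounded_above_of_compact_support
      (hc.iteratedFDeriv k)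
  choose B hB using h1
  have hB0 : ∀ k, 0 ≤ B k := fun k => (norm_nonneg _).trans (hB k 0)
  refine ⟨∑ k ∈ Finset.range (n + 1), B k, Finset.sum_nonneg fun k _ => hB0 k, fun k hk v => ?_⟩
  exact (hB k v).trans (Finset.single_le_sum (fun k _ => hB0 k)
    (Finset.mem_range.2 (Nat.lt_succ_of_le hk)))

lemma exists_fund (g : G) : ∃ a c : Fin 3 → ℤ, gmul (iv a, iv c) g ∈ Metric.ball (0 : G) 2 := by
  obtain ⟨a, c, h⟩ := (proj_eq_iff _ _).1 (sec_coord (proj g)).symm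
  refine ⟨a, c, ?_⟩
  have hr : ∀ θ : T3, ‖rep3 θ‖ < 2 := fun θ => by
    rw [pi_norm_lt_iff (by norm_num)]
    intro i
    have := Int.floor_eq_iff.1 (floor_rep (θ i))
    rw [Real.norm_eq_abs, abs_lt, rep3]
    simp only [Int.cast_zero, zero_add] at this
    constructor <;> linarith [this.1, this.2]
  rw [← h, mem_ball_zero_iff, Prod.norm_def, max_lt_iff]
  exact ⟨hr (coord (proj g)).1, hr (coord (proj g)).2⟩

lemma contDiff_gmul_left (γ : G) : ContDiff ℝ ∞ (gmul γ) := by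
  refine (contDiff_const.add contDiff_fst).prodMk ((contDiff_const.add contDiff_snd).add ?_)
  exact (LinearMap.toContinuousLinearMap (crossProduct γ.1)).contDiff.comp contDiff_fst

/-- The data of the construction. -/
structure Data where
  /-- second frequency -/
  β : ℝ
  /-- third frequency -/
  γ : ℝ
  /-- central component -/
  c : Fin 3 → ℝ
  /-- numerators -/
  p : ℕ → ℤ
  /-- numerators -/
  r : ℕ → ℤ
  /-- denominators -/
  q : ℕ → ℤ
  /-- toral corrections -/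
  N : ℕ → ℤ
  /-- bounds for derivatives -/
  B : ℕ → ℝ
  hind : ∀ n : (Fin 3 → ℤ) × (Fin 3 → ℤ), n ≠ 0 →
    n.1 0 + n.1 1 * β + n.1 2 * γ + n.2 0 * c 0 + n.2 1 * c 1 + n.2 2 * c 2 ≠ 0
  hq : ∀ n, Odd (q n)
  hlt : ∀ n, |q n * β - p n| < |q n * γ - r n|
  hlt' : ∀ n, 8 * |q n * (q n * c 0 + p n * c 1 + r n * c 2) + N n| < |q n * γ - r n|
  hB0 : ∀ n, 0 ≤ B n
  hB : ∀ n, ∀ k ≤ n, ∀ g,
    ‖iteratedFDeriv ℝ k (fun g => bump g • AB (p n) (r n) (q n) (N n) n g) g‖ ≤ B n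
  h0 : |q 0 * γ - r 0| * (1 + 3 * B 0) ≤ 1 / 4
  hs : ∀ n, |q (n + 1) * γ - r (n + 1)| * (1 + 3 * B (n + 1)) ≤ |q n * γ - r n| / 2

lemma residual_indep : ∀ᶠ x : ℝ × ℝ × (Fin 3 → ℝ) in residual (ℝ × ℝ × (Fin 3 → ℝ)),
    ∀ n : (Fin 3 → ℤ) × (Fin 3 → ℤ), n ≠ 0 → n.1 0 + n.1 1 * x.1 + n.1 2 * x.2.1 +
      n.2 0 * x.2.2 0 + n.2 1 * x.2.2 1 + n.2 2 * x.2.2 2 ≠ 0 := by
  rw [eventually_countable_forall]
  rintro ⟨n, m⟩
  by_cases hn : (n, m) = 0
  · simp [hn]
  refine mem_of_superset (residual_of_dense_open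
    (s := {x : ℝ × ℝ × (Fin 3 → ℝ) | n 0 + n 1 * x.1 + n 2 * x.2.1 +
      m 0 * x.2.2 0 + m 1 * x.2.2 1 + m 2 * x.2.2 2 ≠ 0})
    (isOpen_ne_fun (by fun_prop) continuous_const) ?_) (fun x hx _ => hx)
  by_cases h : (n 1 : ℝ) ^ 2 + (n 2 : ℝ) ^ 2 + (m 0 : ℝ) ^ 2 + (m 1 : ℝ) ^ 2 + (m 2 : ℝ) ^ 2 = 0
  · have a1 := sq_nonneg (n 1 : ℝ)
    have a2 := sq_nonneg (n 2 : ℝ)
    have a3 := sq_nonneg (m 0 : ℝ)
    have a4 := sq_nonneg (m 1 : ℝ)
    have a5 := sq_nonneg (m 2 : ℝ)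
    have h1 : (n 1 : ℝ) = 0 := pow_eq_zero_iff two_ne_zero |>.1 (by linarith)
    have h2 : (n 2 : ℝ) = 0 := pow_eq_zero_iff two_ne_zero |>.1 (by linarith)
    have h3 : (m 0 : ℝ) = 0 := pow_eq_zero_iff two_ne_zero |>.1 (by linarith)
    have h4 : (m 1 : ℝ) = 0 := pow_eq_zero_iff two_ne_zero |>.1 (by linarith)
    have h5 : (m 2 : ℝ) = 0 := pow_eq_zero_iff two_ne_zero |>.1 (by linarith)
    have h0 : (n 0 : ℝ) ≠ 0 := fun h0 => hn (Prod.ext (funext fun i => by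
      fin_cases i
      · exact_mod_cast h0
      · exact_mod_cast h1
      · exact_mod_cast h2) (funext fun i => by
      fin_cases i
      · exact_mod_cast h3
      · exact_mod_cast h4
      · exact_mod_cast h5))
    intro x
    exact subset_closure (by simpa [h1, h2, h3, h4, h5] using h0)
  · intro x
    by_cases hx : n 0 + n 1 * x.1 + n 2 * x.2.1 + m 0 * x.2.2 0 + m 1 * x.2.2 1 + m 2 * x.2.2 2 = 0
    · have hc : Continuous fun s : ℝ => (x.1 + s * n 1, x.2.1 + s * n 2, x.2.2 + s • iv m) := by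
        fun_prop
      have ht : Tendsto (fun s : ℝ => (x.1 + s * n 1, x.2.1 + s * n 2, x.2.2 + s • iv m)) (𝓝[≠] 0)
          (𝓝 x) := by
        simpa using (hc.tendsto 0).mono_left nhdsWithin_le_nhds
      refine mem_closure_of_tendsto ht ?_
      filter_upwards [self_mem_nhdsWithin] with s hs h0
      simp only [Pi.add_apply, Pi.smul_apply, iv_apply, smul_eq_mul] at h0
      exact mul_ne_zero hs h (by linear_combination h0 - hx)
    · exact subset_closure hx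

lemma floor_div_near {Q ε x s : ℝ} (hQ : 0 < Q) (h : 1 < ε * Q) (hs0 : 0 ≤ s) (hs1 : s < 1) :
    dist (((⌊Q * x⌋ : ℝ) + s) / Q) x < ε := by
  rw [Real.dist_eq, div_sub' hQ.ne', abs_div, abs_of_pos hQ, div_lt_iff₀ hQ, abs_lt]
  constructor <;> linarith [Int.floor_le (Q * x), Int.lt_floor_add_one (Q * x)]

theorem nonempty_data : Nonempty Data := by
  choose B hB0 hB using fun (n : ℕ) (p r q N : ℤ) => exists_bound _ (AB_contDiff p r q N n) n
  have hres : ∀ᶠ x : ℝ × ℝ × (Fin 3 → ℝ) in residual (ℝ × ℝ × (Fin 3 → ℝ)), ∀ nm : ℕ × ℕ,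
      ∃ p r q N : ℤ, Odd q ∧ |q * x.1 - p| < |q * x.2.1 - r| ∧
      8 * |q * (q * x.2.2 0 + p * x.2.2 1 + r * x.2.2 2) + N| < |q * x.2.1 - r| ∧
      |q * x.2.1 - r| * (1 + 3 * B nm.1 p r q N) < 1 / ((nm.2 : ℝ) + 1) := by
    rw [eventually_countable_forall]
    rintro ⟨n, m⟩
    refine residual_of_dense_open ?_ ?_
    · have : {x : ℝ × ℝ × (Fin 3 → ℝ) | ∃ p r q N : ℤ, Odd q ∧ |q * x.1 - p| < |q * x.2.1 - r| ∧
          8 * |q * (q * x.2.2 0 + p * x.2.2 1 + r * x.2.2 2) + N| < |q * x.2.1 - r| ∧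
          |q * x.2.1 - r| * (1 + 3 * B n p r q N) < 1 / ((m : ℝ) + 1)} =
          ⋃ p : ℤ, ⋃ r : ℤ, ⋃ q : ℤ, ⋃ N : ℤ, ⋃ _ : Odd q,
            {x : ℝ × ℝ × (Fin 3 → ℝ) | |q * x.1 - p| < |q * x.2.1 - r|} ∩
            ({x : ℝ × ℝ × (Fin 3 → ℝ) |
              8 * |q * (q * x.2.2 0 + p * x.2.2 1 + r * x.2.2 2) + N| < |q * x.2.1 - r|} ∩
            {x : ℝ × ℝ × (Fin 3 → ℝ) |
              |q * x.2.1 - r| * (1 + 3 * B n p r q N) < 1 / ((m : ℝ) + 1)}) := by
        ext x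
        simp only [mem_ofPred_eq, mem_iUnion, exists_prop, mem_inter_iff]
      change IsOpen {x : ℝ × ℝ × (Fin 3 → ℝ) | ∃ p r q N : ℤ, Odd q ∧
          |q * x.1 - p| < |q * x.2.1 - r| ∧
          8 * |q * (q * x.2.2 0 + p * x.2.2 1 + r * x.2.2 2) + N| < |q * x.2.1 - r| ∧
          |q * x.2.1 - r| * (1 + 3 * B n p r q N) < 1 / ((m : ℝ) + 1)}
      rw [this]
      exact isOpen_iUnion fun p => isOpen_iUnion fun r => isOpen_iUnion fun q =>
        isOpen_iUnion fun N => isOpen_iUnion fun _ => (isOpen_lt (by fun_prop) (by fun_prop)).inter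
          ((isOpen_lt (by fun_prop) (by fun_prop)).inter (isOpen_lt (by fun_prop) continuous_const))
    · rw [Metric.dense_iff]
      rintro ⟨x, y, c⟩ ε hε
      obtain ⟨K, hK⟩ := exists_nat_one_div_lt (half_pos hε)
      set Q : ℝ := 2 * K + 1 with hQ
      have hK0 : (0 : ℝ) ≤ K := Nat.cast_nonneg K
      have hQ0 : 0 < Q := by positivity
      have hQε : 1 < ε * Q := by
        rw [div_lt_iff₀ (by positivity)] at hK
        nlinarith
      set N : ℤ := -((2 * K + 1) * ⌊Q * c 0⌋ + ⌊Q * x⌋ * ⌊Q * c 1⌋ + ⌊Q * y⌋ * ⌊Q * c 2⌋) with hN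
      set b := B n ⌊Q * x⌋ ⌊Q * y⌋ (2 * K + 1) N with hb
      have hb0 : 0 ≤ b := hB0 _ _ _ _ _
      set s : ℝ := 1 / (((m : ℝ) + 2) * (1 + 3 * b)) with hs
      have hm0 : (0 : ℝ) ≤ m := Nat.cast_nonneg m
      have hs0 : 0 < s := by positivity
      have hs1 : s < 1 := by
        rw [hs, div_lt_one (by positivity)]
        nlinarith
      have e1 : ((2 * K + 1 : ℤ) : ℝ) = Q := by
        rw [hQ]
        push_cast
        rfl
      have e2 : Q * (((⌊Q * y⌋ : ℝ) + s) / Q) - ⌊Q * y⌋ = s := by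
        rw [mul_div_cancel₀ _ hQ0.ne', add_sub_cancel_left]
      refine ⟨(((⌊Q * x⌋ : ℝ) + 0) / Q, ((⌊Q * y⌋ : ℝ) + s) / Q,
        fun i => ((⌊Q * c i⌋ : ℝ) + 0) / Q), ?_, ⌊Q * x⌋, ⌊Q * y⌋, 2 * K + 1, N,
        odd_two_mul_add_one _, ?_, ?_, ?_⟩
      · rw [Metric.mem_ball, Prod.dist_eq, Prod.dist_eq, max_lt_iff, max_lt_iff, dist_pi_lt_iff hε]
        exact ⟨floor_div_near hQ0 hQε le_rfl one_pos, floor_div_near hQ0 hQε hs0.le hs1,
          fun i => floor_div_near hQ0 hQε le_rfl one_pos⟩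
      · rw [e1, e2, mul_div_cancel₀ _ hQ0.ne', add_zero, sub_self, abs_zero]
        exact abs_pos.2 hs0.ne'
      · rw [e1, e2]
        have : Q * (Q * (((⌊Q * c 0⌋ : ℝ) + 0) / Q) + ⌊Q * x⌋ * (((⌊Q * c 1⌋ : ℝ) + 0) / Q) +
            ⌊Q * y⌋ * (((⌊Q * c 2⌋ : ℝ) + 0) / Q)) + N = 0 := by
          rw [hN]
          push_cast
          rw [← hQ]
          field_simp
          ring
        rw [this, abs_zero, mul_zero]
        exact abs_pos.2 hs0.ne'
      · rw [← hb, e1, e2, abs_of_pos hs0, hs, div_mul_eq_mul_div, one_mul,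
          div_lt_div_iff₀ (by positivity) (by positivity)]
        nlinarith
  obtain ⟨⟨β, γ, c⟩, hind, hL⟩ := (dense_of_mem_residual (residual_indep.and hres)).nonempty
  have hL' : ∀ (n : ℕ) (e : ℝ), 0 < e → ∃ t : ℤ × ℤ × ℤ × ℤ, (Odd t.2.2.1 ∧
      |t.2.2.1 * β - t.1| < |t.2.2.1 * γ - t.2.1| ∧
      8 * |t.2.2.1 * (t.2.2.1 * c 0 + t.1 * c 1 + t.2.1 * c 2) + t.2.2.2| < |t.2.2.1 * γ - t.2.1|) ∧
      |t.2.2.1 * γ - t.2.1| * (1 + 3 * B n t.1 t.2.1 t.2.2.1 t.2.2.2) ≤ e := fun n e he => by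
    obtain ⟨m, hm⟩ := exists_nat_one_div_lt he
    obtain ⟨p, r, q, N, hq, h1, h2, h3⟩ := hL (n, m)
    exact ⟨(p, r, q, N), ⟨hq, h1, h2⟩, (h3.trans hm).le⟩
  choose F hF1 hF2 using hL'
  let P : Type := {t : ℤ × ℤ × ℤ × ℤ // Odd t.2.2.1 ∧
      |t.2.2.1 * β - t.1| < |t.2.2.1 * γ - t.2.1| ∧
      8 * |t.2.2.1 * (t.2.2.1 * c 0 + t.1 * c 1 + t.2.1 * c 2) + t.2.2.2| < |t.2.2.1 * γ - t.2.1|}
  let step : ℕ → P → P := fun n x =>
    ⟨F (n + 1) (|x.1.2.2.1 * γ - x.1.2.1| / 2) (half_pos ((abs_nonneg _).trans_lt x.2.2.1)),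
      hF1 _ _ _⟩
  let s : ℕ → P := fun n => Nat.rec ⟨F 0 (1 / 4) (by norm_num), hF1 _ _ _⟩ step n
  exact ⟨{ β := β
           γ := γ
           c := c
           p := fun n => (s n).1.1
           r := fun n => (s n).1.2.1
           q := fun n => (s n).1.2.2.1
           N := fun n => (s n).1.2.2.2
           B := fun n => B n (s n).1.1 (s n).1.2.1 (s n).1.2.2.1 (s n).1.2.2.2
           hind := hind
           hq := fun n => (s n).2.1
           hlt := fun n => (s n).2.2.1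
           hlt' := fun n => (s n).2.2.2
           hB0 := fun n => hB0 _ _ _ _ _
           hB := fun n => hB _ _ _ _ _
           h0 := hF2 _ _ _
           hs := fun n => hF2 _ _ _ }⟩

namespace Data

variable (D : Data)

/-- The generator of the flow. -/
def X : G := (![1, D.β, D.γ], D.c)

/-- The first small divisors. -/
noncomputable def κ (n : ℕ) : ℝ := ξ (D.p n) (D.q n) D.X

/-- The second small divisors. -/
noncomputable def δ (n : ℕ) : ℝ := η (D.r n) (D.q n) D.X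

/-- The third small divisors. -/
noncomputable def σ (n : ℕ) : ℝ := ρ (D.p n) (D.r n) (D.q n) (D.N n) D.X

lemma κ_eq (n : ℕ) : D.κ n = D.q n * D.β - D.p n := by simp [κ, ξ, X]

lemma δ_eq (n : ℕ) : D.δ n = D.q n * D.γ - D.r n := by simp [δ, η, X]

lemma κ_lt (n : ℕ) : |D.κ n| < |D.δ n| := by
  rw [κ_eq, δ_eq]
  exact D.hlt n

lemma σ_lt (n : ℕ) : 8 * |D.σ n| < |D.δ n| := by
  rw [δ_eq]
  simpa [σ, ρ, X] using D.hlt' n

lemma δ_ne (n : ℕ) : D.δ n ≠ 0 := abs_pos.1 ((abs_nonneg _).trans_lt (D.κ_lt n))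

lemma q_ne (n : ℕ) : D.q n ≠ 0 := fun h => by
  have := D.hq n
  rw [h] at this
  simp at this

lemma δ_succ (n : ℕ) : |D.δ (n + 1)| * (1 + 3 * D.B (n + 1)) ≤ |D.δ n| / 2 := by
  rw [δ_eq, δ_eq]
  exact D.hs n

lemma δ_le (n : ℕ) : |D.δ n| ≤ |D.δ n| * (1 + 3 * D.B n) :=
  le_mul_of_one_le_right (abs_nonneg _) (by linarith [D.hB0 n])

lemma δ_tail (n k : ℕ) :
    |D.δ (k + (n + 1))| * (1 + 3 * D.B (k + (n + 1))) ≤ |D.δ n| / 2 * (1 / 2) ^ k := by
  induction k with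
  | zero => simpa using D.δ_succ n
  | succ k ih =>
    have h1 := D.δ_succ (k + (n + 1))
    have h2 := D.δ_le (k + (n + 1))
    rw [show k + 1 + (n + 1) = k + (n + 1) + 1 by ring, pow_succ]
    linarith

lemma δ_bound (n : ℕ) : |D.δ n| * (1 + 3 * D.B n) ≤ 1 / 4 * (1 / 2) ^ n := by
  induction n with
  | zero =>
    rw [pow_zero, mul_one, δ_eq]
    exact D.h0
  | succ k ih =>
    have h1 := D.δ_succ k
    have h2 := D.δ_le k
    rw [pow_succ]
    linarith

/-- The terms of the series defining the time-change. -/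
noncomputable def aa (n : ℕ) : G → ℝ := da (D.p n) (D.r n) (D.q n) (D.N n) n D.X

lemma aa_contDiff (n : ℕ) : ContDiff ℝ ∞ (D.aa n) := da_contDiff _ _ _ _ _ _

lemma aa_deriv_le (n k : ℕ) (hk : k ≤ n) (g : G) :
    ‖iteratedFDeriv ℝ k (fun g => bump g * D.aa n g) g‖ ≤ |D.δ n| * (1 + 3 * D.B n) := by
  let L : ℝ × ℝ × ℝ →L[ℝ] ℝ := D.κ n • ContinuousLinearMap.fst ℝ ℝ (ℝ × ℝ) +
    (D.δ n • ContinuousLinearMap.fst ℝ ℝ ℝ + D.σ n • ContinuousLinearMap.snd ℝ ℝ ℝ).comp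
      (ContinuousLinearMap.snd ℝ ℝ (ℝ × ℝ))
  have h3 : ∀ v, L v = D.κ n * v.1 + D.δ n * v.2.1 + D.σ n * v.2.2 := fun v => by
    simp [L, add_assoc]
  have hL : ‖L‖ ≤ 3 * |D.δ n| := by
    refine ContinuousLinearMap.opNorm_le_bound _ (by positivity) fun v => ?_
    have h1 : |v.1| ≤ ‖v‖ := norm_fst_le v
    have h2 : |v.2.1| ≤ ‖v‖ := (norm_fst_le v.2).trans (norm_snd_le v)
    have h2' : |v.2.2| ≤ ‖v‖ := (norm_snd_le v.2).trans (norm_snd_le v)
    rw [h3, Real.norm_eq_abs]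
    refine (abs_add_three _ _ _).trans ?_
    rw [abs_mul, abs_mul, abs_mul]
    have h4 := mul_le_mul (D.κ_lt n).le h1 (abs_nonneg _) (abs_nonneg _)
    have h5 := mul_le_mul_of_nonneg_left h2 (abs_nonneg (D.δ n))
    have h6 := mul_le_mul (show |D.σ n| ≤ |D.δ n| by linarith [D.σ_lt n, abs_nonneg (D.σ n)]) h2'
      (abs_nonneg _) (abs_nonneg _)
    linarith
  have e : (fun g => bump g * D.aa n g) =
      L ∘ fun g => bump g • AB (D.p n) (D.r n) (D.q n) (D.N n) n g := by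
    ext g
    simp only [aa, da, h3, κ, δ, σ, Function.comp_apply, Prod.smul_fst, Prod.smul_snd, smul_eq_mul]
    ring
  rw [e]
  refine (L.norm_iteratedFDeriv_comp_left (N := ∞)
    (bump.contDiff.smul (AB_contDiff _ _ _ _ _)).contDiffAt (by exact_mod_cast le_top)).trans ?_
  refine (mul_le_mul hL (D.hB n k hk g) (norm_nonneg _) (by positivity)).trans ?_
  nlinarith [abs_nonneg (D.δ n)]

lemma aa_lattice (n : ℕ) (a c : Fin 3 → ℤ) (g : G) : D.aa n (gmul (iv a, iv c) g) = D.aa n g :=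
  da_lattice _ _ _ _ _ _ _ _ _

lemma bump_eq_one {g : G} (hg : g ∈ Metric.ball (0 : G) 2) : bump g = 1 :=
  bump.one_of_mem_closedBall (Metric.ball_subset_closedBall hg)

lemma aa_le (n : ℕ) (g : G) : |D.aa n g| ≤ |D.δ n| * (1 + 3 * D.B n) := by
  obtain ⟨a, c, h⟩ := exists_fund g
  have := D.aa_deriv_le n 0 (Nat.zero_le _) (gmul (iv a, iv c) g)
  rwa [norm_iteratedFDeriv_zero, Real.norm_eq_abs, bump_eq_one h, one_mul, aa_lattice] at this

lemma aa_le' (n : ℕ) (g : G) : |D.aa n g| ≤ 1 / 4 * (1 / 2) ^ n :=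
  (D.aa_le n g).trans (D.δ_bound n)

lemma geo_summable : Summable fun n : ℕ => (1 / 4 : ℝ) * (1 / 2) ^ n :=
  summable_geometric_two.mul_left _

lemma aa_summable (g : G) : Summable fun n => D.aa n g :=
  Summable.of_norm_bounded geo_summable (fun n => D.aa_le' n g)

/-- The time-change function on `G`. -/
noncomputable def αt (g : G) : ℝ := 1 + ∑' n, D.aa n g

lemma αt_lattice (a c : Fin 3 → ℤ) (g : G) : D.αt (gmul (iv a, iv c) g) = D.αt g := by
  simp only [αt, aa_lattice]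

lemma αt_contDiff : ContDiff ℝ ∞ D.αt := by
  have h1 : ContDiff ℝ ∞ fun g => 1 + ∑' n, bump g * D.aa n g := by
    refine contDiff_const.add (contDiff_tsum_of_eventually (N := (⊤ : ℕ∞))
      (v := fun _ n => (1 / 4 : ℝ) * (1 / 2) ^ n) (fun n => bump.contDiff.mul (D.aa_contDiff n))
      (fun _ _ => geo_summable) (fun k _ => ?_))
    rw [Nat.cofinite_eq_atTop]
    filter_upwards [eventually_ge_atTop k] with n hn v
    exact (D.aa_deriv_le n k hn v).trans (D.δ_bound n)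
  refine contDiff_iff_contDiffAt.2 fun g => ?_
  obtain ⟨a, c, h⟩ := exists_fund g
  refine (h1.comp (contDiff_gmul_left (iv a, iv c))).contDiffAt.congr_of_eventuallyEq ?_
  filter_upwards [((contDiff_gmul_left (iv a, iv c)).continuous.tendsto g).eventually
    (Metric.isOpen_ball.mem_nhds h)] with u hu
  rw [Function.comp_apply, bump_eq_one hu, ← D.αt_lattice a c]
  simp only [one_mul, αt]

lemma abs_tsum_aa_le (g : G) : |∑' n, D.aa n g| ≤ 1 / 2 := by
  have h := tsum_of_norm_bounded (f := fun n => D.aa n g) (geo_summable.hasSum)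
    (fun n => D.aa_le' n g)
  rw [tsum_mul_left, tsum_geometric_two, Real.norm_eq_abs] at h
  linarith

/-- The time-change function on `M`. -/
noncomputable def α : Nil → ℝ := Quotient.lift D.αt (by
  rintro g h ⟨a, c, rfl⟩
  exact (D.αt_lattice a c g).symm)

lemma α_proj (g : G) : D.α (proj g) = D.αt g := rfl

lemma α_contDiff : ContDiff ℝ ∞ (D.α ∘ proj) := D.αt_contDiff

lemma α_continuous : Continuous D.α := by
  rw [isQuotientMap_proj.continuous_iff]
  exact D.α_contDiff.continuous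

lemma α_bounds (m : Nil) : 1 / 2 ≤ D.α m ∧ D.α m ≤ 3 / 2 := by
  obtain ⟨v, rfl⟩ := proj_surjective m
  have := abs_le.1 (D.abs_tsum_aa_le v)
  rw [α_proj, αt]
  constructor <;> linarith

lemma α_odd (m : Nil) : D.α (rmul (0, z₀) m) = 2 - D.α m := by
  obtain ⟨g, rfl⟩ := proj_surjective m
  have : ∀ n, D.aa n (gmul g (0, z₀)) = -D.aa n g := fun n => da_odd _ _ _ _ (D.hq n) _ _ _
  rw [rmul_proj, α_proj, α_proj, αt, αt]
  simp only [this, tsum_neg]
  ring

/-- The flow. -/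
noncomputable abbrev φ : ℝ → Nil → Nil := nilflow D.X

lemma φ_proj (s : ℝ) (g : G) : D.φ s (proj g) = proj (gmul g (s • D.X)) := rfl

/-- The transfer functions. -/
noncomputable def g (n : ℕ) : Nil → ℝ := uu (D.p n) (D.r n) (D.q n) (D.N n) n

lemma g_flow (n : ℕ) (t : ℝ) (v : G) :
    D.g n (D.φ t (proj v)) - D.g n (proj v) =
      ∫ s in (0 : ℝ)..t, D.aa n (gmul v (s • D.X)) := by
  have hc : Continuous fun s : ℝ => D.aa n (gmul v (s • D.X)) :=
    (D.aa_contDiff n).continuous.comp (by fun_prop)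
  rw [aa] at hc ⊢
  rw [intervalIntegral.integral_eq_sub_of_hasDerivAt (fun s _ => uu_hasDerivAt _ _ _ _ n D.X v s)
    (hc.intervalIntegrable _ _), zero_smul, gmul_zero]
  rfl

lemma g_flow_le (n : ℕ) (t : ℝ) (m : Nil) :
    |D.g n (D.φ t m) - D.g n m| ≤ |D.δ n| * (1 + 3 * D.B n) * |t| := by
  obtain ⟨v, rfl⟩ := proj_surjective m
  rw [g_flow]
  have := intervalIntegral.norm_integral_le_of_norm_le_const (a := 0) (b := t)
    (f := fun s => D.aa n (gmul v (s • D.X))) (fun s _ => D.aa_le n _)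
  rwa [sub_zero] at this

lemma α_flow_continuous (m : Nil) : Continuous fun s => D.α (D.φ s m) := by
  obtain ⟨v, rfl⟩ := proj_surjective m
  exact D.αt_contDiff.continuous.comp (f := fun s : ℝ => gmul v (s • D.X)) (by fun_prop)

lemma hasSum_g (t : ℝ) (m : Nil) :
    HasSum (fun n => D.g n (D.φ t m) - D.g n m) (clock D.φ D.α m t - t) := by
  have e : clock D.φ D.α m t - t = ∫ s in (0 : ℝ)..t, (D.α (D.φ s m) - 1) := by
    rw [intervalIntegral.integral_sub ((D.α_flow_continuous m).intervalIntegrable _ _)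
      intervalIntegrable_const, clock]
    simp
  rw [e]
  obtain ⟨v, rfl⟩ := proj_surjective m
  simp only [g_flow]
  refine intervalIntegral.hasSum_integral_of_dominated_convergence
    (fun n _ => (1 / 4 : ℝ) * (1 / 2) ^ n) (fun n => ?_)
    (fun n => Eventually.of_forall fun s _ => D.aa_le' n _)
    (Eventually.of_forall fun s _ => geo_summable) intervalIntegrable_const
    (Eventually.of_forall fun s _ => ?_)
  · exact Continuous.aestronglyMeasurable ((D.aa_contDiff n).continuous.comp (by fun_prop))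
  · rw [φ_proj, α_proj, αt, add_sub_cancel_left]
    exact (D.aa_summable _).hasSum

end Data

end Pool.Agent.P.MP_442888_an.Free
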