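import Pool.Agent.P.MP_442888_an.FreeAbstract

/-!
Measurable coordinates on the free 2-step nilmanifold and invariance of Haar measure.
-/

set_option autoImplicit false

open MeasureTheory Filter Topology Set

namespace Pool.Agent.P.MP_442888_an.Free

/-- The three-dimensional torus. -/
abbrev T3 : Type := Fin 3 → UnitAddCircle

/-- Integer vectors as real vectors. -/
def iv (a : Fin 3 → ℤ) : Fin 3 → ℝ := fun i => (a i : ℝ)

@[simp] lemma iv_apply (a : Fin 3 → ℤ) (i : Fin 3) : iv a i = (a i : ℝ) := rfl

lemma proj_surjective : Function.Surjective proj := Quotient.mk_surjective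

lemma proj_eq_iff (g h : G) : proj g = proj h ↔ ∃ a c : Fin 3 → ℤ, h = gmul (iv a, iv c) g :=
  Quotient.eq (r := latticeSetoid)

lemma proj_lattice (a c : Fin 3 → ℤ) (g : G) : proj (gmul (iv a, iv c) g) = proj g :=
  ((proj_eq_iff _ _).2 ⟨a, c, rfl⟩).symm

lemma continuous_proj : Continuous proj := continuous_quotient_mk'

lemma isQuotientMap_proj : IsQuotientMap proj := isQuotientMap_quotient_mk'

@[fun_prop] lemma continuous_cross {X : Type} [TopologicalSpace X] {f g : X → Fin 3 → ℝ}
    (hf : Continuous f) (hg : Continuous g) : Continuous fun x => crossProduct (f x) (g x) := by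
  refine continuous_pi fun i => ?_
  fin_cases i
  · simp only [Fin.zero_eta, cross0]; fun_prop
  · simp only [Fin.mk_one, cross1]; fun_prop
  · simp only [Fin.reduceFinMk, cross2]; fun_prop

@[fun_prop] lemma measurable_cross {X : Type} [MeasurableSpace X] {f g : X → Fin 3 → ℝ}
    (hf : Measurable f) (hg : Measurable g) : Measurable fun x => crossProduct (f x) (g x) := by
  refine measurable_pi_lambda _ fun i => ?_
  fin_cases i
  · simp only [Fin.zero_eta, cross0]; fun_prop
  · simp only [Fin.mk_one, cross1]; fun_prop
  · simp only [Fin.reduceFinMk, cross2]; fun_prop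

@[fun_prop] lemma continuous_gmul {X : Type} [TopologicalSpace X] {f g : X → G}
    (hf : Continuous f) (hg : Continuous g) : Continuous fun x => gmul (f x) (g x) := by
  unfold gmul
  fun_prop

lemma isOpenMap_proj : IsOpenMap proj := by
  intro U hU
  rw [← isQuotientMap_proj.isOpen_preimage]
  have : proj ⁻¹' (proj '' U) =
      ⋃ a : Fin 3 → ℤ, ⋃ c : Fin 3 → ℤ, (fun g => gmul (iv a, iv c) g) ⁻¹' U := by
    ext g
    simp only [mem_preimage, mem_image, mem_iUnion]
    constructor
    · rintro ⟨h, hU, hh⟩
      obtain ⟨a, c, rfl⟩ := (proj_eq_iff _ _).1 hh.symm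
      exact ⟨a, c, hU⟩
    · rintro ⟨a, c, hU⟩
      exact ⟨_, hU, proj_lattice a c g⟩
  rw [this]
  exact isOpen_iUnion fun a => isOpen_iUnion fun c => hU.preimage (by fun_prop)

lemma injOn_proj (c : G) : InjOn proj (Metric.ball c (1 / 2)) := by
  intro g hg h hh e
  obtain ⟨a, b, rfl⟩ := (proj_eq_iff _ _).1 e
  have hd : dist (gmul (iv a, iv b) g) g < 1 := by
    rw [Metric.mem_ball] at hg hh
    linarith [dist_triangle_right (gmul (iv a, iv b) g) g c]
  rw [Prod.dist_eq, max_lt_iff, dist_pi_lt_iff one_pos, dist_pi_lt_iff one_pos] at hd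
  have ha : a = 0 := funext fun i => by
    have := hd.1 i
    simp only [gmul, Pi.add_apply, iv_apply, Real.dist_eq, add_sub_cancel_right] at this
    have h2 : |a i| < 1 := by exact_mod_cast this
    exact Int.abs_lt_one_iff.1 h2
  have ha' : iv a = 0 := by
    rw [ha]
    ext i
    simp
  have hb : b = 0 := funext fun i => by
    have := hd.2 i
    simp only [gmul, ha', map_zero, LinearMap.zero_apply, add_zero, Pi.add_apply, iv_apply,
      Real.dist_eq, add_sub_cancel_right] at this
    have h2 : |b i| < 1 := by exact_mod_cast this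
    exact Int.abs_lt_one_iff.1 h2
  have hb' : iv b = 0 := by
    rw [hb]
    ext i
    simp
  rw [ha', hb']
  exact (zero_gmul g).symm

lemma measurable_of_comp_proj {Y : Type} [MeasurableSpace Y] {f : Nil → Y}
    (hf : Measurable (f ∘ proj)) : Measurable f := by
  intro T hT
  have e : f ⁻¹' T = ⋃ n : ℕ, (Metric.ball (TopologicalSpace.denseSeq G n) (1 / 2)).domRestrict proj ''
      (Subtype.val ⁻¹' ((f ∘ proj) ⁻¹' T)) := by
    ext m
    simp only [mem_preimage, mem_iUnion, mem_image, Function.comp_apply]
    constructor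
    · intro hm
      obtain ⟨g, rfl⟩ := proj_surjective m
      obtain ⟨n, hn⟩ := (TopologicalSpace.denseRange_denseSeq G).exists_dist_lt g
        (by norm_num : (0 : ℝ) < 1 / 2)
      exact ⟨n, ⟨g, hn⟩, hm, rfl⟩
    · rintro ⟨n, g, hg, rfl⟩
      exact hg
  rw [e]
  refine MeasurableSet.iUnion fun n => ?_
  have h1 : IsOpenEmbedding ((Metric.ball (TopologicalSpace.denseSeq G n) (1 / 2)).domRestrict proj) :=
    IsOpenEmbedding.of_continuous_injective_isOpenMap
      (continuous_proj.comp continuous_subtype_val) (injOn_iff_injective.1 (injOn_proj _))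
      (isOpenMap_proj.comp Metric.isOpen_ball.isOpenMap_subtype_val)
  exact h1.measurableEmbedding.measurableSet_image.2 (measurable_subtype_coe (hf hT))

lemma rmul_proj (g h : G) : rmul g (proj h) = proj (gmul h g) := rfl

lemma continuous_rmul (g : G) : Continuous (rmul g) := by
  rw [isQuotientMap_proj.continuous_iff]
  exact continuous_proj.comp (f := fun h => gmul h g) (by fun_prop)

lemma measurable_rmul (g : G) : Measurable (rmul g) := (continuous_rmul g).measurable

lemma rmul_rmul (g h : G) (m : Nil) : rmul h (rmul g m) = rmul (gmul g h) m := by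
  obtain ⟨k, rfl⟩ := proj_surjective m
  rw [rmul_proj, rmul_proj, rmul_proj, gmul_assoc]

lemma rmul_central (z : Fin 3 → ℝ) (g : G) (m : Nil) :
    rmul g (rmul (0, z) m) = rmul (0, z) (rmul g m) := by
  rw [rmul_rmul, rmul_rmul, gmul_central]

/-- Reduction modulo `ℤ³`. -/
def mk3 (x : Fin 3 → ℝ) : T3 := fun i => (x i : UnitAddCircle)

lemma mk3_add (x y : Fin 3 → ℝ) : mk3 (x + y) = mk3 x + mk3 y := by
  ext i
  simp [mk3]

lemma mk3_add_iv (x : Fin 3 → ℝ) (a : Fin 3 → ℤ) : mk3 (x + iv a) = mk3 x :=
  funext fun i => coe_add_int (x i) (a i)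

lemma continuous_mk3 : Continuous mk3 :=
  continuous_pi fun i => continuous_coe_circle.comp (continuous_apply i)

/-- Componentwise integer part. -/
noncomputable def fl (x : Fin 3 → ℝ) : Fin 3 → ℤ := fun i => ⌊x i⌋

lemma measurable_iv_fl : Measurable fun x => iv (fl x) :=
  measurable_pi_lambda _ fun i =>
    (measurable_from_top (f := fun n : ℤ => (n : ℝ))).comp (measurable_pi_apply i).floor

lemma fl_iv_add (a : Fin 3 → ℤ) (x : Fin 3 → ℝ) : fl (iv a + x) = a + fl x := by
  ext i
  simp [fl]

/-- The torus coordinates. -/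
noncomputable def cx : Nil → T3 :=
  Quotient.lift (fun g : G => mk3 g.1) (by
    rintro g h ⟨a, c, rfl⟩
    exact ((congrArg mk3 (add_comm _ _)).trans (mk3_add_iv g.1 a)).symm)

/-- The central coordinates. -/
noncomputable def cz : Nil → T3 :=
  Quotient.lift (fun g : G => mk3 (g.2 - crossProduct (iv (fl g.1)) g.1)) (by
    rintro g h ⟨a, c, rfl⟩
    rw [← mk3_add_iv _ (c - crossProduct (fl g.1) a)]
    congr 1
    have e : fl (gmul (fun i => (a i : ℝ), fun i => (c i : ℝ)) g).1 = a + fl g.1 :=
      fl_iv_add a g.1
    rw [e]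
    ext i
    fin_cases i <;> simp [gmul, cross0, cross1, cross2] <;> ring)

lemma cx_proj (g : G) : cx (proj g) = mk3 g.1 := rfl

lemma cz_proj (g : G) : cz (proj g) = mk3 (g.2 - crossProduct (iv (fl g.1)) g.1) := rfl

lemma continuous_cx : Continuous cx := by
  rw [isQuotientMap_proj.continuous_iff]
  exact continuous_mk3.comp continuous_fst

lemma measurable_cz : Measurable cz :=
  measurable_of_comp_proj (continuous_mk3.measurable.comp
    (measurable_snd.sub (measurable_cross (measurable_iv_fl.comp measurable_fst) measurable_fst)))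

lemma cx_rmul (g : G) (m : Nil) : cx (rmul g m) = cx m + mk3 g.1 := by
  obtain ⟨h, rfl⟩ := proj_surjective m
  rw [rmul_proj, cx_proj, cx_proj, ← mk3_add]
  rfl

lemma cz_rmul_central (z : Fin 3 → ℝ) (m : Nil) : cz (rmul (0, z) m) = cz m + mk3 z := by
  obtain ⟨h, rfl⟩ := proj_surjective m
  rw [rmul_proj, cz_proj, cz_proj, ← mk3_add]
  congr 1
  simp only [gmul, add_zero, map_zero]
  abel

/-- The representative in `[0,1)` of a point of the circle. -/
noncomputable def rep (θ : UnitAddCircle) : ℝ := (AddCircle.measurableEquivIco (1 : ℝ) 0 θ : ℝ)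

lemma measurable_rep : Measurable rep :=
  measurable_subtype_coe.comp (AddCircle.measurableEquivIco (1 : ℝ) 0).measurable

lemma rep_coe (x : ℝ) : rep (x : UnitAddCircle) = Int.fract x := by
  have := AddCircle.coe_equivIco_mk_apply (p := (1 : ℝ)) x
  rw [div_one, mul_one] at this
  exact this

lemma coe_fract (x : ℝ) : ((Int.fract x : ℝ) : UnitAddCircle) = (x : UnitAddCircle) :=
  (coe_eq_of_int ⌊x⌋ (by simp)).symm

lemma coe_rep (θ : UnitAddCircle) : ((rep θ : ℝ) : UnitAddCircle) = θ := by
  induction θ using QuotientAddGroup.induction_on with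
  | H x => rw [rep_coe, coe_fract]

lemma floor_rep (θ : UnitAddCircle) : ⌊rep θ⌋ = 0 := by
  induction θ using QuotientAddGroup.induction_on with
  | H x => rw [rep_coe, Int.floor_fract]

/-- The representative in the unit cube of a point of the torus. -/
noncomputable def rep3 (θ : T3) : Fin 3 → ℝ := fun i => rep (θ i)

lemma measurable_rep3 : Measurable rep3 :=
  measurable_pi_lambda _ fun i => measurable_rep.comp (measurable_pi_apply i)

lemma rep3_mk3 (x : Fin 3 → ℝ) : rep3 (mk3 x) = x - iv (fl x) := funext fun i => rep_coe (x i)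

lemma mk3_rep3 (θ : T3) : mk3 (rep3 θ) = θ := funext fun i => coe_rep (θ i)

lemma iv_fl_rep3 (θ : T3) : iv (fl (rep3 θ)) = 0 := funext fun i => by
  simp [fl, rep3, floor_rep]

/-- Measurable coordinates. -/
noncomputable def coord (m : Nil) : T3 × T3 := (cx m, cz m)

/-- The inverse of `coord`. -/
noncomputable def sec (t : T3 × T3) : Nil := proj (rep3 t.1, rep3 t.2)

lemma measurable_coord : Measurable coord := continuous_cx.measurable.prodMk measurable_cz

lemma measurable_sec : Measurable sec :=
  continuous_proj.measurable.comp ((measurable_rep3.comp measurable_fst).prodMk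
    (measurable_rep3.comp measurable_snd))

lemma sec_coord (m : Nil) : sec (coord m) = m := by
  obtain ⟨⟨x, z⟩, rfl⟩ := proj_surjective m
  simp only [sec, coord, cx_proj, cz_proj, rep3_mk3]
  rw [proj_eq_iff]
  refine ⟨fl x, fl (z - crossProduct (iv (fl x)) x), ?_⟩
  apply G_ext <;> simp [gmul, cross0, cross1, cross2]

lemma coord_sec (t : T3 × T3) : coord (sec t) = t := by
  obtain ⟨a, b⟩ := t
  simp only [sec, coord, cx_proj, cz_proj, iv_fl_rep3, map_zero, LinearMap.zero_apply, sub_zero,
    mk3_rep3]

lemma measurePreserving_coe_Ico : MeasurePreserving (fun x : ℝ => (x : UnitAddCircle))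
    (volume.restrict (Ico 0 1)) volume := by
  have h := UnitAddCircle.measurePreserving_mk 0
  rw [zero_add, ← Measure.restrict_congr_set Ico_ae_eq_Ioc] at h
  exact h

instance : IsProbabilityMeasure (volume : Measure UnitAddCircle) :=
  ⟨UnitAddCircle.measure_univ⟩

lemma measurableSet_cube : MeasurableSet cube := MeasurableSet.univ_pi fun _ => measurableSet_Ico

lemma measurePreserving_mk3 : MeasurePreserving mk3 (volume.restrict cube) volume := by
  have h := measurePreserving_pi (fun _ : Fin 3 => volume.restrict (Ico (0 : ℝ) 1))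
    (fun _ : Fin 3 => (volume : Measure UnitAddCircle)) fun _ => measurePreserving_coe_Ico
  rw [← Measure.restrict_pi_pi] at h
  exact h

lemma rep3_mk3_of_mem {x : Fin 3 → ℝ} (hx : x ∈ cube) : rep3 (mk3 x) = x := funext fun i => by
  rw [rep3, mk3, rep_coe, Int.fract_eq_self.2 (hx i trivial)]

lemma haar_eq : haar = Measure.map sec volume := by
  have h := measurePreserving_mk3.prod measurePreserving_mk3
  rw [Measure.prod_restrict, ← Measure.volume_eq_prod, ← Measure.volume_eq_prod] at h
  rw [← h.map_eq, Measure.map_map measurable_sec h.measurable, haar]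
  refine Measure.map_congr ?_
  filter_upwards [ae_restrict_mem (measurableSet_cube.prod measurableSet_cube)] with v hv
  obtain ⟨x, z⟩ := v
  simp only [Function.comp_apply, sec, Prod.map]
  rw [rep3_mk3_of_mem hv.1, rep3_mk3_of_mem hv.2]

instance : IsProbabilityMeasure haar := by
  rw [haar_eq]
  exact Measure.isProbabilityMeasure_map measurable_sec.aemeasurable

lemma measurePreserving_sec : MeasurePreserving sec volume haar := ⟨measurable_sec, haar_eq.symm⟩

lemma measurePreserving_coord : MeasurePreserving coord haar volume := by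
  refine ⟨measurable_coord, ?_⟩
  rw [haar_eq, Measure.map_map measurable_coord measurable_sec]
  have : coord ∘ sec = id := funext coord_sec
  rw [this, Measure.map_id]

/-- `haar` is invariant under all right translations. -/
theorem measurePreserving_rmul (g : G) : MeasurePreserving (rmul g) haar haar := by
  let φ : T3 → T3 := fun a => mk3 (g.2 + crossProduct (rep3 a) g.1 -
    crossProduct (iv (fl (rep3 a + g.1))) (rep3 a + g.1))
  have hφ : Measurable φ := by
    have h1 : Measurable fun a => rep3 a + g.1 := measurable_rep3.add_const _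
    exact continuous_mk3.measurable.comp ((measurable_const.add
      (measurable_cross measurable_rep3 measurable_const)).sub
        (measurable_cross (measurable_iv_fl.comp h1) h1))
  have outer := MeasurePreserving.skew_product (g := fun a b : T3 => b + φ a)
    (measurePreserving_add_right (volume : Measure T3) (mk3 g.1))
    (measurable_snd.add (hφ.comp measurable_fst))
    (Eventually.of_forall fun a => (measurePreserving_add_right (volume : Measure T3) (φ a)).map_eq)
  rw [← Measure.volume_eq_prod] at outer
  have h := measurePreserving_sec.comp (outer.comp measurePreserving_coord)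
  have e : rmul g = sec ∘ (fun p : T3 × T3 => (p.1 + mk3 g.1, p.2 + φ p.1)) ∘ coord := by
    ext m
    rw [← sec_coord (rmul g m), Function.comp_apply, Function.comp_apply]
    congr 1
    conv_lhs => rw [← sec_coord m]
    generalize coord m = t
    obtain ⟨a, b⟩ := t
    simp only [sec, rmul_proj, coord, cx_proj, cz_proj, gmul, φ]
    refine Prod.ext ?_ ?_
    · simp only [mk3_add, mk3_rep3]
    · dsimp only
      conv_rhs => rw [← mk3_rep3 b]
      rw [← mk3_add]
      exact congrArg _ (by abel)
  rw [e]
  exact h

end Pool.Agent.P.MP_442888_an.Free
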