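import Mathlib

/-!
The free 2-step nilmanifold on three generators, its nilflows, time-changes, mixing notions.
-/

set_option autoImplicit false

open MeasureTheory Filter Topology Set

namespace Pool.Agent.P.MP_442888_an.Free

/-- The underlying space `ℝ³ × ℝ³` of the free 2-step nilpotent Lie group on three generators. -/
abbrev G : Type := (Fin 3 → ℝ) × (Fin 3 → ℝ)

/-- The group law `(x, z) (x', z') = (x + x', z + z' + x × x')`. -/
def gmul (g h : G) : G := (g.1 + h.1, g.2 + h.2 + crossProduct g.1 h.1)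

theorem cross0 {R : Type} [CommRing R] (a b : Fin 3 → R) :
    crossProduct a b 0 = a 1 * b 2 - a 2 * b 1 := by simp [cross_apply]

theorem cross1 {R : Type} [CommRing R] (a b : Fin 3 → R) :
    crossProduct a b 1 = a 2 * b 0 - a 0 * b 2 := by simp [cross_apply]

theorem cross2 {R : Type} [CommRing R] (a b : Fin 3 → R) :
    crossProduct a b 2 = a 0 * b 1 - a 1 * b 0 := by simp [cross_apply]

theorem G_ext {g h : G} (h0 : g.1 0 = h.1 0) (h1 : g.1 1 = h.1 1) (h2 : g.1 2 = h.1 2)
    (h3 : g.2 0 = h.2 0) (h4 : g.2 1 = h.2 1) (h5 : g.2 2 = h.2 2) : g = h := by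
  ext i <;> fin_cases i <;> assumption

/-- `g ~ h` iff `h = γ g` for some `γ` in the lattice `Γ = ℤ³ × ℤ³` of integer points of `G`. -/
def latticeSetoid : Setoid G where
  r g h := ∃ a c : Fin 3 → ℤ, h = gmul (fun i => (a i : ℝ), fun i => (c i : ℝ)) g
  iseqv :=
    { refl := fun g => ⟨0, 0, by
        apply G_ext <;> simp [gmul, cross0, cross1, cross2]⟩
      symm := by
        rintro g h ⟨a, c, rfl⟩
        refine ⟨-a, -c, ?_⟩
        apply G_ext <;> simp [gmul, cross0, cross1, cross2] <;> ring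
      trans := by
        rintro g h k ⟨a, c, rfl⟩ ⟨a', c', rfl⟩
        refine ⟨a' + a, c' + c + crossProduct a' a, ?_⟩
        apply G_ext <;> simp [gmul, cross0, cross1, cross2] <;> ring }

/-- The nilmanifold `M = Γ \ G`. -/
def Nil : Type := Quotient latticeSetoid

/-- The quotient topology on `M`. -/
instance : TopologicalSpace Nil := inferInstanceAs (TopologicalSpace (Quotient latticeSetoid))

/-- The Borel sigma-algebra on `M`. -/
instance : MeasurableSpace Nil := borel Nil

instance : BorelSpace Nil := ⟨rfl⟩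

/-- The covering map `G → M`, `g ↦ Γ g`. -/
def proj (g : G) : Nil := Quotient.mk latticeSetoid g

/-- Right translation `Γ h ↦ Γ h g` on `M`. -/
def rmul (g : G) : Nil → Nil :=
  Quotient.map (fun h => gmul h g) (by
    rintro h h' ⟨a, c, rfl⟩
    refine ⟨a, c, ?_⟩
    apply G_ext <;> simp [gmul, cross0, cross1, cross2] <;> ring)

/-- The unit cube `[0,1)³`. -/
def cube : Set (Fin 3 → ℝ) := Set.pi univ fun _ => Ico (0 : ℝ) 1

/-- Normalised Haar measure on `M`: the image of Lebesgue measure (the Haar measure of `G` in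
these coordinates) on the fundamental domain `[0,1)³ × [0,1)³`. -/
noncomputable def haar : Measure Nil := (volume.restrict (cube ×ˢ cube)).map proj

/-- The nilflow `φ_t (Γ g) = Γ g exp (t X)`; in these coordinates `exp (t X) = t X`
(see `gmul_smul`). -/
noncomputable def nilflow (X : G) (t : ℝ) : Nil → Nil := rmul (t • X)

/-- `μ` is the one and only Borel probability measure invariant under the flow `φ`. -/
def UniquelyErgodic {M : Type} [MeasurableSpace M] (φ : ℝ → M → M) (μ : Measure M) : Prop :=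
  IsProbabilityMeasure μ ∧ (∀ t, MeasurePreserving (φ t) μ μ) ∧
    ∀ ν : Measure M, IsProbabilityMeasure ν → (∀ t, MeasurePreserving (φ t) ν ν) → ν = μ

/-- `ψ` is the flow generated by the vector field `X / α`, where `X` generates `φ`:
`ψ_τ p = φ_{h(τ,p)} p` with `h(0,p) = 0` and `∂h/∂τ (τ,p) = 1 / α (ψ_τ p)`. -/
def IsTimeChange {M : Type} (φ : ℝ → M → M) (α : M → ℝ) (ψ : ℝ → M → M) : Prop :=
  ∃ h : ℝ → M → ℝ, (∀ τ p, ψ τ p = φ (h τ p) p) ∧ (∀ p, h 0 p = 0) ∧
    ∀ τ p, HasDerivAt (fun σ => h σ p) (α (ψ τ p))⁻¹ τ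

/-- The probability measure proportional to `α dμ`. -/
noncomputable def timeChangeMeasure {M : Type} [MeasurableSpace M] (α : M → ℝ) (μ : Measure M) :
    Measure M :=
  (∫⁻ p, ENNReal.ofReal (α p) ∂μ)⁻¹ • μ.withDensity (fun p => ENNReal.ofReal (α p))

/-- `α` is measurably cohomologous to a constant. -/
def MeasurablyTrivial {M : Type} [MeasurableSpace M] (φ : ℝ → M → M) (μ : Measure M)
    (α : M → ℝ) : Prop :=
  ∃ (c : ℝ) (u : M → ℝ), AEMeasurable u μ ∧
    ∀ t : ℝ, ∀ᵐ p ∂μ, u (φ t p) - u p = ∫ s in (0 : ℝ)..t, (α (φ s p) - c)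

/-- `α` is measurably cohomologous to a function `β` invariant under the centre `{0} × ℝ³` of `G`,
that is, to a function lifted from the torus `T³ = M / [G, G]`. -/
def CohomologousToToral (φ : ℝ → Nil → Nil) (μ : Measure Nil) (α : Nil → ℝ) : Prop :=
  ∃ β u : Nil → ℝ, (∀ z p, β (rmul (0, z) p) = β p) ∧ AEMeasurable u μ ∧
    ∀ t : ℝ, ∀ᵐ p ∂μ,
      u (φ t p) - u p = (∫ s in (0 : ℝ)..t, α (φ s p)) - ∫ s in (0 : ℝ)..t, β (φ s p)

/-- Mixing: `ν (ψ_t A ∩ B) → ν A ν B`. -/
def Mixing {M : Type} [MeasurableSpace M] (ψ : ℝ → M → M) (ν : Measure M) : Prop :=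
  ∀ A B : Set M, MeasurableSet A → MeasurableSet B →
    Tendsto (fun t => ν.real (ψ t '' A ∩ B)) atTop (𝓝 (ν.real A * ν.real B))

/-- Weak mixing: `(1/t) ∫_0^t |ν (ψ_s A ∩ B) - ν A ν B| ds → 0` (Lebesgue integral of a
nonnegative function). -/
def WeaklyMixing {M : Type} [MeasurableSpace M] (ψ : ℝ → M → M) (ν : Measure M) : Prop :=
  ∀ A B : Set M, MeasurableSet A → MeasurableSet B →
    Tendsto (fun t : ℝ =>
      (∫⁻ s in Ioc 0 t, ENNReal.ofReal |ν.real (ψ s '' A ∩ B) - ν.real A * ν.real B|) /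
        ENNReal.ofReal t) atTop (𝓝 0)

/-! Sanity checks: `gmul` is a group law, nilpotent of step 2, and `t ↦ t X` is the one-parameter
subgroup with velocity `X`. -/

theorem gmul_assoc (g h k : G) : gmul (gmul g h) k = gmul g (gmul h k) := by
  apply G_ext <;> simp [gmul, cross0, cross1, cross2] <;> ring

theorem gmul_zero (g : G) : gmul g 0 = g := by simp [gmul]

theorem zero_gmul (g : G) : gmul 0 g = g := by simp [gmul]

theorem gmul_neg (g : G) : gmul g (-g) = 0 := by simp [gmul]

/-- The commutator `g h g⁻¹ h⁻¹` is the central element `(0, 2 x × x')`. -/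
theorem gmul_commutator (g h : G) :
    gmul (gmul (gmul g h) (-g)) (-h) = (0, (2 : ℝ) • crossProduct g.1 h.1) := by
  apply G_ext <;> simp [gmul, cross0, cross1, cross2] <;> ring

theorem gmul_central (z : Fin 3 → ℝ) (g : G) : gmul g (0, z) = gmul (0, z) g := by
  ext i <;> simp [gmul, add_comm]

theorem gmul_smul (X : G) (s t : ℝ) : gmul (s • X) (t • X) = (s + t) • X := by
  apply G_ext <;> simp [gmul, cross0, cross1, cross2] <;> ring

end Pool.Agent.P.MP_442888_an.Free
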