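import Pool.Agent.P.MP_442888_an.FreeCoord

/-!
Unique ergodicity of nilflows with rationally independent frequencies.
-/

set_option autoImplicit false

open MeasureTheory Filter Topology Set
open scoped ComplexConjugate InnerProductSpace

namespace Pool.Agent.P.MP_442888_an.Free

/-- The standard character of the circle. -/
noncomputable def ech (θ : UnitAddCircle) : ℂ := (AddCircle.toCircle θ : ℂ)

lemma ech_add (a b : UnitAddCircle) : ech (a + b) = ech a * ech b := by
  simp [ech, AddCircle.toCircle_add]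

lemma ech_zero : ech 0 = 1 := by simp [ech]

lemma norm_ech (a : UnitAddCircle) : ‖ech a‖ = 1 := Circle.norm_coe _

lemma conj_ech_mul (a : UnitAddCircle) : conj (ech a) * ech a = 1 := by
  rw [Complex.conj_mul', norm_ech]
  simp

lemma ech_half : ech ((1 / 2 : ℝ) : UnitAddCircle) = -1 := by
  rw [ech, AddCircle.toCircle_apply_mk, Circle.coe_exp, ← Complex.exp_pi_mul_I]
  congr 1
  push_cast
  ring

lemma continuous_ech : Continuous ech :=
  continuous_subtype_val.comp AddCircle.continuous_toCircle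

/-- Pairing of integer vectors with points of the torus. -/
noncomputable def dotc (n : Fin 3 → ℤ) (θ : T3) : UnitAddCircle := ∑ i, n i • θ i

lemma dotc_add (n : Fin 3 → ℤ) (a b : T3) : dotc n (a + b) = dotc n a + dotc n b := by
  simp [dotc, Finset.sum_add_distrib]

lemma dotc_mk3 (n : Fin 3 → ℤ) (x : Fin 3 → ℝ) :
    dotc n (mk3 x) = ((n 0 * x 0 + n 1 * x 1 + n 2 * x 2 : ℝ) : UnitAddCircle) := by
  simp only [dotc, mk3, Fin.sum_univ_three, AddCircle.coe_add, ← AddCircle.coe_zsmul, zsmul_eq_mul]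

lemma continuous_dotc (n : Fin 3 → ℤ) : Continuous (dotc n) :=
  continuous_finsetSum _ fun i _ => (continuous_apply i).zsmul _

lemma dotc_zero (θ : T3) : dotc 0 θ = 0 := by simp [dotc]

lemma mFourier_eq (n : Fin 3 → ℤ) (θ : T3) : UnitAddTorus.mFourier n θ = ech (dotc n θ) := by
  rw [dotc, Fin.sum_univ_three, ech_add, ech_add]
  simp only [UnitAddTorus.mFourier, ContinuousMap.coe_mk, Fin.prod_univ_three, fourier_apply]
  rfl

/-- Finite measures on a torus are determined by their Fourier coefficients. -/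
lemma torus_measure_ext {d : Type} [Fintype d] (P Q : Measure (UnitAddTorus d)) [IsFiniteMeasure P]
    [IsFiniteMeasure Q]
    (h : ∀ n : d → ℤ, ∫ x, UnitAddTorus.mFourier n x ∂P = ∫ x, UnitAddTorus.mFourier n x ∂Q) :
    P = Q := by
  have hL : ∀ (ρ : Measure (UnitAddTorus d)) [IsFiniteMeasure ρ],
      ∃ L : C(UnitAddTorus d, ℂ) →L[ℂ] ℂ, ∀ f : C(UnitAddTorus d, ℂ), L f = ∫ x, (f x) ∂ρ := by
    intro ρ _
    refine ⟨(L1.integralCLM' ℂ).comp (ContinuousMap.toLp 1 ρ ℂ), fun f => ?_⟩
    rw [ContinuousLinearMap.comp_apply, ← L1.integral_eq' ℂ, L1.integral_eq_integral]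
    exact integral_congr_ae (ContinuousMap.coeFn_toLp ρ f)
  obtain ⟨LP, hLP⟩ := hL P
  obtain ⟨LQ, hLQ⟩ := hL Q
  have hPQ : LP = LQ := by
    refine ContinuousLinearMap.ext_on (s := range UnitAddTorus.mFourier) ?_ ?_
    · rw [Submodule.dense_iff_topologicalClosure_eq_top]
      exact UnitAddTorus.span_mFourier_closure_eq_top
    · rintro _ ⟨n, rfl⟩
      rw [hLP, hLQ, h]
  refine ext_of_forall_integral_eq_of_IsFiniteMeasure (fun f => ?_)
  let F : C(UnitAddTorus d, ℂ) := ⟨fun x => (f x : ℂ), by fun_prop⟩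
  have h1 := hLP F
  rw [hPQ, hLQ] at h1
  simp only [F, ContinuousMap.coe_mk, integral_complex_ofReal] at h1
  exact_mod_cast h1.symm

lemma near_orth {E : Type} [NormedAddCommGroup E] [InnerProductSpace ℂ E] (w : E) (c : ℂ)
    (hw : ‖w‖ ≤ 1) (h : ∀ ε : ℝ, 0 < ε → ∃ e : ℕ → E, (∀ i, ‖⟪e i, e i⟫_ℂ‖ ≤ 1) ∧
      (∀ i j, i ≠ j → ‖⟪e i, e j⟫_ℂ‖ ≤ ε) ∧ ∀ i, ⟪w, e i⟫_ℂ = c) : c = 0 := by
  by_contra hc
  have h0 : 0 < ‖c‖ ^ 2 := pow_pos (norm_pos_iff.2 hc) 2
  obtain ⟨e, h1, h2, h3⟩ := h (‖c‖ ^ 2 / 2) (half_pos h0)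
  obtain ⟨N, hN⟩ := exists_nat_gt (2 / ‖c‖ ^ 2)
  have hN0 : (0 : ℝ) < N := lt_trans (by positivity) hN
  rw [div_lt_iff₀ h0] at hN
  set S := ∑ i ∈ Finset.range N, e i with hS
  have a1 : (N : ℝ) * ‖c‖ ≤ ‖S‖ := by
    have b1 : ⟪w, S⟫_ℂ = N * c := by
      rw [hS, inner_sum]
      simp [h3]
    have b2 := norm_inner_le_norm (𝕜 := ℂ) w S
    rw [b1, norm_mul, Complex.norm_natCast] at b2
    nlinarith [norm_nonneg S]
  have a2 : ‖S‖ ^ 2 ≤ N * (1 + N * (‖c‖ ^ 2 / 2)) := by
    have b1 : ‖S‖ ^ 2 = ‖⟪S, S⟫_ℂ‖ := by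
      rw [inner_self_eq_norm_sq_to_K]
      simp
    rw [b1, hS, sum_inner]
    refine (norm_sum_le _ _).trans ?_
    have b2 : ∀ i ∈ Finset.range N, ‖⟪e i, ∑ j ∈ Finset.range N, e j⟫_ℂ‖ ≤
        1 + N * (‖c‖ ^ 2 / 2) := fun i hi => by
      rw [inner_sum]
      refine (norm_sum_le _ _).trans ?_
      have b3 : ∀ j ∈ Finset.range N, ‖⟪e i, e j⟫_ℂ‖ ≤ (if i = j then 1 else 0) + ‖c‖ ^ 2 / 2 :=
        fun j _ => by
          split_ifs with hij
          · subst hij
            linarith [h1 i]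
          · linarith [h2 i j hij]
      refine (Finset.sum_le_sum b3).trans ?_
      rw [Finset.sum_add_distrib, Finset.sum_ite_eq, if_pos hi]
      simp
    refine (Finset.sum_le_sum b2).trans ?_
    rw [Finset.sum_const, Finset.card_range, nsmul_eq_mul]
  have a3 : ((N : ℝ) * ‖c‖) ^ 2 ≤ ‖S‖ ^ 2 := pow_le_pow_left₀ (by positivity) a1 2
  nlinarith

lemma nilflow_add (X : G) (s t : ℝ) (m : Nil) :
    nilflow X t (nilflow X s m) = nilflow X (s + t) m := by
  rw [nilflow, nilflow, nilflow, rmul_rmul, gmul_smul]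

lemma integral_comp_mp {ν : Measure Nil} {T : Nil → Nil} (hT : MeasurePreserving T ν ν)
    {E : Type} [NormedAddCommGroup E] [NormedSpace ℝ E] [MeasurableSpace E] [BorelSpace E]
    [SecondCountableTopology E] {F : Nil → E} (hF : Measurable F) :
    ∫ m, F (T m) ∂ν = ∫ m, F m ∂ν := by
  conv_rhs => rw [← hT.map_eq]
  exact (integral_map hT.measurable.aemeasurable hF.aestronglyMeasurable).symm

/-- The characters in the measurable coordinates. -/
noncomputable def chi (n v : Fin 3 → ℤ) (m : Nil) : ℂ := ech (dotc n (cx m) + dotc v (cz m))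

lemma measurable_chi (n v : Fin 3 → ℤ) : Measurable (chi n v) :=
  continuous_ech.measurable.comp (((continuous_dotc n).comp continuous_cx).measurable.add
    ((continuous_dotc v).measurable.comp measurable_cz))

lemma norm_chi (n v : Fin 3 → ℤ) (m : Nil) : ‖chi n v m‖ = 1 := norm_ech _

lemma chi_central (n v : Fin 3 → ℤ) (z : Fin 3 → ℝ) (m : Nil) :
    chi n v (rmul (0, z) m) = chi n v m * ech (dotc v (mk3 z)) := by
  have : mk3 (0 : Fin 3 → ℝ) = 0 := by
    ext i
    simp [mk3]
  rw [chi, chi, cx_rmul, cz_rmul_central, this, add_zero, dotc_add, ← add_assoc, ech_add]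

lemma eventually_floor_eq {x : ℝ} (hx : (x : UnitAddCircle) ≠ 0) : ∀ᶠ s in 𝓝 x, ⌊s⌋ = ⌊x⌋ := by
  have h1 : (⌊x⌋ : ℝ) < x := lt_of_le_of_ne (Int.floor_le x) fun h => hx (by rw [← h, coe_int])
  filter_upwards [Ioo_mem_nhds h1 (Int.lt_floor_add_one x)] with s hs
  exact Int.floor_eq_iff.2 ⟨hs.1.le, hs.2⟩

lemma continuousAt_chi_rmul (n v : Fin 3 → ℤ) {m : Nil} (hm : ∀ i, cx m i ≠ 0) :
    ContinuousAt (fun y : Fin 3 → ℝ => chi n v (rmul (y, 0) m)) 0 := by
  obtain ⟨g, rfl⟩ := proj_surjective m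
  have h1 : ∀ᶠ y : Fin 3 → ℝ in 𝓝 0, fl (g.1 + y) = fl g.1 := by
    have : ∀ i, ∀ᶠ y : Fin 3 → ℝ in 𝓝 0, ⌊g.1 i + y i⌋ = ⌊g.1 i⌋ := fun i => by
      have hc : Tendsto (fun y : Fin 3 → ℝ => g.1 i + y i) (𝓝 0) (𝓝 (g.1 i)) := by
        have : Continuous fun y : Fin 3 → ℝ => g.1 i + y i := by fun_prop
        simpa using this.tendsto 0
      exact hc.eventually (eventually_floor_eq (hm i))
    filter_upwards [eventually_all.2 this] with y hy
    exact funext hy
  have h2 : Continuous fun y : Fin 3 → ℝ => ech (dotc n (mk3 (g.1 + y)) +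
      dotc v (mk3 (g.2 + 0 + crossProduct g.1 y - crossProduct (iv (fl g.1)) (g.1 + y)))) :=
    continuous_ech.comp (((continuous_dotc n).comp (continuous_mk3.comp (by fun_prop))).add
      ((continuous_dotc v).comp (continuous_mk3.comp (by fun_prop))))
  refine h2.continuousAt.congr ?_
  filter_upwards [h1] with y hy
  rw [rmul_proj, chi, cx_proj, cz_proj, ← hy]
  rfl

lemma measurePreserving_cx : MeasurePreserving cx haar volume :=
  (measurePreserving_fst (μ := (volume : Measure T3)) (ν := (volume : Measure T3))).comp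
    measurePreserving_coord

lemma tendsto_modulus (n v : Fin 3 → ℤ) :
    Tendsto (fun y : Fin 3 → ℝ => ∫ m, ‖chi n v (rmul (y, 0) m) - chi n v m‖ ∂haar) (𝓝 0)
      (𝓝 0) := by
  have hae : ∀ᵐ m ∂haar, ∀ i, cx m i ≠ 0 := by
    refine ae_all_iff.2 fun i => ?_
    have h1 : MeasurePreserving (fun m => cx m i) haar volume :=
      (measurePreserving_eval (fun _ : Fin 3 => (volume : Measure UnitAddCircle)) i).comp
        measurePreserving_cx
    refine h1.quasiMeasurePreserving.ae (p := fun x => x ≠ 0) ?_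
    have h2 := AddCircle.volume_closedBall (1 : ℝ) (x := 0) 0
    rw [Metric.closedBall_zero] at h2
    rw [ae_iff]
    simpa using h2
  have h := tendsto_integral_filter_of_dominated_convergence (μ := haar) (l := 𝓝 (0 : Fin 3 → ℝ))
    (F := fun y m => ‖chi n v (rmul (y, 0) m) - chi n v m‖) (f := fun _ => (0 : ℝ))
    (fun _ => 2) (Eventually.of_forall fun y =>
      (((measurable_chi n v).comp (measurable_rmul _)).sub
        (measurable_chi n v)).norm.aestronglyMeasurable)
    (Eventually.of_forall fun y => Eventually.of_forall fun m => by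
      rw [norm_norm]
      refine (norm_sub_le _ _).trans ?_
      rw [norm_chi, norm_chi]
      norm_num)
    (integrable_const _) (by
      filter_upwards [hae] with m hm
      have h1 := ((continuousAt_chi_rmul n v hm).tendsto.sub_const (chi n v m)).norm
      have h2 : rmul ((0 : Fin 3 → ℝ), (0 : Fin 3 → ℝ)) m = m := by
        obtain ⟨g, rfl⟩ := proj_surjective m
        rw [rmul_proj]
        exact congrArg proj (gmul_zero g)
      rwa [h2, sub_self, norm_zero] at h1)
  simpa using h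

lemma integrable_of_bound {ν : Measure Nil} [IsFiniteMeasure ν] {E : Type} [NormedAddCommGroup E]
    [MeasurableSpace E] [BorelSpace E] [SecondCountableTopology E] {F : Nil → E}
    (hF : Measurable F) (C : ℝ) (h : ∀ m, ‖F m‖ ≤ C) : Integrable F ν :=
  Integrable.of_bound hF.aestronglyMeasurable C (Eventually.of_forall h)

section

variable {X : G} (hX : ∀ n : Fin 3 → ℤ, n ≠ 0 → n 0 * X.1 0 + n 1 * X.1 1 + n 2 * X.1 2 ≠ 0)

include hX

lemma exists_shear {v : Fin 3 → ℤ} (hv : v ≠ 0) : ∃ y : Fin 3 → ℝ,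
    v 0 * crossProduct y X.1 0 + v 1 * crossProduct y X.1 1 + v 2 * crossProduct y X.1 2
      = 1 / 4 := by
  set w := crossProduct X.1 (iv v) with hw
  have hw0 : w 0 ^ 2 + w 1 ^ 2 + w 2 ^ 2 ≠ 0 := by
    intro h
    have a0 : w 0 = 0 := by nlinarith [sq_nonneg (w 0), sq_nonneg (w 1), sq_nonneg (w 2)]
    have a1 : w 1 = 0 := by nlinarith [sq_nonneg (w 0), sq_nonneg (w 1), sq_nonneg (w 2)]
    have a2 : w 2 = 0 := by nlinarith [sq_nonneg (w 0), sq_nonneg (w 1), sq_nonneg (w 2)]
    simp only [hw, cross0, cross1, cross2, iv_apply] at a0 a1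
    have b0 : (![0, v 2, -v 1] : Fin 3 → ℤ) = 0 := by
      by_contra h
      exact hX _ h (by simp; linarith)
    have b1 : (![-v 2, 0, v 0] : Fin 3 → ℤ) = 0 := by
      by_contra h
      exact hX _ h (by simp; linarith)
    apply hv
    ext i
    fin_cases i
    · simpa using congrFun b1 2
    · simpa using congrFun b0 2
    · simpa using congrFun b0 1
  refine ⟨(1 / 4 / (w 0 ^ 2 + w 1 ^ 2 + w 2 ^ 2)) • w, ?_⟩
  simp only [cross0, cross1, cross2, Pi.smul_apply, smul_eq_mul]
  have e0 : w 0 = X.1 1 * v 2 - X.1 2 * v 1 := cross0 _ _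
  have e1 : w 1 = X.1 2 * v 0 - X.1 0 * v 2 := cross1 _ _
  have e2 : w 2 = X.1 0 * v 1 - X.1 1 * v 0 := cross2 _ _
  field_simp
  rw [e0, e1, e2]
  ring

lemma corr_small (n : Fin 3 → ℤ) {v : Fin 3 → ℤ} (hv : v ≠ 0) {ε : ℝ} (hε : 0 < ε) :
    ∃ T : ℝ, 0 < T ∧ ∀ t, T ≤ |t| →
      ‖∫ m, chi n v (nilflow X t m) * conj (chi n v m) ∂haar‖ ≤ ε := by
  obtain ⟨y₀, hy₀⟩ := exists_shear hX hv
  have h1 : Tendsto (fun s : ℝ => s • y₀) (𝓝 0) (𝓝 0) := by
    have : Continuous fun s : ℝ => s • y₀ := by fun_prop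
    simpa using this.tendsto 0
  have h2 := ((tendsto_modulus n v).comp h1).eventually (gt_mem_nhds hε)
  obtain ⟨δ, hδ, h3⟩ := Metric.eventually_nhds_iff.1 h2
  refine ⟨2 / δ, by positivity, fun t ht => ?_⟩
  have ht0 : 0 < |t| := lt_of_lt_of_le (by positivity) ht
  have ht1 : t ≠ 0 := abs_pos.1 ht0
  have h4 := h3 (y := 1 / t) (by
    rw [Real.dist_eq, sub_zero, abs_div, abs_one, div_lt_iff₀ ht0]
    rw [div_le_iff₀ hδ] at ht
    linarith)
  simp only [Function.comp_apply] at h4
  set y := (1 / t) • y₀ with hy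
  set χ := chi n v with hχ
  have hχm : Measurable χ := measurable_chi n v
  have hφm : Measurable (nilflow X t) := measurable_rmul _
  have hRm : Measurable (rmul (y, 0)) := measurable_rmul _
  have hcomm : ∀ m, χ (nilflow X t (rmul (y, 0) m)) = -χ (rmul (y, 0) (nilflow X t m)) := by
    intro m
    have e : nilflow X t (rmul (y, 0) m) =
        rmul (0, (2 * t) • crossProduct y X.1) (rmul (y, 0) (nilflow X t m)) := by
      rw [nilflow, rmul_rmul, rmul_rmul, rmul_rmul]
      congr 1
      apply G_ext <;> simp [gmul, cross0, cross1, cross2] <;> ring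
    rw [e, hχ, chi_central, dotc_mk3]
    have e2 : (v 0 : ℝ) * ((2 * t) • crossProduct y X.1) 0 + v 1 * ((2 * t) • crossProduct y X.1) 1
        + v 2 * ((2 * t) • crossProduct y X.1) 2 = 1 / 2 := by
      simp only [hy, map_smul, LinearMap.smul_apply, Pi.smul_apply, smul_eq_mul]
      field_simp
      linarith
    rw [e2, ech_half, mul_neg_one]
  have hconj : Measurable fun m => conj (χ m) := Complex.continuous_conj.measurable.comp hχm
  have hF : Measurable fun m => χ (nilflow X t m) * conj (χ m) := (hχm.comp hφm).mul hconj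
  have hF' : Measurable fun m => χ (rmul (y, 0) (nilflow X t m)) * conj (χ (rmul (y, 0) m)) :=
    (hχm.comp (hRm.comp hφm)).mul (hconj.comp hRm)
  have a1 := integral_comp_mp (measurePreserving_rmul (y, 0)) hF
  simp only [hcomm, neg_mul, integral_neg] at a1
  have nb : ∀ a b, ‖χ a * conj (χ b)‖ ≤ 1 := fun a b => by
    rw [norm_mul, Complex.norm_conj, hχ, norm_chi, norm_chi, mul_one]
  have hD : Measurable fun m => ‖χ (rmul (y, 0) m) - χ m‖ := ((hχm.comp hRm).sub hχm).norm
  have hD' : Measurable fun m => ‖χ (rmul (y, 0) (nilflow X t m)) - χ (nilflow X t m)‖ :=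
    hD.comp hφm
  have nD : ∀ m, ‖‖χ (rmul (y, 0) m) - χ m‖‖ ≤ 2 := fun m => by
    rw [norm_norm]
    refine (norm_sub_le _ _).trans ?_
    rw [hχ, norm_chi, norm_chi]
    norm_num
  have a2 : ‖∫ m, (χ (nilflow X t m) * conj (χ m) -
      χ (rmul (y, 0) (nilflow X t m)) * conj (χ (rmul (y, 0) m))) ∂haar‖ ≤
      ∫ m, (‖χ (rmul (y, 0) (nilflow X t m)) - χ (nilflow X t m)‖ +
        ‖χ (rmul (y, 0) m) - χ m‖) ∂haar := by
    refine norm_integral_le_of_norm_le ((integrable_of_bound hD' 2 fun m => nD _).add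
      (integrable_of_bound hD 2 nD)) (Eventually.of_forall fun m => ?_)
    set p := χ (nilflow X t m)
    set p' := χ (rmul (y, 0) (nilflow X t m))
    have e : p * conj (χ m) - p' * conj (χ (rmul (y, 0) m)) =
        -((p' - p) * conj (χ m)) - p' * conj (χ (rmul (y, 0) m) - χ m) := by
      rw [map_sub]
      ring
    rw [e]
    refine (norm_sub_le _ _).trans (le_of_eq ?_)
    rw [norm_neg, norm_mul, norm_mul, Complex.norm_conj, Complex.norm_conj, norm_chi, norm_chi,
      mul_one, one_mul]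
  rw [integral_sub (integrable_of_bound hF 1 fun m => nb _ _)
      (integrable_of_bound hF' 1 fun m => nb _ _),
    integral_add (integrable_of_bound hD' 2 fun m => nD _) (integrable_of_bound hD 2 nD),
    integral_comp_mp (T := nilflow X t) (measurePreserving_rmul (t • X)) hD, ← neg_neg (∫ m, χ (rmul (y, 0)
      (nilflow X t m)) * conj (χ (rmul (y, 0) m)) ∂haar), a1, sub_neg_eq_add, ← two_mul, norm_mul,
    Complex.norm_two] at a2
  linarith

variable {ν : Measure Nil} [IsProbabilityMeasure ν] (hν : ∀ t, MeasurePreserving (nilflow X t) ν ν)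

include hν

omit [IsProbabilityMeasure ν] in
lemma integral_chi_toral {n : Fin 3 → ℤ} (hn : n ≠ 0) : ∫ m, chi n 0 m ∂ν = 0 := by
  have h0 := hX n hn
  set t := 1 / 2 / (n 0 * X.1 0 + n 1 * X.1 1 + n 2 * X.1 2) with ht
  have h1 := integral_comp_mp (hν t) (measurable_chi n 0)
  have h2 : ∀ m, chi n 0 (nilflow X t m) = -chi n 0 m := fun m => by
    rw [chi, chi, dotc_zero, dotc_zero, add_zero, add_zero, nilflow, cx_rmul, dotc_add, ech_add,
      dotc_mk3]
    have : (n 0 : ℝ) * (t • X).1 0 + n 1 * (t • X).1 1 + n 2 * (t • X).1 2 = 1 / 2 := by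
      simp only [Prod.smul_fst, Pi.smul_apply, smul_eq_mul, ht]
      field_simp
    rw [this, ech_half, mul_neg_one]
  simp only [h2, integral_neg] at h1
  linear_combination (-1 / 2 : ℂ) * h1

lemma map_cx_eq : ν.map cx = haar.map cx := by
  have key : ∀ (ρ : Measure Nil) [IsProbabilityMeasure ρ],
      (∀ t, MeasurePreserving (nilflow X t) ρ ρ) → ∀ n : Fin 3 → ℤ,
      ∫ x, UnitAddTorus.mFourier n x ∂(ρ.map cx) = if n = 0 then 1 else 0 := by
    intro ρ _ hρ n
    rw [integral_map continuous_cx.measurable.aemeasurable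
      (UnitAddTorus.mFourier n).continuous.aestronglyMeasurable]
    have e : ∀ m, UnitAddTorus.mFourier n (cx m) = chi n 0 m := fun m => by
      rw [mFourier_eq, chi, dotc_zero, add_zero]
    simp only [e]
    split_ifs with hn
    · simp [hn, chi, dotc_zero, ech_zero]
    · exact integral_chi_toral hX hρ hn
  exact torus_measure_ext _ _ fun n => by
    rw [key ν hν, key haar fun t => measurePreserving_rmul _]

lemma integral_central_invariant {H : Nil → ℂ} (hH : Measurable H)
    (hc : ∀ z m, H (rmul (0, z) m) = H m) : ∫ m, H m ∂ν = ∫ m, H m ∂haar := by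
  let s : T3 → Nil := fun θ => proj (rep3 θ, 0)
  have hs : Measurable s :=
    continuous_proj.measurable.comp (measurable_rep3.prodMk measurable_const)
  have e : ∀ m, H m = H (s (cx m)) := fun m => by
    conv_lhs => rw [← sec_coord m]
    rw [← hc (rep3 (cz m)) (s (cx m))]
    simp [s, sec, coord, rmul_proj, gmul]
  have key : ∀ ρ : Measure Nil, ∫ m, H m ∂ρ = ∫ θ, H (s θ) ∂(ρ.map cx) := fun ρ => by
    rw [integral_map (f := fun θ => H (s θ)) continuous_cx.measurable.aemeasurable
      (hH.comp hs).aestronglyMeasurable]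
    exact integral_congr_ae (Eventually.of_forall e)
  rw [key, key, map_cx_eq hX hν]

lemma integral_chi (n : Fin 3 → ℤ) {v : Fin 3 → ℤ} (hv : v ≠ 0) : ∫ m, chi n v m ∂ν = 0 := by
  have hmem : ∀ t, MemLp (fun m => chi n v (nilflow X t m)) 2 ν := fun t =>
    MemLp.of_bound ((measurable_chi n v).comp (measurable_rmul _)).aestronglyMeasurable 1
      (Eventually.of_forall fun m => (norm_chi _ _ _).le)
  have hone : MemLp (fun _ : Nil => (1 : ℂ)) 2 ν := memLp_const 1
  have hinner : ∀ s t, ⟪(hmem s).toLp _, (hmem t).toLp _⟫_ℂ =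
      ∫ m, chi n v (nilflow X (t - s) m) * conj (chi n v m) ∂haar := fun s t => by
    have hF : Measurable fun m => chi n v (nilflow X (t - s) m) * conj (chi n v m) :=
      ((measurable_chi n v).comp (measurable_rmul _)).mul
        (Complex.continuous_conj.measurable.comp (measurable_chi n v))
    rw [← integral_central_invariant hX hν hF, ← integral_comp_mp (hν s) hF, L2.inner_def]
    · refine integral_congr_ae ?_
      filter_upwards [(hmem s).coeFn_toLp, (hmem t).coeFn_toLp] with m h1 h2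
      rw [h1, h2, nilflow_add, add_sub_cancel]
      simp
    · intro z m
      rw [nilflow, rmul_central, chi_central, chi_central, map_mul]
      linear_combination (chi n v (rmul ((t - s) • X) m) * conj (chi n v m)) *
        conj_ech_mul (dotc v (mk3 z))
  refine near_orth (hone.toLp _) _ ?_ (fun ε hε => ?_)
  · rw [Lp.norm_toLp, eLpNorm_const' _ (by norm_num) (by norm_num)]
    simp
  · obtain ⟨T, hT, h⟩ := corr_small hX n hv hε
    refine ⟨fun i => (hmem (i * T)).toLp _, fun i => ?_, fun i j hij => ?_, fun i => ?_⟩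
    · rw [hinner]
      refine (norm_integral_le_of_norm_le_const (C := 1) (Eventually.of_forall fun m => ?_)).trans
        (by simp)
      rw [norm_mul, Complex.norm_conj, norm_chi, norm_chi, mul_one]
    · rw [hinner]
      refine h _ ?_
      rw [← sub_mul, abs_mul, abs_of_pos hT]
      refine le_mul_of_one_le_left hT.le ?_
      have : (1 : ℤ) ≤ |(j : ℤ) - i| := Int.one_le_abs (by omega)
      exact_mod_cast this
    · rw [L2.inner_def, ← integral_comp_mp (hν (i * T)) (measurable_chi n v)]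
      refine integral_congr_ae ?_
      filter_upwards [(hmem (i * T)).coeFn_toLp, hone.coeFn_toLp] with m h1 h2
      rw [h1, h2]
      simp

end

theorem uniquelyErgodic_nilflow {X : G}
    (hX : ∀ n : Fin 3 → ℤ, n ≠ 0 → n 0 * X.1 0 + n 1 * X.1 1 + n 2 * X.1 2 ≠ 0) :
    UniquelyErgodic (nilflow X) haar := by
  have hinv : ∀ t, MeasurePreserving (nilflow X t) haar haar := fun t => measurePreserving_rmul _
  refine ⟨inferInstance, hinv, fun ν hν hνi => ?_⟩
  let C : Nil → UnitAddTorus (Fin 3 ⊕ Fin 3) := fun m => Sum.elim (cx m) (cz m)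
  have hC : Measurable C := by
    refine measurable_pi_lambda _ (fun i => ?_)
    rcases i with i | i
    · exact (measurable_pi_apply i).comp continuous_cx.measurable
    · exact (measurable_pi_apply i).comp measurable_cz
  let S : UnitAddTorus (Fin 3 ⊕ Fin 3) → Nil := fun t => sec (fun i => t (.inl i), fun i => t (.inr i))
  have hS : Measurable S := measurable_sec.comp (by fun_prop)
  have hSC : S ∘ C = id := funext fun m => sec_coord m
  have key : ∀ (ρ : Measure Nil) [IsProbabilityMeasure ρ],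
      (∀ t, MeasurePreserving (nilflow X t) ρ ρ) → ∀ n : Fin 3 ⊕ Fin 3 → ℤ,
      ∫ x, UnitAddTorus.mFourier n x ∂(ρ.map C) = if n = 0 then 1 else 0 := by
    intro ρ _ hρ n
    rw [integral_map hC.aemeasurable (UnitAddTorus.mFourier n).continuous.aestronglyMeasurable]
    have e : ∀ m, UnitAddTorus.mFourier n (C m) =
        chi (fun i => n (.inl i)) (fun i => n (.inr i)) m := fun m => by
      rw [chi, ech_add, ← mFourier_eq, ← mFourier_eq]
      simp only [UnitAddTorus.mFourier, ContinuousMap.coe_mk, Fintype.prod_sum_type]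
      rfl
    simp only [e]
    split_ifs with hn
    · have : (fun _ : Fin 3 => (0 : ℤ)) = 0 := rfl
      simp [hn, chi, this, dotc_zero, ech_zero]
    · by_cases hv : (fun i => n (.inr i)) = 0
      · rw [hv]
        refine integral_chi_toral hX hρ fun h0 => hn ?_
        ext i
        rcases i with i | i
        · exact congrFun h0 i
        · exact congrFun hv i
      · exact integral_chi hX hρ _ hv
  have h1 : ν.map C = haar.map C :=
    torus_measure_ext _ _ (fun n => by rw [key ν hνi, key haar hinv])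
  have h2 := congrArg (Measure.map S) h1
  rwa [Measure.map_map hS hC, Measure.map_map hS hC, hSC, Measure.map_id, Measure.map_id] at h2

end Pool.Agent.P.MP_442888_an.Free
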