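import Pool.Agent.P.MP_442888_an.FreeConstruct

/-!
The time-change is not cohomologous to a toral function, and it is not weakly mixing.
-/

set_option autoImplicit false

open MeasureTheory Filter Topology Set Metric

namespace Pool.Agent.P.MP_442888_an.Free

/-- The thin annulus off which `Gc n` takes integer values. -/
def ann (n : ℕ) : Set UnitAddCircle :=
  closedBall 0 (1 / 4) \ closedBall 0 (1 / 4 - 1 / 8 * (1 / 2) ^ n)

lemma measurableSet_ann (n : ℕ) : MeasurableSet (ann n) :=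
  measurableSet_closedBall.diff measurableSet_closedBall

lemma volume_ann (n : ℕ) : volume (ann n) ≤ ENNReal.ofReal (1 / 4 * (1 / 2) ^ n) := by
  have h0 : (0 : ℝ) < (1 / 2) ^ n := by positivity
  have h1 : (1 / 2 : ℝ) ^ n ≤ 1 := pow_le_one₀ (by norm_num) (by norm_num)
  rw [ann, measure_sdiff (closedBall_subset_closedBall (by linarith))
      measurableSet_closedBall.nullMeasurableSet (measure_ne_top _ _),
    AddCircle.volume_closedBall, AddCircle.volume_closedBall, min_eq_right (by norm_num),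
    min_eq_right (by linarith), ← ENNReal.ofReal_sub _ (by linarith)]
  exact ENNReal.ofReal_le_ofReal (by linarith)

lemma Gc_int {n : ℕ} {x : UnitAddCircle} (h : x ∉ ann n) : ∃ k : ℤ, Gc n x = k := by
  simp only [ann, Set.mem_sdiff, mem_closedBall, dist_zero_right, not_and, not_not] at h
  by_cases hc : ‖x‖ ≤ 1 / 4
  · exact ⟨3 ^ n, by rw [Gc_eq_top _ _ (h hc)]; push_cast; rfl⟩
  · exact ⟨0, by rw [Gc_eq_zero _ _ (not_le.1 hc).le]; simp⟩

lemma norm_coe_of_abs_le {x : ℝ} (h : |x| ≤ 1 / 2) : ‖(x : UnitAddCircle)‖ = |x| :=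
  (AddCircle.norm_coe_eq_abs_iff (1 : ℝ) one_ne_zero).2 (by simpa using h)

lemma integral_cube_odd {f : (Fin 3 → ℝ) → ℝ} (hf : Continuous f) (C : ℝ) (hC : ∀ z, |f z| ≤ C)
    (hper : ∀ z (a : Fin 3 → ℤ), f (z + iv a) = f z) (hodd : ∀ z, f (z + z₀) = 2 - f z) :
    ∫ z in cube, f z = 1 := by
  let F : T3 → ℝ := fun θ => f (rep3 θ)
  have hFm : Measurable F := hf.measurable.comp measurable_rep3
  have hF : ∀ z, F (mk3 z) = f z := fun z => by
    simp only [F]
    rw [← hper _ (fl z), rep3_mk3, sub_add_cancel]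
  have hFi : Integrable F volume :=
    Integrable.of_bound hFm.aestronglyMeasurable C (Eventually.of_forall fun θ => hC _)
  have h1 : ∫ z in cube, f z = ∫ θ, F θ := by
    rw [← measurePreserving_mk3.map_eq,
      integral_map continuous_mk3.measurable.aemeasurable hFm.aestronglyMeasurable]
    simp only [hF]
  have h2 : ∀ θ, F (θ + mk3 z₀) = 2 - F θ := fun θ => by
    conv_lhs => rw [← mk3_rep3 θ, ← mk3_add, hF, hodd]
  have h3 := integral_add_right_eq_self (μ := (volume : Measure T3)) F (mk3 z₀)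
  simp only [h2] at h3
  rw [integral_sub (integrable_const _) hFi] at h3
  simp only [integral_const, probReal_univ, smul_eq_mul, one_mul] at h3
  linarith

namespace Data

variable (D : Data)

lemma ae_int : ∀ᵐ m ∂haar, ∀ᶠ n in atTop, ∃ k : ℤ, D.g n m = k := by
  have hfin : ∀ S : ℕ → Set Nil, (∀ n, haar (S n) ≤ ENNReal.ofReal (1 / 4 * (1 / 2) ^ n)) →
      ∀ᵐ m ∂haar, ∀ᶠ n in atTop, m ∉ S n := fun S hS => by
    refine ae_eventually_notMem (ne_top_of_le_ne_top ?_ (ENNReal.tsum_le_tsum hS))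
    rw [← ENNReal.ofReal_tsum_of_nonneg (fun n => by positivity) geo_summable]
    exact ENNReal.ofReal_ne_top
  have h1 := hfin (fun n => θc (D.p n) (D.q n) ⁻¹' closedBall 0 (1 / 8 * (1 / 2) ^ n)) fun n => by
    rw [measure_θc _ (D.q_ne n) measurableSet_closedBall, AddCircle.volume_closedBall]
    exact ENNReal.ofReal_le_ofReal ((min_le_right _ _).trans (le_of_eq (by ring)))
  have h2 := hfin (fun n => ωc (D.p n) (D.r n) (D.q n) (D.N n) ⁻¹' ann n) fun n => by
    rw [measure_ωc _ _ _ (D.q_ne n) (measurableSet_ann n)]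
    exact volume_ann n
  have h3 := hfin (fun n => ωc (D.p n) (D.r n) (D.q n) (D.N n) ⁻¹'
      ((fun x => x + ((1 / 2 : ℝ) : UnitAddCircle)) ⁻¹' ann n)) fun n => by
    rw [measure_ωc _ _ _ (D.q_ne n) (measurable_add_const _ (measurableSet_ann n)),
      measure_preimage_add_right]
    exact volume_ann n
  filter_upwards [h1, h2, h3] with m a1 a2 a3
  filter_upwards [a1, a2, a3] with n b1 b2 b3
  obtain ⟨k, hk⟩ := Gc_int b2
  obtain ⟨l, hl⟩ := Gc_int (n := n) b3
  simp only [mem_preimage, mem_closedBall, dist_zero_right, not_le] at b1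
  refine ⟨k - l, ?_⟩
  rw [g, uu, Pc_eq_one _ _ b1.le, hk, hl]
  push_cast
  ring

lemma cx_flow (t : ℝ) (m : Nil) : cx (D.φ t m) 0 = cx m 0 + (t : UnitAddCircle) := by
  rw [φ, nilflow, cx_rmul]
  simp [mk3, X]

theorem not_mixing {ψ : ℝ → Nil → Nil} (hψ : IsTimeChange D.φ D.α ψ) :
    ¬WeaklyMixing ψ (timeChangeMeasure D.α haar) ∧ ¬Mixing ψ (timeChangeMeasure D.α haar) :=
  not_mixing_of_eigen D.α_continuous.measurable D.α_flow_continuous D.α_bounds
    (c := fun m => cx m 0) ((measurable_pi_apply 0).comp continuous_cx.measurable) D.cx_flow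
    (fun _ => (uu_continuous _ _ _ _ _).measurable) D.hasSum_g D.ae_int hψ

lemma clock_estimate (n : ℕ) (m : Nil) :
    |clock D.φ D.α m (1 / 8 / D.δ n) - 1 / 8 / D.δ n -
      (D.g n (D.φ (1 / 8 / D.δ n) m) - D.g n m)| ≤ 3 ^ n := by
  set t := 1 / 8 / D.δ n with ht
  have hs := D.hasSum_g t m
  have e := hs.summable.sum_add_tsum_nat_add (n + 1)
  rw [hs.tsum_eq, Finset.sum_range_succ] at e
  have h1 : |∑ k ∈ Finset.range n, (D.g k (D.φ t m) - D.g k m)| ≤ 3 ^ n - 1 := by
    refine (Finset.abs_sum_le_sum_abs _ _).trans ?_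
    have : ∑ k ∈ Finset.range n, 2 * (3 : ℝ) ^ k = 3 ^ n - 1 := by
      rw [← Finset.mul_sum, geom_sum_eq (by norm_num)]
      ring
    rw [← this]
    refine Finset.sum_le_sum fun k _ => (abs_sub _ _).trans ?_
    have a : ∀ m, |D.g k m| ≤ 3 ^ k := abs_uu_le _ _ _ _ k
    linarith [a m, a (D.φ t m)]
  have htδ : |D.δ n| * |t| = 1 / 8 := by
    rw [← abs_mul, ht, mul_div_cancel₀ _ (D.δ_ne n)]
    norm_num
  have h2 : |∑' k, (D.g (k + (n + 1)) (D.φ t m) - D.g (k + (n + 1)) m)| ≤ 1 / 8 := by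
    have h := tsum_of_norm_bounded
      (f := fun k => D.g (k + (n + 1)) (D.φ t m) - D.g (k + (n + 1)) m)
      ((summable_geometric_two.mul_left (1 / 16 : ℝ)).hasSum)
      (fun k => by
        refine (D.g_flow_le _ t m).trans ?_
        refine (mul_le_mul_of_nonneg_right (D.δ_tail n k) (abs_nonneg t)).trans (le_of_eq ?_)
        calc |D.δ n| / 2 * (1 / 2) ^ k * |t| = (|D.δ n| * |t|) / 2 * (1 / 2) ^ k := by ring
          _ = 1 / 16 * (1 / 2) ^ k := by rw [htδ]; ring)
    rw [tsum_mul_left, tsum_geometric_two, Real.norm_eq_abs] at h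
    linarith
  rw [abs_le] at h1 h2 ⊢
  constructor <;> linarith [h1.1, h1.2, h2.1, h2.2]

lemma jump {n : ℕ} (hn : 3 ≤ n) {m : Nil}
    (h1 : ωc (D.p n) (D.r n) (D.q n) (D.N n) m ∈ closedBall ((7 / 32 : ℝ) : UnitAddCircle) (1 / 64))
    (h2 : θc (D.p n) (D.q n) m ∈ closedBall ((1 / 2 : ℝ) : UnitAddCircle) (1 / 8)) :
    D.g n (D.φ (1 / 8 / D.δ n) m) - D.g n m = -2 * 3 ^ n := by
  obtain ⟨v, rfl⟩ := proj_surjective m
  set t := 1 / 8 / D.δ n with ht
  have hε : (1 / 2 : ℝ) ^ n ≤ 1 / 8 :=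
    (pow_le_pow_of_le_one (by norm_num) (by norm_num) hn).trans (by norm_num)
  have htδ : t * D.δ n = 1 / 8 := div_mul_cancel₀ _ (D.δ_ne n)
  have htκ : |t * D.κ n| ≤ 1 / 8 := by
    have a1 : |t| * |D.δ n| = 1 / 8 := by
      rw [← abs_mul, htδ]
      norm_num
    rw [abs_mul, ← a1]
    exact mul_le_mul_of_nonneg_left (D.κ_lt n).le (abs_nonneg _)
  have htσ : |t * D.σ n| ≤ 1 / 64 := by
    have a1 : |t| * |D.δ n| = 1 / 8 := by
      rw [← abs_mul, htδ]
      norm_num
    have a2 := mul_le_mul_of_nonneg_left (D.σ_lt n).le (abs_nonneg t)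
    rw [abs_mul]
    linarith
  rw [mem_closedBall, dist_eq_norm, ωc_proj, ← AddCircle.coe_sub, UnitAddCircle.norm_eq,
    abs_le] at h1
  rw [mem_closedBall, dist_eq_norm, θc_proj, ← AddCircle.coe_sub, UnitAddCircle.norm_eq,
    abs_le] at h2
  rw [abs_le] at htκ htσ
  set x := ξ (D.p n) (D.q n) v with hx
  set w := wt (D.p n) (D.r n) (D.q n) (D.N n) v with hw
  set a := round (x - 1 / 2) with ha
  set b := round (w - 7 / 32) with hb
  have hf0 : ⌊x⌋ = a := Int.floor_eq_iff.2 ⟨by linarith [h2.1], by linarith [h2.2]⟩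
  have hf1 : ⌊x + t * D.κ n⌋ = a :=
    Int.floor_eq_iff.2 ⟨by linarith [h2.1, htκ.1], by linarith [h2.2, htκ.2]⟩
  have hP := Pr_flow (D.p n) (D.r n) (D.q n) (D.N n) D.X v t
  simp only [Pr, Prod.mk.injEq] at hP
  have hx' : ξ (D.p n) (D.q n) (gmul v (t • D.X)) = x + t * D.κ n := hP.1
  have hw' : wt (D.p n) (D.r n) (D.q n) (D.N n) (gmul v (t • D.X)) =
      w + (x - a) / 4 + t * D.κ n / 8 + t * D.σ n := by
    rw [hw, wt, wt, hx', hf1, ← hx, hf0, hP.2.1, hP.2.2]
    change _ + 2 * x * (t * D.δ n) + t * D.κ n * (t * D.δ n) + t * D.σ n -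
      2 * a * (_ + t * D.δ n) = _
    rw [htδ]
    ring
  have nrm : ∀ (u : ℝ) (k : ℤ), |u - k| ≤ 1 / 2 → ‖(u : UnitAddCircle)‖ = |u - k| := fun u k h => by
    rw [← norm_coe_of_abs_le h, coe_eq_of_int (x := u) (y := u - k) k (by ring)]
  have c1 : Pc n (x : UnitAddCircle) = 1 := Pc_eq_one _ _ (by
    rcases le_total (x - a) (1 / 2) with h | h
    · rw [nrm x a (by rw [abs_le]; constructor <;> linarith [h2.1]), abs_of_pos (by linarith [h2.1])]
      linarith [h2.1]
    · rw [nrm x (a + 1) (by rw [abs_le]; push_cast; constructor <;> linarith [h2.2])]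
      push_cast
      rw [abs_of_neg (by linarith [h2.2])]
      linarith [h2.2])
  have c2 : Pc n ((x + t * D.κ n : ℝ) : UnitAddCircle) = 1 := Pc_eq_one _ _ (by
    rcases le_total (x + t * D.κ n - a) (1 / 2) with h | h
    · rw [nrm _ a (by rw [abs_le]; constructor <;> linarith [h2.1, htκ.1]),
        abs_of_pos (by linarith [h2.1, htκ.1])]
      linarith [h2.1, htκ.1]
    · rw [nrm _ (a + 1) (by rw [abs_le]; push_cast; constructor <;> linarith [h2.2, htκ.2])]
      push_cast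
      rw [abs_of_neg (by linarith [h2.2, htκ.2])]
      linarith [h2.2, htκ.2])
  have c3 : Gc n (w : UnitAddCircle) = 3 ^ n := Gc_eq_top _ _ (by
    rw [nrm w b (by rw [abs_le]; constructor <;> linarith [h1.1, h1.2]),
      abs_of_pos (by linarith [h1.1])]
    linarith [h1.2])
  have c4 : Gc n ((w + 1 / 2 : ℝ) : UnitAddCircle) = 0 := Gc_eq_zero _ _ (by
    rw [nrm _ (b + 1) (by rw [abs_le]; push_cast; constructor <;> linarith [h1.1, h1.2])]
    push_cast
    rw [abs_of_neg (by linarith [h1.2])]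
    linarith [h1.2])
  have c5 : Gc n ((w + (x - a) / 4 + t * D.κ n / 8 + t * D.σ n : ℝ) : UnitAddCircle) = 0 := Gc_eq_zero _ _ (by
    rw [nrm _ b (by
        rw [abs_le]
        constructor <;> linarith [h1.1, h1.2, h2.1, h2.2, htκ.1, htκ.2, htσ.1, htσ.2]),
      abs_of_pos (by linarith [h1.1, h2.1, htκ.1, htσ.1])]
    linarith [h1.1, h2.1, htκ.1, htσ.1])
  have c6 : Gc n ((w + (x - a) / 4 + t * D.κ n / 8 + t * D.σ n + 1 / 2 : ℝ) : UnitAddCircle) = 3 ^ n :=
    Gc_eq_top _ _ (by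
      rw [nrm _ (b + 1) (by
          rw [abs_le]
          push_cast
          constructor <;> linarith [h1.1, h1.2, h2.1, h2.2, htκ.1, htκ.2, htσ.1, htσ.2])]
      push_cast
      rw [abs_of_neg (by linarith [h1.2, h2.2, htκ.2, htσ.2])]
      linarith [h1.1, h2.1, htκ.1, htσ.1])
  rw [φ_proj, g, uu, uu, θc_proj, θc_proj, ωc_proj, ωc_proj, hx', hw', ← hx, ← hw,
    ← AddCircle.coe_add, ← AddCircle.coe_add, c1, c2, c3, c4, c5, c6]
  ring

lemma big (K : ℝ) : ∃ t, ENNReal.ofReal (1 / 128) ≤ haar {p | K < |clock D.φ D.α p t - t|} := by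
  obtain ⟨n₀, hn₀⟩ := pow_unbounded_of_one_lt K (by norm_num : (1 : ℝ) < 3)
  set n := max n₀ 3 with hn
  have hK : K < 3 ^ n := hn₀.trans_le (pow_le_pow_right₀ (by norm_num) (le_max_left _ _))
  refine ⟨1 / 8 / D.δ n, le_trans (le_of_eq ?_) (measure_mono (s := ωc (D.p n) (D.r n) (D.q n) (D.N n) ⁻¹'
    closedBall ((7 / 32 : ℝ) : UnitAddCircle) (1 / 64) ∩ θc (D.p n) (D.q n) ⁻¹'
    closedBall ((1 / 2 : ℝ) : UnitAddCircle) (1 / 8)) fun m hm => ?_)⟩
  · rw [measure_ωc_inter _ _ _ (D.q_ne n) measurableSet_closedBall measurableSet_closedBall,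
      AddCircle.volume_closedBall, AddCircle.volume_closedBall, min_eq_right (by norm_num),
      min_eq_right (by norm_num), ← ENNReal.ofReal_mul (by norm_num)]
    norm_num
  · have h1 := D.clock_estimate n m
    rw [D.jump (n := n) (le_max_right _ _) hm.1 hm.2, abs_le] at h1
    rw [mem_ofPred_eq, lt_abs]
    right
    linarith [h1.2]

theorem not_toral : ¬CohomologousToToral D.φ haar D.α := by
  rintro ⟨β, u, hβ, hu, h⟩
  exact not_cohomologous (fun _ => measurePreserving_rmul _) D.α_flow_continuous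
    (measurePreserving_rmul (0, z₀)) (fun _ p => rmul_central _ _ p) D.α_odd
    (by simp) D.big (hβ z₀) hu h

theorem not_trivial : ¬MeasurablyTrivial D.φ haar D.α := by
  rintro ⟨c, u, hu, h⟩
  refine D.not_toral ⟨fun _ => c, u, fun _ _ => rfl, hu, fun t => ?_⟩
  filter_upwards [h t] with p hp
  rw [hp, intervalIntegral.integral_sub ((D.α_flow_continuous p).intervalIntegrable _ _)
    intervalIntegrable_const]

theorem fibre_average (m : Nil) : ∫ z in cube, D.α (rmul (0, z) m) = 1 := by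
  obtain ⟨v, rfl⟩ := proj_surjective m
  refine integral_cube_odd
    (D.α_continuous.comp (continuous_proj.comp (f := fun z => gmul v (0, z)) (by fun_prop)))
    (3 / 2) (fun z => ?_) (fun z a => ?_) (fun z => ?_)
  · rw [abs_le]
    constructor <;> linarith [D.α_bounds (rmul (0, z) (proj v))]
  · rw [rmul_proj, rmul_proj, ← proj_lattice 0 a (gmul v (0, z))]
    congr 2
    apply G_ext <;> simp [gmul, cross0, cross1, cross2] <;> ring
  · rw [← D.α_odd, rmul_rmul]
    congr 2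
    simp [gmul]

end Data

end Pool.Agent.P.MP_442888_an.Free
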