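import Pool.Agent.P.MP_442888_an.Construct

/-!
The time-change is measurably non-trivial but neither weakly mixing nor mixing.
-/

set_option autoImplicit false

open MeasureTheory Filter Topology Set Metric

namespace Pool.Agent.P.MP_442888_an

namespace Data

variable (D : Data)

/-- The new time along an orbit. -/
noncomputable def clock (m : Nil) (t : ℝ) : ℝ := ∫ s in (0 : ℝ)..t, D.α (D.φ s m)

lemma clock_hasDerivAt (m : Nil) (t : ℝ) : HasDerivAt (D.clock m) (D.α (D.φ t m)) t :=
  ((D.α_flow_continuous m).integral_hasStrictDerivAt 0 t).hasDerivAt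

lemma clock_zero (m : Nil) : D.clock m 0 = 0 := by simp [clock]

theorem exists_timeChange : ∃ ψ, IsTimeChange D.φ D.α ψ := by
  have hmono : ∀ m, StrictMono (D.clock m) := fun m =>
    strictMono_of_hasDerivAt_pos (D.clock_hasDerivAt m)
      (fun t => by linarith [(D.α_bounds (D.φ t m)).1])
  have hsurj : ∀ m, Function.Surjective (D.clock m) := fun m => by
    have h1 : Monotone fun t => D.clock m t - 1 / 2 * t :=
      monotone_of_hasDerivAt_nonneg
        (fun t => (D.clock_hasDerivAt m t).sub ((hasDerivAt_id t).const_mul (1 / 2)))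
        (fun t => by
          have := (D.α_bounds (D.φ t m)).1
          simp only [Pi.zero_apply, mul_one]
          linarith)
    have hc : Continuous (D.clock m) :=
      continuous_iff_continuousAt.2 fun t => (D.clock_hasDerivAt m t).continuousAt
    refine hc.surjective ?_ ?_
    · refine tendsto_atTop_mono' atTop ?_ (tendsto_id.const_mul_atTop (by norm_num : (0 : ℝ) < 1 / 2))
      filter_upwards [eventually_ge_atTop 0] with t ht
      have := h1 ht
      simp only [clock_zero, id] at this ⊢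
      linarith
    · refine tendsto_atBot_mono' atBot ?_ (tendsto_id.const_mul_atBot (by norm_num : (0 : ℝ) < 1 / 2))
      filter_upwards [eventually_le_atBot 0] with t ht
      have := h1 ht
      simp only [clock_zero, id] at this ⊢
      linarith
  let e : Nil → ℝ ≃o ℝ := fun m => (hmono m).orderIsoOfSurjective _ (hsurj m)
  have he : ∀ m τ, D.clock m ((e m).symm τ) = τ := fun m τ => (e m).apply_symm_apply τ
  refine ⟨fun τ m => D.φ ((e m).symm τ) m, fun τ m => (e m).symm τ, fun _ _ => rfl, fun m => ?_,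
    fun τ m => ?_⟩
  · apply (hmono m).injective
    rw [he, clock_zero]
  · exact HasDerivAt.of_local_left_inverse (e m).symm.continuous.continuousAt
      (D.clock_hasDerivAt m _) (by linarith [(D.α_bounds (D.φ ((e m).symm τ) m)).1])
      (Eventually.of_forall (he m))

lemma timeChange_spec {ψ : ℝ → Nil → Nil} (hψ : IsTimeChange D.φ D.α ψ) (τ : ℝ) (m : Nil) :
    ∃ t, ψ τ m = D.φ t m ∧ D.clock m t = τ := by
  obtain ⟨h, h1, h2, h3⟩ := hψ
  refine ⟨h τ m, h1 τ m, ?_⟩
  have hd : ∀ σ, HasDerivAt (fun σ => D.clock m (h σ m) - σ) 0 σ := fun σ => by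
    have a := ((D.clock_hasDerivAt m (h σ m)).comp σ (h3 σ m)).sub (hasDerivAt_id σ)
    rw [← h1, mul_inv_cancel₀ (by linarith [(D.α_bounds (ψ σ m)).1]), sub_self] at a
    exact a
  have := is_const_of_deriv_eq_zero (fun σ => (hd σ).differentiableAt) (fun σ => (hd σ).deriv) τ 0
  simp only [h2, clock_zero, sub_zero] at this
  linarith

/-- Partial sums of the logarithm of the eigenfunction. -/
noncomputable def σ (N : ℕ) (m : Nil) : UnitAddCircle :=
  cx m + ((∑ n ∈ Finset.range N, D.g n m : ℝ) : UnitAddCircle)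

lemma σ_continuous (N : ℕ) : Continuous (D.σ N) :=
  continuous_cx.add (continuous_coe_circle.comp
    (continuous_finsetSum _ fun n _ => D.g_continuous n))

/-- The set where the eigenfunction is close to `c`. -/
def AA (c : UnitAddCircle) : Set Nil := {m | ∃ N₀, ∀ N, N₀ ≤ N → D.σ N m ∈ closedBall c (1 / 8)}

lemma AA_measurable (c : UnitAddCircle) : MeasurableSet (D.AA c) := by
  have : D.AA c = ⋃ N₀, ⋂ N, ⋂ _ : N₀ ≤ N, D.σ N ⁻¹' closedBall c (1 / 8) := by
    ext m
    simp only [AA, mem_ofPred_eq, mem_iUnion, mem_iInter, mem_preimage]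
  rw [this]
  exact MeasurableSet.iUnion fun N₀ => MeasurableSet.iInter fun N => MeasurableSet.iInter fun _ =>
    (D.σ_continuous N).measurable measurableSet_closedBall

lemma cx_flow (t : ℝ) (m : Nil) : cx (D.φ t m) = cx m + (t : UnitAddCircle) := by
  obtain ⟨g, rfl⟩ := proj_surjective m
  simp [nilflow, rmul_proj, cx_proj, hmul, hexp]

lemma norm_clock_le {c : UnitAddCircle} {m : Nil} {t : ℝ} (h1 : m ∈ D.AA c)
    (h2 : D.φ t m ∈ D.AA c) : ‖((D.clock m t : ℝ) : UnitAddCircle)‖ ≤ 1 / 4 := by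
  obtain ⟨N₁, h1⟩ := h1
  obtain ⟨N₂, h2⟩ := h2
  have hs := (D.hasSum_g t m).tendsto_sum_nat
  have hs2 : Tendsto (fun N => D.σ N (D.φ t m) - D.σ N m) atTop
      (𝓝 ((D.clock m t : ℝ) : UnitAddCircle)) := by
    have a := (continuous_coe_circle.tendsto _).comp (hs.const_add t)
    rw [add_sub_cancel] at a
    refine a.congr (fun N => ?_)
    simp only [Function.comp_apply, σ, cx_flow, Finset.sum_sub_distrib, AddCircle.coe_add,
      AddCircle.coe_sub]
    abel
  refine le_of_tendsto hs2.norm ?_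
  filter_upwards [eventually_ge_atTop N₁, eventually_ge_atTop N₂] with N a b
  have a1 := h1 N a
  have b1 := h2 N b
  rw [mem_closedBall] at a1 b1
  rw [← dist_eq_norm]
  linarith [dist_triangle_right (D.σ N (D.φ t m)) (D.σ N m) c]

lemma bad_measure (n : ℕ) :
    haar (D.θ n ⁻¹' (closedBall 0 (1 / 4) \ closedBall 0 (1 / 4 - 1 / 8 * (1 / 2) ^ n))) ≤
      ENNReal.ofReal (1 / 4 * (1 / 2) ^ n) := by
  have h0 : (0 : ℝ) < (1 / 2) ^ n := by positivity
  have h1 : (1 / 2 : ℝ) ^ n ≤ 1 := pow_le_one₀ (by norm_num) (by norm_num)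
  rw [(D.θ_measurePreserving n).measure_preimage
    (measurableSet_closedBall.diff measurableSet_closedBall).nullMeasurableSet,
    measure_sdiff (closedBall_subset_closedBall (by linarith))
      measurableSet_closedBall.nullMeasurableSet (measure_ne_top _ _),
    AddCircle.volume_closedBall, AddCircle.volume_closedBall, min_eq_right (by norm_num),
    min_eq_right (by linarith), ← ENNReal.ofReal_sub _ (by linarith)]
  exact ENNReal.ofReal_le_ofReal (by linarith)

lemma exists_AA_pos : ∃ c, haar (D.AA c) ≠ 0 := by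
  have hsum : (∑' n, haar (D.θ n ⁻¹'
      (closedBall 0 (1 / 4) \ closedBall 0 (1 / 4 - 1 / 8 * (1 / 2) ^ n)))) ≠ ⊤ := by
    refine ne_top_of_le_ne_top ?_ (ENNReal.tsum_le_tsum D.bad_measure)
    rw [← ENNReal.ofReal_tsum_of_nonneg (fun n => by positivity) geo_summable]
    exact ENNReal.ofReal_ne_top
  have hae : ∀ᵐ m ∂haar, m ∈ ⋃ k, D.AA (TopologicalSpace.denseSeq UnitAddCircle k) := by
    filter_upwards [ae_eventually_notMem hsum] with m hm
    obtain ⟨N₀, hN₀⟩ := eventually_atTop.1 hm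
    have hstep : ∀ N, N₀ ≤ N → D.σ (N + 1) m = D.σ N m := fun N hN => by
      have h := hN₀ N hN
      simp only [mem_preimage, Set.mem_sdiff, mem_closedBall, dist_zero_right, not_and, not_not] at h
      have hint : ∃ k : ℤ, D.g N m = k := by
        by_cases hc : ‖D.θ N m‖ ≤ 1 / 4
        · exact ⟨3 ^ N, by rw [g, Gc_eq_top _ _ (h hc)]; push_cast; rfl⟩
        · exact ⟨0, by rw [g, Gc_eq_zero _ _ (not_le.1 hc).le]; simp⟩
      obtain ⟨k, hk⟩ := hint
      rw [σ, σ, Finset.sum_range_succ, hk, coe_add_int]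
    have hconst : ∀ N, N₀ ≤ N → D.σ N m = D.σ N₀ m := fun N hN => by
      induction N, hN using Nat.le_induction with
      | base => rfl
      | succ N hN ih => rw [hstep N hN, ih]
    obtain ⟨k, hk⟩ := (TopologicalSpace.denseRange_denseSeq UnitAddCircle).exists_dist_lt
      (D.σ N₀ m) (by norm_num : (0 : ℝ) < 1 / 8)
    exact mem_iUnion.2 ⟨k, N₀, fun N hN => by rw [hconst N hN]; exact hk.le⟩
  by_contra hcon
  push Not at hcon
  have h0 : haar (⋃ k, D.AA (TopologicalSpace.denseSeq UnitAddCircle k)) = 0 :=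
    measure_iUnion_null fun k => hcon _
  obtain ⟨m, hm1, hm2⟩ := (hae.and (measure_eq_zero_iff_ae_notMem.1 h0)).exists
  exact hm2 hm1

lemma real_pos {A : Set Nil} (hA : haar A ≠ 0) : 0 < (timeChangeMeasure D.α haar).real A := by
  have hm : Measurable fun p => ENNReal.ofReal (D.α p) :=
    D.α_continuous.measurable.ennreal_ofReal
  have hle : ∫⁻ p, ENNReal.ofReal (D.α p) ∂haar ≤ ENNReal.ofReal (3 / 2) := by
    refine (lintegral_mono fun p => ENNReal.ofReal_le_ofReal (D.α_bounds p).2).trans ?_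
    simp
  have hge : ENNReal.ofReal (1 / 2) ≤ ∫⁻ p, ENNReal.ofReal (D.α p) ∂haar := by
    refine le_trans ?_ (lintegral_mono fun p => ENNReal.ofReal_le_ofReal (D.α_bounds p).1)
    simp
  have hac : haar ≪ haar.withDensity fun p => ENNReal.ofReal (D.α p) :=
    withDensity_absolutelyContinuous' hm.aemeasurable (Eventually.of_forall fun p => by
      have := (D.α_bounds p).1
      simp only [ne_eq, ENNReal.ofReal_eq_zero, not_le]
      linarith)
  have h1 : (haar.withDensity fun p => ENNReal.ofReal (D.α p)) A ≠ 0 := fun h => hA (hac h)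
  have h2 : (haar.withDensity fun p => ENNReal.ofReal (D.α p)) A ≠ ⊤ := by
    refine ne_top_of_le_ne_top ?_ (measure_mono (subset_univ A))
    rw [withDensity_apply _ MeasurableSet.univ, Measure.restrict_univ]
    exact ne_top_of_le_ne_top ENNReal.ofReal_ne_top hle
  rw [Measure.real, timeChangeMeasure, Measure.smul_apply, smul_eq_mul]
  refine ENNReal.toReal_pos (mul_ne_zero ?_ h1) (ENNReal.mul_ne_top ?_ h2)
  · exact ENNReal.inv_ne_zero.2 (ne_top_of_le_ne_top ENNReal.ofReal_ne_top hle)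
  · refine ENNReal.inv_ne_top.2 (fun h => ?_)
    rw [h] at hge
    simp at hge

lemma image_inter_eq_empty {ψ : ℝ → Nil → Nil} (hψ : IsTimeChange D.φ D.α ψ) (c : UnitAddCircle)
    (N : ℕ) {s : ℝ} (h1 : N + 3 / 8 ≤ s) (h2 : s ≤ N + 5 / 8) :
    ψ s '' D.AA c ∩ D.AA c = ∅ := by
  rw [eq_empty_iff_forall_notMem]
  rintro _ ⟨⟨m, hm, rfl⟩, hm'⟩
  obtain ⟨t, ht1, ht2⟩ := D.timeChange_spec hψ s m
  rw [ht1] at hm'
  have h := D.norm_clock_le hm hm'
  rw [ht2, UnitAddCircle.norm_eq, abs_le] at h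
  rcases le_or_gt (round s) N with h3 | h3
  · have : (round s : ℝ) ≤ N := by exact_mod_cast h3
    linarith [h.2]
  · have : (N : ℝ) + 1 ≤ round s := by exact_mod_cast h3
    linarith [h.1]

theorem not_mixing {ψ : ℝ → Nil → Nil} (hψ : IsTimeChange D.φ D.α ψ) :
    ¬Mixing ψ (timeChangeMeasure D.α haar) := by
  intro h
  obtain ⟨c, hc⟩ := D.exists_AA_pos
  have hpos := D.real_pos hc
  have h1 := (h _ _ (D.AA_measurable c) (D.AA_measurable c)).comp
    (tendsto_atTop_add_const_right atTop (1 / 2 : ℝ) tendsto_natCast_atTop_atTop)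
  have h2 : ((fun t => (timeChangeMeasure D.α haar).real (ψ t '' D.AA c ∩ D.AA c)) ∘
      fun N : ℕ => (N : ℝ) + 1 / 2) = fun _ => 0 := by
    ext N
    rw [Function.comp_apply, D.image_inter_eq_empty hψ c N (by linarith) (by linarith)]
    simp
  rw [h2] at h1
  have := tendsto_nhds_unique h1 tendsto_const_nhds
  nlinarith

theorem not_weaklyMixing {ψ : ℝ → Nil → Nil} (hψ : IsTimeChange D.φ D.α ψ) :
    ¬WeaklyMixing ψ (timeChangeMeasure D.α haar) := by
  intro h
  obtain ⟨c, hc⟩ := D.exists_AA_pos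
  have hpos := D.real_pos hc
  have h1 := (h _ _ (D.AA_measurable c) (D.AA_measurable c)).comp
    (tendsto_natCast_atTop_atTop (R := ℝ))
  set ν := timeChangeMeasure D.α haar
  set κ := ν.real (D.AA c) * ν.real (D.AA c) with hκ
  have κ0 : 0 < κ := mul_pos hpos hpos
  set F : ℝ → ENNReal := fun s => ENNReal.ofReal |ν.real (ψ s '' D.AA c ∩ D.AA c) - κ| with hF
  have hlow : ∀ N : ℕ, ENNReal.ofReal (κ / 4 * N) ≤ ∫⁻ s in Ioc (0 : ℝ) N, F s := by
    intro N
    induction N with
    | zero => simp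
    | succ N ih =>
      have hN : (0 : ℝ) ≤ N := Nat.cast_nonneg N
      have e : Ioc (0 : ℝ) (N + 1 : ℕ) = Ioc (0 : ℝ) N ∪ Ioc (N : ℝ) (N + 1) := by
        push_cast
        rw [Ioc_union_Ioc_eq_Ioc hN (by linarith)]
      have hstep : ENNReal.ofReal (κ / 4) ≤ ∫⁻ s in Ioc (N : ℝ) (N + 1), F s := by
        refine le_trans ?_ (lintegral_mono_set (s := Icc ((N : ℝ) + 3 / 8) (N + 5 / 8))
          (fun s hs => ⟨by linarith [hs.1], by linarith [hs.2]⟩))
        have : ∫⁻ s in Icc ((N : ℝ) + 3 / 8) (N + 5 / 8), F s =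
            ∫⁻ _ in Icc ((N : ℝ) + 3 / 8) (N + 5 / 8), ENNReal.ofReal κ := by
          refine setLIntegral_congr_fun measurableSet_Icc (fun s hs => ?_)
          simp only [hF]
          rw [D.image_inter_eq_empty hψ c N hs.1 hs.2]
          simp [abs_of_pos κ0]
        rw [this, setLIntegral_const, Real.volume_Icc, ← ENNReal.ofReal_mul κ0.le]
        exact ENNReal.ofReal_le_ofReal (le_of_eq (by ring))
      rw [e, lintegral_union measurableSet_Ioc (Ioc_disjoint_Ioc_of_le le_rfl)]
      refine le_trans ?_ (add_le_add ih hstep)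
      rw [← ENNReal.ofReal_add (by positivity) (by positivity)]
      exact ENNReal.ofReal_le_ofReal (le_of_eq (by push_cast; ring))
  have h2 : ENNReal.ofReal (κ / 4) ≤ 0 := by
    refine ge_of_tendsto h1 ?_
    filter_upwards [eventually_gt_atTop 0] with N hN
    have hN' : (0 : ℝ) < N := by exact_mod_cast hN
    simp only [Function.comp_apply]
    rw [ENNReal.le_div_iff_mul_le (Or.inl (by simpa using hN.ne')) (Or.inl ENNReal.ofReal_ne_top),
      ← ENNReal.ofReal_mul (by positivity)]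
    exact hlow N
  rw [nonpos_iff_eq_zero, ENNReal.ofReal_eq_zero] at h2
  linarith

lemma clock_estimate (n : ℕ) (m : Nil) :
    |D.clock m (1 / 2 / D.δ n) - 1 / 2 / D.δ n -
      (D.g n (D.φ (1 / 2 / D.δ n) m) - D.g n m)| ≤ 3 ^ n / 2 := by
  set t := 1 / 2 / D.δ n with ht
  have hs := D.hasSum_g t m
  have e := hs.summable.sum_add_tsum_nat_add (n + 1)
  rw [hs.tsum_eq, Finset.sum_range_succ] at e
  have h1 : |∑ k ∈ Finset.range n, (D.g k (D.φ t m) - D.g k m)| ≤ (3 ^ n - 1) / 2 := by
    refine (Finset.abs_sum_le_sum_abs _ _).trans ?_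
    have : ∑ k ∈ Finset.range n, (3 : ℝ) ^ k = (3 ^ n - 1) / 2 := by
      rw [geom_sum_eq (by norm_num)]
      norm_num
    rw [← this]
    refine Finset.sum_le_sum fun k _ => ?_
    have a1 := Gc_nonneg k (D.θ k (D.φ t m))
    have a2 := Gc_nonneg k (D.θ k m)
    have a3 := Gc_le k (D.θ k (D.φ t m))
    have a4 := Gc_le k (D.θ k m)
    rw [g, g, abs_le]
    constructor <;> linarith
  have hδ : 0 < |D.δ n| := abs_pos.2 (D.δ_ne n)
  have htδ : |D.δ n| * |t| = 1 / 2 := by
    rw [← abs_mul, ht, mul_div_cancel₀ _ (D.δ_ne n)]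
    norm_num
  have h2 : |∑' k, (D.g (k + (n + 1)) (D.φ t m) - D.g (k + (n + 1)) m)| ≤ 1 / 2 := by
    have h := tsum_of_norm_bounded
      (f := fun k => D.g (k + (n + 1)) (D.φ t m) - D.g (k + (n + 1)) m) (geo_summable.hasSum)
      (fun k => by
        refine (D.g_flow_le _ t m).trans ?_
        refine (mul_le_mul_of_nonneg_right (D.δ_tail n k) (abs_nonneg t)).trans (le_of_eq ?_)
        calc |D.δ n| / 2 * (1 / 2) ^ k * |t| = (|D.δ n| * |t|) / 2 * (1 / 2) ^ k := by ring
          _ = 1 / 4 * (1 / 2) ^ k := by rw [htδ]; ring)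
    rw [tsum_mul_left, tsum_geometric_two, Real.norm_eq_abs] at h
    linarith
  rw [abs_le] at h1 h2 ⊢
  unfold clock
  constructor <;> linarith [h1.1, h1.2, h2.1, h2.2]

theorem not_trivial : ¬MeasurablyTrivial D.φ haar D.α := by
  rintro ⟨c, u₀, hu₀, hu⟩
  have hinv : ∀ t, MeasurePreserving (D.φ t) haar haar := fun t => measurePreserving_rmul _
  obtain ⟨u, hum, hue⟩ := hu₀
  have hu' : ∀ t : ℝ, ∀ᵐ p ∂haar, u (D.φ t p) - u p = D.clock p t - c * t := fun t => by
    filter_upwards [hu t, hue, (hinv t).quasiMeasurePreserving.ae hue] with p h1 h2 h3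
    rw [← h2, ← h3, h1, intervalIntegral.integral_sub
      ((D.α_flow_continuous p).intervalIntegrable _ _) intervalIntegrable_const]
    simp [clock, mul_comm]
  -- tightness
  let S : ℕ → Set Nil := fun R => {p | (R : ℝ) < |u p|}
  have hSm : ∀ R, MeasurableSet (S R) := fun R => measurableSet_lt measurable_const hum.abs
  have hS0 : Tendsto (fun R => haar (S R)) atTop (𝓝 0) := by
    have h := tendsto_measure_iInter_atTop (μ := haar) (fun R => (hSm R).nullMeasurableSet)
      (fun R R' hR p (hp : (R' : ℝ) < |u p|) =>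
        lt_of_le_of_lt (by exact_mod_cast hR : (R : ℝ) ≤ R') hp) ⟨0, measure_ne_top _ _⟩
    have e : ⋂ R, S R = ∅ := by
      rw [eq_empty_iff_forall_notMem]
      intro p hp
      obtain ⟨R, hR⟩ := exists_nat_gt |u p|
      exact absurd (mem_iInter.1 hp R) (not_lt.2 hR.le)
    rwa [e, measure_empty] at h
  obtain ⟨R, hR⟩ := (hS0.eventually
    (gt_mem_nhds (show (0 : ENNReal) < ENNReal.ofReal (1 / 8) by simp))).exists
  obtain ⟨n, hn⟩ := pow_unbounded_of_one_lt (4 * (R : ℝ)) (by norm_num : (1 : ℝ) < 3)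
  set t := 1 / 2 / D.δ n with ht
  have hgood : ∀ x : UnitAddCircle, ∃ p, D.θ n p ∈ closedBall x (1 / 8) ∧
      |D.clock p t - c * t| ≤ 2 * R := fun x => by
    by_contra hcon
    push Not at hcon
    have h1 : haar (D.θ n ⁻¹' closedBall x (1 / 8)) ≤ haar (S R ∪ D.φ t ⁻¹' S R) := by
      refine measure_mono_ae ?_
      filter_upwards [hu' t] with p hp hx
      have h2 := hcon p hx
      rw [← hp] at h2
      by_contra h3
      have h4 : ¬((R : ℝ) < |u p|) := fun h => h3 (Or.inl h)
      have h5 : ¬((R : ℝ) < |u (D.φ t p)|) := fun h => h3 (Or.inr h)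
      have h6 := abs_sub (u (D.φ t p)) (u p)
      linarith [not_lt.1 h4, not_lt.1 h5]
    have h2 := h1.trans (measure_union_le _ _)
    rw [(D.θ_measurePreserving n).measure_preimage measurableSet_closedBall.nullMeasurableSet,
      (hinv t).measure_preimage (hSm R).nullMeasurableSet, AddCircle.volume_closedBall,
      min_eq_right (by norm_num)] at h2
    have h3 := h2.trans_lt (ENNReal.add_lt_add hR hR)
    rw [← ENNReal.ofReal_add (by norm_num) (by norm_num)] at h3
    norm_num at h3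
  have hθ : ∀ p, D.θ n (D.φ t p) = D.θ n p + ((1 / 2 : ℝ) : UnitAddCircle) := fun p => by
    rw [θ_flow, ht, div_mul_cancel₀ _ (D.δ_ne n)]
  have hhalf : ‖((1 / 2 : ℝ) : UnitAddCircle)‖ = 1 / 2 := by
    simpa using AddCircle.norm_half_period_eq (1 : ℝ)
  have hhalf2 : ((1 / 2 : ℝ) : UnitAddCircle) + ((1 / 2 : ℝ) : UnitAddCircle) = 0 := by
    rw [← AddCircle.coe_add]
    norm_num
  have h0 : (1 / 2 : ℝ) ^ n ≤ 1 := pow_le_one₀ (by norm_num) (by norm_num)
  obtain ⟨p, hp1, hp2⟩ := hgood 0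
  obtain ⟨p', hp1', hp2'⟩ := hgood ((1 / 2 : ℝ) : UnitAddCircle)
  rw [mem_closedBall, dist_zero_right] at hp1
  rw [mem_closedBall, dist_eq_norm] at hp1'
  have a1 : D.g n p = 3 ^ n := Gc_eq_top _ _ (by linarith)
  have a2 : D.g n (D.φ t p) = 0 := Gc_eq_zero _ _ (by
    rw [hθ]
    have := norm_sub_norm_le (((1 / 2 : ℝ) : UnitAddCircle)) (-D.θ n p)
    rw [sub_neg_eq_add, add_comm, norm_neg] at this
    linarith)
  have a3 : D.g n p' = 0 := Gc_eq_zero _ _ (by
    have := norm_sub_norm_le (((1 / 2 : ℝ) : UnitAddCircle)) (D.θ n p')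
    rw [norm_sub_rev] at this
    linarith)
  have a4 : D.g n (D.φ t p') = 3 ^ n := Gc_eq_top _ _ (by
    rw [hθ, eq_neg_of_add_eq_zero_left hhalf2, ← sub_eq_add_neg]
    linarith)
  have b1 := D.clock_estimate n p
  have b2 := D.clock_estimate n p'
  rw [← ht] at b1 b2
  rw [a1, a2] at b1
  rw [a3, a4] at b2
  rw [abs_le] at b1 b2 hp2 hp2'
  linarith [b1.1, b1.2, b2.1, b2.2, hp2.1, hp2.2, hp2'.1, hp2'.2]

end Data

end Pool.Agent.P.MP_442888_an
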