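import Pool.Agent.P.MP_442888_an.MixDefs

set_option autoImplicit false

open MeasureTheory Filter Topology Set
open scoped ComplexConjugate Real

namespace Pool.Agent.P.MP_442888_an.Mix

theorem staircase {u : Nil → ℝ} (hu : Measurable u) {T : ℕ → Nil → Nil}
    (hT : ∀ i, MeasurePreserving (T i) haar haar) {L : ℕ → ℝ} {B G : ℕ → Set Nil} {m : ℕ}
    (hL : ∀ i < m, L i ≤ L (i + 1))
    (h : ∀ i < m, ∀ p ∈ B i, p ∉ G i → u p ≤ L i → L i < u (T i p) ∧ u (T i p) ≤ L (i + 1)) :
    ∑ i ∈ Finset.range m, haar.real ({p | u p ≤ L 0} ∩ B i) ≤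
      1 + ∑ i ∈ Finset.range m, haar.real (G i) := by
  have h0 : ∀ i, i ≤ m → L 0 ≤ L i := fun i => by
    induction i with
    | zero => exact fun _ => le_rfl
    | succ i ih => exact fun hi => (ih (by omega)).trans (hL i (by omega))
  have hE : ∀ i, MeasurableSet {p | u p ≤ L i} := fun i => hu measurableSet_Iic
  have key : ∀ i ∈ Finset.range m, haar.real ({p | u p ≤ L 0} ∩ B i) ≤
      (haar.real {p | u p ≤ L (i + 1)} - haar.real {p | u p ≤ L i}) + haar.real (G i) := by
    intro i hi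
    have hi' := Finset.mem_range.1 hi
    have hsub : {p | u p ≤ L 0} ∩ B i ⊆
        T i ⁻¹' ({p | u p ≤ L (i + 1)} \ {p | u p ≤ L i}) ∪ G i := by
      rintro p ⟨hp, hB⟩
      by_cases hG : p ∈ G i
      · exact Or.inr hG
      · obtain ⟨h1, h2⟩ := h i hi' p hB hG (le_trans hp (h0 i hi'.le))
        exact Or.inl ⟨h2, not_le.2 h1⟩
    refine (measureReal_mono hsub).trans ((measureReal_union_le _ _).trans (le_of_eq ?_))
    have hss : {p | u p ≤ L i} ⊆ {p | u p ≤ L (i + 1)} := fun p hp => le_trans hp (hL i hi')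
    rw [(hT i).measureReal_preimage ((hE _).diff (hE _)).nullMeasurableSet,
      measureReal_sdiff hss (hE _)]
  refine (Finset.sum_le_sum key).trans ?_
  rw [Finset.sum_add_distrib, Finset.sum_range_sub (fun i => haar.real {p | u p ≤ L i})]
  have h1 : haar.real {p | u p ≤ L m} ≤ 1 := measureReal_le_one
  have h2 : 0 ≤ haar.real {p | u p ≤ L 0} := measureReal_nonneg
  linarith

private lemma amgm_prob {l : ℝ} (hl : 0 < l) (x : ℝ) : x ≤ l * x ^ 2 + 1 / (4 * l) := by
  have h : l * x ^ 2 + 1 / (4 * l) - x = (2 * l * x - 1) ^ 2 / (4 * l) := by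
    field_simp
    ring
  have : 0 ≤ (2 * l * x - 1) ^ 2 / (4 * l) := by positivity
  linarith

private lemma var_prob {K ε : ℝ} (hε : 0 ≤ ε) {m : ℕ} {Q : ℕ → Nil → ℝ}
    (hQ : ∀ i, Continuous (Q i)) (h1 : ∀ i < m, ∫ p, Q i p ^ 2 ∂haar ≤ K)
    (h2 : ∀ i < m, ∀ j < i,
      |∫ p, Q i p * Q j p ∂haar - (∫ p, Q i p ∂haar) * ∫ p, Q j p ∂haar| ≤ ε) :
    ∫ p, (∑ i ∈ Finset.range m, (Q i p - ∫ p, Q i p ∂haar)) ^ 2 ∂haar ≤
      m * K + (m : ℝ) ^ 2 * ε := by
  have hc : ∀ i j, ∫ p, (Q i p - ∫ p, Q i p ∂haar) * (Q j p - ∫ p, Q j p ∂haar) ∂haar =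
      ∫ p, Q i p * Q j p ∂haar - (∫ p, Q i p ∂haar) * ∫ p, Q j p ∂haar := fun i j => by
    have := hQ i
    have := hQ j
    have e : ∀ p, (Q i p - ∫ p, Q i p ∂haar) * (Q j p - ∫ p, Q j p ∂haar) =
        Q i p * Q j p - (∫ p, Q i p ∂haar) * Q j p - (∫ p, Q j p ∂haar) * Q i p +
          (∫ p, Q i p ∂haar) * ∫ p, Q j p ∂haar := fun p => by ring
    simp only [e]
    rw [integral_add (integrable_of_continuous (by fun_prop)) (integrable_const _),
      integral_sub (integrable_of_continuous (by fun_prop))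
        (integrable_of_continuous (by fun_prop)),
      integral_sub (integrable_of_continuous (by fun_prop))
        (integrable_of_continuous (by fun_prop)), integral_const_mul, integral_const_mul]
    simp only [integral_const, probReal_univ, smul_eq_mul, one_mul]
    ring
  have hint : ∀ i j, Integrable
      (fun p => (Q i p - ∫ p, Q i p ∂haar) * (Q j p - ∫ p, Q j p ∂haar)) haar := fun i j => by
    have := hQ i
    have := hQ j
    exact integrable_of_continuous (by fun_prop)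
  simp only [sq (∑ _ ∈ _, _), Finset.sum_mul_sum]
  rw [integral_finsetSum _ fun i _ => integrable_finsetSum _ fun j _ => hint i j]
  have hrow : ∀ i ∈ Finset.range m, ∫ p, ∑ j ∈ Finset.range m,
      (Q i p - ∫ p, Q i p ∂haar) * (Q j p - ∫ p, Q j p ∂haar) ∂haar ≤ K + m * ε := by
    intro i hi
    have hi' := Finset.mem_range.1 hi
    rw [integral_finsetSum _ fun j _ => hint i j]
    have hb : ∀ j ∈ Finset.range m,
        ∫ p, (Q i p - ∫ p, Q i p ∂haar) * (Q j p - ∫ p, Q j p ∂haar) ∂haar ≤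
          (if j = i then K else 0) + ε := by
      intro j hj
      rw [hc]
      rcases lt_trichotomy j i with hji | rfl | hji
      · rw [if_neg hji.ne, zero_add]
        exact (le_abs_self _).trans (h2 i hi' j hji)
      · rw [if_pos rfl]
        have := h1 j hi'
        simp only [sq] at this
        nlinarith [mul_self_nonneg (∫ p, Q j p ∂haar)]
      · rw [if_neg hji.ne', zero_add]
        have := h2 j (Finset.mem_range.1 hj) i hji
        simp only [mul_comm (Q j _)] at this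
        rw [mul_comm (∫ p, Q j p ∂haar)] at this
        exact (le_abs_self _).trans this
    refine (Finset.sum_le_sum hb).trans (le_of_eq ?_)
    rw [Finset.sum_add_distrib, Finset.sum_ite_eq', if_pos hi]
    simp
  refine (Finset.sum_le_sum hrow).trans (le_of_eq ?_)
  simp only [Finset.sum_const, Finset.card_range, nsmul_eq_mul]
  ring

private lemma main_prob {s K ε l η : ℝ} (hs : 0 < s) (hε : 0 ≤ ε) (hl : 0 < l) (hη : 0 < η)
    {m : ℕ} {Q : ℕ → Nil → ℝ} {Es : Set Nil} (hE : MeasurableSet Es)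
    (hQ : ∀ i, Continuous (Q i))
    (h1 : ∀ i < m, s ≤ ∫ p, Q i p ∂haar ∧ ∫ p, Q i p ^ 2 ∂haar ≤ K)
    (h2 : ∀ i < m, ∀ j < i,
      |∫ p, Q i p * Q j p ∂haar - (∫ p, Q i p ∂haar) * ∫ p, Q j p ∂haar| ≤ ε)
    (h3 : ∑ i ∈ Finset.range m, haar.real (Es ∩ {p | s / 4 ≤ Q i p}) ≤ 1 + m * ε) :
    haar.real Es * (3 / 4 * m * s) ≤
      l * (m * K) + (1 + m * ε) * (1 / (4 * l)) + (η * (m * K + (m : ℝ) ^ 2 * ε) + 1 / (4 * η)) := by
  have hB : ∀ i, MeasurableSet (Es ∩ {p | s / 4 ≤ Q i p}) := fun i =>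
    hE.inter ((hQ i).measurable measurableSet_Ici)
  set Z : Nil → ℝ := fun p => ∑ i ∈ Finset.range m, (Q i p - ∫ p, Q i p ∂haar) with hZ
  have hZc : Continuous Z := continuous_finsetSum _ fun i _ => (hQ i).sub continuous_const
  have hi1 : ∀ i, Integrable (fun p => l * Q i p ^ 2) haar := fun i => by
    have := hQ i
    exact integrable_of_continuous (by fun_prop)
  have hi2 : ∀ i, Integrable
      ((Es ∩ {p | s / 4 ≤ Q i p}).indicator fun _ => 1 / (4 * l)) haar := fun i =>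
    (integrable_const _).indicator (hB i)
  have hi3 : Integrable (fun p => η * Z p ^ 2) haar := integrable_of_continuous (by fun_prop)
  have hi4 : Integrable (fun p => ∑ i ∈ Finset.range m, (l * Q i p ^ 2 +
      (Es ∩ {p | s / 4 ≤ Q i p}).indicator (fun _ => 1 / (4 * l)) p)) haar :=
    integrable_finsetSum _ fun i _ => (hi1 i).add (hi2 i)
  have hpt : ∀ p, Es.indicator (fun _ => 3 / 4 * m * s) p ≤
      ∑ i ∈ Finset.range m, (l * Q i p ^ 2 +
        (Es ∩ {p | s / 4 ≤ Q i p}).indicator (fun _ => 1 / (4 * l)) p) +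
      (η * Z p ^ 2 + 1 / (4 * η)) := fun p => by
    by_cases hp : p ∈ Es
    · rw [indicator_of_mem hp]
      have a1 := amgm_prob hη (-Z p)
      rw [neg_sq] at a1
      have a2 : ∑ i ∈ Finset.range m, ((Q i p - ∫ p, Q i p ∂haar) + 3 / 4 * s) ≤
          ∑ i ∈ Finset.range m, (l * Q i p ^ 2 +
            (Es ∩ {p | s / 4 ≤ Q i p}).indicator (fun _ => 1 / (4 * l)) p) := by
        refine Finset.sum_le_sum fun i hi => ?_
        have b1 := (h1 i (Finset.mem_range.1 hi)).1
        by_cases hq : s / 4 ≤ Q i p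
        · rw [indicator_of_mem (show p ∈ Es ∩ {p | s / 4 ≤ Q i p} from ⟨hp, hq⟩)]
          linarith [amgm_prob hl (Q i p)]
        · rw [indicator_of_notMem fun h => hq h.2]
          have : 0 ≤ l * Q i p ^ 2 := by positivity
          linarith [not_le.1 hq]
      rw [Finset.sum_add_distrib, Finset.sum_const, Finset.card_range, nsmul_eq_mul] at a2
      simp only [hZ] at a1 ⊢
      linarith
    · rw [indicator_of_notMem hp]
      refine add_nonneg (Finset.sum_nonneg fun i _ => add_nonneg (by positivity)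
        (indicator_nonneg (fun _ _ => by positivity) _)) (by positivity)
  have hi5 : Integrable (fun p => η * Z p ^ 2 + 1 / (4 * η)) haar := hi3.add (integrable_const _)
  have hi6 : ∀ i, Integrable (fun p => l * Q i p ^ 2 +
      (Es ∩ {p | s / 4 ≤ Q i p}).indicator (fun _ => 1 / (4 * l)) p) haar := fun i =>
    (hi1 i).add (hi2 i)
  have hI := integral_mono ((integrable_const _).indicator hE) (hi4.add hi5) hpt
  rw [integral_indicator_const _ hE, smul_eq_mul] at hI
  refine hI.trans ?_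
  simp only [Pi.add_apply]
  rw [integral_add hi4 hi5, integral_add hi3 (integrable_const _),
    integral_finsetSum _ fun i _ => hi6 i, integral_const_mul]
  simp only [integral_const, probReal_univ, smul_eq_mul, one_mul]
  refine add_le_add ?_ (add_le_add (mul_le_mul_of_nonneg_left
    (var_prob hε hQ (fun i hi => (h1 i hi).2) h2) hη.le) le_rfl)
  have hb : ∀ i ∈ Finset.range m, ∫ p, (l * Q i p ^ 2 +
      (Es ∩ {p | s / 4 ≤ Q i p}).indicator (fun _ => 1 / (4 * l)) p) ∂haar ≤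
      l * K + haar.real (Es ∩ {p | s / 4 ≤ Q i p}) * (1 / (4 * l)) := fun i hi => by
    rw [integral_add (hi1 i) (hi2 i), integral_const_mul, integral_indicator_const _ (hB i),
      smul_eq_mul]
    exact add_le_add (mul_le_mul_of_nonneg_left (h1 i (Finset.mem_range.1 hi)).2 hl.le) le_rfl
  refine (Finset.sum_le_sum hb).trans ?_
  rw [Finset.sum_add_distrib, Finset.sum_const, Finset.card_range, nsmul_eq_mul, ← Finset.sum_mul]
  exact add_le_add (le_of_eq (by ring)) (mul_le_mul_of_nonneg_right h3 (by positivity))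

theorem small_set {s δ : ℝ} (K : ℝ) (hs : 0 < s) (hδ : 0 < δ) : ∃ (m : ℕ) (ε : ℝ), 0 < ε ∧
    ∀ (Q : ℕ → Nil → ℝ) (Es : Set Nil), MeasurableSet Es → (∀ i, Continuous (Q i)) →
      (∀ i < m, s ≤ ∫ p, Q i p ∂haar ∧ ∫ p, Q i p ^ 2 ∂haar ≤ K) →
      (∀ i < m, ∀ j < i,
        |∫ p, Q i p * Q j p ∂haar - (∫ p, Q i p ∂haar) * ∫ p, Q j p ∂haar| ≤ ε) →
      ∑ i ∈ Finset.range m, haar.real (Es ∩ {p | s / 4 ≤ Q i p}) ≤ 1 + m * ε →
      haar.real Es ≤ δ := by
  obtain ⟨K', hK, hK1⟩ : ∃ K' : ℝ, K ≤ K' ∧ 1 ≤ K' := ⟨max K 1, le_max_left _ _, le_max_right _ _⟩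
  have hK0 : 0 < K' := by linarith
  obtain ⟨γ, hγ, hγ'⟩ : ∃ γ : ℝ, 0 < γ ∧ s * δ = 8 * γ := ⟨s * δ / 8, by positivity, by ring⟩
  obtain ⟨m, hm⟩ := exists_nat_ge (K' / (4 * γ ^ 2))
  have hm0 : (0 : ℝ) < m := lt_of_lt_of_le (by positivity) hm
  have hm1 : K' ≤ m * (4 * γ ^ 2) := (div_le_iff₀ (by positivity)).1 hm
  refine ⟨m, 4 * γ ^ 2 / K', by positivity, fun Q Es hE hQ h1 h2 h3 => ?_⟩
  have h := main_prob (K := K') (l := γ / K') (η := 1 / (4 * γ * m)) hs (by positivity)
    (by positivity) (by positivity) hE hQ (fun i hi => ⟨(h1 i hi).1, (h1 i hi).2.trans hK⟩) h2 h3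
  have e1 : γ / K' * (m * K') = γ * m := by field_simp
  have e2 : (1 + m * (4 * γ ^ 2 / K')) * (1 / (4 * (γ / K'))) = K' / (4 * γ) + γ * m := by
    field_simp
  have e3 : 1 / (4 * γ * m) * (m * K' + (m : ℝ) ^ 2 * (4 * γ ^ 2 / K')) =
      K' / (4 * γ) + γ * m / K' := by field_simp
  have e4 : 1 / (4 * (1 / (4 * γ * m))) = γ * m := by field_simp
  have e5 : K' / (4 * γ) ≤ γ * m := by
    rw [div_le_iff₀ (by positivity)]
    linarith
  have e6 : γ * m / K' ≤ γ * m := div_le_self (by positivity) hK1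
  rw [e1, e2, e3, e4] at h
  refine le_of_mul_le_mul_right (h.trans ?_) (by positivity)
  have e7 : δ * (3 / 4 * m * s) = 6 * (γ * m) := by
    rw [show δ * (3 / 4 * m * s) = 3 / 4 * m * (s * δ) by ring, hγ']
    ring
  linarith

end Pool.Agent.P.MP_442888_an.Mix
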