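import Pool.Agent.P.MP_442888_an.MixDefs

set_option autoImplicit false

open MeasureTheory Filter Topology Set
open scoped ComplexConjugate Real

namespace Pool.Agent.P.MP_442888_an.Mix

variable {X : G3}

theorem dio_of (h : ∃ c τ : ℝ, 0 < c ∧ ∀ k l : ℤ, (k, l) ≠ (0, 0) →
    c / (|(k : ℝ)| + |(l : ℝ)|) ^ τ ≤ |k * X.1 + l * X.2.1|) : Dio X := by
  obtain ⟨c, τ, hc, h⟩ := h
  have ha : 0 < |X.1| := hc.trans_le (by simpa using h 1 0 (by simp))
  set M := (1 + |X.2.1|) / |X.1| + 1 with hM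
  have hM0 : 0 < M := by positivity
  refine ⟨min 1 (c / M ^ ⌈τ⌉₊), by positivity, ⌈τ⌉₊, fun ⟨k, l⟩ hk => ?_⟩
  have hl : (1 : ℝ) ≤ 1 + |(l : ℝ)| := le_add_of_nonneg_right (abs_nonneg _)
  rcases le_total 1 |th X (k, l)| with h1 | h1
  · exact (min_le_left _ _).trans (one_le_mul_of_one_le_of_one_le h1 (one_le_pow₀ hl))
  have hN : (1 : ℝ) ≤ |(k : ℝ)| + |(l : ℝ)| := by
    have : (1 : ℤ) ≤ |k| + |l| := by
      rcases eq_or_ne k 0 with rfl | h0
      · have : l ≠ 0 := fun e => hk (by simp [e])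
        simpa using Int.one_le_abs this
      · have := Int.one_le_abs h0
        have := abs_nonneg l
        omega
    exact_mod_cast this
  have h2 : |(k : ℝ)| * |X.1| ≤ 1 + |(l : ℝ)| * |X.2.1| := by
    rw [← abs_mul, ← abs_mul, show (k : ℝ) * X.1 = th X (k, l) - l * X.2.1 by simp [th]]
    exact (abs_sub _ _).trans (by linarith)
  have h3 : |(k : ℝ)| + |(l : ℝ)| ≤ M * (1 + |(l : ℝ)|) := by
    have : |(k : ℝ)| ≤ (1 + |X.2.1|) / |X.1| * (1 + |(l : ℝ)|) := by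
      rw [div_mul_eq_mul_div, le_div_iff₀ ha]
      nlinarith [abs_nonneg (l : ℝ), abs_nonneg X.2.1]
    rw [hM]
    linarith
  have h4 := (div_le_iff₀ (Real.rpow_pos_of_pos (one_pos.trans_le hN) τ)).1 (h k l hk)
  have h5 : (|(k : ℝ)| + |(l : ℝ)|) ^ τ ≤ (M * (1 + |(l : ℝ)|)) ^ ⌈τ⌉₊ :=
    ((Real.rpow_le_rpow_of_exponent_le hN (Nat.le_ceil τ)).trans_eq (Real.rpow_natCast _ _)).trans
      (pow_le_pow_left₀ (by positivity) h3 _)
  refine (min_le_right _ _).trans ((div_le_iff₀ (by positivity)).2 (h4.trans ?_))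
  rw [mul_assoc, ← mul_pow, mul_comm _ M]
  exact mul_le_mul_of_nonneg_left h5 (abs_nonneg _)

lemma approx_scale (ha : X.1 ≠ 0) {n : ℕ} (hn : 0 < n) : ∃ q : ℕ, Good X q ∧ q ≤ n ∧
    ∃ p : ℤ, |q * (X.2.1 / X.1) - p| ≤ 1 / (n + 1) := by
  obtain ⟨s, h1, h2⟩ := Real.exists_rat_abs_sub_le_and_den_le (X.2.1 / X.1) hn
  have hd : (0 : ℝ) < s.den := Nat.cast_pos.2 s.pos
  have h3 : (s.den : ℝ) ≤ n := Nat.cast_le.2 h2
  rw [Rat.cast_def] at h1
  refine ⟨s.den, ⟨s.pos, s.num, Int.isCoprime_iff_gcd_eq_one.2 s.reduced, h1.trans ?_⟩, h2,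
    s.num, ?_⟩
  · exact one_div_le_one_div_of_le (by positivity) (by nlinarith)
  · rw [show s.den * (X.2.1 / X.1) - s.num = s.den * (X.2.1 / X.1 - s.num / s.den) by field_simp,
      abs_mul, abs_of_pos hd]
    refine (mul_le_mul_of_nonneg_left h1 hd.le).trans_eq ?_
    field_simp

lemma th_scale (ha : X.1 ≠ 0) (q : ℕ) (p : ℤ) :
    |th X (-p, q)| = |X.1| * |q * (X.2.1 / X.1) - p| := by
  rw [← abs_mul, th]
  congr 1
  push_cast
  field_simp
  ring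

theorem window (hX : Dio X) :
    ∃ B : ℕ, ∀ᶠ x : ℝ in atTop, ∃ q : ℕ, Good X q ∧ x ≤ q ∧ (q : ℝ) ≤ x ^ B := by
  have ha := hX.irr.ne
  obtain ⟨c, hc, τ, h⟩ := hX
  refine ⟨τ + 1, ?_⟩
  filter_upwards [eventually_ge_atTop (1 : ℝ), eventually_gt_atTop (|X.1| * 2 ^ τ / c)] with x h1 h2
  have h3 : 1 ≤ x ^ (τ + 1) := one_le_pow₀ h1
  obtain ⟨q, hq, h4, p, h5⟩ := approx_scale ha (Nat.floor_pos.2 h3)
  refine ⟨q, hq, le_of_not_gt fun h6 => ?_,
    (Nat.cast_le.2 h4).trans (Nat.floor_le (by positivity))⟩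
  have h7 := h (-p, q) fun e => by
    have := hq.1
    simp at e
    omega
  have h8 : |q * (X.2.1 / X.1) - p| ≤ 1 / x ^ (τ + 1) :=
    h5.trans (one_div_le_one_div_of_le (by positivity) (Nat.lt_floor_add_one _).le)
  have h9 : (1 + |((q : ℤ) : ℝ)|) ^ τ ≤ (2 * x) ^ τ :=
    pow_le_pow_left₀ (by positivity) (by simp; linarith) _
  rw [th_scale ha] at h7
  have h10 := h7.trans (mul_le_mul (mul_le_mul_of_nonneg_left h8 (abs_nonneg _)) h9
    (by positivity) (by positivity))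
  rw [show |X.1| * (1 / x ^ (τ + 1)) * (2 * x) ^ τ = |X.1| * 2 ^ τ / x by
    rw [mul_pow]; field_simp; ring, le_div_iff₀ (by positivity)] at h10
  rw [div_lt_iff₀ hc] at h2
  linarith

theorem good_unbounded (hX : Irr X) (x : ℝ) : ∃ q : ℕ, Good X q ∧ x ≤ q := by
  have ha := hX.ne
  have h1 : ∀ q ∈ Finset.Icc 1 ⌈x⌉₊, ∀ᶠ n : ℕ in atTop,
      1 / ((n : ℝ) + 1) < |q * (X.2.1 / X.1) - round (q * (X.2.1 / X.1))| := fun q hq => by
    refine (tendsto_one_div_add_atTop_nhds_zero_nat (𝕜 := ℝ)).eventually_lt_const ?_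
    have := abs_pos.2 (hX (-round (q * (X.2.1 / X.1)), q) fun e => by
      have := (Finset.mem_Icc.1 hq).1
      simp at e
      omega)
    rw [th_scale ha] at this
    exact (mul_pos_iff_of_pos_left (abs_pos.2 ha)).1 this
  obtain ⟨n, h2, h3⟩ := (((eventually_all_finset _).2 h1).and (eventually_gt_atTop 0)).exists
  obtain ⟨q, hq, -, p, h4⟩ := approx_scale ha h3
  refine ⟨q, hq, le_of_not_gt fun h5 => ?_⟩
  have := h2 q (Finset.mem_Icc.2 ⟨hq.1, Nat.cast_le.1 (h5.le.trans (Nat.le_ceil x))⟩)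
  exact (this.trans_le (round_le _ p)).not_ge h4

theorem scales (hX : Dio X) {γ ε : ℝ} (hγ : 0 < γ) (hε : 0 < ε) (m : ℕ) :
    ∃ η : ℝ, 0 < η ∧ ∀ᶠ t : ℝ in atTop, ∃ (r : ℕ → ℕ) (L : ℕ → ℝ), t ^ η ≤ L 0 ∧ ∀ i < m,
      Good X (r i) ∧ 1 / ε ≤ r i ∧ (r i : ℝ) ^ 2 ≤ t ∧
      L i + (√(r i) + 1) / ε ≤ L (i + 1) ∧ 2 * L i + 1 / ε < ε * √(r i) ∧
      ∀ j < i, ∃ ρ : ℝ, 1 ≤ ρ ∧ r j * √ρ ≤ ε * √(r i) ∧ (r j : ℝ) ^ 2 * ρ ^ (-γ) ≤ ε := by
  obtain ⟨B, hB⟩ := window hX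
  obtain ⟨x₀, hx₀⟩ := eventually_atTop.1 hB
  choose! f hf using hx₀
  obtain ⟨e, he⟩ := exists_nat_ge ((4 * B + 1) / γ)
  rw [div_le_iff₀ hγ] at he
  set D := 4 * B + e + 2 with hD
  set N := 8 * (B + 1) * D ^ m with hN
  have hN0 : N ≠ 0 := by positivity
  have hη : (0 : ℝ) < (N : ℝ)⁻¹ := by positivity
  refine ⟨_, hη, ?_⟩
  filter_upwards [eventually_ge_atTop (0 : ℝ), (tendsto_rpow_atTop hη).eventually_ge_atTop x₀,
    (tendsto_rpow_atTop hη).eventually_ge_atTop (1 + 3 / ε)] with t ht h1 h2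
  have hy := Real.rpow_inv_natCast_pow ht hN0
  generalize t ^ (N : ℝ)⁻¹ = y at h1 h2 hy
  have hε' : 0 < 1 / ε := by positivity
  have h3 : 3 / ε = 3 * (1 / ε) := by ring
  have hy1 : 1 ≤ y := by linarith
  have hz : ∀ i, y ≤ y ^ D ^ i := fun i => le_self_pow₀ hy1 (by positivity)
  have hz1 : ∀ i, 1 ≤ y ^ D ^ i := fun i => hy1.trans (hz i)
  have hz2 : ∀ i, 3 ≤ ε * y ^ D ^ i := fun i => by
    rw [mul_comm, ← div_le_iff₀ hε]
    linarith [hz i]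
  have hz4 : ∀ i, y ≤ (y ^ D ^ i) ^ 4 := fun i => (hz i).trans (le_self_pow₀ (hz1 i) (by norm_num))
  have hr := fun i => hf _ (h1.trans (hz4 i))
  have hs1 : ∀ i, (y ^ D ^ i) ^ 2 ≤ √(f ((y ^ D ^ i) ^ 4)) := fun i =>
    Real.le_sqrt_of_sq_le (by rw [← pow_mul]; exact (hr i).2.1)
  have hr2 : ∀ i, (f ((y ^ D ^ i) ^ 4) : ℝ) ≤ (y ^ D ^ i) ^ (4 * B) := fun i => by
    rw [pow_mul]; exact (hr i).2.2
  refine ⟨fun i => f ((y ^ D ^ i) ^ 4), fun i => y ^ D ^ i, by simp, fun i hi =>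
    ⟨(hr i).1, by linarith [hz4 i, (hr i).2.1], ?_, ?_, ?_, fun j hj => ?_⟩⟩
  · refine (pow_le_pow_left₀ (by positivity) (hr2 i) 2).trans ?_
    rw [← hy, ← pow_mul, ← pow_mul]
    refine pow_le_pow_right₀ hy1 ?_
    have : D ^ i ≤ D ^ m := Nat.pow_le_pow_right (by omega) hi.le
    rw [hN, mul_comm]
    exact Nat.mul_le_mul (by omega) this
  · have h4 : √(f ((y ^ D ^ i) ^ 4)) ≤ (y ^ D ^ i) ^ (2 * B + 1) :=
      Real.sqrt_le_iff.2 ⟨by positivity, (hr2 i).trans (by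
        rw [← pow_mul _ (2 * B + 1)]
        exact pow_le_pow_right₀ (hz1 i) (by omega))⟩
    have h5 := hz i
    have h6 := hz1 i
    beta_reduce
    rw [pow_succ D, pow_mul]
    generalize y ^ D ^ i = z at h4 h5 h6 ⊢
    have h7 : z ≤ z ^ (2 * B + 1) := le_self_pow₀ h6 (by omega)
    have h8 : z ^ (2 * B + 1) * z ≤ z ^ D := by
      rw [← pow_succ]
      exact pow_le_pow_right₀ h6 (by omega)
    rw [div_eq_mul_one_div]
    nlinarith [mul_le_mul_of_nonneg_left (h2.trans h5) (zero_le_one.trans (h6.trans h7)),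
      mul_le_mul_of_nonneg_right h4 hε'.le, mul_le_mul_of_nonneg_right (h6.trans h7) hε'.le,
      mul_nonneg (zero_le_one.trans (h6.trans h7)) hε'.le]
  · beta_reduce
    nlinarith [mul_le_mul_of_nonneg_left (hs1 i) hε.le, hz i,
      mul_le_mul_of_nonneg_right (hz2 i) (zero_le_one.trans (hz1 i))]
  · have h4 : (y ^ D ^ j) ^ D ≤ y ^ D ^ i := by
      rw [← pow_mul, ← pow_succ]
      exact pow_le_pow_right₀ hy1 (Nat.pow_le_pow_right (by omega) hj)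
    have h5 := (h4.trans (le_self_pow₀ (hz1 i) two_ne_zero)).trans (hs1 i)
    have h6 := hz1 j
    have h7 := hz2 j
    have h8 := hr2 j
    have h9 : (0 : ℝ) ≤ f ((y ^ D ^ j) ^ 4) := by positivity
    beta_reduce
    generalize (f ((y ^ D ^ j) ^ 4) : ℝ) = u at h8 h9 ⊢
    generalize y ^ D ^ j = w at h5 h6 h7 h8 ⊢
    have h0 : 0 < w := one_pos.trans_le h6
    refine ⟨(w ^ e) ^ 2, one_le_pow₀ (one_le_pow₀ h6), ?_, ?_⟩
    · rw [Real.sqrt_sq (by positivity)]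
      refine le_trans ?_ (mul_le_mul_of_nonneg_left h5 hε.le)
      have h10 : w ^ (4 * B + e + 1) ≤ w ^ D := pow_le_pow_right₀ h6 (by omega)
      have h11 : u * w ^ e ≤ w ^ (4 * B + e) := by
        rw [pow_add]
        exact mul_le_mul_of_nonneg_right h8 (by positivity)
      rw [pow_succ] at h10
      nlinarith [mul_le_mul_of_nonneg_left h10 hε.le, pow_pos h0 (4 * B + e),
        mul_le_mul_of_nonneg_left h7 (pow_pos h0 (4 * B + e)).le]
    · have h10 : w ^ (8 * B + 1) ≤ ((w ^ e) ^ 2) ^ γ := by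
        rw [← pow_mul, ← Real.rpow_natCast, ← Real.rpow_natCast, ← Real.rpow_mul h0.le]
        refine Real.rpow_le_rpow_of_exponent_le h6 ?_
        push_cast
        linarith
      have h11 : u ^ 2 ≤ w ^ (8 * B) :=
        (pow_le_pow_left₀ h9 h8 2).trans_eq (by rw [← pow_mul]; congr 1; ring)
      rw [Real.rpow_neg (by positivity), ← div_eq_mul_inv, div_le_iff₀ (by positivity)]
      rw [pow_succ] at h10
      nlinarith [mul_le_mul_of_nonneg_left h10 hε.le, pow_pos h0 (8 * B),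
        mul_le_mul_of_nonneg_left h7 (pow_pos h0 (8 * B)).le]

end Pool.Agent.P.MP_442888_an.Mix
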