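import Pool.Agent.P.MP_442888_an.MixCov
import Pool.Agent.P.MP_442888_an.MixProb
import Pool.Agent.P.MP_442888_an.MixScale

set_option autoImplicit false

open MeasureTheory Filter Topology Set
open scoped ComplexConjugate Real

namespace Pool.Agent.P.MP_442888_an.Mix

variable {X : G3} {F : CN} {C : ℝ}

lemma A_eq (F : CN) (t : ℝ) : A X F t = ∫ s in (0 : ℝ)..t, S X F s := by
  have hu : ∀ x ∈ uIcc (0 : ℝ) t, HasDerivAt (fun v : ℝ => ((t - v : ℝ) : ℂ)) (-1 : ℂ) x :=
    fun x _ => by simpa using ((hasDerivAt_id x).const_sub t).ofReal_comp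
  have h := intervalIntegral.integral_smul_deriv_eq_deriv_smul (u' := fun _ => (-1 : ℂ)) hu
    (fun x _ => hasDerivAt_S (X := X) F x) intervalIntegrable_const
    ((continuous_U F).intervalIntegrable _ _)
  rw [A, W, h]
  simp [S_zero]

lemma A_cocycle (F : CN) (r t : ℝ) :
    U X r (A X F t) - A X F t = S X (S X F t) r - (t : ℂ) • S X F r := by
  have h1 : ∀ s, U X r (S X F s) - S X F s = U X s (S X F r) - S X F r := fun s => by
    have a := S_add_time (X := X) F r s
    have b := S_add_time (X := X) F s r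
    rw [add_comm s r, a] at b
    rw [sub_eq_sub_iff_add_eq_add, add_comm, b, add_comm]
  rw [A_eq, clm_integral _ (continuous_S F), ← intervalIntegral.integral_sub
    (f := fun s => U X r (S X F s))
    (((U X r).continuous.comp (continuous_S F)).intervalIntegrable _ _)
    ((continuous_S F).intervalIntegrable _ _)]
  simp only [h1]
  rw [intervalIntegral.integral_sub ((continuous_U _).intervalIntegrable _ _)
    intervalIntegrable_const, S_S, intervalIntegral.integral_const, sub_zero, Complex.coe_smul]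
  rfl

lemma step_AC {a b c d t l l' e r : ℝ} (ht : 0 < t) (h1 : a ≤ b + c + t * d)
    (h2 : t * d ≤ a + b + c) (hb : b / t ≤ l) (hc : c < t / e) (hd : d < r / e) (hd' : e * r ≤ d)
    (hl : l + (r + 1) / e ≤ l') (hl' : 2 * l + 1 / e < e * r) : l < a / t ∧ a / t ≤ l' := by
  rw [div_le_iff₀ ht] at hb
  rw [lt_div_iff₀ ht, div_le_iff₀ ht]
  rw [add_div] at hl
  have hc' : c < 1 / e * t := by rwa [one_div_mul_eq_div]
  constructor <;> nlinarith

/-- Anti-concentration of the integrated ergodic integrals. -/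
theorem anti_conc (hX : Dio X) (h : Bd 1 5 F C) (h0 : Av F = 0) {σ K : ℝ} (hσ : 0 < σ)
    (hv : ∀ T, 0 ≤ T → |n2 (S X F T) ^ 2 - σ * T| ≤ K) {δ : ℝ} (hδ : 0 < δ) :
    ∃ η : ℝ, 0 < η ∧ ∀ᶠ t : ℝ in atTop, haar.real {p | ‖A X F t p‖ ≤ t ^ (1 + η)} ≤ δ := by
  have hK : 0 ≤ K := (abs_nonneg _).trans (hv 0 le_rfl)
  have hup : ∀ T, 1 ≤ T → n2 (S X F T) ^ 2 ≤ (σ + K) * T := fun T hT => by
    have := (abs_le.1 (hv T (by linarith))).2
    nlinarith
  obtain ⟨K4, hK4, h4⟩ := four hX.irr.ne h h0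
  obtain ⟨m, ε, hε, hs⟩ := small_set (K4 ^ 2) (half_pos hσ) hδ
  obtain ⟨Kc, γ, hKc, hγ, hc⟩ := cov hX h h0
  obtain ⟨e, he, he1, he2, he3⟩ : ∃ e : ℝ, 0 < e ∧ e ≤ 1 ∧
      (1 + 2 * (σ + K) + 2 * Kc) * e ≤ σ / 8 ∧ (1 + 2 * (σ + K) + 2 * Kc) * e ≤ ε := by
    have hM : 0 < 1 + 2 * (σ + K) + 2 * Kc := by positivity
    refine ⟨min 1 (min (σ / 8) ε / (1 + 2 * (σ + K) + 2 * Kc)), by positivity, min_le_left _ _,
      ?_, ?_⟩ <;> rw [mul_comm, ← le_div_iff₀ hM] <;> refine (min_le_right _ _).trans ?_ <;>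
      gcongr
    · exact min_le_left _ _
    · exact min_le_right _ _
  have hee : e ^ 2 ≤ e := by nlinarith
  have c1 : e ^ 2 ≤ σ / 2 / 4 := by nlinarith [mul_nonneg hK he.le, mul_nonneg hKc he.le]
  have c2 : 2 * ((σ + K) * e ^ 2) ≤ ε := by
    nlinarith [mul_nonneg hKc he.le, mul_le_mul_of_nonneg_left hee (add_nonneg hσ.le hK)]
  have c3 : Kc * (e + e) ≤ ε := by nlinarith [mul_nonneg hK he.le, mul_pos hσ he]
  have c4 : K * e ≤ σ / 2 := by nlinarith [mul_nonneg hKc he.le, mul_pos hσ he]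
  obtain ⟨η, hη, hsc⟩ := scales hX hγ he m
  refine ⟨η, hη, ?_⟩
  filter_upwards [hsc, eventually_ge_atTop 1] with t ⟨r, L, hL0, hr⟩ ht
  have ht0 : 0 < t := by linarith
  have r1 : ∀ i < m, (1 : ℝ) ≤ r i := fun i hi => by exact_mod_cast (hr i hi).1.1
  have hu : Measurable fun p => ‖A X F t p‖ / t :=
    ((A X F t).continuous.norm.div_const t).measurable
  have st := staircase (u := fun p => ‖A X F t p‖ / t) hu (T := fun i => nilflow X (r i))
    (fun i => measurePreserving_nilflow X _) (L := L) (m := m)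
    (B := fun i => {p | σ / 2 / 4 ≤ Qf X F (r i) p})
    (G := fun i => {p | t / e ≤ ‖S X (S X F t) (r i) p‖} ∪ {p | √(r i) / e ≤ ‖S X F (r i) p‖})
    (fun i hi => le_trans (le_add_of_nonneg_right (by positivity)) (hr i hi).2.2.2.1)
    (fun i hi p hB hG hp => by
      simp only [mem_union, mem_ofPred_eq, not_or, not_le] at hB hG
      have e1 := congrArg (fun f : CN => f p) (A_cocycle (X := X) F (r i) t)
      simp only [ContinuousMap.sub_apply, U_apply, ContinuousMap.smul_apply] at e1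
      have n1 : ‖(t : ℂ) • S X F (r i) p‖ = t * ‖S X F (r i) p‖ := by
        rw [norm_smul, Complex.norm_real, Real.norm_of_nonneg ht0.le]
      have hr0 : (0 : ℝ) < r i := by linarith [r1 i hi]
      refine step_AC ht0 ?_ ?_ hp hG.1 hG.2 ?_ (hr i hi).2.2.2.1 (hr i hi).2.2.2.2.1
      · rw [← n1, sub_eq_iff_eq_add.1 e1]
        refine (norm_add_le _ _).trans ?_
        linarith [norm_sub_le (S X (S X F t) (r i) p) ((t : ℂ) • S X F (r i) p)]
      · rw [← n1, show (t : ℂ) • S X F (r i) p = S X (S X F t) (r i) p -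
          (A X F t (nilflow X (r i) p) - A X F t p) by rw [e1, sub_sub_cancel]]
        refine (norm_sub_le _ _).trans ?_
        linarith [norm_sub_le (A X F t (nilflow X (r i) p)) (A X F t p)]
      · rw [Qf, le_div_iff₀ hr0] at hB
        refine (pow_le_pow_iff_left₀ (by positivity) (norm_nonneg _) two_ne_zero).1 ?_
        rw [mul_pow, Real.sq_sqrt hr0.le]
        exact (mul_le_mul_of_nonneg_right c1 hr0.le).trans hB)
  have hG : ∀ i ∈ Finset.range m, haar.real ({p | t / e ≤ ‖S X (S X F t) (r i) p‖} ∪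
      {p | √(r i) / e ≤ ‖S X F (r i) p‖}) ≤ ε := fun i hi => by
    rw [Finset.mem_range] at hi
    have hr0 : (0 : ℝ) < r i := by linarith [r1 i hi]
    have g1 : haar.real {p | t / e ≤ ‖S X (S X F t) (r i) p‖} ≤ (σ + K) * e ^ 2 := by
      refine (cheb _ (by positivity)).trans ?_
      rw [div_le_iff₀ (by positivity), show (σ + K) * e ^ 2 * (t / e) ^ 2 = (σ + K) * t * t by
        field_simp]
      refine (pow_le_pow_left₀ (n2_nonneg _) (n2_S_le _ _) 2).trans ?_
      rw [mul_pow, sq_abs]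
      exact mul_le_mul (hup t ht) (hr i hi).2.2.1 (by positivity) (by positivity)
    have g2 : haar.real {p | √(r i) / e ≤ ‖S X F (r i) p‖} ≤ (σ + K) * e ^ 2 := by
      refine (cheb _ (by positivity)).trans ?_
      rw [div_le_iff₀ (by positivity), div_pow, Real.sq_sqrt hr0.le,
        show (σ + K) * e ^ 2 * (r i / e ^ 2) = (σ + K) * r i by field_simp]
      exact hup _ (r1 i hi)
    linarith [measureReal_union_le (μ := haar) {p | t / e ≤ ‖S X (S X F t) (r i) p‖}
      {p | √(r i) / e ≤ ‖S X F (r i) p‖}]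
  have fin := hs (fun i => Qf X F (r i)) {p | ‖A X F t p‖ / t ≤ L 0}
    (measurableSet_le hu measurable_const) (fun i => continuous_Qf F _)
    (fun i hi => by
      have hr0 : (0 : ℝ) < r i := by linarith [r1 i hi]
      rw [integral_Qf, integral_Qf_sq, le_div_iff₀ hr0, div_le_iff₀ (by positivity), ← mul_pow]
      refine ⟨?_, pow_le_pow_left₀ (n2_nonneg _) (h4 _ (hr i hi).1) 2⟩
      have a := (abs_le.1 (hv (r i) hr0.le)).1
      have b := (div_le_iff₀ he).1 (hr i hi).2.1
      nlinarith [mul_le_mul_of_nonneg_left b hK, mul_le_mul_of_nonneg_left c4 hr0.le])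
    (fun i hi j hj => by
      obtain ⟨ρ, h1, h2, h3⟩ := (hr i hi).2.2.2.2.2 j hj
      have hr0 : (0 : ℝ) < r i := by linarith [r1 i hi]
      refine (hc _ _ (hr i hi).1 (hr j (hj.trans hi)).1 ρ h1).trans (le_trans ?_ c3)
      gcongr
      rwa [div_le_iff₀ (Real.sqrt_pos.2 hr0)])
    (st.trans (by
      have := Finset.sum_le_card_nsmul _ _ _ hG
      rw [Finset.card_range, nsmul_eq_mul] at this
      linarith))
  refine le_trans (measureReal_mono fun p hp => ?_) fin
  simp only [mem_ofPred_eq] at hp ⊢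
  rw [Real.rpow_add ht0, Real.rpow_one] at hp
  rw [div_le_iff₀ ht0]
  nlinarith

end Pool.Agent.P.MP_442888_an.Mix
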