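import Pool.Agent.P.MP_442888_an.MixFib

set_option autoImplicit false

open MeasureTheory Filter Topology Set
open scoped ComplexConjugate Real

namespace Pool.Agent.P.MP_442888_an.Mix

variable {X : G3} {F FY FZ G : CN} {Λ C C' : ℝ} {n : ℕ}

lemma Bd.norm_le (h : Bd Λ n F C) : ‖F‖ ≤ C := by
  cases n
  exacts [h, h.1]

lemma Bd.nonneg (h : Bd Λ n F C) : 0 ≤ C := (norm_nonneg _).trans h.norm_le

lemma Bd.mono (hΛ : 0 ≤ Λ) (h : Bd Λ n F C) (hC : C ≤ C') : Bd Λ n F C' := by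
  induction n generalizing F C C' with
  | zero => exact le_trans h hC
  | succ n ih =>
    obtain ⟨h1, FY, FZ, h2, h3, h4⟩ := h
    exact ⟨h1.trans hC, FY, FZ, h2, ih h3 (mul_le_mul_of_nonneg_left hC hΛ), ih h4 hC⟩

lemma Bd.of_le (h : Bd Λ n F C) {m : ℕ} (hm : m ≤ n) : Bd Λ m F C := by
  induction m generalizing n F C with
  | zero => exact h.norm_le
  | succ m ih =>
    obtain ⟨n, rfl⟩ : ∃ k, n = k + 1 := ⟨n - 1, by omega⟩
    obtain ⟨h1, FY, FZ, h2, h3, h4⟩ := h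
    exact ⟨h1, FY, FZ, h2, ih h3 (by omega), ih h4 (by omega)⟩

/-- The derivatives hidden in `Bd` are any given ones. -/
lemma Bd.der (h : Bd Λ (n + 1) F C) (hD : Der F FY FZ) : Bd Λ n FY (Λ * C) ∧ Bd Λ n FZ C := by
  obtain ⟨-, FY', FZ', h2, h3, h4⟩ := h
  obtain ⟨rfl, rfl⟩ := hD.unique h2
  exact ⟨h3, h4⟩

lemma Bd.add (h : Bd Λ n F C) (h' : Bd Λ n G C') : Bd Λ n (F + G) (C + C') := by
  induction n generalizing F G C C' with
  | zero => exact (norm_add_le F G).trans (add_le_add h h')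
  | succ n ih =>
    obtain ⟨h1, FY, FZ, h2, h3, h4⟩ := h
    obtain ⟨h1', GY, GZ, h2', h3', h4'⟩ := h'
    exact ⟨(norm_add_le F G).trans (add_le_add h1 h1'), _, _, h2.add h2',
      mul_add Λ C C' ▸ ih h3 h3', ih h4 h4'⟩

lemma Bd.sub (h : Bd Λ n F C) (h' : Bd Λ n G C') : Bd Λ n (F - G) (C + C') := by
  induction n generalizing F G C C' with
  | zero => exact (norm_sub_le F G).trans (add_le_add h h')
  | succ n ih =>
    obtain ⟨h1, FY, FZ, h2, h3, h4⟩ := h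
    obtain ⟨h1', GY, GZ, h2', h3', h4'⟩ := h'
    exact ⟨(norm_sub_le F G).trans (add_le_add h1 h1'), _, _, h2.sub h2',
      mul_add Λ C C' ▸ ih h3 h3', ih h4 h4'⟩

lemma Bd.smul (h : Bd Λ n F C) (c : ℂ) : Bd Λ n (c • F) (‖c‖ * C) := by
  have h0 : ∀ {F : CN} {C : ℝ}, ‖F‖ ≤ C → ‖c • F‖ ≤ ‖c‖ * C := fun h =>
    (norm_smul c _).le.trans (mul_le_mul_of_nonneg_left h (norm_nonneg c))
  induction n generalizing F C with
  | zero => exact h0 h
  | succ n ih =>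
    obtain ⟨h1, FY, FZ, h2, h3, h4⟩ := h
    exact ⟨h0 h1, _, _, h2.smul c, mul_left_comm ‖c‖ Λ C ▸ ih h3, ih h4⟩

lemma bd_one (hΛ : 0 ≤ Λ) (n : ℕ) : Bd Λ n 1 1 := by
  have h0 : ∀ (n : ℕ) (C : ℝ), 0 ≤ C → Bd Λ n 0 C := by
    intro n
    induction n with
    | zero => exact fun C hC => norm_zero.le.trans hC
    | succ n ih =>
      refine fun C hC => ⟨norm_zero.le.trans hC, 0, 0, ?_, ih _ (mul_nonneg hΛ hC), ih _ hC⟩
      simpa using der_one.smul 0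
  have h1 : ‖(1 : CN)‖ ≤ 1 := (ContinuousMap.norm_le _ zero_le_one).2 (by simp)
  cases n with
  | zero => exact h1
  | succ n => exact ⟨h1, 0, 0, der_one, h0 _ _ (by simpa using hΛ), h0 _ _ zero_le_one⟩

lemma Bd.Zc (h : Bd Λ n F C) {w : C(ℝ, ℂ)} (hw : ∀ z ∈ Icc (0 : ℝ) 1, ‖w z‖ ≤ 1) :
    Bd Λ n (Zc w F) C := by
  induction n generalizing F C with
  | zero => exact (norm_Zc_le hw F).trans h
  | succ n ih =>
    obtain ⟨h1, FY, FZ, h2, h3, h4⟩ := h
    exact ⟨(norm_Zc_le hw F).trans h1, _, _, h2.Zc w, ih h3, ih h4⟩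

lemma Bd.Av (h : Bd Λ n F C) : Bd Λ n (Av F) C := h.Zc wAv

lemma Bd.Pr (h : Bd Λ n F C) : Bd Λ n (Pr F) C := h.Zc wPr

lemma Bd.W (h : Bd 1 n F C) {w : ℝ → ℂ} (hw : Continuous w) {B t : ℝ}
    (hB : ∀ v ∈ uIoc 0 t, ‖w v‖ ≤ B) : Bd (1 + |X.1| * |t|) n (W X w F t) (B * C * |t|) := by
  have h0 : ∀ {F : CN} {C : ℝ} {w : ℝ → ℂ} {B : ℝ}, ‖F‖ ≤ C → (∀ v ∈ uIoc 0 t, ‖w v‖ ≤ B) →
      ‖Mix.W X w F t‖ ≤ B * C * |t| := by
    intro F C w B h hB
    refine (norm_W_le hB F).trans ?_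
    rcases eq_or_ne t 0 with rfl | ht
    · simp
    · obtain ⟨v, hv⟩ := nonempty_uIoc.2 ht.symm
      have := (norm_nonneg _).trans (hB v hv)
      gcongr
  induction n generalizing F C w B with
  | zero => exact h0 h hB
  | succ n ih =>
    obtain ⟨h1, FY, FZ, h2, h3, h4⟩ := h
    refine ⟨h0 h1 hB, _, _, h2.W hw t, ?_, ih h4 hw hB⟩
    have h5 := (ih h3 hw hB).sub (ih (w := fun v => ((v * X.1 : ℝ) : ℂ) * w v)
      (B := |X.1| * |t| * B) h4 (by fun_prop) fun v hv => by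
        have h6 : |v| ≤ |t| := by simpa using abs_sub_left_of_mem_uIcc (uIoc_subset_uIcc hv)
        rw [norm_mul, Complex.norm_real, Real.norm_eq_abs, abs_mul, mul_comm |v|]
        have := hB v hv
        gcongr)
    rwa [show B * (1 * C) * |t| + |X.1| * |t| * B * C * |t| =
      (1 + |X.1| * |t|) * (B * C * |t|) by ring] at h5

lemma Bd.S (h : Bd 1 n F C) (t : ℝ) : Bd (1 + |X.1| * |t|) n (S X F t) (C * |t|) := by
  have := h.W (X := X) (w := fun _ => 1) continuous_const (B := 1) (t := t) fun _ _ => by simp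
  rwa [← S_eq_W, one_mul] at this

lemma Bd.Pm {j : ℕ} (h : Bd 1 (n + j) F C) {m : ℤ} (hm : m ≠ 0) :
    Bd 1 n (Pm m F) (C / |(m : ℝ)| ^ j) := by
  induction j generalizing F C with
  | zero =>
    rw [pow_zero, div_one]
    exact Bd.Zc (n := n) h (wPm m)
  | succ j ih =>
    have hC := h.nonneg
    obtain ⟨-, FY, FZ, h2, -, h4⟩ := h
    have hm' : (0 : ℝ) < |(m : ℝ)| := abs_pos.2 (by exact_mod_cast hm)
    have h0 : (2 * π * Complex.I * m : ℂ) ≠ 0 :=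
      mul_ne_zero Complex.two_pi_I_ne_zero (by exact_mod_cast hm)
    have h5 := (ih h4).smul (2 * π * Complex.I * m : ℂ)⁻¹
    rw [h2.Pm_Z, smul_smul, inv_mul_cancel₀ h0, one_smul] at h5
    refine h5.mono zero_le_one ?_
    have h6 : ‖(2 * π * Complex.I * m : ℂ)‖ = 2 * π * |(m : ℝ)| := by
      simp [abs_of_pos Real.pi_pos]
    rw [norm_inv, h6, pow_succ', mul_comm |(m : ℝ)|, ← div_div, div_eq_inv_mul _ |(m : ℝ)|]
    gcongr
    nlinarith [Real.pi_gt_three]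

/-- Iterated derivatives along the direction `(0, 1, κ)`. -/
lemma Bd.dir (h : Bd Λ n F C) (κ : ℝ) : ∃ D : ℕ → CN, D 0 = F ∧
    (∀ j < n, ∀ s : ℝ,
      HasDerivAt (fun s : ℝ => R (0, s, κ * s) (D j)) (R (0, s, κ * s) (D (j + 1))) s) ∧
    (∀ j ≤ n, ‖D j‖ ≤ (Λ + |κ|) ^ j * C) ∧
    (0 < n → ∀ FY FZ, Der F FY FZ → D 1 = FY + (κ : ℂ) • FZ) := by
  induction n generalizing F C with
  | zero =>
    refine ⟨fun _ => F, rfl, fun j hj => absurd hj (by omega), fun j hj => ?_,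
      fun h => absurd h (by omega)⟩
    obtain rfl : j = 0 := by omega
    simpa using h.norm_le
  | succ n ih =>
    obtain ⟨h1, FY, FZ, h2, h3, h4⟩ := h
    obtain ⟨D, e, d1, d2, -⟩ := ih (h3.add (h4.smul (κ : ℂ)))
    refine ⟨fun j => Nat.casesOn j F D, rfl, fun j hj s => ?_, fun j hj => ?_,
      fun _ GY GZ hG => ?_⟩
    · cases j with
      | zero =>
        have := h2.dir 1 κ s
        simp only [one_mul, Complex.ofReal_one, one_smul] at this
        rw [← e] at this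
        exact this
      | succ j => exact d1 j (by omega) s
    · cases j with
      | zero => simpa using h1
      | succ j =>
        refine (d2 j (by omega)).trans (le_of_eq ?_)
        rw [Complex.norm_real, Real.norm_eq_abs]
        ring
    · obtain ⟨rfl, rfl⟩ := h2.unique hG
      exact e

lemma Sm.der (h : Sm F) : ∃ FY FZ, Der F FY FZ ∧ Sm FY ∧ Sm FZ := by
  obtain ⟨C, -, FY, FZ, hD, -⟩ := h 1
  exact ⟨FY, FZ, hD, fun n => (h (n + 1)).elim fun _ hC => ⟨_, (hC.der hD).1⟩,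
    fun n => (h (n + 1)).elim fun _ hC => ⟨_, (hC.der hD).2⟩⟩

lemma Sm.of_der (h : Sm F) (hD : Der F FY FZ) : Sm FY ∧ Sm FZ := by
  exact ⟨fun n => (h (n + 1)).elim fun _ hC => ⟨_, (hC.der hD).1⟩,
    fun n => (h (n + 1)).elim fun _ hC => ⟨_, (hC.der hD).2⟩⟩

lemma Sm.sub (h : Sm F) (h' : Sm G) : Sm (F - G) := by
  exact fun n => (h n).elim fun _ hC => (h' n).elim fun _ hC' => ⟨_, hC.sub hC'⟩

lemma Sm.smul (h : Sm F) (c : ℂ) : Sm (c • F) := by
  exact fun n => (h n).elim fun _ hC => ⟨_, hC.smul c⟩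

lemma sm_one : Sm 1 := by
  exact fun n => ⟨1, bd_one zero_le_one n⟩

lemma Sm.Av (h : Sm F) : Sm (Av F) := by
  exact fun n => (h n).elim fun _ hC => ⟨_, hC.Av⟩

end Pool.Agent.P.MP_442888_an.Mix
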