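import Pool.Agent.P.MP_442888_an.MixDefs

set_option autoImplicit false

open MeasureTheory Filter Topology Set
open scoped ComplexConjugate Real

namespace Pool.Agent.P.MP_442888_an.Mix

/-- A one-parameter group of isometries of a Hilbert space with a bounded orbit has a fixed
point. -/
theorem fixed_point {H : Type} [NormedAddCommGroup H] [InnerProductSpace ℂ H] [CompleteSpace H]
    (B : ℝ → H → H) (hiso : ∀ t v w, ‖B t v - B t w‖ = ‖v - w‖)
    (hadd : ∀ s t v, B s (B t v) = B (s + t) v) {K : ℝ} (hK : ∀ t, ‖B t 0‖ ≤ K) :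
    ∃ v, ∀ t, B t v = v := by
  set T : Set ℝ := {c | ∃ v, ∀ t, ‖v - B t 0‖ ^ 2 ≤ c} with hT
  have hne : T.Nonempty := ⟨K ^ 2, 0, fun t => by
    rw [zero_sub, norm_neg]; gcongr; exact hK t⟩
  have hbd : BddBelow T := ⟨0, fun c ⟨v, hv⟩ => (sq_nonneg _).trans (hv 0)⟩
  have key : ∀ (v w : H) (c c' : ℝ), (∀ t, ‖v - B t 0‖ ^ 2 ≤ c) → (∀ t, ‖w - B t 0‖ ^ 2 ≤ c') →
      ‖v - w‖ ^ 2 ≤ 2 * (c + c') - 4 * sInf T := by
    intro v w c c' hv hw
    have : (c + c') / 2 - ‖v - w‖ ^ 2 / 4 ∈ T := by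
      refine ⟨(2⁻¹ : ℂ) • (v + w), fun t => ?_⟩
      have h1 := parallelogram_law_with_norm ℂ (v - B t 0) (w - B t 0)
      have h2 : v - B t 0 + (w - B t 0) = (2 : ℂ) • ((2⁻¹ : ℂ) • (v + w) - B t 0) := by
        rw [smul_sub, smul_smul, mul_inv_cancel₀ two_ne_zero, one_smul, two_smul]
        abel
      rw [h2, norm_smul, sub_sub_sub_cancel_right, Complex.norm_two] at h1
      nlinarith [hv t, hw t]
    linarith [csInf_le hbd this]
  have hex : ∀ n : ℕ, ∃ v, ∀ t, ‖v - B t 0‖ ^ 2 ≤ sInf T + 1 / ((n : ℝ) + 1) := fun n => by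
    obtain ⟨c, ⟨v, hv⟩, hc⟩ := exists_lt_of_csInf_lt hne
      (lt_add_of_pos_right (sInf T) (Nat.one_div_pos_of_nat (α := ℝ) (n := n)))
    exact ⟨v, fun t => (hv t).trans hc.le⟩
  choose v hv using hex
  have h0 : Tendsto (fun n : ℕ => 1 / ((n : ℝ) + 1)) atTop (𝓝 0) :=
    tendsto_one_div_add_atTop_nhds_zero_nat
  have hc : CauchySeq v := by
    refine cauchySeq_of_le_tendsto_0 (fun N : ℕ => √(4 * (1 / ((N : ℝ) + 1))))
      (fun n k N hn hk => ?_) (by simpa using (h0.const_mul 4).sqrt)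
    rw [dist_eq_norm]
    refine Real.le_sqrt_of_sq_le ?_
    have e1 : 1 / ((n : ℝ) + 1) ≤ 1 / ((N : ℝ) + 1) := Nat.one_div_le_one_div hn
    have e2 : 1 / ((k : ℝ) + 1) ≤ 1 / ((N : ℝ) + 1) := Nat.one_div_le_one_div hk
    linarith [key _ _ _ _ (hv n) (hv k)]
  obtain ⟨w, hw⟩ := cauchySeq_tendsto_of_complete hc
  have hmin : ∀ t, ‖w - B t 0‖ ^ 2 ≤ sInf T := fun t =>
    le_of_tendsto_of_tendsto' ((hw.sub_const _).norm.pow 2)
      (by simpa using h0.const_add (sInf T)) fun n => hv n t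
  refine ⟨w, fun s => ?_⟩
  have h1 : ∀ t, ‖B s w - B t 0‖ ^ 2 ≤ sInf T := fun t => by
    rw [← add_sub_cancel s t, ← hadd, hiso]
    exact hmin _
  have h2 := key _ _ _ _ h1 hmin
  exact sub_eq_zero.1 (norm_eq_zero.1 (pow_eq_zero_iff two_ne_zero |>.1
    (le_antisymm (by linarith) (sq_nonneg _))))

/-- Bounded ergodic integrals come from a transfer function. -/
theorem coboundary {X : G3} {F : CN} {K : ℝ} (h : ∀ T, 0 ≤ T → n2 (S X F T) ≤ K) :
    ∃ u : Nil → ℂ, Measurable u ∧ ∀ t, ∀ᵐ p ∂haar, u (nilflow X t p) - u p = S X F t p := by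
  let V : ℝ → Lp ℂ 2 haar →ₗᵢ[ℂ] Lp ℂ 2 haar := fun t =>
    Lp.compMeasurePreservingₗᵢ ℂ (nilflow X t) (measurePreserving_nilflow X t)
  have hV : ∀ t v, V t v =ᵐ[haar] fun p => v (nilflow X t p) := fun t v =>
    Lp.coeFn_compMeasurePreserving v (measurePreserving_nilflow X t)
  have hq : ∀ t {f g : Nil → ℂ}, f =ᵐ[haar] g →
      (fun p => f (nilflow X t p)) =ᵐ[haar] fun p => g (nilflow X t p) := fun t _ _ e =>
    (measurePreserving_nilflow X t).quasiMeasurePreserving.ae_eq_comp e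
  have hVV : ∀ s t v, V s (V t v) = V (s + t) v := fun s t v => by
    refine Lp.ext ?_
    filter_upwards [hV s (V t v), hq s (hV t v), hV (s + t) v] with p h1 h2 h3
    rw [h1, h2, h3, nilflow_add]
  have hVL : ∀ t G, V t (L2 G) = L2 (U X t G) := fun t G => by
    refine Lp.ext ?_
    filter_upwards [hV t (L2 G), hq t (coeFn_L2 G), coeFn_L2 (U X t G)] with p h1 h2 h3
    rw [h1, h2, h3, U_apply]
  have hK : ∀ t, n2 (S X F t) ≤ K := fun t => by
    rcases le_total 0 t with ht | ht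
    · exact h t ht
    · have e := S_add_time (X := X) F t (-t)
      rw [add_neg_cancel, S_zero] at e
      rw [eq_neg_of_add_eq_zero_left e.symm, n2_neg, n2_U]
      exact h _ (by linarith)
  obtain ⟨v, hv⟩ := fixed_point (fun t v => V t v - L2 (S X F t))
    (fun t v w => by rw [sub_sub_sub_cancel_right, ← map_sub, LinearIsometry.norm_map])
    (fun s t v => by rw [map_sub, hVV, hVL, S_add_time, map_add]; abel) (K := K)
    fun t => by rw [map_zero, zero_sub, norm_neg]; exact hK t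
  have hm := (Lp.aestronglyMeasurable v).aemeasurable
  refine ⟨hm.mk v, hm.measurable_mk, fun t => ?_⟩
  have e : V t v - v = L2 (S X F t) := by rw [sub_eq_iff_eq_add', ← sub_eq_iff_eq_add, hv t]
  filter_upwards [hm.ae_eq_mk, hq t hm.ae_eq_mk, hV t v, Lp.coeFn_sub (V t v) v,
    coeFn_L2 (S X F t)] with p h1 h2 h3 h4 h5
  rw [← h1, ← h2, ← h3, ← h5, ← e, h4, Pi.sub_apply]

end Pool.Agent.P.MP_442888_an.Mix
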