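import Pool.Agent.P.MP_442888_an.MixBd

set_option autoImplicit false

open MeasureTheory Filter Topology Set
open scoped ComplexConjugate Real

namespace Pool.Agent.P.MP_442888_an.Mix

variable {X : G3} {H : CN} {C : ℝ} {m : ℤ}

lemma norm_ip_corr {F G : CN} (hF : ‖F‖ ≤ C) (hG : ‖G‖ ≤ C) (v : ℝ) (k : ℤ × ℤ) :
    ‖ip (U X v F) (G * chi k)‖ ≤ C ^ 2 := by
  have h1 : n2 (U X v F) ≤ C := (n2_U v F).trans_le ((n2_le_norm F).trans hF)
  have h2 : n2 (G * chi k) ≤ C := (n2_le_norm _).trans ((norm_mul_le _ _).trans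
    ((mul_le_of_le_one_right (norm_nonneg _) (norm_chi_le k)).trans hG))
  rw [sq]
  exact (norm_ip_le _ _).trans (mul_le_mul h1 h2 (n2_nonneg _) ((norm_nonneg _).trans hF))

lemma ip_Y_corr {F FY FZ G GY GZ : CN} (hm : Mode m F) (hF : Der F FY FZ) (hG : Der G GY GZ)
    (v : ℝ) (k : ℤ × ℤ) :
    (2 * π * Complex.I * ((v * X.1 * m + k.2 : ℝ) : ℂ)) * ip (U X v F) (G * chi k) =
      ip (U X v FY) (G * chi k) + ip (U X v F) (GY * chi k) := by
  have h := ((hF.U (X := X) v).mul (hG.mul (der_chi k)).star).E_Y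
  rw [map_add] at h
  change ip _ _ + ip _ _ = 0 at h
  rw [(hm.der hF).2, map_sub, map_smul, map_smul, ip_sub_left, ip_smul_left, ip_smul_left,
    ip_add_right, mul_smul_comm, ip_smul_right] at h
  simp only [map_mul, Complex.conj_ofReal, Complex.conj_I, map_ofNat, map_intCast] at h
  push_cast at h ⊢
  linear_combination -h

theorem corr_bound (hm : Mode m H) (h : Bd 1 2 H C) (v : ℝ) (k : ℤ × ℤ) :
    ‖ip (U X v H) (H * chi k)‖ ≤ C ^ 2 ∧
      (v * X.1 * m + k.2) ^ 2 * ‖ip (U X v H) (H * chi k)‖ ≤ C ^ 2 := by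
  obtain ⟨h0, HY, HZ, d1, ⟨h1, HYY, HYZ, d2, h2, -⟩, -⟩ := h
  have h2' : ‖HYY‖ ≤ C := by simpa [Bd] using h2
  rw [one_mul] at h1
  refine ⟨norm_ip_corr h0 h0 v k, ?_⟩
  have e1 := ip_Y_corr (X := X) hm d1 d1 v k
  have e2 := ip_Y_corr (X := X) (hm.der d1).1 d2 d1 v k
  have e3 := ip_Y_corr (X := X) hm d1 d2 v k
  set x : ℝ := v * X.1 * m + k.2
  have e : (2 * π * Complex.I * (x : ℂ)) ^ 2 * ip (U X v H) (H * chi k) =
      ip (U X v HYY) (H * chi k) + ip (U X v HY) (HY * chi k) +
        (ip (U X v HY) (HY * chi k) + ip (U X v H) (HYY * chi k)) := by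
    linear_combination (2 * π * Complex.I * (x : ℂ)) * e1 + e2 + e3
  have n := congrArg norm e
  simp only [norm_mul, norm_pow, Complex.norm_real, Complex.norm_I, Complex.norm_ofNat,
    Real.norm_eq_abs, mul_pow, sq_abs, one_pow, mul_one] at n
  have b := (norm_add_le _ _).trans (add_le_add
    ((norm_add_le _ _).trans (add_le_add (norm_ip_corr (X := X) h2' h0 v k)
      (norm_ip_corr (X := X) h1 h1 v k)))
    ((norm_add_le _ _).trans (add_le_add (norm_ip_corr (X := X) h1 h1 v k)
      (norm_ip_corr (X := X) h0 h2' v k))))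
  rw [← n] at b
  have p : 1 ≤ π ^ 2 := one_le_pow₀ (by linarith [Real.pi_gt_three])
  have q : 0 ≤ x ^ 2 * ‖ip (U X v H) (H * chi k)‖ := by positivity
  nlinarith [mul_le_mul_of_nonneg_right p q]

theorem coeff_bound (H : CN) (k : ℤ × ℤ) {r L : ℝ} (hr : 0 ≤ r)
    (hL : ∫ v in (-r)..r, ‖ip (U X v H) (H * chi k)‖ ≤ L) :
    ‖ip (S X H r * star (S X H r)) (chi k)‖ ≤ r * L ∧
      ‖ip (S X H r * star (S X H r)) (chi k)‖ * |th X k| ≤ L := by
  set c : ℝ → ℂ := fun v => ip (U X v H) (H * chi k) with hc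
  have cc : Continuous c := (ipL (H * chi k)).continuous.comp (continuous_U H)
  let P : ℝ → ℂ := fun x => ∫ v in (0 : ℝ)..x, c v
  have dP : ∀ x, HasDerivAt P (c x) x := fun x => (cc.integral_hasStrictDerivAt 0 x).hasDerivAt
  let Ψ : ℝ → ℂ := fun s => star (P (r - s) - P (-s))
  have dΨ : ∀ s, HasDerivAt Ψ (star (c (-s) - c (r - s))) s := fun s => by
    have a1 := (dP (r - s)).scomp s ((hasDerivAt_id s).const_sub r)
    have a2 := (dP (-s)).scomp s (hasDerivAt_neg s)
    refine (a1.sub a2).star.congr_deriv ?_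
    congr 1
    simp only [neg_smul, one_smul]
    ring
  have eP : ∀ s, P (r - s) - P (-s) = ∫ v in (-s)..(r - s), c v := fun s =>
    intervalIntegral.integral_interval_sub_left (cc.intervalIntegrable _ _)
      (cc.intervalIntegrable _ _)
  have bΨ : ∀ s ∈ Icc 0 r, ‖Ψ s‖ ≤ L := fun s hs => by
    simp only [Ψ, norm_star, eP]
    refine (intervalIntegral.norm_integral_le_integral_norm (by linarith)).trans
      ((intervalIntegral.integral_mono_interval (by linarith [hs.2]) (by linarith)
        (by linarith [hs.1]) (Eventually.of_forall fun _ => norm_nonneg _)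
        (cc.norm.intervalIntegrable _ _)).trans hL)
  have key : ‖ip (S X H r * star (S X H r)) (chi k)‖ =
      ‖∫ s in (0 : ℝ)..r, ee (-th X k * s) * Ψ s‖ := by
    have e1 : ip (S X H r * star (S X H r)) (chi k) = conj (ip (S X H r * chi k) (S X H r)) := by
      rw [ip_conj, ip, ip, star_mul, mul_assoc, mul_comm (star (chi k))]
    rw [e1, Complex.norm_conj]
    congr 1
    have := clm_integral ((ipL (S X H r)).comp ((ContinuousLinearMap.mul ℂ CN).flip (chi k)))
      (continuous_U (X := X) H) 0 r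
    refine this.trans (intervalIntegral.integral_congr fun s _ => ?_)
    change ip (U X s H * chi k) (S X H r) = _
    have e2 : U X s H * chi k = ee (-th X k * s) • U X s (H * chi k) := by
      rw [U_mul, U_chi, mul_smul_comm, smul_smul, ← ee_add]
      simp [ee_zero]
    rw [e2, ip_smul_left, ← ip_conj]
    congr 1
    change star _ = star _
    congr 1
    rw [eP, ← zero_sub s, ← intervalIntegral.integral_comp_sub_right, ← ipL_apply, S,
      clm_integral _ (continuous_U H)]
    refine intervalIntegral.integral_congr fun u _ => ?_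
    simp only [hc, ipL_apply]
    rw [← ip_U (X := X) s (U X (u - s) H), U_U, add_sub_cancel]
  rw [key]
  constructor
  · have := intervalIntegral.norm_integral_le_of_norm_le_const (a := 0) (b := r) (C := L)
      (f := fun s => ee (-th X k * s) * Ψ s) fun s hs => by
        rw [uIoc_of_le hr] at hs
        rw [norm_mul, norm_ee, one_mul]
        exact bΨ s (Ioc_subset_Icc_self hs)
    rwa [sub_zero, abs_of_nonneg hr, mul_comm] at this
  have ce : Continuous fun s : ℝ => ee (-th X k * s) := continuous_ee.comp (by fun_prop)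
  have cΨ : Continuous Ψ := continuous_iff_continuousAt.2 fun s => (dΨ s).continuousAt
  have cΨ' : Continuous fun s : ℝ => star (c (-s) - c (r - s)) := by fun_prop
  have ibp := intervalIntegral.integral_deriv_mul_eq_sub (a := 0) (b := r)
    (fun s _ => hasDerivAt_ee (-th X k) s) (fun s _ => dΨ s)
    ((continuous_const.mul ce).intervalIntegrable _ _) (cΨ'.intervalIntegrable _ _)
  rw [intervalIntegral.integral_add (Continuous.intervalIntegrable (by fun_prop) _ _)
    (Continuous.intervalIntegrable (by fun_prop) _ _)] at ibp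
  simp only [mul_assoc _ (ee _), intervalIntegral.integral_const_mul] at ibp
  have b3 : ‖∫ s in (0 : ℝ)..r, ee (-th X k * s) * star (c (-s) - c (r - s))‖ ≤ L := by
    have c1 : Continuous fun s : ℝ => ‖c (-s)‖ := by fun_prop
    have c2 : Continuous fun s : ℝ => ‖c (r - s)‖ := by fun_prop
    refine (intervalIntegral.norm_integral_le_of_norm_le hr
      (g := fun s => ‖c (-s)‖ + ‖c (r - s)‖) (Eventually.of_forall fun s _ => ?_)
      ((c1.add c2).intervalIntegrable _ _)).trans ?_
    · rw [norm_mul, norm_ee, one_mul, norm_star]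
      exact norm_sub_le _ _
    · rw [intervalIntegral.integral_add (c1.intervalIntegrable _ _) (c2.intervalIntegrable _ _),
        intervalIntegral.integral_comp_neg fun s => ‖c s‖,
        intervalIntegral.integral_comp_sub_left (fun s => ‖c s‖) r, neg_zero, sub_self, sub_zero,
        intervalIntegral.integral_add_adjacent_intervals (cc.norm.intervalIntegrable _ _)
          (cc.norm.intervalIntegrable _ _)]
      exact hL
  have n := congrArg norm (eq_sub_of_add_eq ibp)
  have b1 : ∀ s ∈ Icc 0 r, ‖ee (-th X k * s) * Ψ s‖ ≤ L := fun s hs => by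
    rw [norm_mul, norm_ee, one_mul]
    exact bΨ s hs
  have b := (norm_sub_le _ _).trans (add_le_add ((norm_sub_le _ _).trans
    (add_le_add (b1 r ⟨hr, le_rfl⟩) (b1 0 ⟨le_rfl, hr⟩))) b3)
  rw [← n] at b
  simp only [norm_mul, Complex.norm_real, Complex.norm_I, Complex.norm_ofNat, Real.norm_eq_abs,
    abs_neg, mul_one, abs_of_pos Real.pi_pos] at b
  have q : 0 ≤ ‖∫ s in (0 : ℝ)..r, ee (-th X k * s) * Ψ s‖ * |th X k| := by positivity
  nlinarith [mul_le_mul_of_nonneg_right Real.pi_gt_three.le q]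

end Pool.Agent.P.MP_442888_an.Mix
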