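import Pool.Agent.P.MP_442888_an.MixFour

set_option autoImplicit false

open MeasureTheory Filter Topology Set
open scoped ComplexConjugate Real

namespace Pool.Agent.P.MP_442888_an.Mix

variable {X : G3} {F : CN} {C : ℝ}

instance : Fact ((1 : ENNReal) ≤ 4) := ⟨by norm_num⟩

lemma norm_toLp_four (F : CN) :
    ‖ContinuousMap.toLp (E := ℂ) 4 haar ℂ F‖ ^ 2 = n2 (F * star F) := by
  refine (pow_left_inj₀ (by positivity) (n2_nonneg _) two_ne_zero).1 ?_
  have hm : MemLp (fun p => F p) 4 haar :=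
    (memLp_congr_ae (ContinuousMap.coeFn_toLp (p := 4) (𝕜 := ℂ) haar F)).1 (Lp.memLp _)
  have h1 : ∫ p, ‖(F * star F) p‖ ^ 2 ∂haar = ∫ p, ‖F p‖ ^ (4 : ℝ) ∂haar := by
    refine integral_congr_ae (Eventually.of_forall fun p => ?_)
    simp only [ContinuousMap.mul_apply, ContinuousMap.star_apply, norm_mul, norm_star]
    rw [show (4 : ℝ) = (4 : ℕ) by norm_num, Real.rpow_natCast]
    ring
  have h2 : 0 ≤ ∫ p, ‖F p‖ ^ (4 : ℝ) ∂haar := integral_nonneg fun p => by positivity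
  have h4 : (4 : ENNReal).toReal = 4 := by norm_num
  rw [n2_sq, h1, Lp.norm_def,
    eLpNorm_congr_ae (ContinuousMap.coeFn_toLp (p := 4) (𝕜 := ℂ) haar F),
    hm.eLpNorm_eq_integral_rpow_norm (by norm_num) (by norm_num), h4,
    ENNReal.toReal_ofReal (by positivity), ← pow_mul, ← Real.rpow_natCast, ← Real.rpow_mul h2]
  norm_num

/-- Fourth moment bound at a good denominator. -/
theorem four (ha : X.1 ≠ 0) (h : Bd 1 5 F C) (h0 : Av F = 0) :
    ∃ K : ℝ, 0 ≤ K ∧ ∀ q : ℕ, Good X q → n2 (S X F q * star (S X F q)) ≤ K * q := by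
  obtain ⟨K, hK0, hK⟩ := four_mode ha
  have hC : 0 ≤ C := h.nonneg
  have hs : Summable fun m : ℤ => 1 / (m : ℝ) ^ 2 := Real.summable_one_div_int_pow.2 one_lt_two
  have hB : ∀ m : ℤ, m ≠ 0 → Bd 1 2 (Pm m F) (C / |(m : ℝ)| ^ 3) := fun m hm =>
    Bd.Pm (n := 2) (j := 3) h hm
  have h1 : ∀ m : ℤ, m ≠ 0 → (1 : ℝ) ≤ |(m : ℝ)| := fun m hm => by
    exact_mod_cast Int.one_le_abs hm
  have hP0 : Pm 0 F = 0 := by rw [Pm_zero, h0]
  have hsum : Summable fun m : ℤ => ‖Pm m F‖ := by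
    refine Summable.of_nonneg_of_le (fun m => norm_nonneg _) (fun m => ?_) (hs.mul_left C)
    by_cases hm : m = 0
    · subst hm
      simp [hP0]
    · refine (hB m hm).norm_le.trans ?_
      have h2 := h1 m hm
      rw [mul_one_div, ← sq_abs (m : ℝ)]
      exact div_le_div_of_nonneg_left hC (by positivity) (pow_le_pow_right₀ h2 (by norm_num))
  refine ⟨K * C ^ 2 * (∑' m : ℤ, 1 / (m : ℝ) ^ 2) ^ 2, by positivity, fun q hq => ?_⟩
  let T : CN →L[ℂ] Lp ℂ 4 haar := (ContinuousMap.toLp (E := ℂ) 4 haar ℂ).comp (SL X q)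
  have hT : ∀ G : CN, ‖T G‖ ^ 2 = n2 (S X G q * star (S X G q)) := fun G =>
    norm_toLp_four (S X G q)
  have hb : ∀ m : ℤ, ‖T (Pm m F)‖ ≤ √(K * C ^ 2 * q) * (1 / (m : ℝ) ^ 2) := by
    intro m
    by_cases hm : m = 0
    · subst hm
      simp [hP0]
    · refine le_of_sq_le_sq ?_ (by positivity)
      have h2 := h1 m hm
      have h3 : 0 < |(m : ℝ)| := by linarith
      rw [hT, mul_pow, Real.sq_sqrt (by positivity)]
      refine (hK m _ _ q hm hq (mode_Pm m F) (hB m hm)).trans ?_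
      rw [← sq_abs (m : ℝ)]
      generalize |(m : ℝ)| = x at h2 h3
      have e1 : K * (C / x ^ 3) ^ 2 * x * q = K * C ^ 2 * q * (1 / x ^ 2) ^ 2 * (1 / x) := by
        field_simp
      rw [e1]
      refine mul_le_of_le_one_right (by positivity) ?_
      rw [div_le_one h3]
      exact h2
  have hS := (hasSum_Pm hsum).mapL T
  have hn : ‖T F‖ ≤ √(K * C ^ 2 * q) * ∑' m : ℤ, 1 / (m : ℝ) ^ 2 :=
    hS.norm_le_of_bounded (hs.hasSum.mul_left _) hb
  rw [← hT]
  refine (pow_le_pow_left₀ (norm_nonneg _) hn 2).trans (le_of_eq ?_)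
  rw [mul_pow, Real.sq_sqrt (by positivity)]
  ring

end Pool.Agent.P.MP_442888_an.Mix
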