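import Pool.Agent.P.MP_442888_an.MixErg
import Pool.Agent.P.MP_442888_an.MixMode

set_option autoImplicit false

open MeasureTheory Filter Topology Set
open scoped ComplexConjugate Real

namespace Pool.Agent.P.MP_442888_an.Mix

variable {X : G3} {F : CN} {C : ℝ}

/-- Normalised square of the ergodic integral. -/
noncomputable def Qf (X : G3) (F : CN) (r : ℝ) (p : Nil) : ℝ := ‖S X F r p‖ ^ 2 / r

lemma continuous_Qf (F : CN) (r : ℝ) : Continuous (Qf X F r) := by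
  unfold Qf
  exact ((S X F r).continuous.norm.pow 2).div_const r

lemma integral_Qf (F : CN) (r : ℝ) : ∫ p, Qf X F r p ∂haar = n2 (S X F r) ^ 2 / r := by
  simp only [Qf]
  rw [integral_div, n2_sq]

lemma integral_Qf_sq (F : CN) (r : ℝ) :
    ∫ p, Qf X F r p ^ 2 ∂haar = n2 (S X F r * star (S X F r)) ^ 2 / r ^ 2 := by
  rw [n2_sq, ← integral_div]
  refine integral_congr_ae (Eventually.of_forall fun p => ?_)
  simp only [Qf, ContinuousMap.mul_apply, ContinuousMap.star_apply, norm_mul, norm_star]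
  ring

/-- The normalised square as an element of the algebra. -/
noncomputable def QcCov (X : G3) (F : CN) (r : ℝ) : CN :=
  ((r⁻¹ : ℝ) : ℂ) • (S X F r * star (S X F r))

lemma QcCov_apply (F : CN) (r : ℝ) (p : Nil) : QcCov X F r p = (Qf X F r p : ℂ) := by
  simp only [QcCov, Qf, ContinuousMap.smul_apply, ContinuousMap.mul_apply,
    ContinuousMap.star_apply, smul_eq_mul, Complex.star_def, Complex.mul_conj,
    Complex.normSq_eq_norm_sq]
  push_cast
  ring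

lemma E_QcCov (F : CN) (r : ℝ) : E (QcCov X F r) = ((∫ p, Qf X F r p ∂haar : ℝ) : ℂ) := by
  rw [E_apply, ← integral_complex_ofReal]
  simp only [QcCov_apply]

lemma ip_QcCov (F : CN) (r r' : ℝ) :
    ip (QcCov X F r' - E (QcCov X F r') • (1 : CN)) (QcCov X F r) =
      ((∫ p, Qf X F r p * Qf X F r' p ∂haar -
          (∫ p, Qf X F r p ∂haar) * ∫ p, Qf X F r' p ∂haar : ℝ) : ℂ) := by
  rw [ip_sub_left, ip_smul_left]
  have h1 : ip (QcCov X F r') (QcCov X F r) =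
      ((∫ p, Qf X F r p * Qf X F r' p ∂haar : ℝ) : ℂ) := by
    rw [ip, E_apply, ← integral_complex_ofReal]
    refine integral_congr_ae (Eventually.of_forall fun p => ?_)
    simp only [ContinuousMap.mul_apply, ContinuousMap.star_apply, QcCov_apply, Complex.star_def,
      Complex.conj_ofReal]
    push_cast
    ring
  have h2 : ip 1 (QcCov X F r) = ((∫ p, Qf X F r p ∂haar : ℝ) : ℂ) := by
    rw [ip, one_mul, E_star, E_QcCov, Complex.conj_ofReal]
  rw [h1, h2, E_QcCov]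
  push_cast
  ring

lemma avg_Cov (H G : CN) {ρ B : ℝ} (hρ : 0 < ρ)
    (hB : ∀ v ∈ Icc (0 : ℝ) ρ, ‖ip (U X v H) (U X v G - G)‖ ≤ B) :
    ‖ip H G‖ ≤ n2 (S X H ρ) * n2 G / ρ + B := by
  have hc : Continuous fun v => ip (U X v H) G := (ipL G).continuous.comp (continuous_U H)
  have h1 : ip (S X H ρ) G = ∫ v in (0 : ℝ)..ρ, ip (U X v H) G :=
    clm_integral (ipL G) (continuous_U H) 0 ρ
  have h2 : (ρ : ℂ) * ip H G - ip (S X H ρ) G =
      ∫ v in (0 : ℝ)..ρ, (ip H G - ip (U X v H) G) := by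
    rw [intervalIntegral.integral_sub (continuous_const.intervalIntegrable _ _)
      (hc.intervalIntegrable _ _), h1]
    simp
  have h3 : ‖(ρ : ℂ) * ip H G - ip (S X H ρ) G‖ ≤ B * |ρ - 0| := by
    rw [h2]
    refine intervalIntegral.norm_integral_le_of_norm_le_const fun v hv => ?_
    rw [uIoc_of_le hρ.le] at hv
    have := hB v (Ioc_subset_Icc_self hv)
    rwa [ip_sub_right, ip_U] at this
  rw [sub_zero, abs_of_pos hρ] at h3
  have h4 := norm_ip_le (S X H ρ) G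
  have h5 : ‖(ρ : ℂ) * ip H G‖ ≤ ‖(ρ : ℂ) * ip H G - ip (S X H ρ) G‖ + ‖ip (S X H ρ) G‖ :=
    norm_le_norm_sub_add _ _
  rw [norm_mul, Complex.norm_real, Real.norm_eq_abs, abs_of_pos hρ] at h5
  rw [div_add' _ _ _ hρ.ne', le_div_iff₀ hρ]
  nlinarith

lemma shift_Cov (H T : CN) (v : ℝ) :
    ‖ip H (U X v (T * star T) - T * star T)‖ ≤ 2 * ‖H‖ * n2 (U X v T - T) * n2 T := by
  have e : U X v (T * star T) - T * star T =
      (U X v T - T) * star (U X v T) + T * star (U X v T - T) := by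
    rw [U_mul, U_star, star_sub]; ring
  have e1 : ip H ((U X v T - T) * star (U X v T)) = ip (H * U X v T) (U X v T - T) := by
    simp only [ip, star_mul, star_star, mul_assoc]
  have e2 : ip H (T * star (U X v T - T)) = ip (H * (U X v T - T)) T := by
    simp only [ip, star_mul, star_star, mul_assoc]
  rw [e, ip_add_right, e1, e2]
  have h1 := norm_ip_le (H * U X v T) (U X v T - T)
  have h2 := norm_ip_le (H * (U X v T - T)) T
  have h3 := n2_mul_le H (U X v T)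
  have h4 := n2_mul_le H (U X v T - T)
  rw [n2_U] at h3
  have h5 := mul_le_mul_of_nonneg_right h3 (n2_nonneg (U X v T - T))
  have h6 := mul_le_mul_of_nonneg_right h4 (n2_nonneg T)
  refine (norm_add_le _ _).trans ?_
  nlinarith

lemma sqrt_Cov (ha : X.1 ≠ 0) (h : Bd 1 3 F C) (h0 : Av F = 0) :
    ∃ K : ℝ, 0 ≤ K ∧ ∀ ρ T : ℝ, 1 ≤ ρ → 0 ≤ T → T ≤ ρ → n2 (S X F T) ≤ K * √ρ := by
  obtain ⟨σ, K, hK⟩ := variance ha h h0
  refine ⟨√(|σ| + |K|), Real.sqrt_nonneg _, fun ρ T hρ hT hTρ => ?_⟩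
  rw [← Real.sqrt_mul (by positivity)]
  refine Real.le_sqrt_of_sq_le ?_
  have h1 := (abs_le.1 (hK T hT)).2
  have h2 : σ * T ≤ |σ| * ρ :=
    mul_le_mul (le_abs_self σ) hTρ hT (abs_nonneg _)
  have h3 : K ≤ |K| * ρ := (le_abs_self K).trans (le_mul_of_one_le_right (abs_nonneg _) hρ)
  nlinarith

lemma norm_one_Cov : ‖(1 : CN)‖ ≤ 1 := (ContinuousMap.norm_le _ zero_le_one).2 (by simp)

lemma norm_QcCov (hC : ‖F‖ ≤ C) {r : ℝ} (hr : 0 < r) : ‖QcCov X F r‖ ≤ C ^ 2 * r := by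
  have h1 : ‖S X F r‖ ≤ C * r := by
    have := norm_S_le (X := X) F r
    rw [abs_of_pos hr] at this
    exact this.trans (mul_le_mul_of_nonneg_right hC hr.le)
  rw [QcCov, norm_smul, Complex.norm_real, Real.norm_eq_abs, abs_of_pos (inv_pos.2 hr),
    inv_mul_le_iff₀ hr]
  refine (norm_mul_le _ _).trans ?_
  rw [norm_star]
  nlinarith [norm_nonneg (S X F r)]

lemma der_QcCov (h : Bd 1 1 F C) {r : ℝ} (hr : 1 ≤ r) : ∃ GY GZ, Der (QcCov X F r) GY GZ ∧
    ‖GY‖ ≤ 2 * C ^ 2 * (1 + |X.1|) * r ^ 2 := by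
  have hr0 : 0 < r := by linarith
  obtain ⟨h1, SY, SZ, hD, hY, -⟩ := h.S (X := X) r
  have hY' : ‖SY‖ ≤ (1 + |X.1| * |r|) * (C * |r|) := hY
  rw [abs_of_pos hr0] at h1 hY'
  have hC := h.nonneg
  refine ⟨_, _, (hD.mul hD.star).smul _, ?_⟩
  rw [norm_smul, Complex.norm_real, Real.norm_eq_abs, abs_of_pos (inv_pos.2 hr0),
    inv_mul_le_iff₀ hr0]
  have h2 : ‖SY * star (S X F r) + S X F r * star SY‖ ≤ 2 * (‖SY‖ * ‖S X F r‖) := by
    refine (norm_add_le _ _).trans ?_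
    have a1 := norm_mul_le SY (star (S X F r))
    have a2 := norm_mul_le (S X F r) (star SY)
    rw [norm_star] at a1 a2
    linarith
  have h3 : ‖SY‖ * ‖S X F r‖ ≤ (1 + |X.1| * r) * (C * r) * (C * r) :=
    mul_le_mul hY' h1 (norm_nonneg _) (by positivity)
  have h4 : 1 + |X.1| * r ≤ (1 + |X.1|) * r := by nlinarith
  have h5 : (1 + |X.1| * r) * (C * r) * (C * r) ≤ (1 + |X.1|) * r * (C * r) * (C * r) := by
    gcongr
  nlinarith

/-- Decorrelation of two different scales. -/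
theorem cov (hX : Dio X) (h : Bd 1 5 F C) (h0 : Av F = 0) : ∃ K γ : ℝ, 0 ≤ K ∧ 0 < γ ∧
    ∀ q q' : ℕ, Good X q → Good X q' → ∀ ρ : ℝ, 1 ≤ ρ →
      |∫ p, Qf X F q p * Qf X F q' p ∂haar -
          (∫ p, Qf X F q p ∂haar) * ∫ p, Qf X F q' p ∂haar| ≤
        K * (q' * √ρ / √q + (q' : ℝ) ^ 2 * ρ ^ (-γ)) := by
  have ha : X.1 ≠ 0 := hX.irr.ne
  obtain ⟨K4, hK4, h4⟩ := four ha h h0
  obtain ⟨Ke, γ, hKe, hγ, he⟩ := eff_erg hX
  obtain ⟨K1, hK1, h1⟩ := sqrt_Cov ha (h.of_le (by norm_num)) h0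
  have hC := h.nonneg
  refine ⟨8 * K1 ^ 2 * C ^ 2 + Ke * (2 * C ^ 2 * (1 + |X.1|)) * K4, γ, by positivity, hγ,
    fun q q' hq hq' ρ hρ => ?_⟩
  have hq1 : (1 : ℝ) ≤ q := by exact_mod_cast hq.1
  have hq1' : (1 : ℝ) ≤ q' := by exact_mod_cast hq'.1
  have hq0 : (0 : ℝ) < q := by linarith
  have hq0' : (0 : ℝ) < q' := by linarith
  have hρ0 : 0 < ρ := by linarith
  rw [← Real.norm_eq_abs, ← Complex.norm_real, ← ip_QcCov]
  set H : CN := QcCov X F q' - E (QcCov X F q') • (1 : CN) with hH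
  have hG' := norm_QcCov (X := X) h.norm_le hq0'
  have hHn : ‖H‖ ≤ 2 * C ^ 2 * q' := by
    refine (norm_sub_le _ _).trans ?_
    rw [norm_smul]
    have a1 := norm_E_le (QcCov X F q')
    have a2 := mul_le_mul a1 norm_one_Cov (norm_nonneg _) (norm_nonneg _)
    linarith
  have hG : n2 (QcCov X F q) ≤ K4 := by
    rw [QcCov, n2_smul, Complex.norm_real, Real.norm_eq_abs, abs_of_pos (inv_pos.2 hq0),
      inv_mul_le_iff₀ hq0, mul_comm (q : ℝ)]
    exact h4 q hq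
  obtain ⟨GY, GZ, hD, hY⟩ := der_QcCov (X := X) (h.of_le (m := 1) (by norm_num)) hq1'
  have hS : n2 (S X H ρ) ≤ Ke * (2 * C ^ 2 * (1 + |X.1|) * (q' : ℝ) ^ 2) * ρ * ρ ^ (-γ) := by
    refine he _ GY GZ _ hD (hG'.trans ?_) hY ρ hρ
    have a1 : (q' : ℝ) ≤ (q' : ℝ) ^ 2 := by nlinarith
    have a2 : C ^ 2 ≤ 2 * C ^ 2 * (1 + |X.1|) := by nlinarith [abs_nonneg X.1, sq_nonneg C]
    exact mul_le_mul a2 a1 hq0'.le (by positivity)
  have hsq : 0 < √(q : ℝ) := Real.sqrt_pos.2 hq0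
  have hB : ∀ v ∈ Icc (0 : ℝ) ρ, ‖ip (U X v H) (U X v (QcCov X F q) - QcCov X F q)‖ ≤
      8 * K1 ^ 2 * C ^ 2 * (q' * √ρ / √q) := by
    intro v hv
    have e : U X v (QcCov X F q) - QcCov X F q = (((q : ℝ)⁻¹ : ℝ) : ℂ) •
        (U X v (S X F q * star (S X F q)) - S X F q * star (S X F q)) := by
      rw [QcCov, map_smul, smul_sub]
    have eD : U X v (S X F q) - S X F q = U X q (S X F v) - S X F v := by
      have a1 := S_add_time (X := X) F v q
      have a2 := S_add_time (X := X) F q v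
      rw [add_comm, a1] at a2
      linear_combination a2
    have hD2 : n2 (U X v (S X F q) - S X F q) ≤ 2 * (K1 * √ρ) := by
      rw [eD]
      refine (n2_sub_le _ _).trans ?_
      rw [n2_U]
      have := h1 ρ v hρ hv.1 hv.2
      linarith
    have hT : n2 (S X F q) ≤ K1 * √q := h1 q q hq1 hq0.le le_rfl
    rw [e, ip_smul_right, norm_mul, Complex.conj_ofReal, Complex.norm_real, Real.norm_eq_abs,
      abs_of_pos (inv_pos.2 hq0), inv_mul_le_iff₀ hq0]
    refine (shift_Cov _ _ v).trans ?_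
    have hU := (norm_U_le (X := X) v H).trans hHn
    have hn1 := n2_nonneg (U X v (S X F q) - S X F q)
    have hn2 := n2_nonneg (S X F q)
    calc 2 * ‖U X v H‖ * n2 (U X v (S X F q) - S X F q) * n2 (S X F q)
        ≤ 2 * (2 * C ^ 2 * q') * (2 * (K1 * √ρ)) * (K1 * √q) := by gcongr
      _ = q * (8 * K1 ^ 2 * C ^ 2 * (q' * √ρ / √q)) := by
        have hqq : (q : ℝ) = √q * √q := (Real.mul_self_sqrt hq0.le).symm
        generalize √(q : ℝ) = s at hqq hsq ⊢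
        rw [hqq]
        field_simp
        ring
  refine (avg_Cov H _ hρ0 hB).trans ?_
  have hr : 0 ≤ ρ ^ (-γ) := by positivity
  have hfirst : n2 (S X H ρ) * n2 (QcCov X F q) / ρ ≤
      Ke * (2 * C ^ 2 * (1 + |X.1|)) * K4 * ((q' : ℝ) ^ 2 * ρ ^ (-γ)) := by
    rw [div_le_iff₀ hρ0]
    have := mul_le_mul hS hG (n2_nonneg _) (by positivity)
    refine this.trans (le_of_eq ?_)
    ring
  have p1 : 0 ≤ 8 * K1 ^ 2 * C ^ 2 * ((q' : ℝ) ^ 2 * ρ ^ (-γ)) := by positivity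
  have p2 : 0 ≤ Ke * (2 * C ^ 2 * (1 + |X.1|)) * K4 * (q' * √ρ / √q) := by positivity
  nlinarith

end Pool.Agent.P.MP_442888_an.Mix
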