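import Pool.Agent.P.MP_442888_an.MixBd

set_option autoImplicit false

open MeasureTheory Filter Topology Set
open scoped ComplexConjugate Real

namespace Pool.Agent.P.MP_442888_an.Mix

variable {X : G3} {F G GY GZ H HY HZ : CN} {C C' : ℝ}

lemma ip_U_Z (hH : Der H HY HZ) (hG : Der G GY GZ) (v : ℝ) :
    ((v * X.1 : ℝ) : ℂ) * ip (U X v HZ) G = ip (U X v HY) G + ip (U X v H) GY := by
  have h := ((hH.U (X := X) v).mul hG.star).E_Y
  rw [map_add] at h
  change ip _ G + ip _ GY = 0 at h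
  rw [map_sub, map_smul, ip_sub_left, ip_smul_left] at h
  linear_combination -h

lemma norm_ip_U_le_decay (v : ℝ) (hF : ‖F‖ ≤ C) (hG : ‖G‖ ≤ C') :
    ‖ip (U X v F) G‖ ≤ C * C' := by
  refine (norm_ip_le _ _).trans ?_
  rw [n2_U]
  exact mul_le_mul ((n2_le_norm _).trans hF) ((n2_le_norm _).trans hG) (n2_nonneg _)
    ((norm_nonneg _).trans hF)

/-- Decay of correlations for functions with zero fibre average. -/
theorem decay {k : ℕ} (hF : Bd 1 k F C) (hG : Bd 1 k G C') (h0 : Av F = 0) (v : ℝ) :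
    |v * X.1| ^ k * ‖ip (U X v F) G‖ ≤ 2 ^ k * C * C' := by
  induction k generalizing F G with
  | zero => simpa using norm_ip_U_le_decay v hF.norm_le hG.norm_le
  | succ k ih =>
    have hF' := hF.of_le (Nat.le_succ k)
    have hG' := hG.of_le (Nat.le_succ k)
    obtain ⟨-, FY, FZ, hFd, hFY, -⟩ := hF
    obtain ⟨-, GY, GZ, hGd, hGY, -⟩ := hG
    rw [one_mul] at hFY hGY
    have hP := hFd.Pr
    rw [hFd.Pr_Z, h0, sub_zero] at hP
    have key := ip_U_Z (X := X) hP hGd v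
    have h1 := ih hFY.Pr hG' (Av_Pr _)
    have h2 := ih hF'.Pr hGY (Av_Pr _)
    have h3 : |v * X.1| * ‖ip (U X v F) G‖ ≤
        ‖ip (U X v (Pr FY)) G‖ + ‖ip (U X v (Pr F)) GY‖ := by
      have := norm_add_le (ip (U X v (Pr FY)) G) (ip (U X v (Pr F)) GY)
      rwa [← key, norm_mul, Complex.norm_real, Real.norm_eq_abs] at this
    have h4 := mul_le_mul_of_nonneg_left h3 (pow_nonneg (abs_nonneg (v * X.1)) k)
    rw [pow_succ, pow_succ]
    nlinarith

lemma continuous_ip_U_decay (F G : CN) : Continuous fun v => ip (U X v F) G :=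
  (ipL G).continuous.comp (continuous_U F)

lemma re_ip_S_decay (F : CN) (T : ℝ) :
    (ip (S X F T) (U X T F)).re = (∫ v in (0 : ℝ)..T, ip (U X v F) F).re := by
  have h1 : ip (S X F T) (U X T F) = ∫ s in (0 : ℝ)..T, ip (U X s F) (U X T F) :=
    clm_integral (ipL (U X T F)) (continuous_U F) 0 T
  have h2 : ∀ s, (ip (U X s F) (U X T F)).re = (ip (U X (T - s) F) F).re := fun s => by
    rw [← ip_conj, Complex.conj_re, ← ip_U (X := X) s (U X (T - s) F) F, U_U, add_sub_cancel]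
  have h3 := Complex.reCLM.intervalIntegral_comp_comm
    ((continuous_ip_U_decay (X := X) F (U X T F)).intervalIntegrable (μ := volume) 0 T)
  have h4 := Complex.reCLM.intervalIntegral_comp_comm
    ((continuous_ip_U_decay (X := X) F F).intervalIntegrable (μ := volume) 0 T)
  simp only [Complex.reCLM_apply] at h3 h4
  rw [h1, ← h3, ← h4]
  simp only [h2]
  rw [intervalIntegral.integral_comp_sub_left (fun v => (ip (U X v F) F).re) T]
  simp

lemma hasDerivAt_n2_S (F : CN) (T : ℝ) : HasDerivAt (fun T => n2 (S X F T) ^ 2)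
    (2 * (∫ v in (0 : ℝ)..T, ip (U X v F) F).re) T := by
  have h1 : HasDerivAt (fun T => L2 (S X F T)) (L2 (U X T F)) T :=
    (L2.restrictScalars ℝ).hasFDerivAt.comp_hasDerivAt T (hasDerivAt_S F T)
  have h2 := HasDerivAt.inner ℂ h1 h1
  have h3 := Complex.reCLM.hasFDerivAt.comp_hasDerivAt T h2
  have h4 : (fun T => n2 (S X F T) ^ 2) =
      Complex.reCLM ∘ fun T => inner ℂ (L2 (S X F T)) (L2 (S X F T)) := by
    funext t
    simp only [Function.comp, Complex.reCLM_apply]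
    rw [← ip_eq_inner, ip_self, Complex.ofReal_re]
  rw [h4]
  refine h3.congr_deriv ?_
  rw [← ip_eq_inner, ← ip_eq_inner, Complex.reCLM_apply, Complex.add_re, ← ip_conj (S X F T),
    Complex.conj_re, re_ip_S_decay]
  ring

lemma abs_sub_le_decay {f f' h h' : ℝ → ℝ} {a b : ℝ} (hab : a ≤ b)
    (hf : ∀ x ∈ Icc a b, HasDerivAt f (f' x) x) (hh : ∀ x ∈ Icc a b, HasDerivAt h (h' x) x)
    (hb : ∀ x ∈ Icc a b, |f' x| ≤ h' x) : |f b - f a| ≤ h b - h a := by
  have := image_norm_le_of_norm_deriv_right_le_deriv_boundary' (f := fun x => f x - f a)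
    (f' := f') (a := a) (b := b)
    (fun x hx => ((hf x hx).sub_const _).continuousAt.continuousWithinAt)
    (fun x hx => ((hf x (Ico_subset_Icc_self hx)).sub_const _).hasDerivWithinAt)
    (B := fun x => h x - h a) (B' := h') (by simp)
    (fun x hx => ((hh x hx).sub_const _).continuousAt.continuousWithinAt)
    (fun x hx => ((hh x (Ico_subset_Icc_self hx)).sub_const _).hasDerivWithinAt)
    (fun x hx => hb x (Ico_subset_Icc_self hx)) (right_mem_Icc.2 hab)
  simpa using this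

lemma hasDerivAt_gamma_decay (F : CN) (T : ℝ) :
    HasDerivAt (fun T => (∫ v in (0 : ℝ)..T, ip (U X v F) F).re) (ip (U X T F) F).re T :=
  Complex.reCLM.hasFDerivAt.comp_hasDerivAt T
    ((continuous_ip_U_decay (X := X) F F).integral_hasStrictDerivAt 0 T).hasDerivAt

lemma linear_growth_decay {N Γ g : ℝ → ℝ} {B : ℝ} (hN : ∀ x, HasDerivAt N (2 * Γ x) x)
    (hN0 : N 0 = 0) (hΓ : ∀ x, HasDerivAt Γ (g x) x)
    (hg : ∀ x, 0 ≤ x → |g x| * (1 + x) ^ 3 ≤ B) :
    ∃ σ K : ℝ, ∀ T, 0 ≤ T → |N T - σ * T| ≤ K := by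
  have hB : 0 ≤ B := le_trans (by positivity) (hg 0 le_rfl)
  have hinv : ∀ x : ℝ, 0 ≤ x → HasDerivAt (fun x : ℝ => (1 + x)⁻¹) (-((1 + x) ^ 2)⁻¹) x :=
    fun x hx => by
      have := ((hasDerivAt_id x).const_add 1).inv (by simp only [id]; positivity)
      refine this.congr_deriv ?_
      simp only [id]; field_simp
  have h1 : ∀ s t : ℝ, 0 ≤ s → s ≤ t →
      |Γ t - Γ s| ≤ -(B / 2) * (1 + t)⁻¹ ^ 2 - -(B / 2) * (1 + s)⁻¹ ^ 2 := fun s t hs hst => by
    refine abs_sub_le_decay (f' := g) (h := fun x => -(B / 2) * (1 + x)⁻¹ ^ 2)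
      (h' := fun x => B / (1 + x) ^ 3) hst (fun x _ => hΓ x) (fun x hx => ?_) fun x hx => ?_
    · have hx0 : 0 ≤ x := hs.trans hx.1
      refine (((hinv x hx0).pow 2).const_mul (-(B / 2))).congr_deriv ?_
      have : (1 + x) ≠ 0 := by positivity
      simp only [Nat.cast_ofNat, Nat.add_one_sub_one, pow_one]
      field_simp
    · have hx0 : 0 ≤ x := hs.trans hx.1
      rw [le_div_iff₀ (by positivity)]
      exact hg x hx0
  obtain ⟨σ, hσ1, hσ2⟩ := exists_between_of_forall_le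
    (s := (fun s => Γ s - B / 2 * (1 + s)⁻¹ ^ 2) '' Ici 0)
    (t := (fun s => Γ s + B / 2 * (1 + s)⁻¹ ^ 2) '' Ici 0)
    ⟨_, 0, self_mem_Ici, rfl⟩ ⟨_, 0, self_mem_Ici, rfl⟩ (by
      rintro _ ⟨s, hs, rfl⟩ _ ⟨t, ht, rfl⟩
      have e1 : 0 ≤ B / 2 * (1 + s)⁻¹ ^ 2 := by positivity
      have e2 : 0 ≤ B / 2 * (1 + t)⁻¹ ^ 2 := by positivity
      rcases le_total s t with h | h
      · have := (abs_le.1 (h1 s t hs h)).1
        linarith
      · have := (abs_le.1 (h1 t s ht h)).2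
        linarith)
  refine ⟨2 * σ, B, fun T hT => ?_⟩
  have h2 := abs_sub_le_decay (f := fun x => N x - 2 * σ * x) (f' := fun x => 2 * Γ x - 2 * σ)
    (h := fun x => -B * (1 + x)⁻¹) (h' := fun x => B * (1 + x)⁻¹ ^ 2) hT
    (fun x _ => (hN x).sub (by simpa using (hasDerivAt_id x).const_mul (2 * σ)))
    (fun x hx => ((hinv x hx.1).const_mul (-B)).congr_deriv (by rw [inv_pow]; ring))
    (fun x hx => by
      have e1 := hσ1 ⟨x, hx.1, rfl⟩
      have e2 := hσ2 ⟨x, hx.1, rfl⟩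
      simp only at e1 e2
      rw [abs_le]
      constructor <;> linarith)
  simp only [hN0, mul_zero, sub_zero, add_zero, inv_one, mul_one] at h2
  have : 0 ≤ B * (1 + T)⁻¹ := by positivity
  linarith

/-- The variance of the ergodic integrals grows linearly. -/
theorem variance (ha : X.1 ≠ 0) (h : Bd 1 3 F C) (h0 : Av F = 0) :
    ∃ σ K : ℝ, ∀ T, 0 ≤ T → |n2 (S X F T) ^ 2 - σ * T| ≤ K := by
  refine linear_growth_decay (B := 4 * (C * C) + 4 * (2 ^ 3 * C * C / |X.1| ^ 3))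
    (hasDerivAt_n2_S F) (by simp [S_zero, n2]) (hasDerivAt_gamma_decay F) fun x hx => ?_
  have h1 := norm_ip_U_le_decay (X := X) x h.norm_le h.norm_le
  have h2 := decay (X := X) h h h0 x
  have ha' : 0 < |X.1| := abs_pos.2 ha
  have h3 : x ^ 3 * ‖ip (U X x F) F‖ ≤ 2 ^ 3 * C * C / |X.1| ^ 3 := by
    rw [le_div_iff₀ (by positivity)]
    rw [abs_mul, abs_of_nonneg hx, mul_pow] at h2
    linarith
  have h4 : (1 + x) ^ 3 ≤ 4 + 4 * x ^ 3 := by
    nlinarith [mul_nonneg (add_nonneg zero_le_one hx) (sq_nonneg (x - 1))]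
  have h5 := Complex.abs_re_le_norm (ip (U X x F) F)
  calc |(ip (U X x F) F).re| * (1 + x) ^ 3 ≤ ‖ip (U X x F) F‖ * (4 + 4 * x ^ 3) := by gcongr
    _ ≤ _ := by linarith

theorem eff_nontoral (ha : X.1 ≠ 0) : ∃ K : ℝ, 0 ≤ K ∧ ∀ (G GY GZ : CN) (C : ℝ), Der G GY GZ →
    ‖G‖ ≤ C → ‖GY‖ ≤ C → ∀ T : ℝ, 1 ≤ T → n2 (S X (G - Av G) T) ≤ K * C * T ^ (3 / 4 : ℝ) := by
  have ha' : 0 < |X.1| := abs_pos.2 ha
  refine ⟨4 * (1 + |X.1|⁻¹), by positivity, fun G GY GZ C hD hG hGY T hT => ?_⟩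
  have hC : 0 ≤ C := (norm_nonneg _).trans hG
  have hP := hD.Pr
  rw [hD.Pr_Z] at hP
  have hD' := hD.sub hD.Av
  have n1 : ‖G - Av G‖ ≤ 2 * C :=
    (norm_sub_le _ _).trans (by linarith [norm_Av_le G])
  have n2' : ‖GY - Av GY‖ ≤ 2 * C :=
    (norm_sub_le _ _).trans (by linarith [norm_Av_le GY])
  set G' := G - Av G with hG'
  set B := 4 * C ^ 2 * (1 + |X.1|⁻¹) with hB
  have hB0 : 0 ≤ B := by positivity
  have hc : ∀ x : ℝ, 0 ≤ x → |(ip (U X x G') G').re| ≤ B * (1 + x)⁻¹ := fun x hx => by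
    have key := ip_U_Z (X := X) hP hD' x
    have h1 := norm_ip_U_le_decay (X := X) x n1 n1
    have h2 := norm_ip_U_le_decay (X := X) x ((norm_Pr_le GY).trans hGY) n1
    have h3 := norm_ip_U_le_decay (X := X) x ((norm_Pr_le G).trans hG) n2'
    have h4 := norm_add_le (ip (U X x (Pr GY)) G') (ip (U X x (Pr G)) (GY - Av GY))
    rw [← key, norm_mul, Complex.norm_real, Real.norm_eq_abs, abs_mul, abs_of_nonneg hx] at h4
    have h5 : x * ‖ip (U X x G') G'‖ ≤ 4 * C ^ 2 * |X.1|⁻¹ := by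
      rw [← div_eq_mul_inv, le_div_iff₀ ha']
      nlinarith
    refine (Complex.abs_re_le_norm _).trans ?_
    rw [← div_eq_mul_inv, le_div_iff₀ (by positivity), hB]
    nlinarith
  set s := √T with hs
  have hs1 : 1 ≤ s := Real.one_le_sqrt.2 hT
  have hsT : s ^ 2 = T := Real.sq_sqrt (by linarith)
  have hΓ : ∀ τ ∈ Icc 0 T, |(∫ v in (0 : ℝ)..τ, ip (U X v G') G').re| ≤ B * (2 * s) :=
    fun τ hτ => by
    have h1 := abs_sub_le_decay (h := fun x => B * Real.log (1 + x))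
      (h' := fun x => B * (1 + x)⁻¹) hτ.1 (fun x _ => hasDerivAt_gamma_decay (X := X) G' x)
      (fun x hx => by
        have hx0 : (1 + x) ≠ 0 := by have := hx.1; positivity
        have := (((hasDerivAt_id x).const_add 1).log hx0).const_mul B
        simpa using this)
      (fun x hx => hc x hx.1)
    simp only [intervalIntegral.integral_same, Complex.zero_re, sub_zero, add_zero, Real.log_one,
      mul_zero] at h1
    refine h1.trans (mul_le_mul_of_nonneg_left ?_ hB0)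
    have h2 : Real.log (1 + τ) ≤ Real.log ((1 + s) ^ 2) :=
      Real.log_le_log (by have := hτ.1; positivity) (by have := hτ.2; nlinarith)
    rw [Real.log_pow] at h2
    have h3 := Real.log_le_sub_one_of_pos (x := 1 + s) (by positivity)
    push_cast at h2
    linarith
  have hN := abs_sub_le_decay (h := fun x => 2 * (B * (2 * s)) * x)
    (h' := fun _ => 2 * (B * (2 * s))) (show (0 : ℝ) ≤ T by linarith)
    (fun x _ => hasDerivAt_n2_S (X := X) G' x)
    (fun x _ => by simpa using (hasDerivAt_id x).const_mul (2 * (B * (2 * s))))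
    (fun x hx => by rw [abs_mul, abs_two]; linarith [hΓ x hx])
  have h0 : n2 (S X G' 0) = 0 := by simp [S_zero, n2]
  rw [h0] at hN
  have hT0 : 0 < T := by linarith
  have hr : (T ^ (3 / 4 : ℝ)) ^ 2 = s * T := by
    rw [← Real.rpow_natCast, ← Real.rpow_mul hT0.le, hs, Real.sqrt_eq_rpow,
      ← Real.rpow_add_one hT0.ne']
    norm_num
  refine (pow_le_pow_iff_left₀ (n2_nonneg _) (by positivity) two_ne_zero).1 ?_
  rw [mul_pow, hr]
  have h1 := (le_abs_self _).trans hN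
  have h2 : 0 ≤ |X.1|⁻¹ := by positivity
  have h3 : 4 * B ≤ (4 * (1 + |X.1|⁻¹) * C) ^ 2 := by
    rw [hB]
    have : 0 ≤ C ^ 2 * (|X.1|⁻¹ * (1 + |X.1|⁻¹)) := by positivity
    nlinarith
  have h4 := mul_le_mul_of_nonneg_right h3 (show 0 ≤ s * T by positivity)
  nlinarith

end Pool.Agent.P.MP_442888_an.Mix
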