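import Pool.Agent.P.MP_442888_an.Coord

/-!
Operators on the algebra of continuous functions on the Heisenberg nilmanifold.
-/

set_option autoImplicit false

open MeasureTheory Filter Topology Set
open scoped ComplexConjugate Real

namespace Pool.Agent.P.MP_442888_an.Mix

abbrev G3 := ℝ × ℝ × ℝ

/-! ### Topology of the nilmanifold -/

instance : CompactSpace Nil := by
  refine ⟨?_⟩
  have h : (univ : Set Nil) = proj '' (Icc (0 : ℝ) 1 ×ˢ Icc (0 : ℝ) 1 ×ˢ Icc (0 : ℝ) 1) := by
    refine (eq_univ_of_forall fun m => ?_).symm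
    have hr : ∀ θ : UnitAddCircle, rep θ ∈ Icc (0 : ℝ) 1 := fun θ => by
      induction θ using QuotientAddGroup.induction_on with
      | H x => rw [rep_coe]; exact ⟨Int.fract_nonneg x, (Int.fract_lt_one x).le⟩
    exact ⟨_, ⟨hr _, hr _, hr _⟩, sec_coord m⟩
  rw [h]
  exact (isCompact_Icc.prod (isCompact_Icc.prod isCompact_Icc)).image continuous_proj

instance : SecondCountableTopology Nil :=
  TopologicalSpace.Quotient.secondCountableTopology (S := latticeSetoid) isOpenMap_proj

instance : T2Space Nil := by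
  rw [t2Space_iff_of_isOpenQuotientMap isOpenQuotientMap_proj]
  have hZ : IsClosed (range ((↑) : ℤ → ℝ)) := Int.isClosedEmbedding_coe_real.isClosed_range
  have : {q : G3 × G3 | proj q.1 = proj q.2} =
      (fun q : G3 × G3 => q.2.1 - q.1.1) ⁻¹' range ((↑) : ℤ → ℝ) ∩
      ((fun q : G3 × G3 => q.2.2.1 - q.1.2.1) ⁻¹' range ((↑) : ℤ → ℝ) ∩
      (fun q : G3 × G3 => q.2.2.2 - q.1.2.2 - (q.2.1 - q.1.1) * q.1.2.1) ⁻¹'
        range ((↑) : ℤ → ℝ)) := by
    ext ⟨g, h⟩
    simp only [mem_ofPred_eq, proj_eq_iff, mem_inter_iff, mem_preimage, mem_range]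
    constructor
    · rintro ⟨a, b, c, rfl⟩
      exact ⟨⟨a, by simp [hmul]⟩, ⟨b, by simp [hmul]⟩, ⟨c, by simp [hmul]; ring⟩⟩
    · rintro ⟨⟨a, ha⟩, ⟨b, hb⟩, ⟨c, hc⟩⟩
      refine ⟨a, b, c, ?_⟩
      ext
      · simp only [hmul]; linarith
      · simp only [hmul]; linarith
      · simp only [hmul]; rw [hc, ha]; ring
  rw [this]
  exact (hZ.preimage (by fun_prop)).inter
    ((hZ.preimage (by fun_prop)).inter (hZ.preimage (by fun_prop)))

lemma hmul_assoc (g h k : G3) : hmul (hmul g h) k = hmul g (hmul h k) := by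
  ext <;> simp [hmul] <;> ring

lemma rmul_rmul (g h : G3) (p : Nil) : rmul g (rmul h p) = rmul (hmul h g) p := by
  obtain ⟨k, rfl⟩ := proj_surjective p
  rw [rmul_proj, rmul_proj, rmul_proj, hmul_assoc]

lemma rmul_zero (p : Nil) : rmul 0 p = p := by
  obtain ⟨k, rfl⟩ := proj_surjective p
  rw [rmul_proj]; congr 1; ext <;> simp [hmul]

lemma rmul_int (n : ℤ) (p : Nil) : rmul (0, 0, (n : ℝ)) p = p := by
  obtain ⟨k, rfl⟩ := proj_surjective p
  rw [rmul_proj]
  refine ((proj_eq_iff _ _).2 ⟨0, 0, n, ?_⟩).symm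
  ext <;> simp [hmul, add_comm]

lemma continuous_rmul₂ : Continuous fun x : G3 × Nil => rmul x.1 x.2 := by
  have h : IsOpenQuotientMap (Prod.map (id : G3 → G3) proj) :=
    IsOpenQuotientMap.id.prodMap isOpenQuotientMap_proj
  rw [h.isQuotientMap.continuous_iff]
  exact continuous_proj.comp (continuous_hmul.comp (continuous_snd.prodMk continuous_fst))

lemma hexp_add (X : G3) (s t : ℝ) : hexp X (s + t) = hmul (hexp X s) (hexp X t) := by
  ext <;> simp [hmul, hexp] <;> ring

lemma hexp_zero (X : G3) : hexp X 0 = 0 := by ext <;> simp [hexp]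

lemma continuous_hexp (X : G3) : Continuous (hexp X) := by unfold hexp; fun_prop

lemma nilflow_add (X : G3) (s t : ℝ) (p : Nil) :
    nilflow X (s + t) p = nilflow X t (nilflow X s p) := by
  simp only [nilflow, rmul_rmul, hexp_add]

lemma nilflow_zero (X : G3) (p : Nil) : nilflow X 0 p = p := by
  simp only [nilflow, hexp_zero, rmul_zero]

lemma continuous_nilflow₂ (X : G3) : Continuous fun x : ℝ × Nil => nilflow X x.1 x.2 :=
  continuous_rmul₂.comp (((continuous_hexp X).comp continuous_fst).prodMk continuous_snd)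

lemma measurePreserving_nilflow (X : G3) (t : ℝ) : MeasurePreserving (nilflow X t) haar haar :=
  measurePreserving_rmul _

/-- The shear: how the nilflow moves the two commuting directions. -/
lemma nilflow_rmul (X : G3) (t y z : ℝ) (p : Nil) :
    nilflow X t (rmul (0, y, z) p) = rmul (0, y, z - t * X.1 * y) (nilflow X t p) := by
  simp only [nilflow, rmul_rmul]
  congr 1
  ext <;> simp [hmul, hexp] <;> ring

lemma integrable_of_continuous {β : Type} [NormedAddCommGroup β] [SecondCountableTopology β]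
    {f : Nil → β} (hf : Continuous f) : Integrable f haar :=
  hf.integrable_of_hasCompactSupport (HasCompactSupport.of_compactSpace f)

/-! ### Translation operators -/

abbrev CN := C(Nil, ℂ)

/-- Composition with the right translation by `g`. -/
noncomputable def R (g : G3) : CN →L[ℂ] CN :=
  ContinuousMap.compCLM ℂ ℂ ⟨rmul g, continuous_rmul g⟩

@[simp] lemma R_apply (g : G3) (F : CN) (p : Nil) : R g F p = F (rmul g p) := rfl

lemma R_R (g h : G3) (F : CN) : R g (R h F) = R (hmul g h) F := by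
  ext p; simp [rmul_rmul]

lemma R_zero (F : CN) : R 0 F = F := by ext p; simp [rmul_zero]

lemma R_zero' (F : CN) : R (0, 0, 0) F = F := R_zero F

lemma R_int (n : ℤ) (F : CN) : R (0, 0, (n : ℝ)) F = F := by ext p; simp [rmul_int]

lemma R_mul (g : G3) (F G : CN) : R g (F * G) = R g F * R g G := rfl

lemma R_star (g : G3) (F : CN) : R g (star F) = star (R g F) := rfl

lemma R_one (g : G3) : R g 1 = 1 := rfl

lemma R_yz (y z y' z' : ℝ) (F : CN) :
    R (0, y, z) (R (0, y', z') F) = R (0, y + y', z + z') F := by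
  rw [R_R]; simp [hmul]

lemma R_central (g : G3) (z : ℝ) (F : CN) : R g (R (0, 0, z) F) = R (0, 0, z) (R g F) := by
  rw [R_R, R_R]; congr 2; ext <;> simp [hmul, add_comm]

lemma norm_R_le (g : G3) (F : CN) : ‖R g F‖ ≤ ‖F‖ :=
  (ContinuousMap.norm_le _ (norm_nonneg F)).2 fun _ => F.norm_coe_le_norm _

lemma continuous_R₂ : Continuous fun x : G3 × CN => R x.1 x.2 := by
  let T : C(G3 × Nil, Nil) := ⟨fun x => rmul x.1 x.2, continuous_rmul₂⟩
  exact ContinuousMap.continuous_comp'.comp
    ((T.curry.continuous.comp continuous_fst).prodMk continuous_snd)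

lemma continuous_R (F : CN) : Continuous fun g : G3 => R g F :=
  continuous_R₂.comp (continuous_id.prodMk continuous_const)

/-! ### Mean, scalar product and norms -/

/-- The mean. -/
noncomputable def E : CN →L[ℂ] ℂ :=
  LinearMap.mkContinuous
    { toFun := fun F => ∫ p, F p ∂haar
      map_add' := fun F G =>
        integral_add (integrable_of_continuous F.continuous) (integrable_of_continuous G.continuous)
      map_smul' := fun c F => integral_smul c _ } 1 fun F => by
    have := norm_integral_le_of_norm_le_const (μ := haar) (f := fun p => F p) (C := ‖F‖)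
      (Eventually.of_forall fun p => F.norm_coe_le_norm p)
    simpa using this

lemma E_apply (F : CN) : E F = ∫ p, F p ∂haar := rfl

lemma E_R (g : G3) (F : CN) : E (R g F) = E F := by
  rw [E_apply, E_apply]
  have := integral_map (μ := haar) (measurable_rmul g).aemeasurable (f := fun p => F p)
    F.continuous.aestronglyMeasurable
  rw [(measurePreserving_rmul g).map_eq] at this
  exact this.symm

lemma E_one : E 1 = 1 := by simp [E_apply]

lemma E_star (F : CN) : E (star F) = conj (E F) := by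
  rw [E_apply, E_apply, ← integral_conj]; rfl

lemma norm_E_le (F : CN) : ‖E F‖ ≤ ‖F‖ := by
  have := norm_integral_le_of_norm_le_const (μ := haar) (f := fun p => F p) (C := ‖F‖)
    (Eventually.of_forall fun p => F.norm_coe_le_norm p)
  simpa [E_apply] using this

/-- The class in the Hilbert space of square integrable functions. -/
noncomputable def L2 : CN →L[ℂ] Lp ℂ 2 haar := ContinuousMap.toLp 2 haar ℂ

/-- The mean square norm. -/
noncomputable def n2 (F : CN) : ℝ := ‖L2 F‖

/-- The scalar product, linear in the first variable. -/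
noncomputable def ip (F G : CN) : ℂ := E (F * star G)

lemma coeFn_L2 (F : CN) : L2 F =ᵐ[haar] F := ContinuousMap.coeFn_toLp haar F

lemma ip_eq_inner (F G : CN) : ip F G = inner ℂ (L2 G) (L2 F) := by
  rw [ip, E_apply, MeasureTheory.L2.inner_def]
  refine integral_congr_ae ?_
  filter_upwards [coeFn_L2 F, coeFn_L2 G] with p h1 h2
  rw [h1, h2]; simp

lemma n2_nonneg (F : CN) : 0 ≤ n2 F := norm_nonneg _

lemma ip_self (F : CN) : ip F F = ((n2 F ^ 2 : ℝ) : ℂ) := by
  rw [ip_eq_inner, inner_self_eq_norm_sq_to_K, n2]; simp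

lemma n2_sq (F : CN) : n2 F ^ 2 = ∫ p, ‖F p‖ ^ 2 ∂haar := by
  have h := ip_self F
  rw [ip, E_apply] at h
  have h2 : ∀ p, (F * star F) p = ((‖F p‖ ^ 2 : ℝ) : ℂ) := fun p => by
    simp [Complex.mul_conj, Complex.normSq_eq_norm_sq]
  simp only [h2] at h
  exact_mod_cast h.symm

lemma norm_ip_le (F G : CN) : ‖ip F G‖ ≤ n2 F * n2 G := by
  rw [ip_eq_inner, mul_comm]; exact norm_inner_le_norm _ _

lemma ip_conj (F G : CN) : conj (ip F G) = ip G F := by
  rw [ip_eq_inner, ip_eq_inner, inner_conj_symm]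

lemma ip_R (g : G3) (F G : CN) : ip (R g F) (R g G) = ip F G := by
  rw [ip, ip, ← R_star, ← R_mul, E_R]

lemma ip_add_left (F F' G : CN) : ip (F + F') G = ip F G + ip F' G := by
  simp only [ip, add_mul, map_add]

lemma ip_sub_left (F F' G : CN) : ip (F - F') G = ip F G - ip F' G := by
  simp only [ip, sub_mul, map_sub]

lemma ip_smul_left (c : ℂ) (F G : CN) : ip (c • F) G = c * ip F G := by
  simp only [ip, smul_mul_assoc, map_smul, smul_eq_mul]

lemma ip_add_right (F G G' : CN) : ip F (G + G') = ip F G + ip F G' := by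
  simp only [ip, star_add, mul_add, map_add]

lemma ip_sub_right (F G G' : CN) : ip F (G - G') = ip F G - ip F G' := by
  simp only [ip, star_sub, mul_sub, map_sub]

lemma ip_smul_right (c : ℂ) (F G : CN) : ip F (c • G) = conj c * ip F G := by
  simp only [ip, star_smul, mul_smul_comm, map_smul, smul_eq_mul]; rfl

/-- The scalar product with a fixed function, as a continuous linear form. -/
noncomputable def ipL (G : CN) : CN →L[ℂ] ℂ := E.comp ((ContinuousLinearMap.mul ℂ CN).flip (star G))

lemma ipL_apply (G F : CN) : ipL G F = ip F G := rfl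

lemma n2_R (g : G3) (F : CN) : n2 (R g F) = n2 F := by
  have h := ip_R g F F
  rw [ip_self, ip_self] at h
  exact (pow_left_inj₀ (n2_nonneg _) (n2_nonneg _) two_ne_zero).1 (by exact_mod_cast h)

lemma n2_le_norm (F : CN) : n2 F ≤ ‖F‖ := by
  refine (pow_le_pow_iff_left₀ (n2_nonneg _) (norm_nonneg _) two_ne_zero).1 ?_
  rw [n2_sq]
  have := norm_integral_le_of_norm_le_const (μ := haar) (f := fun p => ‖F p‖ ^ 2) (C := ‖F‖ ^ 2)
    (Eventually.of_forall fun p => by
      rw [norm_pow, norm_norm]; gcongr; exact F.norm_coe_le_norm p)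
  simp only [probReal_univ, mul_one] at this
  exact (le_abs_self _).trans this

lemma n2_add_le (F G : CN) : n2 (F + G) ≤ n2 F + n2 G := by
  simp only [n2, map_add]; exact norm_add_le _ _

lemma n2_sub_le (F G : CN) : n2 (F - G) ≤ n2 F + n2 G := by
  simp only [n2, map_sub]; exact norm_sub_le _ _

lemma n2_smul (c : ℂ) (F : CN) : n2 (c • F) = ‖c‖ * n2 F := by
  simp only [n2, map_smul, norm_smul]

lemma n2_neg (F : CN) : n2 (-F) = n2 F := by simp only [n2, map_neg, norm_neg]

lemma n2_star (F : CN) : n2 (star F) = n2 F := by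
  refine (pow_left_inj₀ (n2_nonneg _) (n2_nonneg _) two_ne_zero).1 ?_
  rw [n2_sq, n2_sq]; simp

lemma n2_mul_le (F G : CN) : n2 (F * G) ≤ ‖F‖ * n2 G := by
  refine (pow_le_pow_iff_left₀ (n2_nonneg _) (mul_nonneg (norm_nonneg _) (n2_nonneg _))
    two_ne_zero).1 ?_
  rw [mul_pow, n2_sq, n2_sq, ← integral_const_mul]
  refine integral_mono (integrable_of_continuous (by fun_prop))
    (integrable_of_continuous (by fun_prop)) fun p => ?_
  simp only [ContinuousMap.mul_apply, norm_mul, mul_pow]
  gcongr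
  exact F.norm_coe_le_norm p

lemma norm_E_le_n2 (F : CN) : ‖E F‖ ≤ n2 F := by
  have h := norm_ip_le F 1
  have h1 : n2 1 ≤ 1 := (n2_le_norm 1).trans (ContinuousMap.norm_le _ zero_le_one |>.2 (by simp))
  rw [ip, star_one, mul_one] at h
  nlinarith [n2_nonneg F]

lemma integral_norm_le_n2 (F : CN) : ∫ p, ‖F p‖ ∂haar ≤ n2 F := by
  let G : CN := ⟨fun p => (‖F p‖ : ℂ), by fun_prop⟩
  have h1 : n2 G = n2 F := by
    refine (pow_left_inj₀ (n2_nonneg _) (n2_nonneg _) two_ne_zero).1 ?_
    rw [n2_sq, n2_sq]; simp [G]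
  have h2 := norm_E_le_n2 G
  rw [h1, E_apply] at h2
  simp only [G, ContinuousMap.coe_mk] at h2
  refine (le_abs_self _).trans ?_
  rw [← Real.norm_eq_abs, ← Complex.norm_real, ← integral_complex_ofReal]
  exact h2

/-- Chebyshev inequality. -/
lemma cheb (F : CN) {K : ℝ} (hK : 0 < K) : haar.real {p | K ≤ ‖F p‖} ≤ n2 F ^ 2 / K ^ 2 := by
  rw [le_div_iff₀ (by positivity), n2_sq, mul_comm]
  have h := mul_meas_ge_le_integral_of_nonneg (μ := haar) (f := fun p => ‖F p‖ ^ 2)
    (Eventually.of_forall fun p => by positivity) (integrable_of_continuous (by fun_prop)) (K ^ 2)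
  refine le_trans (le_of_eq ?_) h
  congr 2
  ext p
  simp only [mem_ofPred_eq]
  exact (pow_le_pow_iff_left₀ hK.le (norm_nonneg _) two_ne_zero).symm

lemma clm_integral {V : Type} [NormedAddCommGroup V] [NormedSpace ℂ V] [CompleteSpace V]
    (T : CN →L[ℂ] V) {f : ℝ → CN} (hf : Continuous f) (a b : ℝ) :
    T (∫ s in a..b, f s) = ∫ s in a..b, T (f s) :=
  (T.intervalIntegral_comp_comm (hf.intervalIntegrable a b)).symm

lemma integral_apply' {f : ℝ → CN} (hf : Continuous f) (a b : ℝ) (p : Nil) :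
    (∫ s in a..b, f s) p = ∫ s in a..b, f s p :=
  clm_integral (ContinuousMap.evalCLM ℂ p) hf a b

lemma n2_integral_le {f : ℝ → CN} (hf : Continuous f) {a b C : ℝ}
    (h : ∀ s ∈ uIoc a b, n2 (f s) ≤ C) : n2 (∫ s in a..b, f s) ≤ C * |b - a| := by
  rw [n2, clm_integral L2 hf]
  exact intervalIntegral.norm_integral_le_of_norm_le_const h

/-! ### The flow and its ergodic integrals -/

/-- The Koopman operator of the nilflow. -/
noncomputable def U (X : G3) (t : ℝ) : CN →L[ℂ] CN := R (hexp X t)

/-- Weighted ergodic integral. -/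
noncomputable def W (X : G3) (w : ℝ → ℂ) (F : CN) (t : ℝ) : CN :=
  ∫ v in (0 : ℝ)..t, w v • U X v F

/-- Ergodic integral. -/
noncomputable def S (X : G3) (F : CN) (t : ℝ) : CN := ∫ v in (0 : ℝ)..t, U X v F

/-- The integral of the ergodic integrals. -/
noncomputable def A (X : G3) (F : CN) (t : ℝ) : CN := W X (fun v => ((t - v : ℝ) : ℂ)) F t

variable {X : G3}

@[simp] lemma U_apply (t : ℝ) (F : CN) (p : Nil) : U X t F p = F (nilflow X t p) := rfl

lemma U_U (s t : ℝ) (F : CN) : U X s (U X t F) = U X (s + t) F := by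
  rw [U, U, U, R_R, hexp_add]

lemma U_zero (F : CN) : U X 0 F = F := by rw [U, hexp_zero, R_zero]

lemma U_mul (t : ℝ) (F G : CN) : U X t (F * G) = U X t F * U X t G := rfl

lemma U_star (t : ℝ) (F : CN) : U X t (star F) = star (U X t F) := rfl

lemma norm_U_le (t : ℝ) (F : CN) : ‖U X t F‖ ≤ ‖F‖ := norm_R_le _ _

lemma n2_U (t : ℝ) (F : CN) : n2 (U X t F) = n2 F := n2_R _ _

lemma E_U (t : ℝ) (F : CN) : E (U X t F) = E F := E_R _ _

lemma ip_U (t : ℝ) (F G : CN) : ip (U X t F) (U X t G) = ip F G := ip_R _ _ _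

lemma continuous_U (F : CN) : Continuous fun t => U X t F :=
  (continuous_R F).comp (continuous_hexp X)

lemma R_U (y z t : ℝ) (F : CN) :
    R (0, y, z) (U X t F) = U X t (R (0, y, z - t * X.1 * y) F) := by
  ext p; simp [nilflow_rmul]

lemma S_eq_W (F : CN) (t : ℝ) : S X F t = W X (fun _ => 1) F t := by simp [S, W]

lemma S_apply (F : CN) (t : ℝ) (p : Nil) :
    S X F t p = ∫ v in (0 : ℝ)..t, F (nilflow X v p) := integral_apply' (continuous_U F) _ _ _

lemma hasDerivAt_S (F : CN) (t : ℝ) : HasDerivAt (S X F) (U X t F) t :=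
  ((continuous_U F).integral_hasStrictDerivAt 0 t).hasDerivAt

lemma continuous_S (F : CN) : Continuous (S X F) :=
  continuous_iff_continuousAt.2 fun t => (hasDerivAt_S F t).continuousAt

lemma S_zero (F : CN) : S X F 0 = 0 := by simp [S]

lemma U_S (F : CN) (s t : ℝ) : U X s (S X F t) = S X (U X s F) t := by
  rw [S, S, clm_integral _ (continuous_U F)]
  simp only [U_U, add_comm]

lemma S_add_time (F : CN) (s t : ℝ) : S X F (s + t) = S X F s + U X s (S X F t) := by
  rw [S, S, S, clm_integral _ (continuous_U F)]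
  simp only [U_U]
  rw [intervalIntegral.integral_comp_add_left (fun v => U X v F) s, add_zero,
    intervalIntegral.integral_add_adjacent_intervals ((continuous_U F).intervalIntegrable _ _)
      ((continuous_U F).intervalIntegrable _ _)]

lemma S_add (F G : CN) (t : ℝ) : S X (F + G) t = S X F t + S X G t := by
  simp only [S, map_add]
  exact intervalIntegral.integral_add ((continuous_U F).intervalIntegrable _ _)
    ((continuous_U G).intervalIntegrable _ _)

lemma S_sub (F G : CN) (t : ℝ) : S X (F - G) t = S X F t - S X G t := by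
  simp only [S, map_sub]
  exact intervalIntegral.integral_sub ((continuous_U F).intervalIntegrable _ _)
    ((continuous_U G).intervalIntegrable _ _)

lemma S_smul (c : ℂ) (F : CN) (t : ℝ) : S X (c • F) t = c • S X F t := by
  simp only [S, map_smul]
  exact intervalIntegral.integral_smul _ _

lemma S_one (t : ℝ) : S X 1 t = (t : ℂ) • (1 : CN) := by
  have : ∀ v, U X v (1 : CN) = 1 := fun v => rfl
  simp [S, this]

lemma norm_S_le (F : CN) (t : ℝ) : ‖S X F t‖ ≤ ‖F‖ * |t| := by
  simpa [S] using intervalIntegral.norm_integral_le_of_norm_le_const (a := 0) (b := t)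
    (f := fun v => U X v F) fun v _ => norm_U_le v F

lemma n2_S_le (F : CN) (t : ℝ) : n2 (S X F t) ≤ n2 F * |t| := by
  simpa [S] using n2_integral_le (a := 0) (b := t) (continuous_U F) fun v _ => (n2_U v F).le

/-- The ergodic integral up to time `t` as a continuous linear map. -/
noncomputable def SL (X : G3) (t : ℝ) : CN →L[ℂ] CN :=
  LinearMap.mkContinuous
    { toFun := fun F => S X F t
      map_add' := fun F G => S_add F G t
      map_smul' := fun c F => S_smul c F t } |t| fun F => by
    simpa [mul_comm] using norm_S_le (X := X) F t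

lemma SL_apply (F : CN) (t : ℝ) : SL X t F = S X F t := rfl

lemma S_S (F : CN) (s t : ℝ) : S X (S X F s) t = S X (S X F t) s := by
  conv_lhs => rw [← SL_apply, S, clm_integral _ (continuous_U F)]
  simp only [SL_apply, ← U_S]
  rfl

lemma norm_W_le {w : ℝ → ℂ} {B t : ℝ} (h : ∀ v ∈ uIoc 0 t, ‖w v‖ ≤ B) (F : CN) :
    ‖W X w F t‖ ≤ B * ‖F‖ * |t| := by
  have := intervalIntegral.norm_integral_le_of_norm_le_const (a := 0) (b := t) (C := B * ‖F‖)
    (f := fun v => w v • U X v F) fun v hv => by
      rw [norm_smul]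
      exact mul_le_mul (h v hv) (norm_U_le v F) (norm_nonneg _) ((norm_nonneg _).trans (h v hv))
  simpa [W] using this

/-! ### Fibre operators, characters, derivatives -/

/-- `exp (2 π i x)`. -/
noncomputable def ee (x : ℝ) : ℂ := Complex.exp (2 * π * Complex.I * x)

lemma ee_add (x y : ℝ) : ee (x + y) = ee x * ee y := by
  simp only [ee, ← Complex.exp_add]; congr 1; push_cast; ring

lemma ee_zero : ee 0 = 1 := by simp [ee]

lemma norm_ee (x : ℝ) : ‖ee x‖ = 1 := by
  rw [ee, show 2 * (π : ℂ) * Complex.I * x = ((2 * π * x : ℝ) : ℂ) * Complex.I by push_cast; ring,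
    Complex.norm_exp_ofReal_mul_I]

lemma conj_ee (x : ℝ) : conj (ee x) = ee (-x) := by
  simp only [ee, ← Complex.exp_conj, map_mul, Complex.conj_ofReal, Complex.conj_I, map_ofNat]
  congr 1; push_cast; ring

lemma ee_int (n : ℤ) : ee n = 1 := by
  rw [ee, ← Complex.exp_int_mul_two_pi_mul_I n]; congr 1; push_cast; ring

lemma continuous_ee : Continuous ee := by unfold ee; fun_prop

lemma hasDerivAt_ee (θ x : ℝ) :
    HasDerivAt (fun s => ee (θ * s)) (2 * π * Complex.I * θ * ee (θ * x)) x := by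
  have h : HasDerivAt (fun s : ℝ => 2 * (π : ℂ) * Complex.I * ((θ * s : ℝ) : ℂ))
      (2 * π * Complex.I * θ) x := by
    have h1 : HasDerivAt (fun s : ℝ => θ * s) θ x := by simpa using (hasDerivAt_id x).const_mul θ
    exact h1.ofReal_comp.const_mul _
  simpa only [ee, mul_comm (Complex.exp _)] using h.cexp

lemma fourier_eq_ee (n : ℤ) (x : ℝ) : fourier n (x : UnitAddCircle) = ee (n * x) := by
  rw [fourier_coe_apply, ee]; congr 1; push_cast; ring

lemma continuous_fibre (w : C(ℝ, ℂ)) (F : CN) : Continuous fun z : ℝ => w z • R (0, 0, z) F :=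
  w.continuous.smul ((continuous_R F).comp (by fun_prop))

/-- Integration along the central fibres against a weight. -/
noncomputable def Zc (w : C(ℝ, ℂ)) : CN →L[ℂ] CN :=
  LinearMap.mkContinuousOfExistsBound
    { toFun := fun F => ∫ z in (0 : ℝ)..1, w z • R (0, 0, z) F
      map_add' := fun F G => by
        simp only [map_add, smul_add]
        exact intervalIntegral.integral_add ((continuous_fibre w F).intervalIntegrable _ _)
          ((continuous_fibre w G).intervalIntegrable _ _)
      map_smul' := fun c F => by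
        simp only [map_smul, smul_comm (w _) c, RingHom.id_apply]
        exact intervalIntegral.integral_smul _ _ } (by
    obtain ⟨B, hB⟩ := isCompact_Icc.exists_bound_of_continuousOn
      (w.continuous.continuousOn (s := Icc (0 : ℝ) 1))
    refine ⟨B, fun F => ?_⟩
    have := intervalIntegral.norm_integral_le_of_norm_le_const (a := 0) (b := 1) (C := B * ‖F‖)
      (f := fun z => w z • R (0, 0, z) F) fun z hz => by
        rw [uIoc_of_le zero_le_one] at hz
        have h1 := hB z (Ioc_subset_Icc_self hz)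
        rw [norm_smul]
        exact mul_le_mul h1 (norm_R_le _ F) (norm_nonneg _) ((norm_nonneg _).trans h1)
    simpa using this)

lemma Zc_apply (w : C(ℝ, ℂ)) (F : CN) : Zc w F = ∫ z in (0 : ℝ)..1, w z • R (0, 0, z) F := rfl

/-- The fibre average. -/
noncomputable def Av : CN →L[ℂ] CN := Zc 1

/-- The fibre primitive. -/
noncomputable def Pr : CN →L[ℂ] CN := Zc ⟨fun z => (z : ℂ) - 1 / 2, by fun_prop⟩

/-- The projection on the `m`-th fibre mode. -/
noncomputable def Pm (m : ℤ) : CN →L[ℂ] CN :=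
  Zc ⟨fun z => ee (-(m * z)), continuous_ee.comp (by fun_prop)⟩

/-- The characters of the torus factor. -/
noncomputable def chi (k : ℤ × ℤ) : CN :=
  ⟨fun p => fourier k.1 (cx p) * fourier k.2 (cy p),
    ((fourier k.1).continuous.comp continuous_cx).mul ((fourier k.2).continuous.comp continuous_cy)⟩

/-- The frequency of a character. -/
def th (X : G3) (k : ℤ × ℤ) : ℝ := k.1 * X.1 + k.2 * X.2.1

lemma chi_proj (k : ℤ × ℤ) (g : G3) : chi k (proj g) = ee (k.1 * g.1 + k.2 * g.2.1) := by
  simp only [chi, ContinuousMap.coe_mk, cx_proj, cy_proj, fourier_eq_ee, ee_add]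

lemma R_chi (g : G3) (k : ℤ × ℤ) : R g (chi k) = ee (k.1 * g.1 + k.2 * g.2.1) • chi k := by
  ext p
  obtain ⟨h, rfl⟩ := proj_surjective p
  simp only [R_apply, rmul_proj, chi_proj, ContinuousMap.smul_apply, smul_eq_mul, ← ee_add, hmul]
  congr 1; ring

lemma U_chi (t : ℝ) (k : ℤ × ℤ) : U X t (chi k) = ee (th X k * t) • chi k := by
  rw [U, R_chi]; congr 2; simp only [hexp, th]; ring

lemma norm_chi_apply (k : ℤ × ℤ) (p : Nil) : ‖chi k p‖ = 1 := by
  obtain ⟨h, rfl⟩ := proj_surjective p
  rw [chi_proj, norm_ee]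

lemma norm_chi_le (k : ℤ × ℤ) : ‖chi k‖ ≤ 1 :=
  (ContinuousMap.norm_le _ zero_le_one).2 fun p => (norm_chi_apply k p).le

lemma chi_zero : chi 0 = 1 := by ext p; simp [chi]

/-- Invariant under the centre. -/
def Toral (F : CN) : Prop := ∀ z : ℝ, R (0, 0, z) F = F

/-- Eigenfunction of the centre. -/
def Mode (m : ℤ) (F : CN) : Prop := ∀ z : ℝ, R (0, 0, z) F = ee (m * z) • F

/-- `FY` and `FZ` are the derivatives of `F` in the second and third directions. -/
def Der (F FY FZ : CN) : Prop :=
  HasDerivAt (fun y : ℝ => R (0, y, 0) F) FY 0 ∧ HasDerivAt (fun z : ℝ => R (0, 0, z) F) FZ 0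

/-- Derivatives up to order `n` are bounded by `C`, a derivative in the second direction costing
a factor `Λ`. -/
def Bd (Λ : ℝ) : ℕ → CN → ℝ → Prop
  | 0, F, C => ‖F‖ ≤ C
  | n + 1, F, C => ‖F‖ ≤ C ∧ ∃ FY FZ, Der F FY FZ ∧ Bd Λ n FY (Λ * C) ∧ Bd Λ n FZ C

/-- Derivatives of all orders exist. -/
def Sm (F : CN) : Prop := ∀ n, ∃ C, Bd 1 n F C

/-- Rationally independent frequencies. -/
def Irr (X : G3) : Prop := ∀ k : ℤ × ℤ, k ≠ 0 → th X k ≠ 0

/-- Diophantine frequencies. -/
def Dio (X : G3) : Prop :=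
  ∃ c : ℝ, 0 < c ∧ ∃ τ : ℕ, ∀ k : ℤ × ℤ, k ≠ 0 → c ≤ |th X k| * (1 + |(k.2 : ℝ)|) ^ τ

/-- Denominators of good rational approximations of the slope. -/
def Good (X : G3) (q : ℕ) : Prop :=
  1 ≤ q ∧ ∃ p : ℤ, IsCoprime p (q : ℤ) ∧ |X.2.1 / X.1 - p / q| ≤ 1 / (q : ℝ) ^ 2

lemma Dio.irr (h : Dio X) : Irr X := by
  obtain ⟨c, hc, τ, h⟩ := h
  intro k hk h0
  have := h k hk
  rw [h0] at this
  simp at this
  linarith

lemma Irr.ne (h : Irr X) : X.1 ≠ 0 := by
  have := h (1, 0) (by simp)
  simpa [th] using this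

/-- The new time along an orbit. -/
noncomputable def clock (X : G3) (α : Nil → ℝ) (p : Nil) (t : ℝ) : ℝ :=
  ∫ s in (0 : ℝ)..t, α (nilflow X s p)

end Pool.Agent.P.MP_442888_an.Mix
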