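import Pool.Agent.P.MP_442888_an.MixDefs

set_option autoImplicit false

open MeasureTheory Filter Topology Set
open scoped ComplexConjugate Real

namespace Pool.Agent.P.MP_442888_an.Mix

variable {X : G3} {F FY FZ G GY GZ : CN}

lemma clm_deriv_der {V : Type} [NormedAddCommGroup V] [NormedSpace ℂ V] (T : CN →L[ℂ] V)
    {f : ℝ → CN} {f' : CN} {s : ℝ} (h : HasDerivAt f f' s) :
    HasDerivAt (fun s => T (f s)) (T f') s :=
  (T.restrictScalars ℝ).hasFDerivAt.comp_hasDerivAt s h

lemma Der.unique (h : Der F FY FZ) (h' : Der F GY GZ) : FY = GY ∧ FZ = GZ := by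
  exact ⟨h.1.unique h'.1, h.2.unique h'.2⟩

lemma Der.add (h : Der F FY FZ) (h' : Der G GY GZ) : Der (F + G) (FY + GY) (FZ + GZ) := by
  exact ⟨by simpa only [map_add] using h.1.fun_add h'.1,
    by simpa only [map_add] using h.2.fun_add h'.2⟩

lemma Der.sub (h : Der F FY FZ) (h' : Der G GY GZ) : Der (F - G) (FY - GY) (FZ - GZ) := by
  exact ⟨by simpa only [map_sub] using h.1.fun_sub h'.1,
    by simpa only [map_sub] using h.2.fun_sub h'.2⟩

lemma Der.smul (h : Der F FY FZ) (c : ℂ) : Der (c • F) (c • FY) (c • FZ) := by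
  exact ⟨by simpa only [map_smul] using h.1.fun_const_smul c,
    by simpa only [map_smul] using h.2.fun_const_smul c⟩

lemma Der.mul (h : Der F FY FZ) (h' : Der G GY GZ) :
    Der (F * G) (FY * G + F * GY) (FZ * G + F * GZ) := by
  exact ⟨by simpa only [R_mul, R_zero'] using h.1.fun_mul h'.1,
    by simpa only [R_mul, R_zero'] using h.2.fun_mul h'.2⟩

lemma Der.star (h : Der F FY FZ) : Der (star F) (star FY) (star FZ) := by
  exact ⟨(starL' ℝ : CN ≃L[ℝ] CN).toContinuousLinearMap.hasFDerivAt.comp_hasDerivAt 0 h.1,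
    (starL' ℝ : CN ≃L[ℝ] CN).toContinuousLinearMap.hasFDerivAt.comp_hasDerivAt 0 h.2⟩

lemma der_one : Der 1 0 0 := by
  exact ⟨hasDerivAt_const 0 (1 : CN), hasDerivAt_const 0 (1 : CN)⟩

lemma der_chi (k : ℤ × ℤ) : Der (chi k) ((2 * π * Complex.I * k.2 : ℂ) • chi k) 0 := by
  constructor
  · simpa only [R_chi, mul_zero, zero_add, ee_zero, mul_one, Complex.ofReal_intCast] using
      (hasDerivAt_ee (k.2 : ℝ) 0).smul_const (chi k)
  · simpa only [R_chi, mul_zero, zero_add, ee_zero, one_smul] using hasDerivAt_const 0 (chi k)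

lemma dir_zero_der (h : Der F FY FZ) (l κ : ℝ) :
    HasDerivAt (fun s : ℝ => R (0, l * s, κ * s) F) ((l : ℂ) • FY + (κ : ℂ) • FZ) 0 := by
  have hl : ∀ c : ℝ, HasDerivAt (fun s : ℝ => c * s) c 0 := fun c => by
    simpa using (hasDerivAt_id (0 : ℝ)).const_mul c
  have a : HasDerivAt (fun s : ℝ => R (0, l * s, 0) F) (l • FY) 0 :=
    HasDerivAt.scomp_of_eq 0 h.1 (hl l) (by simp)
  have b : HasDerivAt (fun s : ℝ => R (0, 0, κ * s) F) (κ • FZ) 0 :=
    HasDerivAt.scomp_of_eq 0 h.2 (hl κ) (by simp)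
  rw [hasDerivAt_iff_tendsto_slope_zero] at a b ⊢
  have c : Tendsto (fun t : ℝ => ((0, 0, κ * t) : G3)) (𝓝[≠] 0) (𝓝 (0, 0, 0)) :=
    tendsto_nhdsWithin_of_tendsto_nhds (Continuous.tendsto' (by fun_prop) _ _ (by simp))
  have d := ((continuous_R₂.tendsto _).comp (c.prodMk_nhds a)).add b
  simp only [R_zero'] at d
  refine d.congr fun t => ?_
  simp only [Function.comp, zero_add, mul_zero, R_zero', ← Complex.coe_smul, map_smul, map_sub,
    R_yz, add_zero, ← smul_add]
  congr 1
  abel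

lemma Der.dir (h : Der F FY FZ) (l κ s : ℝ) :
    HasDerivAt (fun s : ℝ => R (0, l * s, κ * s) F)
      (R (0, l * s, κ * s) ((l : ℂ) • FY + (κ : ℂ) • FZ)) s := by
  have a := clm_deriv_der (R (0, l * s, κ * s)) (dir_zero_der h l κ)
  have b := HasDerivAt.comp_sub_const s s
    (f := fun u : ℝ => R (0, l * s, κ * s) (R (0, l * u, κ * u) F)) (by rw [sub_self]; exact a)
  simpa only [R_yz, ← mul_add, add_sub_cancel] using b

lemma Der.lip (h : Der F FY FZ) (y z : ℝ) :
    ‖R (0, y, z) F - F‖ ≤ |y| * ‖FY‖ + |z| * ‖FZ‖ := by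
  have := norm_image_sub_le_of_norm_deriv_le_segment_01'
    (f := fun s : ℝ => R (0, y * s, z * s) F) (C := |y| * ‖FY‖ + |z| * ‖FZ‖)
    (fun s _ => (h.dir y z s).hasDerivWithinAt) fun s _ => (norm_R_le _ _).trans
      ((norm_add_le _ _).trans (by simp [norm_smul]))
  simpa only [mul_one, mul_zero, R_zero'] using this

lemma Der.U (h : Der F FY FZ) (v : ℝ) :
    Der (U X v F) (U X v (FY - ((v * X.1 : ℝ) : ℂ) • FZ)) (U X v FZ) := by
  constructor
  · have a := clm_deriv_der (Mix.U X v) (dir_zero_der h 1 (-(v * X.1)))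
    simp only [R_U, zero_sub]
    simpa only [one_mul, Complex.ofReal_one, one_smul, Complex.ofReal_neg, neg_smul, neg_mul,
      ← sub_eq_add_neg] using a
  · simpa only [R_U, mul_zero, sub_zero] using clm_deriv_der (Mix.U X v) h.2

lemma W_dir_der (h : Der F FY FZ) {w : ℝ → ℂ} (hw : Continuous w) (t l κ : ℝ) :
    HasDerivAt (fun s : ℝ => R (0, l * s, κ * s) (Mix.W X w F t))
      (∫ v in (0 : ℝ)..t, w v • Mix.U X v ((l : ℂ) • FY + ((κ - v * X.1 * l : ℝ) : ℂ) • FZ)) 0 := by
  have cU : ∀ {f : ℝ → CN}, Continuous f → Continuous fun v => w v • Mix.U X v (f v) := fun hf =>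
    hw.smul (continuous_R₂.comp ((continuous_hexp X).prodMk hf))
  have e : ∀ s : ℝ, R (0, l * s, κ * s) (Mix.W X w F t) =
      ∫ v in (0 : ℝ)..t, w v • Mix.U X v (R (0, l * s, (κ - v * X.1 * l) * s) F) := fun s => by
    rw [Mix.W, clm_integral _ (cU (f := fun _ => F) continuous_const)]
    refine intervalIntegral.integral_congr fun v _ => ?_
    rw [map_smul, R_U, show κ * s - v * X.1 * (l * s) = (κ - v * X.1 * l) * s by ring]
  have cb : Continuous fun v : ℝ => ‖w v‖ * ‖(l : ℂ) • FY + ((κ - v * X.1 * l : ℝ) : ℂ) • FZ‖ := by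
    fun_prop
  have := (intervalIntegral.hasDerivAt_integral_of_dominated_loc_of_deriv_le (μ := volume)
    (a := 0) (b := t) (x₀ := (0 : ℝ)) (s := univ)
    (F := fun s v => w v • Mix.U X v (R (0, l * s, (κ - v * X.1 * l) * s) F))
    (F' := fun s v => w v • Mix.U X v (R (0, l * s, (κ - v * X.1 * l) * s)
      ((l : ℂ) • FY + ((κ - v * X.1 * l : ℝ) : ℂ) • FZ)))
    (bound := fun v => ‖w v‖ * ‖(l : ℂ) • FY + ((κ - v * X.1 * l : ℝ) : ℂ) • FZ‖) univ_mem
    (Eventually.of_forall fun s =>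
      (cU ((continuous_R F).comp (by fun_prop))).aestronglyMeasurable)
    ((cU ((continuous_R F).comp (by fun_prop))).intervalIntegrable _ _)
    (cU (continuous_R₂.comp (f := fun v : ℝ => (((0, l * 0, (κ - v * X.1 * l) * 0) : G3),
      (l : ℂ) • FY + ((κ - v * X.1 * l : ℝ) : ℂ) • FZ)) (by fun_prop))).aestronglyMeasurable
    (Eventually.of_forall fun v _ s _ => by
      rw [norm_smul]
      exact mul_le_mul_of_nonneg_left ((norm_U_le _ _).trans (norm_R_le _ _)) (norm_nonneg _))
    (cb.intervalIntegrable _ _)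
    (Eventually.of_forall fun v _ s _ =>
      (clm_deriv_der (Mix.U X v) (h.dir l _ s)).const_smul (w v))).2
  simp only [mul_zero, R_zero'] at this
  simpa only [e] using this

lemma Der.W (h : Der F FY FZ) {w : ℝ → ℂ} (hw : Continuous w) (t : ℝ) :
    Der (W X w F t) (W X w FY t - W X (fun v => ((v * X.1 : ℝ) : ℂ) * w v) FZ t)
      (W X w FZ t) := by
  constructor
  · have a := W_dir_der (X := X) h hw t 1 0
    simp only [one_mul, zero_mul, mul_one, zero_sub] at a
    have c1 : Continuous fun v => w v • Mix.U X v FY := hw.smul (continuous_U FY)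
    have c2 : Continuous fun v : ℝ => (((v * X.1 : ℝ) : ℂ) * w v) • Mix.U X v FZ :=
      Continuous.smul (f := fun v : ℝ => ((v * X.1 : ℝ) : ℂ) * w v) (by fun_prop) (continuous_U FZ)
    convert a using 1
    rw [Mix.W, Mix.W, ← intervalIntegral.integral_sub (c1.intervalIntegrable _ _)
      (c2.intervalIntegrable _ _)]
    refine intervalIntegral.integral_congr fun v _ => ?_
    simp only [map_add, map_smul, Complex.ofReal_one, Complex.ofReal_neg]
    module
  · have a := W_dir_der (X := X) h hw t 0 1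
    simp only [one_mul, zero_mul, mul_zero, sub_zero, Complex.ofReal_zero, zero_smul, zero_add,
      Complex.ofReal_one, one_smul] at a
    exact a

lemma Der.clm (h : Der F FY FZ) (T : CN →L[ℂ] CN)
    (hT : ∀ (y z : ℝ) (H : CN), R (0, y, z) (T H) = T (R (0, y, z) H)) :
    Der (T F) (T FY) (T FZ) := by
  exact ⟨by simpa only [hT] using clm_deriv_der T h.1, by simpa only [hT] using clm_deriv_der T h.2⟩

lemma Der.E_Y (h : Der F FY FZ) : E FY = 0 := by
  have a := clm_deriv_der E h.1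
  simp only [E_R] at a
  exact a.unique (hasDerivAt_const 0 _)

lemma Der.E_Z (h : Der F FY FZ) : E FZ = 0 := by
  have a := clm_deriv_der E h.2
  simp only [E_R] at a
  exact a.unique (hasDerivAt_const 0 _)

/-- Integration along a segment in the two commuting directions. -/
noncomputable def segDer (l κ δ : ℝ) : CN →L[ℂ] CN :=
  LinearMap.mkContinuous
    { toFun := fun F => ∫ s in (0 : ℝ)..δ, R (0, l * s, κ * s) F
      map_add' := fun F G => by
        simp only [map_add]
        exact intervalIntegral.integral_add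
          (((continuous_R F).comp (by fun_prop)).intervalIntegrable _ _)
          (((continuous_R G).comp (by fun_prop)).intervalIntegrable _ _)
      map_smul' := fun c F => by
        simp only [map_smul, RingHom.id_apply]
        exact intervalIntegral.integral_smul _ _ } |δ| fun F => by
    simpa [mul_comm] using intervalIntegral.norm_integral_le_of_norm_le_const (a := 0) (b := δ)
      (f := fun s => R (0, l * s, κ * s) F) fun s _ => norm_R_le _ F

lemma segDer_apply (l κ δ : ℝ) (F : CN) :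
    segDer l κ δ F = ∫ s in (0 : ℝ)..δ, R (0, l * s, κ * s) F := rfl

lemma R_segDer (l κ δ y z : ℝ) (F : CN) :
    R (0, y, z) (segDer l κ δ F) = segDer l κ δ (R (0, y, z) F) := by
  have c : Continuous fun s : ℝ => R (0, l * s, κ * s) F := (continuous_R F).comp (by fun_prop)
  rw [segDer_apply, segDer_apply, clm_integral _ c]
  simp only [R_yz, add_comm]

lemma segDer_deriv (l κ δ : ℝ) (F : CN) :
    HasDerivAt (fun t : ℝ => R (0, l * t, κ * t) (segDer l κ δ F))
      (R (0, l * δ, κ * δ) F - F) 0 := by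
  have c : Continuous fun s : ℝ => R (0, l * s, κ * s) F := (continuous_R F).comp (by fun_prop)
  have e : ∀ t : ℝ, R (0, l * t, κ * t) (segDer l κ δ F) =
      (∫ s in (0 : ℝ)..(t + δ), R (0, l * s, κ * s) F) -
        ∫ s in (0 : ℝ)..t, R (0, l * s, κ * s) F := fun t => by
    rw [segDer_apply, clm_integral _ c, intervalIntegral.integral_interval_sub_left
      (c.intervalIntegrable _ _) (c.intervalIntegrable _ _)]
    simp only [R_yz, ← mul_add]
    rw [intervalIntegral.integral_comp_add_left (fun s => R (0, l * s, κ * s) F) t, add_zero]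
  have h1 := (c.integral_hasStrictDerivAt 0 (0 + δ)).hasDerivAt.comp_add_const
  have h2 := h1.sub (c.integral_hasStrictDerivAt 0 0).hasDerivAt
  simp only [zero_add, mul_zero, R_zero'] at h2
  simp only [e]
  exact h2

lemma segDer_near {l κ δ η η' : ℝ} (hδ : 0 < δ) {F H : CN} (h1 : ‖H - F‖ ≤ η')
    (h2 : ∀ s ∈ Icc 0 δ, ‖R (0, l * s, κ * s) F - F‖ ≤ η) :
    ‖((δ⁻¹ : ℝ) : ℂ) • segDer l κ δ H - F‖ ≤ η' + η := by
  have c : Continuous fun s : ℝ => R (0, l * s, κ * s) H := (continuous_R H).comp (by fun_prop)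
  have e : ((δ⁻¹ : ℝ) : ℂ) • segDer l κ δ H - F =
      δ⁻¹ • ∫ s in (0 : ℝ)..δ, (R (0, l * s, κ * s) H - F) := by
    rw [intervalIntegral.integral_sub (c.intervalIntegrable _ _) intervalIntegrable_const,
      intervalIntegral.integral_const, sub_zero, smul_sub, smul_smul, inv_mul_cancel₀ hδ.ne',
      one_smul, Complex.coe_smul, segDer_apply]
  have b := intervalIntegral.norm_integral_le_of_norm_le_const (a := 0) (b := δ) (C := η' + η)
    (f := fun s => R (0, l * s, κ * s) H - F) fun s hs => by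
      rw [uIoc_of_le hδ.le] at hs
      rw [← sub_add_sub_cancel _ (R (0, l * s, κ * s) F), ← map_sub]
      exact (norm_add_le _ _).trans
        (add_le_add ((norm_R_le _ _).trans h1) (h2 s (Ioc_subset_Icc_self hs)))
  rw [e, norm_smul, Real.norm_eq_abs, abs_of_pos (inv_pos.2 hδ), inv_mul_le_iff₀ hδ, mul_comm]
  rwa [sub_zero, abs_of_pos hδ] at b

lemma dense_der (F : CN) {ε : ℝ} (hε : 0 < ε) : ∃ G GY GZ, Der G GY GZ ∧ ‖F - G‖ ≤ ε := by
  have key : ∀ l κ : ℝ, ∀ᶠ s in 𝓝 (0 : ℝ), ‖R (0, l * s, κ * s) F - F‖ ≤ ε / 2 := fun l κ => by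
    have c : Continuous fun s : ℝ => ‖R (0, l * s, κ * s) F - F‖ :=
      (((continuous_R F).comp (by fun_prop)).sub continuous_const).norm
    exact (c.tendsto 0).eventually_le_const (by simpa [R_zero'] using hε)
  obtain ⟨δ, hδ, hb⟩ := Metric.nhds_basis_closedBall.eventually_iff.1 ((key 1 0).and (key 0 1))
  have hm : ∀ s ∈ Icc 0 δ, s ∈ Metric.closedBall (0 : ℝ) δ := fun s hs => by
    rw [mem_closedBall_zero_iff, Real.norm_eq_abs, abs_of_nonneg hs.1]; exact hs.2
  have a1 := segDer_near (H := F) (η' := 0) hδ (by simp) fun s hs => (hb (hm s hs)).2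
  have a2 := segDer_near hδ a1 fun s hs => (hb (hm s hs)).1
  have d1 := segDer_deriv 1 0 δ (segDer 0 1 δ F)
  have d2 := clm_deriv_der (segDer 1 0 δ) (segDer_deriv 0 1 δ F)
  simp only [← R_segDer, one_mul, zero_mul] at d1 d2
  refine ⟨_, _, _, (Der.smul (Der.smul ⟨d1, d2⟩ ((δ⁻¹ : ℝ) : ℂ)) ((δ⁻¹ : ℝ) : ℂ)), ?_⟩
  rw [norm_sub_rev, ← map_smul]
  exact a2.trans_eq (by ring)

end Pool.Agent.P.MP_442888_an.Mix
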