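import Pool.Agent.P.MP_442888_an.MixPars
import Pool.Agent.P.MP_442888_an.MixDecay

set_option autoImplicit false

open MeasureTheory Filter Topology Set
open scoped ComplexConjugate Real

namespace Pool.Agent.P.MP_442888_an.Mix

variable {X : G3} {G : CN}

lemma n2_sq_le_erg {F G₁ G₂ : CN} (hF : Toral F) {α β : ℝ} (hα : 0 ≤ α) (hβ : 0 ≤ β)
    (h : ∀ k, ‖ip F (chi k)‖ ^ 2 ≤ α * ‖ip G₁ (chi k)‖ ^ 2 + β * ‖ip G₂ (chi k)‖ ^ 2) :
    n2 F ^ 2 ≤ α * ‖G₁‖ ^ 2 + β * ‖G₂‖ ^ 2 := by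
  refine hasSum_le_of_sum_le (parseval hF) fun s => ?_
  refine (Finset.sum_le_sum fun k _ => h k).trans ?_
  rw [Finset.sum_add_distrib, ← Finset.mul_sum, ← Finset.mul_sum]
  exact add_le_add (mul_le_mul_of_nonneg_left (bessel _ s) hα)
    (mul_le_mul_of_nonneg_left (bessel _ s) hβ)

lemma norm_ip_Y_erg {GY GZ : CN} (h : Der G GY GZ) (k : ℤ × ℤ) :
    |(k.2 : ℝ)| * ‖ip G (chi k)‖ ≤ ‖ip GY (chi k)‖ := by
  rw [ip_Y_chi h k, norm_mul]
  refine mul_le_mul_of_nonneg_right ?_ (norm_nonneg _)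
  have h1 : ‖(2 * π * Complex.I * k.2 : ℂ)‖ = 2 * π * |(k.2 : ℝ)| := by
    simp [abs_of_pos Real.pi_pos]
  rw [h1]
  nlinarith [Real.pi_gt_three, abs_nonneg (k.2 : ℝ)]

lemma exists_iter_erg (n : ℕ) (hG : Sm G) : ∃ H : CN, Sm H ∧
    ∀ k : ℤ × ℤ, |(k.2 : ℝ)| ^ n * ‖ip G (chi k)‖ ≤ ‖ip H (chi k)‖ := by
  induction n with
  | zero => exact ⟨G, hG, fun k => by simp⟩
  | succ n ih =>
    obtain ⟨H, hH, h⟩ := ih
    obtain ⟨HY, HZ, hD, hY, -⟩ := hH.der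
    refine ⟨HY, hY, fun k => le_trans ?_ (norm_ip_Y_erg hD k)⟩
    rw [pow_succ', mul_assoc]
    exact mul_le_mul_of_nonneg_left (h k) (abs_nonneg _)

lemma ip_S_zero_erg (h0 : E G = 0) (T : ℝ) : ‖ip (S X G T) (chi 0)‖ = 0 := by
  have h := (ip_S_chi_le (X := X) G T 0).1
  rw [ip_chi_zero G, h0, norm_zero, zero_mul] at h
  exact le_antisymm h (norm_nonneg _)

lemma ip_S_dio_erg {c : ℝ} {τ : ℕ} {k : ℤ × ℤ} (hk : c ≤ |th X k| * (1 + |(k.2 : ℝ)|) ^ τ)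
    (G : CN) (T : ℝ) :
    c * ‖ip (S X G T) (chi k)‖ ≤ (1 + |(k.2 : ℝ)|) ^ τ * ‖ip G (chi k)‖ := by
  have h := (ip_S_chi_le (X := X) G T k).2
  calc c * ‖ip (S X G T) (chi k)‖
      ≤ |th X k| * (1 + |(k.2 : ℝ)|) ^ τ * ‖ip (S X G T) (chi k)‖ :=
        mul_le_mul_of_nonneg_right hk (norm_nonneg _)
    _ = (1 + |(k.2 : ℝ)|) ^ τ * (‖ip (S X G T) (chi k)‖ * |th X k|) := by ring
    _ ≤ _ := mul_le_mul_of_nonneg_left h (by positivity)

/-- Smooth functions on the torus factor have bounded ergodic integrals. -/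
theorem toral_bdd (hX : Dio X) (hG : Sm G) (ht : Toral G) (h0 : E G = 0) :
    ∃ K : ℝ, ∀ T, n2 (S X G T) ≤ K := by
  obtain ⟨c, hc, τ, hd⟩ := hX
  obtain ⟨H, -, hH⟩ := exists_iter_erg τ hG
  set A : ℝ := 2 ^ (τ - 1) / c with hA
  refine ⟨√(2 * A ^ 2 * ‖G‖ ^ 2 + 2 * A ^ 2 * ‖H‖ ^ 2), fun T => Real.le_sqrt_of_sq_le ?_⟩
  refine n2_sq_le_erg (ht.S T) (by positivity) (by positivity) fun k => ?_
  by_cases hk : k = 0
  · subst hk
    rw [ip_S_zero_erg h0]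
    have : (0 : ℝ) ^ 2 = 0 := by norm_num
    rw [this]
    positivity
  · have h1 := ip_S_dio_erg (hd k hk) G T
    have h2 : (1 + |(k.2 : ℝ)|) ^ τ ≤ 2 ^ (τ - 1) * (1 ^ τ + |(k.2 : ℝ)| ^ τ) :=
      add_pow_le zero_le_one (abs_nonneg _) τ
    have h3 : ‖ip (S X G T) (chi k)‖ ≤ A * (‖ip G (chi k)‖ + ‖ip H (chi k)‖) := by
      rw [hA, div_mul_eq_mul_div, le_div_iff₀ hc, mul_comm]
      refine h1.trans ((mul_le_mul_of_nonneg_right h2 (norm_nonneg _)).trans ?_)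
      rw [mul_assoc, one_pow, add_mul, one_mul]
      exact mul_le_mul_of_nonneg_left (add_le_add le_rfl (hH k)) (by positivity)
    refine (pow_le_pow_left₀ (norm_nonneg _) h3 2).trans ?_
    nlinarith [mul_nonneg (sq_nonneg A) (sq_nonneg (‖ip G (chi k)‖ - ‖ip H (chi k)‖))]

lemma eff_toral_erg {c : ℝ} (hc : 0 < c) {τ : ℕ}
    (hd : ∀ k : ℤ × ℤ, k ≠ 0 → c ≤ |th X k| * (1 + |(k.2 : ℝ)|) ^ τ) {GY GZ : CN} {C : ℝ}
    (hD : Der G GY GZ) (ht : Toral G) (h0 : E G = 0) (hG : ‖G‖ ≤ 2 * C) (hY : ‖GY‖ ≤ C) {T : ℝ}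
    (hT : 1 ≤ T) :
    n2 (S X G T) ≤ (2 * (2 ^ τ / c) + 1) * C * T * T ^ (-(1 / ((τ : ℝ) + 1))) := by
  have hT0 : 0 < T := one_pos.trans_le hT
  have hC : 0 ≤ C := (norm_nonneg _).trans hY
  set M : ℝ := T ^ (1 / ((τ : ℝ) + 1)) with hM
  have hM1 : 1 ≤ M := Real.one_le_rpow hT (by positivity)
  have hM0 : 0 < M := one_pos.trans_le hM1
  have hMT : M ^ τ = T / M := by
    rw [eq_div_iff hM0.ne', ← pow_succ, hM, ← Real.rpow_natCast, ← Real.rpow_mul hT0.le]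
    push_cast
    rw [one_div_mul_cancel (by positivity), Real.rpow_one]
  have h1 : n2 (S X G T) ^ 2 ≤
      (2 ^ τ / c * (T / M)) ^ 2 * ‖G‖ ^ 2 + (T / M) ^ 2 * ‖GY‖ ^ 2 := by
    refine n2_sq_le_erg (ht.S T) (by positivity) (by positivity) fun k => ?_
    by_cases hk : k = 0
    · subst hk
      rw [ip_S_zero_erg h0]
      have : (0 : ℝ) ^ 2 = 0 := by norm_num
      rw [this]
      positivity
    · rcases le_or_gt |(k.2 : ℝ)| M with hkM | hkM
      · have h2 := ip_S_dio_erg (hd k hk) G T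
        have h3 : (1 + |(k.2 : ℝ)|) ^ τ ≤ 2 ^ τ * (T / M) := by
          rw [← hMT, ← mul_pow]
          exact pow_le_pow_left₀ (by positivity) (by linarith) τ
        have h4 : ‖ip (S X G T) (chi k)‖ ≤ 2 ^ τ / c * (T / M) * ‖ip G (chi k)‖ := by
          rw [div_mul_eq_mul_div, div_mul_eq_mul_div, le_div_iff₀ hc, mul_comm]
          exact h2.trans (mul_le_mul_of_nonneg_right h3 (norm_nonneg _))
        refine (pow_le_pow_left₀ (norm_nonneg _) h4 2).trans ?_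
        rw [mul_pow]
        exact le_add_of_nonneg_right (by positivity)
      · have h2 := (ip_S_chi_le (X := X) G T k).1
        have h3 : M * ‖ip G (chi k)‖ ≤ ‖ip GY (chi k)‖ :=
          (mul_le_mul_of_nonneg_right hkM.le (norm_nonneg _)).trans (norm_ip_Y_erg hD k)
        have h4 : ‖ip (S X G T) (chi k)‖ ≤ T / M * ‖ip GY (chi k)‖ := by
          refine h2.trans (le_trans (le_of_eq ?_)
            (mul_le_mul_of_nonneg_left h3 (by positivity : 0 ≤ T / M)))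
          rw [abs_of_pos hT0]
          field_simp
        refine (pow_le_pow_left₀ (norm_nonneg _) h4 2).trans ?_
        rw [mul_pow]
        exact le_add_of_nonneg_left (by positivity)
  rw [Real.rpow_neg hT0.le, ← hM, mul_assoc, ← div_eq_mul_inv]
  refine (pow_le_pow_iff_left₀ (n2_nonneg _) (by positivity) two_ne_zero).1 (h1.trans ?_)
  have h5 : ‖G‖ ^ 2 ≤ (2 * C) ^ 2 := pow_le_pow_left₀ (norm_nonneg _) hG 2
  have h6 : ‖GY‖ ^ 2 ≤ C ^ 2 := pow_le_pow_left₀ (norm_nonneg _) hY 2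
  set B : ℝ := 2 ^ τ / c with hB
  set Q : ℝ := T / M with hQ
  have hB0 : 0 ≤ B := by positivity
  calc (B * Q) ^ 2 * ‖G‖ ^ 2 + Q ^ 2 * ‖GY‖ ^ 2
      ≤ (B * Q) ^ 2 * (2 * C) ^ 2 + Q ^ 2 * C ^ 2 := by gcongr
    _ ≤ ((2 * B + 1) * C * Q) ^ 2 := by
        nlinarith [mul_nonneg hB0 (sq_nonneg (C * Q))]

lemma norm_one_erg : ‖(1 : CN)‖ ≤ 1 := (ContinuousMap.norm_le _ zero_le_one).2 (by simp)

/-- Effective mean ergodic theorem. -/
theorem eff_erg (hX : Dio X) : ∃ K γ : ℝ, 0 ≤ K ∧ 0 < γ ∧ ∀ (G GY GZ : CN) (C : ℝ),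
    Der G GY GZ → ‖G‖ ≤ C → ‖GY‖ ≤ C → ∀ T : ℝ, 1 ≤ T →
      n2 (S X (G - E G • (1 : CN)) T) ≤ K * C * T * T ^ (-γ) := by
  obtain ⟨K, hK, hnt⟩ := eff_nontoral hX.irr.ne
  obtain ⟨c, hc, τ, hd⟩ := hX
  refine ⟨K + (2 * (2 ^ τ / c) + 1), min (1 / 4) (1 / ((τ : ℝ) + 1)), by positivity,
    by positivity, fun G GY GZ C hD hG hY T hT => ?_⟩
  have hT0 : 0 < T := one_pos.trans_le hT
  have hC : 0 ≤ C := (norm_nonneg _).trans hG
  have e : G - E G • (1 : CN) = (G - Av G) + (Av G - E G • (1 : CN)) := by abel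
  have h1 := hnt G GY GZ C hD hG hY T hT
  have h2 := eff_toral_erg hc hd (hD.Av.sub (der_one.smul (E G)))
    ((toral_Av G).sub (toral_one.smul _)) (C := C)
    (by rw [map_sub, map_smul, E_Av, E_one, smul_eq_mul, mul_one, sub_self])
    (by
      refine (norm_sub_le _ _).trans ?_
      rw [norm_smul]
      have h3 : ‖E G‖ * ‖(1 : CN)‖ ≤ C * 1 :=
        mul_le_mul ((norm_E_le G).trans hG) norm_one_erg (norm_nonneg _) hC
      linarith [norm_Av_le G])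
    (by rw [smul_zero, sub_zero]; exact (norm_Av_le GY).trans hY) hT
  have h3 : T ^ (3 / 4 : ℝ) ≤ T * T ^ (-min (1 / 4) (1 / ((τ : ℝ) + 1))) := by
    rw [← Real.rpow_one_add' hT0.le]
    · exact Real.rpow_le_rpow_of_exponent_le hT (by linarith [min_le_left (1 / 4) (1 / ((τ : ℝ) + 1))])
    · linarith [min_le_left (1 / 4) (1 / ((τ : ℝ) + 1))]
  have h4 : T ^ (-(1 / ((τ : ℝ) + 1))) ≤ T ^ (-min (1 / 4) (1 / ((τ : ℝ) + 1))) :=
    Real.rpow_le_rpow_of_exponent_le hT (neg_le_neg (min_le_right _ _))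
  rw [e, S_add]
  refine (n2_add_le _ _).trans ?_
  have h5 : K * C * T ^ (3 / 4 : ℝ) ≤ K * C * (T * T ^ (-min (1 / 4) (1 / ((τ : ℝ) + 1)))) :=
    mul_le_mul_of_nonneg_left h3 (by positivity)
  have h6 : (2 * (2 ^ τ / c) + 1) * C * T * T ^ (-(1 / ((τ : ℝ) + 1))) ≤
      (2 * (2 ^ τ / c) + 1) * C * T * T ^ (-min (1 / 4) (1 / ((τ : ℝ) + 1))) :=
    mul_le_mul_of_nonneg_left h4 (by positivity)
  refine (add_le_add (h1.trans h5) (h2.trans h6)).trans (le_of_eq ?_)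
  ring

lemma mean_toral_erg (hX : Irr X) (ht : Toral G) (h0 : E G = 0) :
    Tendsto (fun T => n2 (S X G T) / T) atTop (𝓝 0) := by
  have h1 : Tendsto (fun T : ℝ => ∑' k : ℤ × ℤ, ‖ip (S X G T) (chi k)‖ ^ 2 / T ^ 2) atTop
      (𝓝 (∑' _ : ℤ × ℤ, (0 : ℝ))) := by
    refine tendsto_tsum_of_dominated_convergence (parseval ht).summable (fun k => ?_) ?_
    · by_cases hk : k = 0
      · subst hk
        simp [ip_S_zero_erg h0]
      · have hθ : 0 < |th X k| := abs_pos.2 (hX k hk)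
        have h2 : Tendsto (fun T : ℝ => (‖ip G (chi k)‖ / |th X k|) ^ 2 / T ^ 2) atTop (𝓝 0) :=
          (tendsto_pow_atTop two_ne_zero).const_div_atTop _
        refine squeeze_zero (fun T => by positivity) (fun T => ?_) h2
        refine div_le_div_of_nonneg_right (pow_le_pow_left₀ (norm_nonneg _) ?_ 2) (sq_nonneg T)
        rw [le_div_iff₀ hθ]
        exact (ip_S_chi_le G T k).2
    · filter_upwards [eventually_gt_atTop 0] with T hT k
      rw [Real.norm_of_nonneg (by positivity), div_le_iff₀ (by positivity), ← mul_pow]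
      have h2 := (ip_S_chi_le (X := X) G T k).1
      rw [abs_of_pos hT] at h2
      exact pow_le_pow_left₀ (norm_nonneg _) h2 2
  rw [tsum_zero] at h1
  have h2 := (Real.continuous_sqrt.tendsto 0).comp h1
  rw [Real.sqrt_zero] at h2
  refine h2.congr' ?_
  filter_upwards [eventually_gt_atTop 0] with T hT
  simp only [Function.comp]
  rw [tsum_div_const, (parseval (ht.S T)).tsum_eq, ← div_pow,
    Real.sqrt_sq (div_nonneg (n2_nonneg _) hT.le)]

/-- Mean ergodic theorem. -/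
theorem mean_erg (hX : Irr X) (h0 : E G = 0) :
    Tendsto (fun T => n2 (S X G T) / T) atTop (𝓝 0) := by
  obtain ⟨K, hK, hnt⟩ := eff_nontoral hX.ne
  rw [Metric.tendsto_nhds]
  intro ε hε
  obtain ⟨G', GY, GZ, hD, hG'⟩ := dense_der G (ε := ε / 8) (by positivity)
  have h1 := mean_toral_erg hX (toral_Av G) (by rw [E_Av, h0])
  set C := max ‖G'‖ ‖GY‖ with hC
  have h2 : Tendsto (fun T : ℝ => K * C * T ^ (-(1 / 4) : ℝ)) atTop (𝓝 (K * C * 0)) :=
    (tendsto_rpow_neg_atTop (by norm_num)).const_mul _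
  rw [mul_zero] at h2
  filter_upwards [h1.eventually (gt_mem_nhds (show (0 : ℝ) < ε / 4 by positivity)),
    h2.eventually (gt_mem_nhds (show (0 : ℝ) < ε / 4 by positivity)), eventually_ge_atTop 1]
    with T hT1 hT2 hT
  have hT0 : 0 < T := one_pos.trans_le hT
  have e : G = (G' - Av G') + ((G - G') - Av (G - G')) + Av G := by
    rw [map_sub]
    abel
  have h3 := hnt G' GY GZ C hD (le_max_left _ _) (le_max_right _ _) T hT
  have h4 : n2 (S X ((G - G') - Av (G - G')) T) ≤ ε / 4 * T := by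
    refine (n2_S_le _ _).trans ?_
    rw [abs_of_pos hT0]
    refine mul_le_mul_of_nonneg_right ((n2_le_norm _).trans ((norm_sub_le _ _).trans ?_)) hT0.le
    linarith [norm_Av_le (G - G')]
  have h5 : T ^ (3 / 4 : ℝ) = T ^ (-(1 / 4) : ℝ) * T := by
    rw [← Real.rpow_add_one hT0.ne']
    norm_num
  have h6 : n2 (S X G T) ≤ n2 (S X (G' - Av G') T) + n2 (S X ((G - G') - Av (G - G')) T) +
      n2 (S X (Av G) T) := by
    conv_lhs => rw [e, S_add, S_add]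
    exact (n2_add_le _ _).trans (add_le_add (n2_add_le _ _) le_rfl)
  rw [Real.dist_eq, sub_zero, abs_of_nonneg (div_nonneg (n2_nonneg _) hT0.le), div_lt_iff₀ hT0]
  rw [div_lt_iff₀ hT0] at hT1
  rw [h5, ← mul_assoc] at h3
  have h7 := mul_lt_mul_of_pos_right hT2 hT0
  nlinarith [mul_pos hε hT0]

end Pool.Agent.P.MP_442888_an.Mix
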