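import Pool.Agent.P.MP_442888_an.MixDer

set_option autoImplicit false

open MeasureTheory Filter Topology Set
open scoped ComplexConjugate Real

namespace Pool.Agent.P.MP_442888_an.Mix

variable {X : G3} {F FY FZ G : CN} {m : ℤ}

lemma R_add_one_fib (z : ℝ) (F : CN) : R (0, 0, z + 1) F = R (0, 0, z) F := by
  have h := R_yz 0 z 0 ((1 : ℤ) : ℝ) F
  rw [R_int, add_zero, Int.cast_one] at h
  exact h.symm

lemma Zc_smul_fib (c : ℂ) (w : C(ℝ, ℂ)) (F : CN) : Zc (c • w) F = c • Zc w F := by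
  rw [Zc_apply, Zc_apply, ← intervalIntegral.integral_smul]
  simp only [ContinuousMap.smul_apply, smul_assoc]

lemma Der.parts_fib (h : Der F FY FZ) (w w' : C(ℝ, ℂ)) (hw : ∀ z, HasDerivAt w (w' z) z) :
    Zc w FZ + Zc w' F = (w 1 - w 0) • F := by
  have hd : ∀ z : ℝ, HasDerivAt (fun s : ℝ => R (0, 0, s) F) (R (0, 0, z) FZ) z := fun z => by
    simpa using h.dir 0 1 z
  have := intervalIntegral.integral_eq_sub_of_hasDerivAt (a := 0) (b := 1)
    (f := fun z : ℝ => w z • R (0, 0, z) F)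
    (f' := fun z : ℝ => w z • R (0, 0, z) FZ + w' z • R (0, 0, z) F)
    (fun z _ => (hw z).fun_smul (hd z))
    (((continuous_fibre w FZ).add (continuous_fibre w' F)).intervalIntegrable _ _)
  rw [intervalIntegral.integral_add ((continuous_fibre w FZ).intervalIntegrable _ _)
    ((continuous_fibre w' F).intervalIntegrable _ _)] at this
  have e := R_add_one_fib 0 F
  rw [zero_add] at e
  rw [Zc_apply, Zc_apply, this, e, R_zero', sub_smul]

lemma R_Zc (g : G3) (w : C(ℝ, ℂ)) (F : CN) : R g (Zc w F) = Zc w (R g F) := by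
  rw [Zc_apply, Zc_apply, clm_integral _ (continuous_fibre w F)]
  simp only [map_smul, R_central g]

lemma Der.Zc (h : Der F FY FZ) (w : C(ℝ, ℂ)) : Der (Zc w F) (Zc w FY) (Zc w FZ) := by
  exact h.clm (Mix.Zc w) fun y z H => R_Zc _ w H

lemma norm_Zc_le {w : C(ℝ, ℂ)} (hw : ∀ z ∈ Icc (0 : ℝ) 1, ‖w z‖ ≤ 1) (F : CN) :
    ‖Zc w F‖ ≤ ‖F‖ := by
  have := intervalIntegral.norm_integral_le_of_norm_le_const (a := 0) (b := 1) (C := ‖F‖)
    (f := fun z => w z • R (0, 0, z) F) fun z hz => by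
      rw [uIoc_of_le zero_le_one] at hz
      rw [norm_smul]
      exact (mul_le_of_le_one_left (norm_nonneg _) (hw z (Ioc_subset_Icc_self hz))).trans
        (norm_R_le _ F)
  simpa [Zc_apply] using this

lemma n2_Zc_le {w : C(ℝ, ℂ)} (hw : ∀ z ∈ Icc (0 : ℝ) 1, ‖w z‖ ≤ 1) (F : CN) :
    n2 (Zc w F) ≤ n2 F := by
  have := n2_integral_le (a := 0) (b := 1) (C := n2 F) (continuous_fibre w F) fun z hz => by
    rw [uIoc_of_le zero_le_one] at hz
    rw [n2_smul, n2_R]
    exact mul_le_of_le_one_left (n2_nonneg _) (hw z (Ioc_subset_Icc_self hz))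
  simpa [Zc_apply] using this

lemma S_Zc (w : C(ℝ, ℂ)) (F : CN) (t : ℝ) : S X (Zc w F) t = Zc w (S X F t) := by
  rw [S, S, clm_integral _ (continuous_U F)]
  simp only [U, R_Zc]

lemma wAv : ∀ z ∈ Icc (0 : ℝ) 1, ‖(1 : C(ℝ, ℂ)) z‖ ≤ 1 := by
  intro z _
  simp

lemma wPr : ∀ z ∈ Icc (0 : ℝ) 1,
    ‖(⟨fun z => (z : ℂ) - 1 / 2, by fun_prop⟩ : C(ℝ, ℂ)) z‖ ≤ 1 := by
  intro z hz
  have e : (z : ℂ) - 1 / 2 = ((z - 1 / 2 : ℝ) : ℂ) := by push_cast; rfl
  rw [ContinuousMap.coe_mk, e, Complex.norm_real, Real.norm_eq_abs, abs_le]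
  constructor <;> linarith [hz.1, hz.2]

lemma wPm (m : ℤ) : ∀ z ∈ Icc (0 : ℝ) 1,
    ‖(⟨fun z => ee (-(m * z)), continuous_ee.comp (by fun_prop)⟩ : C(ℝ, ℂ)) z‖ ≤ 1 := by
  intro z _
  exact (norm_ee _).le

lemma norm_Av_le (F : CN) : ‖Av F‖ ≤ ‖F‖ := norm_Zc_le wAv F

lemma norm_Pr_le (F : CN) : ‖Pr F‖ ≤ ‖F‖ := norm_Zc_le wPr F

lemma norm_Pm_le (m : ℤ) (F : CN) : ‖Pm m F‖ ≤ ‖F‖ := norm_Zc_le (wPm m) F

lemma n2_Av_le (F : CN) : n2 (Av F) ≤ n2 F := n2_Zc_le wAv F

lemma n2_Pr_le (F : CN) : n2 (Pr F) ≤ n2 F := n2_Zc_le wPr F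

lemma Der.Av (h : Der F FY FZ) : Der (Av F) (Av FY) (Av FZ) := h.Zc _

lemma Der.Pr (h : Der F FY FZ) : Der (Pr F) (Pr FY) (Pr FZ) := h.Zc _

lemma Der.Pm (h : Der F FY FZ) (m : ℤ) : Der (Pm m F) (Pm m FY) (Pm m FZ) := h.Zc _

lemma S_Pr (F : CN) (t : ℝ) : S X (Pr F) t = Pr (S X F t) := S_Zc _ F t

lemma mode_Pm (m : ℤ) (F : CN) : Mode m (Pm m F) := by
  intro w
  have hp : Function.Periodic (fun z : ℝ => ee (-(m * z)) • R (0, 0, z) F) 1 := fun z => by
    have e1 : ee (-(m * (z + 1))) = ee (-(m * z)) := by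
      rw [show -((m : ℝ) * (z + 1)) = -(m * z) + ((-m : ℤ) : ℝ) by push_cast; ring, ee_add, ee_int,
        mul_one]
    simp only [e1, R_add_one_fib]
  have e : ∀ z : ℝ, R (0, 0, w) (ee (-(m * z)) • R (0, 0, z) F) =
      ee (m * w) • (fun z : ℝ => ee (-(m * z)) • R (0, 0, z) F) (w + z) := fun z => by
    simp only [map_smul, R_yz, add_zero, smul_smul, ← ee_add]
    congr 2
    ring
  rw [Pm, Zc_apply, clm_integral _ (continuous_fibre _ F)]
  simp only [ContinuousMap.coe_mk, e]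
  rw [intervalIntegral.integral_smul, intervalIntegral.integral_comp_add_left
    (fun z : ℝ => ee (-(m * z)) • R (0, 0, z) F) w, add_zero, hp.intervalIntegral_add_eq w 0,
    zero_add]

lemma Pm_zero : Pm 0 = Av := by
  rw [Pm, Av]
  congr 1
  ext z
  simp [ee_zero]

lemma toral_iff_mode : Toral F ↔ Mode 0 F := by
  simp [Toral, Mode, ee_zero]

lemma toral_Av (F : CN) : Toral (Av F) := by
  rw [toral_iff_mode, ← Pm_zero]
  exact mode_Pm 0 F

lemma Toral.Av_eq (h : Toral F) : Av F = F := by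
  rw [Av, Zc_apply]
  simp [h _]

lemma toral_one : Toral 1 := by
  exact fun z => R_one _

lemma toral_chi (k : ℤ × ℤ) : Toral (chi k) := by
  intro z
  rw [R_chi]
  simp [ee_zero]

lemma Toral.sub (h : Toral F) (h' : Toral G) : Toral (F - G) := by
  intro z
  rw [map_sub, h z, h' z]

lemma Toral.smul (h : Toral F) (c : ℂ) : Toral (c • F) := by
  intro z
  rw [map_smul, h z]

lemma E_Av (F : CN) : E (Av F) = E F := by
  rw [Av, Zc_apply, clm_integral _ (continuous_fibre _ F)]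
  simp [E_R]

lemma ip_Av_chi (F : CN) (k : ℤ × ℤ) : ip (Av F) (chi k) = ip F (chi k) := by
  have e : ∀ z : ℝ, ip (R (0, 0, z) F) (chi k) = ip F (chi k) := fun z => by
    rw [← ip_R (0, 0, z) F, toral_chi k z]
  rw [← ipL_apply, Av, Zc_apply, clm_integral _ (continuous_fibre _ F)]
  simp [ipL_apply, e]

lemma Av_Av (F : CN) : Av (Av F) = Av F := (toral_Av F).Av_eq

lemma Av_Pr (F : CN) : Av (Pr F) = 0 := by
  have e : ∀ z : ℝ, Av (R (0, 0, z) F) = Av F := fun z =>
    (R_Zc _ _ F).symm.trans (toral_Av F z)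
  have e2 : ∫ z in (0 : ℝ)..1, ((z : ℂ) - 1 / 2) = 0 := by
    have : ∀ z : ℝ, (z : ℂ) - 1 / 2 = ((z - 1 / 2 : ℝ) : ℂ) := fun z => by push_cast; rfl
    simp only [this]
    rw [intervalIntegral.integral_ofReal, intervalIntegral.integral_sub
      (continuous_id'.intervalIntegrable _ _) (continuous_const.intervalIntegrable _ _)]
    simp
  rw [Pr, Zc_apply, clm_integral _ (continuous_fibre _ F)]
  simp only [map_smul, e, ContinuousMap.coe_mk]
  rw [intervalIntegral.integral_smul_const, e2, zero_smul]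

lemma Der.Pr_Z (h : Der F FY FZ) : Mix.Pr FZ = F - Mix.Av F := by
  have := h.parts_fib ⟨fun z => (z : ℂ) - 1 / 2, by fun_prop⟩ 1 fun z => by
    simpa using ((hasDerivAt_id z).ofReal_comp).sub_const (1 / 2 : ℂ)
  rw [eq_sub_iff_add_eq, Mix.Pr, Mix.Av, this, ← one_smul ℂ F, smul_smul]
  congr 1
  simp only [ContinuousMap.coe_mk]
  norm_num

lemma Der.Pm_Z (h : Der F FY FZ) (m : ℤ) :
    Mix.Pm m FZ = (2 * π * Complex.I * m : ℂ) • Mix.Pm m F := by
  have := h.parts_fib ⟨fun z => ee (-(m * z)), continuous_ee.comp (by fun_prop)⟩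
    ((-(2 * π * Complex.I * m) : ℂ) • ⟨fun z => ee (-(m * z)), continuous_ee.comp (by fun_prop)⟩)
    fun z => by simpa using hasDerivAt_ee (-m) z
  have e : ee (-(m * (1 : ℝ))) = 1 := by
    rw [← ee_int (-m)]
    congr 1
    push_cast
    ring
  rw [Zc_smul_fib] at this
  simp only [ContinuousMap.coe_mk, e, mul_zero, neg_zero, ee_zero, sub_self, zero_smul,
    neg_smul] at this
  exact add_neg_eq_zero.1 this

lemma Der.Av_Z (h : Der F FY FZ) : Mix.Av FZ = 0 := by
  have := h.Pm_Z 0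
  rwa [Pm_zero, Int.cast_zero, mul_zero, zero_smul] at this

lemma Der.Av_Y (h : Der F FY FZ) (h0 : Mix.Av F = 0) : Mix.Av FY = 0 := by
  have h1 := h.Av
  have h2 := der_one.smul 0
  rw [zero_smul, zero_smul] at h2
  rw [h0] at h1
  exact (h1.unique h2).1

lemma Mode.der (hm : Mode m F) (h : Der F FY FZ) :
    Mode m FY ∧ FZ = (2 * π * Complex.I * m : ℂ) • F := by
  refine ⟨fun z => ?_, ?_⟩
  · have h1 := h.clm (R (0, 0, z)) fun y z' H => R_central _ z H
    rw [hm z] at h1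
    exact (h1.unique (h.smul _)).1
  · have h1 := h.2
    simp only [hm _] at h1
    have h2 := (hasDerivAt_ee m 0).smul_const F
    rw [h1.unique h2]
    simp [ee_zero]

lemma Toral.der (hm : Toral F) (h : Der F FY FZ) : Toral FY ∧ FZ = 0 := by
  have := (toral_iff_mode.1 hm).der h
  rwa [← toral_iff_mode, Int.cast_zero, mul_zero, zero_smul] at this

lemma Mode.S (hm : Mode m F) (t : ℝ) : Mode m (S X F t) := by
  intro z
  rw [← S_smul, ← hm z, Mix.S, Mix.S, clm_integral _ (continuous_U F)]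
  simp only [U, R_central (hexp X _)]

lemma Toral.S (hm : Toral F) (t : ℝ) : Toral (S X F t) := by
  exact toral_iff_mode.2 ((toral_iff_mode.1 hm).S t)

lemma Mode.mul_star (h : Mode m F) (h' : Mode m G) : Toral (F * star G) := by
  intro z
  rw [R_mul, R_star, h z, h' z, star_smul, smul_mul_smul_comm, Complex.star_def, conj_ee, ← ee_add,
    add_neg_cancel, ee_zero, one_smul]

/-- Fourier expansion along the fibres. -/
theorem hasSum_Pm (h : Summable fun m : ℤ => ‖Pm m F‖) : HasSum (fun m : ℤ => Pm m F) F := by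
  have hs : Summable fun m : ℤ => Pm m F := h.of_norm
  convert hs.hasSum
  ext p
  have hp : Function.Periodic (fun z : ℝ => R (0, 0, z) F p) 1 := fun z => by
    simp only [R_add_one_fib]
  have hc : Continuous fun z : ℝ => R (0, 0, z) F p :=
    (ContinuousMap.evalCLM ℂ p).continuous.comp ((continuous_R F).comp (by fun_prop))
  let f : C(UnitAddCircle, ℂ) := ⟨hp.lift, continuous_coinduced_dom.mpr hc⟩
  have e : ∀ m : ℤ, fourierCoeff f m = Pm m F p := fun m => by
    rw [fourierCoeff_eq_intervalIntegral f m 0, Pm, Zc_apply,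
      integral_apply' (continuous_fibre _ F), div_one, one_smul, zero_add]
    refine intervalIntegral.integral_congr fun z _ => ?_
    simp only [fourier_eq_ee, Int.cast_neg, neg_mul]
    rfl
  have h1 : HasSum (fun m : ℤ => Pm m F p) ((∑' m : ℤ, Pm m F) p) :=
    (ContinuousMap.evalCLM ℂ p).hasSum hs.hasSum
  have h2 := has_pointwise_sum_fourier_series_of_summable (f := f)
    (by rw [funext e]; exact h1.summable) ((0 : ℝ) : UnitAddCircle)
  simp only [fourier_eq_ee, mul_zero, ee_zero, smul_eq_mul, mul_one, e] at h2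
  rw [← h2.unique h1]
  exact (congrArg (fun H : CN => H p) (R_zero' F)).symm

end Pool.Agent.P.MP_442888_an.Mix
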