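import Pool.Agent.P.MP_442888_an.MixDefs

set_option autoImplicit false

open MeasureTheory Filter Topology Set
open scoped ComplexConjugate Real

namespace Pool.Agent.P.MP_442888_an.Mix

variable {X : G3}

lemma summable_inv_Lattice : Summable (fun M : ℤ => 1 / (1 + (M : ℝ) ^ 2)) := by
  have hn : Summable (fun n : ℕ => 1 / (1 + (n : ℝ) ^ 2)) := by
    rw [← summable_nat_add_iff 1]
    have h2 : Summable (fun n : ℕ => 1 / (((n + 1 : ℕ) : ℝ)) ^ 2) :=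
      (summable_nat_add_iff 1).mpr (Real.summable_one_div_nat_pow.mpr (by norm_num))
    refine Summable.of_nonneg_of_le (fun n => by positivity) (fun n => ?_) h2
    apply one_div_le_one_div_of_le (by positivity)
    linarith
  refine Summable.of_nat_of_neg ?_ ?_
  · simpa using hn
  · simpa using hn

lemma shift_Lattice (M δ : ℝ) (hδ : |δ| ≤ 1) :
    1 / (1 + (M + δ) ^ 2) ≤ 3 * (1 / (1 + M ^ 2)) := by
  have h1 : δ ^ 2 ≤ 1 := by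
    have := abs_le.mp hδ
    nlinarith
  rw [mul_one_div, div_le_div_iff₀ (by positivity) (by positivity)]
  nlinarith [sq_nonneg (2 * M + 3 * δ)]

lemma sum_inv_sq : ∃ K : ℝ, 0 ≤ K ∧ ∀ (x : ℝ) (s : Finset ℤ),
    ∑ N ∈ s, 1 / (1 + ((N : ℝ) + x) ^ 2) ≤ K := by
  classical
  refine ⟨3 * ∑' M : ℤ, 1 / (1 + (M : ℝ) ^ 2), ?_, ?_⟩
  · have : 0 ≤ ∑' M : ℤ, 1 / (1 + (M : ℝ) ^ 2) := tsum_nonneg (fun M => by positivity)
    positivity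
  · intro x s
    have hδ : |x - round x| ≤ 1 := (abs_sub_round x).trans (by norm_num)
    have h1 : ∑ N ∈ s, 1 / (1 + ((N : ℝ) + x) ^ 2)
        ≤ ∑ N ∈ s, 3 * (1 / (1 + (((N + round x : ℤ) : ℝ)) ^ 2)) := by
      refine Finset.sum_le_sum (fun N _ => ?_)
      have h := shift_Lattice ((N + round x : ℤ) : ℝ) (x - round x) hδ
      have e : ((N + round x : ℤ) : ℝ) + (x - round x) = (N : ℝ) + x := by push_cast; ring
      rwa [e] at h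
    refine h1.trans ?_
    rw [← Finset.mul_sum]
    refine mul_le_mul_of_nonneg_left ?_ (by norm_num)
    have h2 : ∑ N ∈ s, 1 / (1 + (((N + round x : ℤ) : ℝ)) ^ 2)
        = ∑ M ∈ s.image (fun N => N + round x), 1 / (1 + (M : ℝ) ^ 2) := by
      rw [Finset.sum_image]
      intro a _ b _ h
      simpa using h
    rw [h2]
    exact summable_inv_Lattice.sum_le_tsum _ (fun M _ => by positivity)

lemma inj_Lattice {q : ℕ} (hq : 1 ≤ q) {p : ℤ} (hp : IsCoprime p (q : ℤ)) :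
    Function.Injective (fun k : ℤ × ℤ => ((k.2 / (q : ℤ), (q : ℤ) * k.1 + (k.2 % (q : ℤ)) * p) : ℤ × ℤ)) := by
  intro k k' h
  simp only [Prod.mk.injEq] at h
  obtain ⟨h1, h2⟩ := h
  have hq0 : (0 : ℤ) < q := by exact_mod_cast hq
  have hd : (q : ℤ) ∣ (k.2 % (q : ℤ) - k'.2 % (q : ℤ)) * p :=
    ⟨k'.1 - k.1, by linarith⟩
  have hd2 : (q : ℤ) ∣ (k.2 % (q : ℤ) - k'.2 % (q : ℤ)) := hp.symm.dvd_of_dvd_mul_right hd
  have a1 := Int.emod_nonneg k.2 hq0.ne'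
  have a2 := Int.emod_lt_of_pos k.2 hq0
  have a3 := Int.emod_nonneg k'.2 hq0.ne'
  have a4 := Int.emod_lt_of_pos k'.2 hq0
  have hj : k.2 % (q : ℤ) - k'.2 % (q : ℤ) = 0 :=
    Int.eq_zero_of_abs_lt_dvd hd2 (abs_lt.mpr ⟨by linarith, by linarith⟩)
  have hj' : k.2 % (q : ℤ) = k'.2 % (q : ℤ) := by linarith
  have e1 : k.1 = k'.1 := by
    rw [hj'] at h2
    have : (q : ℤ) * k.1 = (q : ℤ) * k'.1 := by linarith
    exact mul_left_cancel₀ hq0.ne' this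
  have e2 : k.2 = k'.2 := by
    have b1 := Int.emod_add_mul_ediv k.2 (q : ℤ)
    have b2 := Int.emod_add_mul_ediv k'.2 (q : ℤ)
    rw [hj', h1] at b1
    linarith
  exact Prod.ext e1 e2

lemma point_Lattice (ha : X.1 ≠ 0) {q : ℕ} (hq : 1 ≤ q) {p : ℤ}
    (hp : |X.2.1 / X.1 - p / q| ≤ 1 / (q : ℝ) ^ 2) (k : ℤ × ℤ) {g : ℝ} (h0 : 0 ≤ g) (h1 : g ≤ q)
    (h2 : g * |th X k| ≤ 1) :
    g ^ 2 ≤ 3 * (1 + 1 / X.1 ^ 2) * (q : ℝ) ^ 2 *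
      (1 / (1 + ((((q : ℤ) * k.1 + (k.2 % (q : ℤ)) * p : ℤ) : ℝ)
        + (q : ℝ) ^ 2 * ((k.2 / (q : ℤ) : ℤ) : ℝ) * (X.2.1 / X.1)) ^ 2)) := by
  have hq0 : (0 : ℤ) < q := by exact_mod_cast hq
  have hqr : (0 : ℝ) < q := by exact_mod_cast hq
  set β : ℝ := X.2.1 / X.1 with hβ
  set n : ℤ := k.2 / (q : ℤ) with hn
  set j : ℤ := k.2 % (q : ℤ) with hj
  have a1 : (0 : ℝ) ≤ j := by exact_mod_cast Int.emod_nonneg k.2 hq0.ne'
  have a2 : (j : ℝ) ≤ q := by exact_mod_cast (Int.emod_lt_of_pos k.2 hq0).le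
  have b1 : (k.2 : ℝ) = j + q * n := by exact_mod_cast (Int.emod_add_mul_ediv k.2 (q : ℤ)).symm
  set z : ℝ := q * th X k / X.1 with hz
  set δ : ℝ := -(j * q * (β - p / q)) with hδ
  have hδ1 : |δ| ≤ 1 := by
    rw [hδ, abs_neg, abs_mul, abs_mul, abs_of_nonneg a1, abs_of_pos hqr]
    calc (j : ℝ) * q * |β - p / q| ≤ q * q * (1 / (q : ℝ) ^ 2) := by gcongr
      _ = 1 := by field_simp
  have hy : ((((q : ℤ) * k.1 + j * p : ℤ) : ℝ) + (q : ℝ) ^ 2 * (n : ℝ) * β) = z + δ := by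
    rw [hz, hδ, th, b1, hβ]
    push_cast
    field_simp
    ring
  rw [hy]
  have hz2 : g ^ 2 * (1 + z ^ 2) ≤ (1 + 1 / X.1 ^ 2) * (q : ℝ) ^ 2 := by
    have c1 : g ^ 2 ≤ (q : ℝ) ^ 2 := by gcongr
    have c2 : (g * |th X k|) ^ 2 ≤ 1 := by
      have : 0 ≤ g * |th X k| := by positivity
      nlinarith
    have c3 : g ^ 2 * z ^ 2 = (g * |th X k|) ^ 2 * ((q : ℝ) ^ 2 * (1 / X.1 ^ 2)) := by
      rw [hz, mul_pow, sq_abs]
      field_simp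
    have c4 : (g * |th X k|) ^ 2 * ((q : ℝ) ^ 2 * (1 / X.1 ^ 2)) ≤ 1 * ((q : ℝ) ^ 2 * (1 / X.1 ^ 2)) := by
      gcongr
    nlinarith
  have hs := shift_Lattice (z + δ) (-δ) (by rwa [abs_neg])
  have e : z + δ + -δ = z := by ring
  rw [e] at hs
  have hg : g ^ 2 ≤ (1 + 1 / X.1 ^ 2) * (q : ℝ) ^ 2 * (1 / (1 + z ^ 2)) := by
    rw [mul_one_div, le_div_iff₀ (by positivity)]
    exact hz2
  calc g ^ 2 ≤ (1 + 1 / X.1 ^ 2) * (q : ℝ) ^ 2 * (1 / (1 + z ^ 2)) := hg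
    _ ≤ (1 + 1 / X.1 ^ 2) * (q : ℝ) ^ 2 * (3 * (1 / (1 + (z + δ) ^ 2))) := by gcongr
    _ = _ := by ring

theorem lattice_sum (ha : X.1 ≠ 0) : ∃ K : ℝ, 0 ≤ K ∧ ∀ q : ℕ, Good X q →
    ∀ (s : Finset (ℤ × ℤ)) (g : ℤ × ℤ → ℝ), (∀ k, 0 ≤ g k ∧ g k ≤ q ∧ g k * |th X k| ≤ 1) →
      ∑ k ∈ s, g k ^ 2 / (1 + ((k.2 / (q : ℤ) : ℤ) : ℝ) ^ 2) ≤ K * (q : ℝ) ^ 2 := by
  classical
  obtain ⟨K, hK0, hK⟩ := sum_inv_sq
  refine ⟨3 * (1 + 1 / X.1 ^ 2) * (K * K), by positivity, ?_⟩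
  rintro q ⟨hq, p, hp, hpq⟩ s g hg
  set Φ : ℤ × ℤ → ℤ × ℤ :=
    fun k => ((k.2 / (q : ℤ), (q : ℤ) * k.1 + (k.2 % (q : ℤ)) * p) : ℤ × ℤ) with hΦ
  have hinj : Function.Injective Φ := inj_Lattice hq hp
  set F : ℤ × ℤ → ℝ := fun u => 1 / (1 + ((u.1 : ℝ) + 0) ^ 2) *
    (1 / (1 + ((u.2 : ℝ) + (q : ℝ) ^ 2 * (u.1 : ℝ) * (X.2.1 / X.1)) ^ 2)) with hF
  have hF0 : ∀ u, 0 ≤ F u := fun u => by simp only [hF]; positivity
  have h1 : ∑ k ∈ s, g k ^ 2 / (1 + ((k.2 / (q : ℤ) : ℤ) : ℝ) ^ 2)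
      ≤ ∑ k ∈ s, 3 * (1 + 1 / X.1 ^ 2) * (q : ℝ) ^ 2 * F (Φ k) := by
    refine Finset.sum_le_sum (fun k _ => ?_)
    obtain ⟨g0, g1, g2⟩ := hg k
    have h := point_Lattice ha hq hpq k g0 g1 g2
    simp only [hF, hΦ, add_zero]
    rw [div_eq_mul_one_div]
    calc g k ^ 2 * (1 / (1 + ((k.2 / (q : ℤ) : ℤ) : ℝ) ^ 2))
        ≤ (3 * (1 + 1 / X.1 ^ 2) * (q : ℝ) ^ 2 *
          (1 / (1 + ((((q : ℤ) * k.1 + (k.2 % (q : ℤ)) * p : ℤ) : ℝ)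
          + (q : ℝ) ^ 2 * ((k.2 / (q : ℤ) : ℤ) : ℝ) * (X.2.1 / X.1)) ^ 2))) *
          (1 / (1 + ((k.2 / (q : ℤ) : ℤ) : ℝ) ^ 2)) := by gcongr
      _ = _ := by ring
  have h2 : ∑ k ∈ s, F (Φ k) = ∑ u ∈ s.image Φ, F u := by
    rw [Finset.sum_image]
    intro a _ b _ h
    exact hinj h
  have h3 : ∑ u ∈ s.image Φ, F u
      ≤ ∑ u ∈ ((s.image Φ).image Prod.fst) ×ˢ ((s.image Φ).image Prod.snd), F u :=
    Finset.sum_le_sum_of_subset_of_nonneg Finset.subset_product (fun u _ _ => hF0 u)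
  have h4 : ∑ u ∈ ((s.image Φ).image Prod.fst) ×ˢ ((s.image Φ).image Prod.snd), F u ≤ K * K := by
    rw [Finset.sum_product]
    calc ∑ n ∈ (s.image Φ).image Prod.fst, ∑ N ∈ (s.image Φ).image Prod.snd, F (n, N)
        ≤ ∑ n ∈ (s.image Φ).image Prod.fst, 1 / (1 + ((n : ℝ) + 0) ^ 2) * K := by
          refine Finset.sum_le_sum (fun n _ => ?_)
          simp only [hF]
          rw [← Finset.mul_sum]
          exact mul_le_mul_of_nonneg_left (hK _ _) (by positivity)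
      _ = (∑ n ∈ (s.image Φ).image Prod.fst, 1 / (1 + ((n : ℝ) + 0) ^ 2)) * K := by
          rw [Finset.sum_mul]
      _ ≤ K * K := mul_le_mul_of_nonneg_right (hK _ _) hK0
  refine h1.trans ?_
  rw [← Finset.mul_sum, h2]
  calc 3 * (1 + 1 / X.1 ^ 2) * (q : ℝ) ^ 2 * ∑ u ∈ s.image Φ, F u
      ≤ 3 * (1 + 1 / X.1 ^ 2) * (q : ℝ) ^ 2 * (K * K) := by gcongr; exact h3.trans h4
    _ = _ := by ring

end Pool.Agent.P.MP_442888_an.Mix
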