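import Pool.Agent.P.MP_442888_an.MixFib

set_option autoImplicit false

open MeasureTheory Filter Topology Set
open scoped ComplexConjugate Real

namespace Pool.Agent.P.MP_442888_an.Mix

variable {X : G3} {G GY GZ : CN}

/-- Haar measure of the two-dimensional torus. -/
noncomputable abbrev muPars : Measure (UnitAddTorus (Fin 2)) :=
  Measure.pi fun _ => AddCircle.haarAddCircle

lemma torus_pars {g : UnitAddTorus (Fin 2) → ℂ} (hg : MemLp g 2 muPars) :
    HasSum (fun n : Fin 2 → ℤ => ‖∫ t, UnitAddTorus.mFourier (-n) t • g t ∂muPars‖ ^ 2)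
      (∫ t, ‖g t‖ ^ 2 ∂muPars) := by
  have h := UnitAddTorus.hasSum_sq_mFourierCoeff (d := Fin 2) (hg.toLp g)
  have e := hg.coeFn_toLp
  convert h using 1
  · funext n
    congr 2
    refine integral_congr_ae ?_
    filter_upwards [e] with t ht
    rw [ht]
  · refine integral_congr_ae ?_
    filter_upwards [e] with t ht
    rw [ht]

/-- The projection to the torus. -/
noncomputable def piPars (p : Nil) : UnitAddTorus (Fin 2) := ![cx p, cy p]

lemma measurePreserving_piPars : MeasurePreserving piPars haar muPars := by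
  have hv : (volume : Measure UnitAddCircle) = AddCircle.haarAddCircle := by
    rw [AddCircle.volume_eq_smul_haarAddCircle, ENNReal.ofReal_one, one_smul]
  have h1 : MeasurePreserving
      (Prod.map id Prod.fst : UnitAddCircle × UnitAddCircle × UnitAddCircle → _)
      (volume.prod (volume.prod volume)) (volume.prod volume) :=
    (MeasurePreserving.id volume).prod measurePreserving_fst
  have h2 := (measurePreserving_finTwoArrow (volume : Measure UnitAddCircle)).symm
  have h3 := h2.comp (h1.comp measurePreserving_coord)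
  rw [hv] at h3
  exact h3

lemma Toral.eq_pars (h : Toral G) (p : Nil) : G (sec (piPars p 0, piPars p 1, 0)) = G p := by
  conv_rhs => rw [← sec_coord p, ← h (-rep (cz p))]
  have h0 : rep 0 = 0 := by
    have := rep_coe 0
    rwa [Int.fract_zero] at this
  simp only [R_apply, sec, coord, rmul_proj, hmul, piPars, h0]
  simp

/-- Parseval identity on the torus factor. -/
theorem parseval (h : Toral G) : HasSum (fun k : ℤ × ℤ => ‖ip G (chi k)‖ ^ 2) (n2 G ^ 2) := by
  set g : UnitAddTorus (Fin 2) → ℂ := fun θ => G (sec (θ 0, θ 1, 0)) with hg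
  have hm : Measurable g :=
    G.continuous.measurable.comp (measurable_sec.comp ((measurable_pi_apply 0).prodMk
      ((measurable_pi_apply 1).prodMk measurable_const)))
  have hL : MemLp g 2 muPars :=
    MemLp.of_bound hm.aestronglyMeasurable ‖G‖ (Eventually.of_forall fun θ => G.norm_coe_le_norm _)
  have key : ∀ {V : Type} [NormedAddCommGroup V] [NormedSpace ℝ V] (f : UnitAddTorus (Fin 2) → V),
      AEStronglyMeasurable f muPars → ∫ t, f t ∂muPars = ∫ p, f (piPars p) ∂haar := by
    intro V _ _ f hf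
    rw [← measurePreserving_piPars.map_eq] at hf ⊢
    exact integral_map measurePreserving_piPars.measurable.aemeasurable hf
  have h1 := torus_pars hL
  rw [key _ (hm.norm.pow_const 2).aestronglyMeasurable] at h1
  simp only [hg, h.eq_pars] at h1
  rw [← n2_sq, ← (finTwoArrowEquiv ℤ).symm.hasSum_iff] at h1
  convert h1 using 1
  funext k
  rw [Function.comp_apply, key (fun t => UnitAddTorus.mFourier (-(finTwoArrowEquiv ℤ).symm k) t •
    G (sec (t 0, t 1, 0))) (((UnitAddTorus.mFourier _).continuous.aestronglyMeasurable).smul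
    hm.aestronglyMeasurable), ip, E_apply]
  congr 3
  funext p
  simp only [h.eq_pars, UnitAddTorus.mFourier_neg]
  simp [UnitAddTorus.mFourier, chi, piPars, mul_comm]

theorem bessel (G : CN) (s : Finset (ℤ × ℤ)) : ∑ k ∈ s, ‖ip G (chi k)‖ ^ 2 ≤ ‖G‖ ^ 2 := by
  have h := parseval (toral_Av G)
  simp only [ip_Av_chi] at h
  refine (sum_le_hasSum s (fun _ _ => by positivity) h).trans ?_
  exact pow_le_pow_left₀ (n2_nonneg _) ((n2_Av_le G).trans (n2_le_norm G)) 2

lemma ip_chi_zero (G : CN) : ip G (chi 0) = E G := by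
  rw [chi_zero, ip, star_one, mul_one]

lemma ip_R_chi_pars (g : G3) (G : CN) (k : ℤ × ℤ) :
    ip (R g G) (chi k) = ee (k.1 * g.1 + k.2 * g.2.1) * ip G (chi k) := by
  rw [← ip_R g G (chi k), R_chi, ip_smul_right, ← mul_assoc, conj_ee, ← ee_add, add_neg_cancel,
    ee_zero, one_mul]

lemma ip_S_chi_pars (G : CN) (T : ℝ) (k : ℤ × ℤ) :
    ip (S X G T) (chi k) = (∫ s in (0 : ℝ)..T, ee (th X k * s)) * ip G (chi k) := by
  rw [← ipL_apply, S, clm_integral _ (continuous_U G), ← intervalIntegral.integral_mul_const]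
  refine intervalIntegral.integral_congr fun s _ => ?_
  simp only [ipL_apply, U, ip_R_chi_pars]
  congr 2
  simp only [hexp, th]
  ring

lemma ip_S_chi_le (G : CN) (T : ℝ) (k : ℤ × ℤ) :
    ‖ip (S X G T) (chi k)‖ ≤ ‖ip G (chi k)‖ * |T| ∧
      ‖ip (S X G T) (chi k)‖ * |th X k| ≤ ‖ip G (chi k)‖ := by
  rw [ip_S_chi_pars, norm_mul]
  generalize th X k = θ
  have h1 : ‖∫ s in (0 : ℝ)..T, ee (θ * s)‖ ≤ |T| := by
    simpa using intervalIntegral.norm_integral_le_of_norm_le_const (a := 0) (b := T) (C := 1)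
      (f := fun s => ee (θ * s)) fun s _ => (norm_ee _).le
  have hc : Continuous fun s : ℝ => ee (θ * s) := continuous_ee.comp (by fun_prop)
  have h2 : 2 * π * Complex.I * θ * ∫ s in (0 : ℝ)..T, ee (θ * s) = ee (θ * T) - ee (θ * 0) := by
    rw [← intervalIntegral.integral_const_mul]
    exact intervalIntegral.integral_eq_sub_of_hasDerivAt (fun s _ => hasDerivAt_ee θ s)
      ((continuous_const.mul hc).intervalIntegrable _ _)
  have h3 : 2 * π * |θ| * ‖∫ s in (0 : ℝ)..T, ee (θ * s)‖ ≤ 2 := by
    have := (norm_sub_le (ee (θ * T)) (ee (θ * 0))).trans_eq' (congrArg norm h2).symm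
    rw [norm_ee, norm_ee] at this
    simp only [norm_mul, Complex.norm_real, Complex.norm_I, Complex.norm_ofNat, Real.norm_eq_abs,
      abs_of_pos Real.pi_pos, mul_one] at this
    linarith
  have h4 : ‖∫ s in (0 : ℝ)..T, ee (θ * s)‖ * |θ| ≤ 1 := by
    have : 0 ≤ ‖∫ s in (0 : ℝ)..T, ee (θ * s)‖ * |θ| := by positivity
    nlinarith [Real.pi_gt_three]
  constructor
  · rw [mul_comm]
    gcongr
  · rw [mul_right_comm]
    exact mul_le_of_le_one_left (norm_nonneg _) h4

lemma ip_Y_chi (h : Der G GY GZ) (k : ℤ × ℤ) :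
    ip GY (chi k) = (2 * π * Complex.I * k.2 : ℂ) * ip G (chi k) := by
  have h1 : HasDerivAt (fun y : ℝ => ip (R (0, y, 0) G) (chi k)) (ip GY (chi k)) 0 :=
    ((ipL (chi k)).restrictScalars ℝ).hasFDerivAt.comp_hasDerivAt 0 h.1
  have h2 := (hasDerivAt_ee k.2 0).mul_const (ip G (chi k))
  simp only [ip_R_chi_pars, mul_zero, zero_add] at h1
  have h3 := h1.unique h2
  rw [mul_zero, ee_zero, mul_one] at h3
  exact_mod_cast h3

end Pool.Agent.P.MP_442888_an.Mix
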