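import Pool.Agent.P.MP_442888_an.MixCorr
import Pool.Agent.P.MP_442888_an.MixLattice
import Pool.Agent.P.MP_442888_an.MixPars

set_option autoImplicit false

open MeasureTheory Filter Topology Set
open scoped ComplexConjugate Real

namespace Pool.Agent.P.MP_442888_an.Mix

variable {X : G3}

lemma integral_arctan_four {A : ℝ} (hA : A ≠ 0) (B x y : ℝ) :
    ∫ v in x..y, 1 / (1 + (v * A + B) ^ 2) ≤ π / |A| := by
  have hd : ∀ v ∈ uIcc x y, HasDerivAt (fun v => Real.arctan (v * A + B) / A)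
      (1 / (1 + (v * A + B) ^ 2)) v := by
    intro v _
    have h1 : HasDerivAt (fun v : ℝ => v * A + B) A v := by
      simpa using ((hasDerivAt_id v).mul_const A).add_const B
    refine (h1.arctan.div_const A).congr_deriv ?_
    field_simp
  have hc : Continuous fun v : ℝ => 1 / (1 + (v * A + B) ^ 2) :=
    continuous_const.div (by fun_prop) fun v => by positivity
  rw [intervalIntegral.integral_eq_sub_of_hasDerivAt hd (hc.intervalIntegrable _ _), ← sub_div]
  refine (le_abs_self _).trans ?_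
  rw [abs_div]
  refine div_le_div_of_nonneg_right (abs_le.2 ⟨?_, ?_⟩) (abs_nonneg _) <;>
    linarith [Real.arctan_lt_pi_div_two (y * A + B), Real.neg_pi_div_two_lt_arctan (y * A + B),
      Real.arctan_lt_pi_div_two (x * A + B), Real.neg_pi_div_two_lt_arctan (x * A + B)]

lemma abs_ediv_four (k : ℤ) {q : ℕ} (hq : 1 ≤ q) :
    (q : ℝ) * (|((k / (q : ℤ) : ℤ) : ℝ)| - 1) ≤ |(k : ℝ)| := by
  have hq' : (0 : ℤ) < q := by exact_mod_cast hq
  have h1 : (q : ℤ) * (k / q) + k % q = k := Int.mul_ediv_add_emod k q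
  have h2 : (0 : ℝ) ≤ ((k % (q : ℤ) : ℤ) : ℝ) := by exact_mod_cast Int.emod_nonneg k hq'.ne'
  have h3 : ((k % (q : ℤ) : ℤ) : ℝ) < q := by exact_mod_cast Int.emod_lt_of_pos k hq'
  have h4 : (q : ℝ) * ((k / (q : ℤ) : ℤ) : ℝ) + ((k % (q : ℤ) : ℤ) : ℝ) = k := by
    exact_mod_cast h1
  have hq0 : (0 : ℝ) ≤ q := Nat.cast_nonneg q
  rcases abs_cases ((k / (q : ℤ) : ℤ) : ℝ) with h | h
  · rw [h.1]
    linarith [le_abs_self (k : ℝ)]
  · rw [h.1]
    linarith [neg_abs_le (k : ℝ)]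

lemma corr_integral (ha : X.1 ≠ 0) : ∃ K : ℝ, 0 < K ∧ ∀ (m : ℤ) (H : CN) (C : ℝ) (q : ℕ)
    (k : ℤ × ℤ), m ≠ 0 → 1 ≤ q → Mode m H → Bd 1 2 H C →
      ∫ v in (-(q : ℝ))..q, ‖ip (U X v H) (H * chi k)‖ ≤
        K * C ^ 2 * |(m : ℝ)| / √(1 + ((k.2 / (q : ℤ) : ℤ) : ℝ) ^ 2) := by
  have ha' : 0 < |X.1| := abs_pos.2 ha
  refine ⟨8 + 2 * π * (3 + 2 * |X.1|) / |X.1|, by positivity, fun m H C q k hm hq hmode hB => ?_⟩
  set n : ℝ := ((k.2 / (q : ℤ) : ℤ) : ℝ) with hn
  have hm1 : (1 : ℝ) ≤ |(m : ℝ)| := by exact_mod_cast Int.one_le_abs hm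
  have hq1 : (1 : ℝ) ≤ q := by exact_mod_cast hq
  have hqq : -(q : ℝ) ≤ q := by linarith
  have hc : Continuous fun v => ‖ip (U X v H) (H * chi k)‖ :=
    ((ipL (H * chi k)).continuous.comp (continuous_U H)).norm
  have hs : 0 < √(1 + n ^ 2) := Real.sqrt_pos.2 (by positivity)
  have hC : 0 ≤ C ^ 2 := sq_nonneg C
  have hI : 0 ≤ ∫ v in (-(q : ℝ))..q, ‖ip (U X v H) (H * chi k)‖ :=
    intervalIntegral.integral_nonneg hqq fun v _ => norm_nonneg _
  have hK : 0 ≤ 2 * π * (3 + 2 * |X.1|) / |X.1| * C ^ 2 * |(m : ℝ)| := by positivity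
  rw [le_div_iff₀ hs]
  rcases lt_or_ge |n| (2 * (|X.1| * |(m : ℝ)| + 1)) with h | h
  · have h1 : √(1 + n ^ 2) ≤ (3 + 2 * |X.1|) * |(m : ℝ)| := by
      refine (Real.sqrt_le_iff.2 ⟨by positivity, ?_⟩ : √(1 + n ^ 2) ≤ 1 + |n|).trans (by linarith)
      nlinarith [sq_abs n, abs_nonneg n]
    have hA : X.1 * m ≠ 0 := mul_ne_zero ha (by exact_mod_cast hm)
    have hc' : Continuous fun v : ℝ => 2 * C ^ 2 * (1 / (1 + (v * (X.1 * m) + k.2) ^ 2)) :=
      continuous_const.mul (continuous_const.div (by fun_prop) fun v => by positivity)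
    have h2 : ∫ v in (-(q : ℝ))..q, ‖ip (U X v H) (H * chi k)‖ ≤ 2 * C ^ 2 * (π / |X.1|) := by
      refine (intervalIntegral.integral_mono_on hqq (hc.intervalIntegrable _ _)
        (hc'.intervalIntegrable _ _) fun v _ => ?_).trans ?_
      · obtain ⟨b1, b2⟩ := corr_bound (X := X) hmode hB v k
        rw [mul_one_div, le_div_iff₀ (by positivity), ← mul_assoc]
        linarith
      · rw [intervalIntegral.integral_const_mul]
        refine mul_le_mul_of_nonneg_left ((integral_arctan_four hA _ _ _).trans ?_) (by positivity)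
        rw [abs_mul]
        exact div_le_div_of_nonneg_left Real.pi_pos.le ha' (le_mul_of_one_le_right ha'.le hm1)
    refine (mul_le_mul h2 h1 hs.le (by positivity)).trans ?_
    have e : 2 * C ^ 2 * (π / |X.1|) * ((3 + 2 * |X.1|) * |(m : ℝ)|) =
        2 * π * (3 + 2 * |X.1|) / |X.1| * C ^ 2 * |(m : ℝ)| := by ring
    rw [e, add_mul, add_mul]
    have : 0 ≤ 8 * C ^ 2 * |(m : ℝ)| := by positivity
    linarith
  · have ham : 0 ≤ |X.1| * |(m : ℝ)| := by positivity
    have hn2 : 2 ≤ |n| := by linarith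
    have hn4 : 4 ≤ n ^ 2 := by nlinarith [sq_abs n]
    have h1 : √(1 + n ^ 2) ≤ n ^ 2 := Real.sqrt_le_iff.2 ⟨sq_nonneg _, by nlinarith⟩
    have h2 : ∫ v in (-(q : ℝ))..q, ‖ip (U X v H) (H * chi k)‖ ≤ 8 * C ^ 2 / n ^ 2 := by
      refine (intervalIntegral.integral_mono_on hqq (hc.intervalIntegrable _ _)
        (intervalIntegrable_const (c := 4 * C ^ 2 / (q * n ^ 2))) fun v hv => ?_).trans ?_
      · obtain ⟨-, b2⟩ := corr_bound (X := X) hmode hB v k
        have a1 := abs_ediv_four k.2 hq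
        have a2 : |v * X.1 * m| ≤ q * (|X.1| * |(m : ℝ)|) := by
          rw [abs_mul, abs_mul, mul_assoc]
          exact mul_le_mul_of_nonneg_right (abs_le.2 hv) ham
        have a3 : |(k.2 : ℝ)| ≤ |v * X.1 * m + k.2| + |v * X.1 * m| := by
          simpa using abs_sub (v * X.1 * m + k.2) (v * X.1 * m)
        have a4 : (q : ℝ) * |n| / 2 ≤ |v * X.1 * m + k.2| := by nlinarith
        have a5 : ((q : ℝ) * |n| / 2) ^ 2 ≤ (v * X.1 * m + k.2) ^ 2 := by
          rw [← sq_abs (v * X.1 * m + k.2)]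
          exact pow_le_pow_left₀ (by positivity) a4 2
        have a6 : (q : ℝ) * n ^ 2 / 4 ≤ ((q : ℝ) * |n| / 2) ^ 2 := by
          rw [div_pow, mul_pow, sq_abs]
          nlinarith [mul_le_mul_of_nonneg_right (show (q : ℝ) ≤ (q : ℝ) ^ 2 by nlinarith)
            (sq_nonneg n)]
        rw [le_div_iff₀ (by positivity)]
        nlinarith [mul_le_mul_of_nonneg_right (a6.trans a5)
          (norm_nonneg (ip (U X v H) (H * chi k)))]
      · rw [intervalIntegral.integral_const, smul_eq_mul]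
        refine le_of_eq ?_
        field_simp
        ring
    refine (mul_le_mul h2 h1 hs.le (by positivity)).trans ?_
    rw [div_mul_cancel₀ _ (by positivity), add_mul, add_mul]
    nlinarith [mul_le_mul_of_nonneg_left hm1 hC]

/-- Fourth moment bound for one fibre mode at a good denominator. -/
theorem four_mode (ha : X.1 ≠ 0) : ∃ K : ℝ, 0 ≤ K ∧ ∀ (m : ℤ) (H : CN) (C : ℝ) (q : ℕ), m ≠ 0 →
    Good X q → Mode m H → Bd 1 2 H C →
      n2 (S X H q * star (S X H q)) ≤ K * C ^ 2 * |(m : ℝ)| * q := by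
  obtain ⟨K₁, hK₁, h₁⟩ := corr_integral ha
  obtain ⟨K₂, hK₂, h₂⟩ := lattice_sum ha
  refine ⟨K₁ * √K₂, by positivity, fun m H C q hm hq hmode hB => ?_⟩
  set G := S X H q * star (S X H q) with hG
  set M : ℝ := K₁ * C ^ 2 * |(m : ℝ)| with hM
  have hM0 : 0 ≤ M := by positivity
  have hP := parseval (G := G) ((hmode.S (X := X) q).mul_star (hmode.S (X := X) q))
  have hb := fun k => coeff_bound (X := X) H k (Nat.cast_nonneg q) (h₁ m H C q k hm hq.1 hmode hB)
  have hs : ∀ k : ℤ × ℤ, 0 < 1 + ((k.2 / (q : ℤ) : ℤ) : ℝ) ^ 2 := fun k => by positivity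
  have key : n2 G ^ 2 ≤ M ^ 2 * (K₂ * (q : ℝ) ^ 2) := by
    refine hasSum_le_of_sum_le hP fun s => ?_
    rcases hM0.eq_or_lt with h0 | h0
    · refine (Finset.sum_nonpos fun k _ => ?_).trans (by positivity)
      have : ‖ip G (chi k)‖ ≤ q * (M / _) := (hb k).1
      rw [← h0, zero_div, mul_zero] at this
      rw [le_antisymm this (norm_nonneg _)]
      norm_num
    · have hL : ∀ k : ℤ × ℤ, 0 < M / √(1 + ((k.2 / (q : ℤ) : ℤ) : ℝ) ^ 2) :=
        fun k => div_pos h0 (Real.sqrt_pos.2 (hs k))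
      have h3 := h₂ q hq s
        (fun k => ‖ip G (chi k)‖ / (M / √(1 + ((k.2 / (q : ℤ) : ℤ) : ℝ) ^ 2))) fun k =>
          ⟨div_nonneg (norm_nonneg _) (hL k).le, (div_le_iff₀ (hL k)).2 (hb k).1, by
            rw [div_mul_eq_mul_div, div_le_one (hL k)]
            exact (hb k).2⟩
      refine le_trans (le_of_eq ?_) (mul_le_mul_of_nonneg_left h3 (sq_nonneg M))
      rw [Finset.mul_sum]
      refine Finset.sum_congr rfl fun k _ => ?_
      have := (hs k).ne'
      rw [div_pow, div_pow, Real.sq_sqrt (hs k).le]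
      field_simp
  refine (pow_le_pow_iff_left₀ (n2_nonneg _) (by positivity) two_ne_zero).1 (key.trans_eq ?_)
  rw [hM]
  simp only [mul_pow, Real.sq_sqrt hK₂]
  ring

end Pool.Agent.P.MP_442888_an.Mix
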