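import Pool.Agent.P.MP_442888_an.MixTime

set_option autoImplicit false

open MeasureTheory Filter Topology Set
open scoped ComplexConjugate Real

namespace Pool.Agent.P.MP_442888_an.Mix

variable {X : G3} {α : Nil → ℝ} {ψ : ℝ → Nil → Nil}

lemma E_S_inv (F : CN) (T : ℝ) : E (S X F T) = (T : ℂ) * E F := by
  rw [S, clm_integral E (continuous_U F)]
  simp [E_U]

lemma E_eq_zero_inv (F : CN) {B : ℝ} (h : ∀ T p, ‖S X F T p‖ ≤ B) : E F = 0 := by
  by_contra hne
  have hpos : 0 < ‖E F‖ := norm_pos_iff.2 hne
  have hB : 0 ≤ B := (norm_nonneg _).trans (h 0 (proj 0))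
  have h1 : ∀ T : ℝ, |T| * ‖E F‖ ≤ B := fun T => by
    have h2 := norm_E_le (S X F T)
    rw [E_S_inv, norm_mul, Complex.norm_real, Real.norm_eq_abs] at h2
    exact h2.trans ((ContinuousMap.norm_le _ hB).2 (h T))
  have h3 := h1 ((B + 1) / ‖E F‖)
  rw [abs_of_nonneg (by positivity), div_mul_cancel₀ _ hpos.ne'] at h3
  linarith

lemma orbit_bound_inv (hα : Continuous α) (hpos : ∀ p, 0 < α p)
    (hψ : IsTimeChange (nilflow X) α ψ) {f : Nil → ℝ} (hf : Continuous f) {B : ℝ}
    (hB : ∀ p, |f p| ≤ B) (τ T : ℝ) (p : Nil) :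
    |∫ s in (0 : ℝ)..T, (f (ψ τ (nilflow X s p)) * α (nilflow X s p)
      - f (nilflow X s p) * α (nilflow X s p))| ≤ 2 * (B * |τ|) := by
  have hψc := continuous_psi hα hpos hψ
  have hg : Continuous fun u => f (ψ u p) :=
    hf.comp (hψc.comp (continuous_id.prodMk continuous_const))
  have hφ : Continuous fun s => nilflow X s p :=
    (continuous_nilflow₂ X).comp (continuous_id.prodMk continuous_const)
  set G : ℝ → ℝ := fun v => ∫ u in (0 : ℝ)..v, f (ψ u p) with hG
  have hGd : ∀ v, HasDerivAt G (f (ψ v p)) v := fun v =>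
    (hg.integral_hasStrictDerivAt 0 v).hasDerivAt
  have hGb : ∀ a, |G (a + τ) - G a| ≤ B * |τ| := fun a => by
    have h1 : G (a + τ) - G a = ∫ u in a..(a + τ), f (ψ u p) :=
      intervalIntegral.integral_interval_sub_left (hg.intervalIntegrable _ _)
        (hg.intervalIntegrable _ _)
    rw [h1]
    have h2 := intervalIntegral.norm_integral_le_of_norm_le_const (a := a) (b := a + τ) (C := B)
      (f := fun u => f (ψ u p)) fun u _ => hB _
    simpa using h2
  have hd : ∀ s, HasDerivAt (fun s => G (clock X α p s + τ) - G (clock X α p s))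
      (f (ψ τ (nilflow X s p)) * α (nilflow X s p)
        - f (nilflow X s p) * α (nilflow X s p)) s := fun s => by
    have hc := clock_hasDerivAt (X := X) hα p s
    have h1 := (hGd (clock X α p s + τ)).comp s (hc.add_const τ)
    have h2 := (hGd (clock X α p s)).comp s hc
    rw [psi_add hα hpos hψ, psi_clock hα hpos hψ] at h1
    rw [psi_clock hα hpos hψ] at h2
    exact h1.sub h2
  have hcont : Continuous fun s => f (ψ τ (nilflow X s p)) * α (nilflow X s p)
      - f (nilflow X s p) * α (nilflow X s p) :=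
    ((hf.comp (hψc.comp (continuous_const.prodMk hφ))).mul (hα.comp hφ)).sub
      ((hf.comp hφ).mul (hα.comp hφ))
  rw [intervalIntegral.integral_eq_sub_of_hasDerivAt (fun s _ => hd s)
    (hcont.intervalIntegrable _ _)]
  have h1 := hGb (clock X α p T)
  have h2 := hGb (clock X α p 0)
  refine (abs_sub _ _).trans ?_
  linarith

theorem psi_invariant (hα : Continuous α) (hpos : ∀ p, 0 < α p)
    (hψ : IsTimeChange (nilflow X) α ψ) {f : Nil → ℝ} (hf : Continuous f) (τ : ℝ) :
    ∫ p, f (ψ τ p) * α p ∂haar = ∫ p, f p * α p ∂haar := by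
  obtain ⟨B, -, hB⟩ := exists_abs_le hf
  have hψc : Continuous (ψ τ) :=
    (continuous_psi hα hpos hψ).comp (continuous_const.prodMk continuous_id)
  have h1 : Continuous fun p => f (ψ τ p) * α p := (hf.comp hψc).mul hα
  have h2 : Continuous fun p => f p * α p := hf.mul hα
  let F : CN := ⟨fun p => ((f (ψ τ p) * α p - f p * α p : ℝ) : ℂ),
    Complex.continuous_ofReal.comp (h1.sub h2)⟩
  have hF : E F = 0 := by
    refine E_eq_zero_inv (X := X) F (B := 2 * (B * |τ|)) fun T p => ?_
    rw [S_apply]
    simp only [F, ContinuousMap.coe_mk]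
    rw [intervalIntegral.integral_ofReal, Complex.norm_real, Real.norm_eq_abs]
    exact orbit_bound_inv hα hpos hψ hf hB τ T p
  rw [E_apply] at hF
  simp only [F, ContinuousMap.coe_mk] at hF
  rw [integral_complex_ofReal, Complex.ofReal_eq_zero,
    integral_sub (integrable_of_continuous h1) (integrable_of_continuous h2)] at hF
  linarith

theorem integral_pos (hα : Continuous α) (hpos : ∀ p, 0 < α p) : 0 < ∫ p, α p ∂haar := by
  obtain ⟨α0, α1, h0, h⟩ := exists_bounds hα hpos
  have h1 : ∫ _p : Nil, α0 ∂haar ≤ ∫ p, α p ∂haar :=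
    integral_mono (integrable_const _) (integrable_of_continuous hα) fun p => (h p).1
  simp only [integral_const, probReal_univ, one_smul] at h1
  linarith

lemma lintegral_eq_inv (hα : Continuous α) (hpos : ∀ p, 0 < α p) :
    ∫⁻ p, ENNReal.ofReal (α p) ∂haar = ENNReal.ofReal (∫ p, α p ∂haar) :=
  (ofReal_integral_eq_lintegral_ofReal (integrable_of_continuous hα)
    (Eventually.of_forall fun p => (hpos p).le)).symm

theorem integral_tc (hα : Continuous α) (hpos : ∀ p, 0 < α p) (f : Nil → ℝ) :
    ∫ p, f p ∂(timeChangeMeasure α haar) = (∫ p, f p * α p ∂haar) / ∫ p, α p ∂haar := by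
  rw [timeChangeMeasure, integral_smul_measure, lintegral_eq_inv hα hpos,
    integral_withDensity_eq_integral_toReal_smul hα.measurable.ennreal_ofReal
      (Eventually.of_forall fun p => ENNReal.ofReal_lt_top),
    ENNReal.toReal_inv, ENNReal.toReal_ofReal (integral_pos hα hpos).le, smul_eq_mul,
    div_eq_inv_mul]
  congr 1
  refine integral_congr_ae (Eventually.of_forall fun p => ?_)
  simp only [ENNReal.toReal_ofReal (hpos p).le, smul_eq_mul, mul_comm]

theorem isProb_tc (hα : Continuous α) (hpos : ∀ p, 0 < α p) :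
    IsProbabilityMeasure (timeChangeMeasure α haar) := by
  refine ⟨?_⟩
  rw [timeChangeMeasure, Measure.smul_apply, withDensity_apply _ MeasurableSet.univ,
    Measure.restrict_univ, smul_eq_mul, lintegral_eq_inv hα hpos]
  exact ENNReal.inv_mul_cancel (ENNReal.ofReal_pos.2 (integral_pos hα hpos)).ne'
    ENNReal.ofReal_ne_top

theorem measurePreserving_psi (hα : Continuous α) (hpos : ∀ p, 0 < α p)
    (hψ : IsTimeChange (nilflow X) α ψ) (τ : ℝ) :
    MeasurePreserving (ψ τ) (timeChangeMeasure α haar) (timeChangeMeasure α haar) := by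
  have hψc : Continuous (ψ τ) :=
    (continuous_psi hα hpos hψ).comp (continuous_const.prodMk continuous_id)
  have := isProb_tc hα hpos
  refine ⟨hψc.measurable, ?_⟩
  have : TopologicalSpace.MetrizableSpace Nil := inferInstance
  refine ext_of_forall_integral_eq_of_IsFiniteMeasure fun f => ?_
  rw [integral_map hψc.measurable.aemeasurable f.continuous.aestronglyMeasurable,
    integral_tc hα hpos, integral_tc hα hpos, psi_invariant hα hpos hψ f.continuous]

end Pool.Agent.P.MP_442888_an.Mix
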