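import Pool.Agent.P.MP_442888_an.MixInv
import Pool.Agent.P.MP_442888_an.MixErg

set_option autoImplicit false

open MeasureTheory Filter Topology Set
open scoped ComplexConjugate Real

namespace Pool.Agent.P.MP_442888_an.Mix

variable {X : G3} {α : Nil → ℝ} {ψ : ℝ → Nil → Nil}

lemma deriv_U_reduce (F : CN) (T v : ℝ) :
    HasDerivAt (fun v => U X v (∫ s in (0 : ℝ)..T, S X F s))
      (U X v (S X F T) - T • U X v F) v := by
  have hS := continuous_S (X := X) F
  have e : ∀ s t, U X s (S X F t) = S X F (s + t) - S X F s := fun s t => by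
    rw [S_add_time, add_sub_cancel_left]
  have h : (fun v => U X v (∫ s in (0 : ℝ)..T, S X F s)) = fun v =>
      (∫ s in (0 : ℝ)..(v + T), S X F s) - (∫ s in (0 : ℝ)..v, S X F s) - T • S X F v := by
    funext v
    rw [clm_integral _ hS]
    simp only [e]
    have h1 : Continuous fun s => S X F (v + s) := hS.comp (by fun_prop)
    rw [intervalIntegral.integral_sub (h1.intervalIntegrable _ _) intervalIntegrable_const,
      intervalIntegral.integral_comp_add_left (S X F) v, add_zero,
      intervalIntegral.integral_const, sub_zero,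
      intervalIntegral.integral_interval_sub_left (hS.intervalIntegrable _ _)
        (hS.intervalIntegrable _ _)]
  rw [h, e]
  exact (((hS.integral_hasStrictDerivAt 0 (v + T)).hasDerivAt.comp_add_const v T).sub
    (hS.integral_hasStrictDerivAt 0 v).hasDerivAt).sub ((hasDerivAt_S F v).const_smul T)

lemma small_reduce (hα : Continuous α) (hpos : ∀ p, 0 < α p)
    (hψ : IsTimeChange (nilflow X) α ψ) {g : Nil → ℝ} {α0 B : ℝ}
    (h0 : 0 < α0) (hα0 : ∀ p, α0 ≤ α p) (hB : ∀ p, |g p| ≤ B) (H : CN) (t : ℝ) :
    |∫ p, (H (ψ t p)).re / α (ψ t p) * g p ∂haar| ≤ B / α0 * n2 H := by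
  have hB0 : 0 ≤ B := (abs_nonneg _).trans (hB (proj 0))
  have hc : Continuous (ψ t) :=
    (continuous_psi hα hpos hψ).comp (continuous_const.prodMk continuous_id)
  have hd : Continuous fun p => ‖H p‖ / α p :=
    H.continuous.norm.div hα fun p => (hpos p).ne'
  have h1 := psi_invariant hα hpos hψ hd t
  simp only [div_mul_cancel₀ _ (hpos _).ne'] at h1
  calc _ ≤ ∫ p, B / α0 * (‖H (ψ t p)‖ / α (ψ t p) * α p) ∂haar := by
        rw [← Real.norm_eq_abs]
        refine norm_integral_le_of_norm_le (integrable_of_continuous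
          (continuous_const.mul ((hd.comp hc).mul hα))) (Eventually.of_forall fun p => ?_)
        have h2 := hpos (ψ t p)
        rw [Real.norm_eq_abs, abs_mul, abs_div, abs_of_pos h2]
        calc _ ≤ ‖H (ψ t p)‖ / α (ψ t p) * (B / α0 * α p) := by
              gcongr
              · exact Complex.abs_re_le_norm _
              · refine (hB p).trans ?_
                rw [div_mul_eq_mul_div, le_div_iff₀ h0]
                exact mul_le_mul_of_nonneg_left (hα0 p) hB0
          _ = _ := by ring
    _ ≤ _ := by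
        rw [integral_const_mul, h1]
        gcongr
        exact integral_norm_le_n2 H

/-- Reduction to coboundaries. -/
theorem reduce_cob (hX : Irr X) (hα : Continuous α) (hpos : ∀ p, 0 < α p)
    (hψ : IsTimeChange (nilflow X) α ψ)
    (hc : ∀ f h g : Nil → ℝ, Continuous f → Continuous h → Continuous g →
      (∀ p s, HasDerivAt (fun s => h (nilflow X s p))
        (f (nilflow X s p) * α (nilflow X s p)) s) →
      Tendsto (fun t => ∫ p, f (ψ t p) * g p ∂haar) atTop (𝓝 0))
    {f g : Nil → ℝ} (hf : Continuous f) (hg : Continuous g) (h0 : ∫ p, f p * α p ∂haar = 0) :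
    Tendsto (fun t => ∫ p, f (ψ t p) * g p ∂haar) atTop (𝓝 0) := by
  obtain ⟨α0, α1, ha, hb⟩ := exists_bounds hα hpos
  obtain ⟨B, hB, hB'⟩ := exists_abs_le hg
  let F : CN := ⟨fun p => ((f p * α p : ℝ) : ℂ), by fun_prop⟩
  have hF : E F = 0 := by
    rw [E_apply]
    simp only [F, ContinuousMap.coe_mk]
    rw [integral_complex_ofReal, h0, Complex.ofReal_zero]
  rw [Metric.tendsto_nhds]
  intro ε hε
  have h1 := (mean_erg hX hF).const_mul (B / α0)
  rw [mul_zero] at h1
  obtain ⟨T, hT, hT0⟩ := ((h1.eventually (gt_mem_nhds (half_pos hε))).and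
    (eventually_gt_atTop 0)).exists
  let H : CN := ((T⁻¹ : ℝ) : ℂ) • S X F T
  have hd : Continuous fun p => (H p).re / α p :=
    (Complex.continuous_re.comp H.continuous).div hα fun p => (hpos p).ne'
  have h2 := hc (fun p => f p - (H p).re / α p)
    (fun p => -T⁻¹ * ((∫ s in (0 : ℝ)..T, S X F s) p).re) g (hf.sub hd) (by fun_prop) hg
    fun p s => by
      have h3 := (Complex.reCLM.comp
        ((ContinuousMap.evalCLM ℂ p).restrictScalars ℝ)).hasFDerivAt.comp_hasDerivAt s
          (deriv_U_reduce (X := X) F T s)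
      refine (h3.const_mul (-T⁻¹)).congr_deriv ?_
      have := (hpos (nilflow X s p)).ne'
      simp [H, F]
      field_simp
      ring
  filter_upwards [Metric.tendsto_nhds.1 h2 _ (half_pos hε)] with t ht
  have hψt : Continuous (ψ t) :=
    (continuous_psi hα hpos hψ).comp (continuous_const.prodMk continuous_id)
  have h4 := small_reduce hα hpos hψ ha (fun p => (hb p).1) hB' H t
  rw [n2_smul, Complex.norm_real, Real.norm_of_nonneg (inv_nonneg.2 hT0.le), ← div_eq_inv_mul] at h4
  simp only [sub_mul] at ht
  have h5 : Continuous fun p => f (ψ t p) * g p := (hf.comp hψt).mul hg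
  have h6 : Continuous fun p => (H (ψ t p)).re / α (ψ t p) * g p := (hd.comp hψt).mul hg
  rw [integral_sub (integrable_of_continuous h5) (integrable_of_continuous h6)] at ht
  rw [Real.dist_0_eq_abs] at ht ⊢
  have := abs_sub_abs_le_abs_sub (∫ p, f (ψ t p) * g p ∂haar)
    (∫ p, (H (ψ t p)).re / α (ψ t p) * g p ∂haar)
  linarith

end Pool.Agent.P.MP_442888_an.Mix
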