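import Pool.Agent.P.MP_442888_an.MixInv

set_option autoImplicit false

open MeasureTheory Filter Topology Set
open scoped ComplexConjugate Real

namespace Pool.Agent.P.MP_442888_an.Mix

variable {X : G3} {α : Nil → ℝ} {ψ : ℝ → Nil → Nil}

/-- Abstract approximation of a correlation of bounded functions. -/
lemma corr_est_sets {Ω : Type} [MeasurableSpace Ω] {ν : Measure Ω} [IsProbabilityMeasure ν]
    {T : Ω → Ω} (hT : MeasurePreserving T ν ν) {a b f0 g0 : Ω → ℝ} {M δ1 δ2 : ℝ}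
    (ha : Measurable a) (ha1 : ∀ p, |a p| ≤ 1) (hb : Integrable b ν) (hf : Integrable f0 ν)
    (hg : Integrable g0 ν) (hM : ∀ p, |f0 p - ∫ q, f0 q ∂ν| ≤ M)
    (h1 : ∫ p, ‖b p - f0 p‖ ∂ν ≤ δ1) (h2 : ∫ p, ‖a p - g0 p‖ ∂ν ≤ δ2) :
    |∫ p, a p * b (T p) ∂ν - (∫ p, a p ∂ν) * (∫ p, b p ∂ν) -
      ∫ p, (f0 (T p) - ∫ q, f0 q ∂ν) * g0 p ∂ν| ≤ 2 * δ1 + M * δ2 := by
  set m := ∫ q, f0 q ∂ν with hm
  set mb := ∫ q, b q ∂ν with hmb
  have hai : Integrable a ν :=
    Integrable.of_bound ha.aestronglyMeasurable 1 (Eventually.of_forall ha1)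
  have hbT : Integrable (fun p => b (T p)) ν := (hT.integrable_comp hb.1).2 hb
  have hfT : Integrable (fun p => f0 (T p)) ν := (hT.integrable_comp hf.1).2 hf
  have hfm : Integrable (fun p => f0 (T p) - m) ν := hfT.sub (integrable_const m)
  have hM0 : 0 ≤ M := by
    obtain ⟨p⟩ : Nonempty Ω := nonempty_of_isProbabilityMeasure ν
    exact (abs_nonneg _).trans (hM p)
  have mulA : ∀ {u : Ω → ℝ}, Integrable u ν → Integrable (fun p => a p * u p) ν := fun hu =>
    hu.bdd_mul ha.aestronglyMeasurable (Eventually.of_forall ha1)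
  have mulF : ∀ {u : Ω → ℝ}, Integrable u ν → Integrable (fun p => (f0 (T p) - m) * u p) ν :=
    fun hu => hu.bdd_mul hfm.1 (Eventually.of_forall fun p => hM (T p))
  have e1 : ∫ p, a p * b (T p) ∂ν - (∫ p, a p ∂ν) * mb - ∫ p, (f0 (T p) - m) * g0 p ∂ν =
      ∫ p, a p * (b (T p) - f0 (T p)) ∂ν + (∫ p, a p ∂ν) * (m - mb) +
        ∫ p, (f0 (T p) - m) * (a p - g0 p) ∂ν := by
    have i1 : ∫ p, a p * (b (T p) - f0 (T p)) ∂ν =
        ∫ p, a p * b (T p) ∂ν - ∫ p, a p * f0 (T p) ∂ν := by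
      rw [← integral_sub (mulA hbT) (mulA hfT)]
      congr 1; ext p; ring
    have i2 : ∫ p, (f0 (T p) - m) * (a p - g0 p) ∂ν =
        ∫ p, (f0 (T p) - m) * a p ∂ν - ∫ p, (f0 (T p) - m) * g0 p ∂ν := by
      rw [← integral_sub (mulF hai) (mulF hg)]
      congr 1; ext p; ring
    have i3 : ∫ p, (f0 (T p) - m) * a p ∂ν = ∫ p, a p * f0 (T p) ∂ν - (∫ p, a p ∂ν) * m := by
      rw [← integral_mul_const, ← integral_sub (mulA hfT) (hai.mul_const m)]
      congr 1; ext p; ring
    rw [i1, i2, i3]; ring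
  have hbf : Integrable (fun p => ‖b p - f0 p‖) ν := (hb.sub hf).norm
  have b1 : |∫ p, a p * (b (T p) - f0 (T p)) ∂ν| ≤ δ1 := by
    have h3 : ∫ p, ‖b (T p) - f0 (T p)‖ ∂ν = ∫ p, ‖b p - f0 p‖ ∂ν := by
      have := integral_map (μ := ν) hT.measurable.aemeasurable
        (f := fun p => ‖b p - f0 p‖) (by rw [hT.map_eq]; exact hbf.1)
      rw [hT.map_eq] at this
      exact this.symm
    refine le_trans ?_ (h3.le.trans h1)
    rw [← Real.norm_eq_abs]
    refine norm_integral_le_of_norm_le (g := fun p => ‖b (T p) - f0 (T p)‖) (hbT.sub hfT).norm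
      (Eventually.of_forall fun p => ?_)
    rw [norm_mul]
    exact mul_le_of_le_one_left (norm_nonneg _) (ha1 p)
  have b2 : |(∫ p, a p ∂ν) * (m - mb)| ≤ δ1 := by
    have h3 : |∫ p, a p ∂ν| ≤ 1 := by
      have := norm_integral_le_of_norm_le_const (μ := ν) (f := a) (C := 1)
        (Eventually.of_forall ha1)
      simpa using this
    have h4 : |m - mb| ≤ δ1 := by
      rw [abs_sub_comm, hm, hmb, ← integral_sub hb hf]
      exact (norm_integral_le_integral_norm (fun p => b p - f0 p)).trans h1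
    rw [abs_mul]
    exact (mul_le_of_le_one_left (abs_nonneg _) h3).trans h4
  have b3 : |∫ p, (f0 (T p) - m) * (a p - g0 p) ∂ν| ≤ M * δ2 := by
    refine le_trans ?_ (mul_le_mul_of_nonneg_left h2 hM0)
    rw [← integral_const_mul, ← Real.norm_eq_abs]
    refine norm_integral_le_of_norm_le (g := fun p => M * ‖a p - g0 p‖)
      ((hai.sub hg).norm.const_mul M) (Eventually.of_forall fun p => ?_)
    rw [norm_mul]
    exact mul_le_mul_of_nonneg_right (hM (T p)) (norm_nonneg _)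
  rw [e1]
  have := abs_add_three (∫ p, a p * (b (T p) - f0 (T p)) ∂ν) ((∫ p, a p ∂ν) * (m - mb))
    (∫ p, (f0 (T p) - m) * (a p - g0 p) ∂ν)
  linarith

lemma image_inter_sets (hα : Continuous α) (hpos : ∀ p, 0 < α p)
    (hψ : IsTimeChange (nilflow X) α ψ) {A B : Set Nil} (hA : MeasurableSet A)
    (hB : MeasurableSet B) (t : ℝ) :
    (timeChangeMeasure α haar).real (ψ t '' A ∩ B) =
      ∫ p, A.indicator (1 : Nil → ℝ) p * B.indicator (1 : Nil → ℝ) (ψ t p)
        ∂(timeChangeMeasure α haar) := by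
  have hT := measurePreserving_psi hα hpos hψ t
  have hT' := measurePreserving_psi hα hpos hψ (-t)
  have hinv : ∀ p, ψ (-t) (ψ t p) = p := fun p => by
    rw [← psi_add hα hpos hψ, add_neg_cancel, psi_zero hα hpos hψ]
  have hinv' : ∀ p, ψ t (ψ (-t) p) = p := fun p => by
    rw [← psi_add hα hpos hψ, neg_add_cancel, psi_zero hα hpos hψ]
  have e : ψ t '' A ∩ B = ψ (-t) ⁻¹' (A ∩ ψ t ⁻¹' B) := by
    ext p
    simp only [mem_inter_iff, mem_image, mem_preimage, hinv']
    constructor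
    · rintro ⟨⟨q, hq, rfl⟩, h⟩
      exact ⟨by rwa [hinv], h⟩
    · rintro ⟨h1, h2⟩
      exact ⟨⟨_, h1, hinv' p⟩, h2⟩
  have hm : MeasurableSet (A ∩ ψ t ⁻¹' B) := hA.inter (hT.measurable hB)
  rw [e, Measure.real, hT'.measure_preimage hm.nullMeasurableSet, ← Measure.real,
    ← integral_indicator_one hm]
  congr 1; ext p
  by_cases h1 : p ∈ A <;> by_cases h2 : ψ t p ∈ B <;> simp [indicator, h1, h2]

/-- Correlations of sets are uniformly approximated by correlations of continuous functions. -/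
theorem approx_corr (hα : Continuous α) (hpos : ∀ p, 0 < α p)
    (hψ : IsTimeChange (nilflow X) α ψ) {A B : Set Nil} (hA : MeasurableSet A)
    (hB : MeasurableSet B) {ε : ℝ} (hε : 0 < ε) :
    ∃ f g : Nil → ℝ, Continuous f ∧ Continuous g ∧ ∫ p, f p * α p ∂haar = 0 ∧ ∀ t,
      |(timeChangeMeasure α haar).real (ψ t '' A ∩ B) -
        (timeChangeMeasure α haar).real A * (timeChangeMeasure α haar).real B -
        ∫ p, f (ψ t p) * g p ∂haar| ≤ ε := by
  have := isProb_tc hα hpos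
  set ν := timeChangeMeasure α haar with hν
  have hI := integral_pos hα hpos
  have hbi : Integrable (B.indicator (1 : Nil → ℝ)) ν := (integrable_const (1 : ℝ)).indicator hB
  have hai : Integrable (A.indicator (1 : Nil → ℝ)) ν := (integrable_const (1 : ℝ)).indicator hA
  obtain ⟨f0, hf1, hf2⟩ := hbi.exists_boundedContinuous_integral_sub_le (ε := ε / 4) (by positivity)
  have hfc : Continuous fun p => f0 p - ∫ q, f0 q ∂ν := f0.continuous.sub continuous_const
  obtain ⟨M, hM0, hM⟩ := exists_abs_le hfc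
  obtain ⟨g0, hg1, hg2⟩ := hai.exists_boundedContinuous_integral_sub_le (ε := ε / (2 * M))
    (by positivity)
  refine ⟨fun p => f0 p - ∫ q, f0 q ∂ν, fun p => g0 p * α p / ∫ q, α q ∂haar, hfc,
    (g0.continuous.mul hα).div_const _, ?_, fun t => ?_⟩
  · have h := integral_tc hα hpos (fun p => f0 p - ∫ q, f0 q ∂ν)
    rw [← hν, integral_sub hf2 (integrable_const _)] at h
    simp only [integral_const, probReal_univ, smul_eq_mul, one_mul, sub_self] at h
    exact (div_eq_zero_iff.1 h.symm).resolve_right hI.ne'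
  · have h := corr_est_sets (measurePreserving_psi hα hpos hψ t)
      (a := A.indicator (1 : Nil → ℝ)) (measurable_one.indicator hA)
      (fun p => by by_cases h : p ∈ A <;> simp [indicator, h]) hbi hf2 hg2 hM hf1 hg1
    rw [← image_inter_sets hα hpos hψ hA hB t, integral_indicator_one hA,
      integral_indicator_one hB, integral_tc hα hpos (fun p => (f0 (ψ t p) - _) * g0 p),
      ← integral_div] at h
    have e : ∀ p, (f0 (ψ t p) - ∫ q, f0 q ∂ν) * (g0 p * α p / ∫ q, α q ∂haar) =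
        (f0 (ψ t p) - ∫ q, f0 q ∂ν) * g0 p * α p / ∫ q, α q ∂haar := fun p => by ring
    simp only [e]
    refine h.trans (le_of_eq ?_)
    field_simp
    ring

theorem mixing_of_cont (hα : Continuous α) (hpos : ∀ p, 0 < α p)
    (hψ : IsTimeChange (nilflow X) α ψ)
    (hc : ∀ f g : Nil → ℝ, Continuous f → Continuous g → ∫ p, f p * α p ∂haar = 0 →
      Tendsto (fun t => ∫ p, f (ψ t p) * g p ∂haar) atTop (𝓝 0)) :
    Mixing ψ (timeChangeMeasure α haar) := by
  intro A B hA hB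
  rw [Metric.tendsto_atTop]
  intro ε hε
  obtain ⟨f, g, hf, hg, h0, h⟩ := approx_corr hα hpos hψ hA hB (ε := ε / 3) (by positivity)
  obtain ⟨N, hN⟩ := Metric.tendsto_atTop.1 (hc f g hf hg h0) (ε / 3) (by positivity)
  refine ⟨N, fun t ht => ?_⟩
  have h1 := hN t ht
  have h2 := h t
  rw [Real.dist_eq, sub_zero] at h1
  rw [Real.dist_eq]
  rw [abs_lt] at h1 ⊢
  rw [abs_le] at h2
  constructor <;> linarith [h1.1, h1.2, h2.1, h2.2]

end Pool.Agent.P.MP_442888_an.Mix
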