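import Pool.Agent.P.MP_442888_an.MixDefs

set_option autoImplicit false

open MeasureTheory Filter Topology Set
open scoped ComplexConjugate Real

namespace Pool.Agent.P.MP_442888_an.Mix

lemma exists_antideriv_osc (P : Polynomial ℝ) :
    ∃ Q : Polynomial ℝ, Q.derivative = P ∧ Q.natDegree ≤ P.natDegree + 1 := by
  refine ⟨∑ n ∈ Finset.range (P.natDegree + 1),
    Polynomial.monomial (n + 1) (P.coeff n / ((n : ℝ) + 1)), ?_, ?_⟩
  · rw [Polynomial.derivative_sum]
    conv_rhs => rw [P.as_sum_range]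
    refine Finset.sum_congr rfl fun n _ => ?_
    rw [Polynomial.derivative_monomial_succ]
    congr 1
    have : (n : ℝ) + 1 ≠ 0 := by positivity
    field_simp
  · refine Polynomial.natDegree_sum_le_of_forall_le _ _ fun n hn => ?_
    refine (Polynomial.natDegree_monomial_le _).trans ?_
    have := Finset.mem_range.1 hn
    omega

theorem taylor_poly (d : ℕ) {D : ℕ → ℝ → ℝ} {l M : ℝ}
    (hD : ∀ j < d, ∀ s, HasDerivAt (D j) (D (j + 1) s) s) (hM : ∀ s ∈ Icc 0 l, |D d s| ≤ M) :
    ∃ P : Polynomial ℝ, P.natDegree ≤ d ∧ ∀ s ∈ Icc 0 l, |D 0 s - P.eval s| ≤ M * l ^ d := by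
  induction d generalizing D with
  | zero => exact ⟨0, by simp, fun s hs => by simpa using hM s hs⟩
  | succ d ih =>
    obtain ⟨P, hP, hPb⟩ := ih (D := fun j => D (j + 1))
      (fun j hj s => hD (j + 1) (by omega) s) hM
    obtain ⟨Q, hQ, hQd⟩ := exists_antideriv_osc P
    refine ⟨Q + Polynomial.C (D 0 0 - Q.eval 0), ?_, fun s hs => ?_⟩
    · rw [Polynomial.natDegree_add_C]
      omega
    · have hder : ∀ x ∈ Icc (0 : ℝ) l, HasDerivWithinAt (fun x => D 0 x - Q.eval x)
          (D 1 x - P.eval x) (Icc 0 l) x := fun x _ => by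
        have h1 := hD 0 (by omega) x
        have h2 := Q.hasDerivAt x
        rw [hQ] at h2
        exact (h1.sub h2).hasDerivWithinAt
      have h := norm_image_sub_le_of_norm_deriv_le_segment' hder
        (C := M * l ^ d) (fun x hx => hPb x (Ico_subset_Icc_self hx)) s hs
      have h0 : 0 ≤ M * l ^ d := (abs_nonneg _).trans (hPb s hs)
      rw [Real.norm_eq_abs, sub_zero] at h
      have h3 : D 0 s - (Q + Polynomial.C (D 0 0 - Q.eval 0)).eval s
          = D 0 s - Q.eval s - (D 0 0 - Q.eval 0) := by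
        simp only [Polynomial.eval_add, Polynomial.eval_C]; ring
      rw [h3, pow_succ, ← mul_assoc]
      exact h.trans (mul_le_mul_of_nonneg_left hs.2 h0)

lemma split_osc {Φ : ℝ → ℝ → ℝ} {β : ℝ} (hβ : 0 ≤ β)
    (hsub : ∀ a b c, Φ a c ≤ Φ a b + Φ b c) (Z : Finset ℝ) :
    ∀ r, 0 ≤ r → (∀ a b, 0 ≤ a → a ≤ b → b ≤ r → (∀ z ∈ Z, z ∉ Ioo a b) → Φ a b ≤ β) →
      Φ 0 r ≤ (Z.card + 1) * β := by
  classical
  induction Z using Finset.induction_on_max with
  | empty => intro r hr h; simpa using h 0 r le_rfl hr le_rfl (by simp)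
  | insert m Z hm ih =>
    intro r hr h
    have hnot : m ∉ Z := fun h' => lt_irrefl _ (hm m h')
    rw [Finset.card_insert_of_notMem hnot]
    push_cast
    by_cases hmr : 0 < m ∧ m < r
    · have h1 := ih m hmr.1.le fun a b ha hab hb hz => h a b ha hab (hb.trans hmr.2.le)
        fun z hz' => by
          rcases Finset.mem_insert.1 hz' with rfl | hz'
          · exact fun hh => absurd hh.2 (not_lt.2 hb)
          · exact hz z hz'
      have h2 := h m r hmr.1.le hmr.2.le le_rfl fun z hz' => by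
        rcases Finset.mem_insert.1 hz' with rfl | hz'
        · exact fun hh => lt_irrefl _ hh.1
        · exact fun hh => absurd hh.1 (not_lt.2 (hm z hz').le)
      have h3 := hsub 0 m r
      linarith
    · have h1 := ih r hr fun a b ha hab hb hz => h a b ha hab hb fun z hz' => by
        rcases Finset.mem_insert.1 hz' with rfl | hz'
        · exact fun hh => hmr ⟨ha.trans_lt hh.1, hh.2.trans_le hb⟩
        · exact hz z hz'
      linarith

lemma sign_osc (Q : Polynomial ℝ) {a b : ℝ} (h : ∀ z ∈ Q.roots, z ∉ Ioo a b) :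
    (∀ s ∈ Icc a b, 0 ≤ Q.eval s) ∨ ∀ s ∈ Icc a b, Q.eval s ≤ 0 := by
  by_cases hQ : Q = 0
  · left; intro s _; simp [hQ]
  by_contra hc
  push Not at hc
  obtain ⟨⟨s, hs, hs0⟩, ⟨t, ht, ht0⟩⟩ := hc
  have hcont : Continuous fun x => Q.eval x := Q.continuous
  rcases le_total s t with hst | hst
  · obtain ⟨z, hz, hz0⟩ := intermediate_value_Ioo hst hcont.continuousOn ⟨hs0, ht0⟩
    exact h z ((Polynomial.mem_roots hQ).2 hz0) ⟨hs.1.trans_lt hz.1, hz.2.trans_le ht.2⟩
  · obtain ⟨z, hz, hz0⟩ := intermediate_value_Ioo' hst hcont.continuousOn ⟨hs0, ht0⟩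
    exact h z ((Polynomial.mem_roots hQ).2 hz0) ⟨ht.1.trans_lt hz.1, hz.2.trans_le hs.2⟩

lemma piece_osc {P : Polynomial ℝ} {a c L ε A B σ : ℝ} (hac : a ≤ c)
    (hL : 0 < L) {H g V : ℝ → ℝ} (hg : Continuous g)
    (hH : ∀ s, HasDerivAt H (g s * V s) s)
    (hB : ∀ s, |H s| ≤ B) (hA : ∀ s, |g s| ≤ A)
    (hPV : ∀ s ∈ Icc a c, |V s - P.eval s| ≤ ε * L) (hε0 : 0 ≤ ε)
    (hPL : ∀ s ∈ Icc a c, L ≤ |P.eval s|) (hσ : |σ| = 1)
    (hσ' : ∀ s ∈ Icc a c, |P.derivative.eval s| = σ * P.derivative.eval s) :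
    |∫ s in a..c, g s| ≤ A * ε * (c - a) + 4 * B / L := by
  have hB0 : 0 ≤ B := (abs_nonneg _).trans (hB 0)
  have hA0 : 0 ≤ A := (abs_nonneg _).trans (hA 0)
  have hP0 : ∀ s ∈ Icc a c, P.eval s ≠ 0 := fun s hs h0 => by
    have := hPL s hs
    rw [h0, abs_zero] at this
    linarith
  have hinv : ∀ s ∈ Icc a c, |(P.eval s)⁻¹| ≤ 1 / L := fun s hs => by
    rw [abs_inv, one_div]
    exact inv_anti₀ hL (hPL s hs)
  have hHP : ∀ s ∈ Icc a c, |H s * (P.eval s)⁻¹| ≤ B / L := fun s hs => by
    rw [abs_mul, div_eq_mul_one_div]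
    exact mul_le_mul (hB s) (hinv s hs) (abs_nonneg _) hB0
  have hdinv : ∀ s ∈ Icc a c, HasDerivAt (fun x => (P.eval x)⁻¹)
      (-P.derivative.eval s / (P.eval s) ^ 2) s := fun s hs => (P.hasDerivAt s).inv (hP0 s hs)
  have hf : ∀ s ∈ Icc a c, HasDerivAt (fun x => (∫ u in a..x, g u) - H x * (P.eval x)⁻¹)
      (g s - (g s * V s * (P.eval s)⁻¹ + H s * (-P.derivative.eval s / (P.eval s) ^ 2))) s :=
    fun s hs => ((hg.integral_hasStrictDerivAt a s).hasDerivAt).sub ((hH s).mul (hdinv s hs))
  have hK : ∀ s ∈ Icc a c, HasDerivAt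
      (fun x => B / L + A * ε * (x - a) + σ * B * ((P.eval a)⁻¹ - (P.eval x)⁻¹))
      (A * ε * 1 + σ * B * (0 - -P.derivative.eval s / (P.eval s) ^ 2)) s := fun s hs => by
    have h1 := (((hasDerivAt_id s).sub_const a).const_mul (A * ε)).const_add (B / L)
    have h2 := ((hasDerivAt_const s (P.eval a)⁻¹).sub (hdinv s hs)).const_mul (σ * B)
    exact h1.add h2
  have key := image_norm_le_of_norm_deriv_right_le_deriv_boundary'
    (f := fun x => (∫ u in a..x, g u) - H x * (P.eval x)⁻¹) (a := a) (b := c)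
    (fun s hs => (hf s hs).continuousAt.continuousWithinAt)
    (fun s hs => (hf s (Ico_subset_Icc_self hs)).hasDerivWithinAt)
    (B := fun x => B / L + A * ε * (x - a) + σ * B * ((P.eval a)⁻¹ - (P.eval x)⁻¹))
    (by simpa [abs_mul] using (abs_mul (H a) _).symm.le.trans (hHP a ⟨le_rfl, hac⟩))
    (fun s hs => (hK s hs).continuousAt.continuousWithinAt)
    (fun s hs => (hK s (Ico_subset_Icc_self hs)).hasDerivWithinAt)
    (fun s hs => by
      have hs' := Ico_subset_Icc_self hs
      have hp := hP0 s hs'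
      have e1 : g s - (g s * V s * (P.eval s)⁻¹ + H s * (-P.derivative.eval s / (P.eval s) ^ 2))
          = -(g s * ((V s - P.eval s) * (P.eval s)⁻¹))
            + H s * (P.derivative.eval s / (P.eval s) ^ 2) := by
        field_simp
        ring
      have e2 : |(V s - P.eval s) * (P.eval s)⁻¹| ≤ ε := by
        rw [abs_mul]
        refine (mul_le_mul (hPV s hs') (hinv s hs') (abs_nonneg _) (by positivity)).trans_eq ?_
        field_simp
      have e3 : |g s * ((V s - P.eval s) * (P.eval s)⁻¹)| ≤ A * ε := by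
        rw [abs_mul]
        exact mul_le_mul (hA s) e2 (abs_nonneg _) hA0
      have e4 : |H s * (P.derivative.eval s / (P.eval s) ^ 2)|
          ≤ B * (σ * P.derivative.eval s / (P.eval s) ^ 2) := by
        rw [abs_mul, abs_div, abs_of_nonneg (sq_nonneg (P.eval s)), ← hσ' s hs']
        exact mul_le_mul_of_nonneg_right (hB s) (by positivity)
      rw [e1, Real.norm_eq_abs]
      refine (abs_add_le _ _).trans ?_
      rw [abs_neg]
      refine (add_le_add e3 e4).trans_eq ?_
      ring)
    (x := c) ⟨hac, le_rfl⟩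
  rw [Real.norm_eq_abs] at key
  have h1 := hHP c ⟨hac, le_rfl⟩
  have h2 : σ * B * ((P.eval a)⁻¹ - (P.eval c)⁻¹) ≤ 2 * B / L := by
    refine (le_abs_self _).trans ?_
    rw [abs_mul, abs_mul, hσ, one_mul, abs_of_nonneg hB0]
    have h3 := (abs_sub _ _).trans (add_le_add (hinv a ⟨le_rfl, hac⟩) (hinv c ⟨hac, le_rfl⟩))
    refine (mul_le_mul_of_nonneg_left h3 hB0).trans_eq ?_
    ring
  have h4 := abs_add_le ((∫ u in a..c, g u) - H c * (P.eval c)⁻¹) (H c * (P.eval c)⁻¹)
  rw [sub_add_cancel] at h4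
  have h5 : 4 * B / L = B / L + 2 * B / L + B / L := by ring
  linarith

theorem osc {d : ℕ} {P : Polynomial ℝ} (hP : P.natDegree ≤ d) {l L ε A B : ℝ} (hl : 0 ≤ l)
    (hL : 0 < L) (hε0 : 0 ≤ ε) (hε : ε ≤ 1) {H g V b : ℝ → ℝ} (hg : Continuous g)
    (hV : Continuous V) (hb : Continuous b) (hH : ∀ s, HasDerivAt H (g s * V s) s)
    (hB : ∀ s, |H s| ≤ B) (hA : ∀ s, |g s| ≤ A)
    (hPV : ∀ s ∈ Icc 0 l, |V s - P.eval s| ≤ ε * L) (hb0 : ∀ s, 0 ≤ b s)
    (hb1 : ∀ s, |V s| ≤ 2 * L → 1 ≤ b s) :
    |∫ s in (0 : ℝ)..l, g s| ≤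
      A * (∫ s in (0 : ℝ)..l, b s) + A * ε * l + (3 * d + 1) * (4 * B / L) := by
  classical
  have _ := hV
  have hB0 : 0 ≤ B := (abs_nonneg _).trans (hB 0)
  have hA0 : 0 ≤ A := (abs_nonneg _).trans (hA 0)
  have hβ : 0 ≤ 4 * B / L := by positivity
  set Z : Finset ℝ := P.derivative.roots.toFinset ∪
    ((P - Polynomial.C L).roots.toFinset ∪ (P + Polynomial.C L).roots.toFinset) with hZ
  have hcard : Z.card ≤ 3 * d := by
    have h1 : P.derivative.roots.toFinset.card ≤ d :=
      (Multiset.toFinset_card_le _).trans ((Polynomial.card_roots' _).trans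
        ((Polynomial.natDegree_derivative_le P).trans (by omega)))
    have h2 : (P - Polynomial.C L).roots.toFinset.card ≤ d :=
      (Multiset.toFinset_card_le _).trans ((Polynomial.card_roots' _).trans
        (by rw [Polynomial.natDegree_sub_C]; exact hP))
    have h3 : (P + Polynomial.C L).roots.toFinset.card ≤ d :=
      (Multiset.toFinset_card_le _).trans ((Polynomial.card_roots' _).trans
        (by rw [Polynomial.natDegree_add_C]; exact hP))
    have h4 := Finset.card_union_le P.derivative.roots.toFinset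
      ((P - Polynomial.C L).roots.toFinset ∪ (P + Polynomial.C L).roots.toFinset)
    have h5 := Finset.card_union_le (P - Polynomial.C L).roots.toFinset
      (P + Polynomial.C L).roots.toFinset
    rw [hZ]
    omega
  have key := split_osc (Φ := fun a c => |∫ s in a..c, g s| - A * (∫ s in a..c, b s)
    - A * ε * (c - a)) hβ (fun a c e => by
      rw [← intervalIntegral.integral_add_adjacent_intervals (hg.intervalIntegrable a c)
        (hg.intervalIntegrable c e), ← intervalIntegral.integral_add_adjacent_intervals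
        (hb.intervalIntegrable a c) (hb.intervalIntegrable c e)]
      have := abs_add_le (∫ s in a..c, g s) (∫ s in c..e, g s)
      linarith) Z l hl (fun a c ha hac hc hz => by
      have hsub : Icc a c ⊆ Icc 0 l := Icc_subset_Icc ha hc
      have hint : 0 ≤ ∫ s in a..c, b s := intervalIntegral.integral_nonneg hac fun s _ => hb0 s
      have hAb : 0 ≤ A * ∫ s in a..c, b s := mul_nonneg hA0 hint
      have hs1 := sign_osc P.derivative (a := a) (b := c) fun z hz' =>
        hz z (Finset.mem_union_left _ (Multiset.mem_toFinset.2 hz'))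
      have hs2 := sign_osc (P - Polynomial.C L) (a := a) (b := c) fun z hz' =>
        hz z (Finset.mem_union_right _ (Finset.mem_union_left _ (Multiset.mem_toFinset.2 hz')))
      have hs3 := sign_osc (P + Polynomial.C L) (a := a) (b := c) fun z hz' =>
        hz z (Finset.mem_union_right _ (Finset.mem_union_right _ (Multiset.mem_toFinset.2 hz')))
      simp only [Polynomial.eval_sub, Polynomial.eval_add, Polynomial.eval_C] at hs2 hs3
      have big : (∀ s ∈ Icc a c, L ≤ |P.eval s|) →
          |∫ s in a..c, g s| - A * (∫ s in a..c, b s) - A * ε * (c - a) ≤ 4 * B / L := by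
        intro hPL
        have h : |∫ s in a..c, g s| ≤ A * ε * (c - a) + 4 * B / L := by
          rcases hs1 with hs1 | hs1
          · exact piece_osc (σ := 1) hac hL hg hH hB hA (fun s hs => hPV s (hsub hs)) hε0 hPL
              abs_one fun s hs => by rw [one_mul, abs_of_nonneg (hs1 s hs)]
          · exact piece_osc (σ := -1) hac hL hg hH hB hA (fun s hs => hPV s (hsub hs)) hε0 hPL
              (by simp) fun s hs => by rw [neg_one_mul, abs_of_nonpos (hs1 s hs)]
        linarith
      rcases hs2 with hs2 | hs2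
      · exact big fun s hs => le_trans (by linarith [hs2 s hs]) (le_abs_self _)
      rcases hs3 with hs3 | hs3
      · have h1 : ∀ s ∈ Icc a c, |g s| ≤ A * b s := fun s hs => by
          have h2 := abs_le.1 (hPV s (hsub hs))
          have h3 : ε * L ≤ L := by nlinarith
          have h4 := hb1 s (abs_le.2 ⟨by linarith [hs3 s hs], by linarith [hs2 s hs]⟩)
          nlinarith [hA s]
        have h5 : |∫ s in a..c, g s| ≤ ∫ s in a..c, A * b s :=
          (intervalIntegral.abs_integral_le_integral_abs hac).trans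
            (intervalIntegral.integral_mono_on hac (hg.abs.intervalIntegrable a c)
              ((continuous_const.mul hb).intervalIntegrable a c) h1)
        rw [intervalIntegral.integral_const_mul] at h5
        have h6 : 0 ≤ A * ε * (c - a) := mul_nonneg (mul_nonneg hA0 hε0) (sub_nonneg.2 hac)
        linarith
      · exact big fun s hs => le_trans (by linarith [hs3 s hs]) (neg_le_abs _))
  have h7 : ((Z.card : ℝ) + 1) * (4 * B / L) ≤ (3 * d + 1) * (4 * B / L) := by
    refine mul_le_mul_of_nonneg_right ?_ hβ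
    have : (Z.card : ℝ) ≤ 3 * d := by exact_mod_cast hcard
    linarith
  simp only [sub_zero] at key
  linarith

end Pool.Agent.P.MP_442888_an.Mix
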