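import Pool.Agent.P.MP_442888_an.MixShadow
import Pool.Agent.P.MP_442888_an.MixOsc

set_option autoImplicit false

open MeasureTheory Filter Topology Set
open scoped ComplexConjugate Real

namespace Pool.Agent.P.MP_442888_an.Mix

variable {X : G3} {α : Nil → ℝ} {ψ : ℝ → Nil → Nil}

lemma continuous_curve (κ : ℝ) : Continuous fun x : Nil × ℝ => rmul (0, x.2, κ * x.2) x.1 :=
  continuous_rmul₂.comp (Continuous.prodMk (by fun_prop) continuous_fst)

lemma continuous_curve' (κ : ℝ) (p : Nil) : Continuous fun s : ℝ => rmul (0, s, κ * s) p :=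
  (continuous_curve κ).comp (continuous_const.prodMk continuous_id)

lemma continuous_curve_integral {b : Nil → ℝ} (hb : Continuous b) (κ l : ℝ) :
    Continuous fun p => ∫ s in (0 : ℝ)..l, b (rmul (0, s, κ * s) p) :=
  intervalIntegral.continuous_parametric_intervalIntegral_of_continuous'
    (f := fun p s => b (rmul (0, s, κ * s) p)) (hb.comp (continuous_curve κ)) 0 l

lemma integral_curve {b : Nil → ℝ} (hb : Continuous b) (κ l : ℝ) :
    ∫ p, (∫ s in (0 : ℝ)..l, b (rmul (0, s, κ * s) p)) ∂haar = l * ∫ p, b p ∂haar := by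
  let B : CN := ⟨fun p => (b p : ℂ), by fun_prop⟩
  have hc : Continuous fun s : ℝ => R (0, s, κ * s) B := (continuous_R B).comp (by fun_prop)
  have h := clm_integral E hc 0 l
  simp only [E_R, intervalIntegral.integral_const, sub_zero] at h
  rw [E_apply, E_apply] at h
  simp only [integral_apply' hc, R_apply, B, ContinuousMap.coe_mk, intervalIntegral.integral_ofReal,
    integral_complex_ofReal, Complex.real_smul] at h
  exact_mod_cast h

lemma hasDerivAt_eval {F : ℝ → CN} {F' : CN} {s : ℝ} (h : HasDerivAt F F' s) (p : Nil) :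
    HasDerivAt (fun s => F s p) (F' p) s :=
  ((ContinuousMap.evalCLM ℂ p : CN →L[ℂ] ℂ).restrictScalars ℝ).hasFDerivAt.comp_hasDerivAt s h

/-- The estimate along one curve. -/
lemma curve_bound (hα : Continuous α) (hpos : ∀ p, 0 < α p) (hψ : IsTimeChange (nilflow X) α ψ)
    {f h : Nil → ℝ} (hf : Continuous f)
    (hd : ∀ p s, HasDerivAt (fun s => h (nilflow X s p))
      (f (nilflow X s p) * α (nilflow X s p)) s)
    {Af Bh : ℝ} (hAf : ∀ p, |f p| ≤ Af) (hBh : ∀ p, |h p| ≤ Bh) {T t l L M ε : ℝ} {d : ℕ}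
    (hl : 0 ≤ l) (hL : 0 < L) (hM : 0 < M) (hε0 : 0 ≤ ε) (hε : ε ≤ 1) {D : ℕ → CN}
    (hD0 : ∀ p, D 0 p = clock X α p T)
    (hD : ∀ j < d + 1, ∀ s : ℝ, HasDerivAt (fun s : ℝ => R (0, s, T * X.1 * s) (D j))
      (R (0, s, T * X.1 * s) (D (j + 1))) s)
    (hDd : ‖D (d + 1)‖ * l ^ d ≤ ε * L)
    (hsh : ∀ (Q : Nil) (s ρ : ℝ), s ∈ Icc 0 l → |ρ| ≤ M →
      |f (ψ ρ (rmul (0, s, 0) Q)) - f (ψ ρ Q)| ≤ ε) (p : Nil) :
    |∫ s in (0 : ℝ)..l, f (ψ t (rmul (0, s, T * X.1 * s) p))| ≤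
      ε * l + 2 * Af * (∫ s in (0 : ℝ)..l,
        (t - clock X α (rmul (0, s, T * X.1 * s) p) T) ^ 2 / M ^ 2) +
      (Af * (∫ s in (0 : ℝ)..l,
        max 0 (min 1 (3 - ‖D 1 (rmul (0, s, T * X.1 * s) p)‖ / L))) + Af * ε * l +
        (3 * d + 1) * (4 * Bh / L)) := by
  set γ : ℝ → Nil := fun s => rmul (0, s, T * X.1 * s) p with hγ
  have hγc : Continuous γ := continuous_curve' _ p
  have hψc := continuous_psi hα hpos hψ
  set Q := nilflow X T p
  set ρ : ℝ → ℝ := fun s => t - clock X α (γ s) T with hρ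
  have hDj : ∀ j < d + 1, ∀ s, HasDerivAt (fun s => D j (γ s)) (D (j + 1) (γ s)) s :=
    fun j hj s => hasDerivAt_eval (hD j hj s) p
  have hre : ∀ j < d + 1, ∀ s, HasDerivAt (fun s => -(D j (γ s)).re) (-(D (j + 1) (γ s)).re) s :=
    fun j hj s => (Complex.reCLM.hasFDerivAt.comp_hasDerivAt s (hDj j hj s)).neg
  have him : ∀ s, (D 1 (γ s)).im = 0 := fun s => by
    have h1 : HasDerivAt (fun s => (D 0 (γ s)).im) (D 1 (γ s)).im s :=
      Complex.imCLM.hasFDerivAt.comp_hasDerivAt s (hDj 0 (by omega) s)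
    simp only [hD0, Complex.ofReal_im] at h1
    exact h1.unique (hasDerivAt_const s 0)
  have hρd : ∀ s, HasDerivAt ρ (-(D 1 (γ s)).re) s := fun s => by
    have h1 := (hre 0 (by omega) s).const_add t
    simp only [hD0, Complex.ofReal_re] at h1
    exact h1
  have hρc : Continuous ρ := continuous_iff_continuousAt.2 fun s => (hρd s).continuousAt
  obtain ⟨P, hP, hPV⟩ := taylor_poly d (D := fun j s => -(D (j + 1) (γ s)).re) (l := l)
    (M := ‖D (d + 1)‖) (fun j hj s => hre (j + 1) (by omega) s) (fun s _ => by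
      rw [abs_neg]
      exact (Complex.abs_re_le_norm _).trans ((D (d + 1)).norm_coe_le_norm _))
  have hgc : Continuous fun s => f (ψ (ρ s) Q) :=
    hf.comp (hψc.comp (hρc.prodMk continuous_const))
  have hosc := osc hP hl hL hε0 hε (H := fun s => h (ψ (ρ s) Q)) (g := fun s => f (ψ (ρ s) Q))
    (V := fun s => -(D 1 (γ s)).re) (b := fun s => max 0 (min 1 (3 - ‖D 1 (γ s)‖ / L)))
    (A := Af) (B := Bh) hgc (by fun_prop) (by fun_prop)
    (fun s => (psi_deriv hα hpos hψ hd Q (ρ s)).comp s (hρd s)) (fun s => hBh _) (fun s => hAf _)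
    (fun s hs => (hPV s hs).trans hDd) (fun s => le_max_left _ _) (fun s hs => by
      refine le_max_of_le_right (le_min le_rfl ?_)
      have h1 : ‖D 1 (γ s)‖ ≤ 2 * L := by
        rw [abs_neg] at hs
        have := Complex.norm_le_abs_re_add_abs_im (D 1 (γ s))
        rw [him, abs_zero, add_zero] at this
        exact this.trans hs
      have h2 : ‖D 1 (γ s)‖ / L ≤ 2 := (div_le_iff₀ hL).2 h1
      linarith)
  have hAf0 : 0 ≤ Af := (abs_nonneg _).trans (hAf p)
  have hkey : ∀ s, ψ t (γ s) = ψ (ρ s) (rmul (0, s, 0) Q) := fun s => by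
    have h1 : t = clock X α (γ s) T + ρ s := by simp [hρ]
    conv_lhs => rw [h1]
    rw [psi_add hα hpos hψ, psi_clock hα hpos hψ, hγ, nilflow_rmul, sub_self]
  have hfc : Continuous fun s => f (ψ t (γ s)) :=
    hf.comp (hψc.comp (continuous_const.prodMk hγc))
  have hdiff : |∫ s in (0 : ℝ)..l, (f (ψ t (γ s)) - f (ψ (ρ s) Q))| ≤
      ∫ s in (0 : ℝ)..l, (ε + 2 * Af * (ρ s ^ 2 / M ^ 2)) := by
    refine (intervalIntegral.abs_integral_le_integral_abs hl).trans ?_
    refine intervalIntegral.integral_mono_on hl ((hfc.sub hgc).abs.intervalIntegrable _ _)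
      (Continuous.intervalIntegrable (by fun_prop) _ _) fun s hs => ?_
    by_cases hb : |ρ s| ≤ M
    · rw [hkey]
      have := hsh Q s (ρ s) hs hb
      have h2 : 0 ≤ 2 * Af * (ρ s ^ 2 / M ^ 2) := by positivity
      linarith
    · have h1 : 1 ≤ ρ s ^ 2 / M ^ 2 := by
        rw [one_le_div (by positivity), ← sq_abs (ρ s)]
        exact pow_le_pow_left₀ hM.le (not_le.1 hb).le 2
      have h2 := abs_sub (f (ψ t (γ s))) (f (ψ (ρ s) Q))
      have h3 := hAf (ψ t (γ s))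
      have h4 := hAf (ψ (ρ s) Q)
      nlinarith
  rw [intervalIntegral.integral_sub (hfc.intervalIntegrable _ _) (hgc.intervalIntegrable _ _),
    intervalIntegral.integral_add (continuous_const.intervalIntegrable _ _)
      (Continuous.intervalIntegrable (by fun_prop) _ _), intervalIntegral.integral_const_mul,
    intervalIntegral.integral_const, sub_zero, smul_eq_mul] at hdiff
  have h5 := abs_sub_abs_le_abs_sub (∫ s in (0 : ℝ)..l, f (ψ t (γ s)))
    (∫ s in (0 : ℝ)..l, f (ψ (ρ s) Q))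
  simp only [hγ, hρ] at hdiff h5 hosc ⊢
  linarith

lemma dir_S {AY AZ : CN} (T : ℝ) :
    W X (fun _ => 1) AY T - W X (fun v => ((v * X.1 : ℝ) : ℂ) * 1) AZ T +
      ((T * X.1 : ℝ) : ℂ) • W X (fun _ => 1) AZ T = S X AY T + (X.1 : ℂ) • A X AZ T := by
  rw [← S_eq_W, sub_add, sub_eq_add_neg]
  congr 1
  rw [neg_sub, A, W, W, W, ← intervalIntegral.integral_smul, ← intervalIntegral.integral_smul,
    ← intervalIntegral.integral_sub]
  · congr 1
    ext1 v
    simp only [smul_smul, ← sub_smul]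
    congr 1
    push_cast
    ring
  · have := continuous_U (X := X) AZ
    exact Continuous.intervalIntegrable (by fun_prop) _ _
  · have := continuous_U (X := X) AZ
    exact Continuous.intervalIntegrable (by fun_prop) _ _

lemma integral_bump_le {F : CN} {L : ℝ} (hL : 0 < L) :
    ∫ p, max 0 (min 1 (3 - ‖F p‖ / L)) ∂haar ≤ haar.real {p | ‖F p‖ ≤ 3 * L} := by
  have hm : MeasurableSet {p | ‖F p‖ ≤ 3 * L} :=
    (isClosed_le (by fun_prop) continuous_const).measurableSet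
  rw [← integral_indicator_one hm]
  refine integral_mono (integrable_of_continuous (by fun_prop))
    ((integrable_const 1).indicator hm) fun p => ?_
  by_cases hp : ‖F p‖ ≤ 3 * L
  · rw [indicator_of_mem (show p ∈ {p | ‖F p‖ ≤ 3 * L} from hp)]
    exact max_le zero_le_one (min_le_left _ _)
  · rw [indicator_of_notMem (show p ∉ {p | ‖F p‖ ≤ 3 * L} from hp)]
    have : 3 ≤ ‖F p‖ / L := (le_div_iff₀ hL).2 (not_le.1 hp).le
    exact max_le le_rfl ((min_le_right _ _).trans (by linarith))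

/-- The estimate at one large time. -/
lemma shear_bound (ha : X.1 ≠ 0) (hα : Continuous α) (hpos : ∀ p, 0 < α p)
    (hψ : IsTimeChange (nilflow X) α ψ) {Ah AY AZ : CN} (hA : ∀ p, Ah p = α p)
    (hD : Der Ah AY AZ) {K ab C : ℝ} {d : ℕ} (hC : Bd 1 (d + 1) Ah C)
    {f h g : Nil → ℝ} (hf : Continuous f) (hg : Continuous g)
    (hd : ∀ p s, HasDerivAt (fun s => h (nilflow X s p))
      (f (nilflow X s p) * α (nilflow X s p)) s)
    {Af Bh Bg : ℝ} (hAf : ∀ p, |f p| ≤ Af) (hBh : ∀ p, |h p| ≤ Bh) (hBg : ∀ p, |g p| ≤ Bg)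
    {T y ε M κ δ : ℝ} (hT : 1 ≤ T) (hy : 1 ≤ y) (hTy : T ^ 2 ≤ y ^ d) (hε0 : 0 ≤ ε) (hε : ε ≤ 1)
    (hM : 0 < M) (hK : n2 (S X (Ah - (ab : ℂ) • (1 : CN)) T) ≤ K * √T) (hKM : K ^ 2 ≤ ε * M ^ 2)
    (hsh : ∀ (Q : Nil) (s ρ : ℝ), |s| * (1 + |ρ|) ^ 2 ≤ κ →
      |f (ψ ρ (rmul (0, s, 0) Q)) - f (ψ ρ Q)| ≤ ε)
    (hun : ∀ u : G3, ‖u‖ ≤ δ → ∀ p, |g (rmul u p) - g p| ≤ ε)
    (h1 : (1 + M) ^ 2 ≤ κ * y) (h2 : 1 + |X.1| ≤ δ * y) (h3 : (3 * d + 1) * (4 * Bh) ≤ ε * y)
    (h4 : 3 + ‖AY‖ ≤ |X.1| * y) (h5 : (1 + 2 * |X.1|) ^ (d + 1) * C ≤ ε * y)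
    (hAC : haar.real {p | ‖A X AZ T p‖ ≤ T * y ^ 4} ≤ ε) :
    |∫ p, f (ψ (ab * T) p) * g p ∂haar| ≤ ε * (Af + 2 * Bg + 4 * Af * Bg) := by
  have hT0 : 0 < T := by linarith
  have hy0 : 0 < y := by linarith
  have ha0 : 0 < |X.1| := abs_pos.2 ha
  have hC0 := hC.nonneg
  obtain ⟨p₀⟩ : Nonempty Nil := ⟨proj 0⟩
  have hAf0 : 0 ≤ Af := (abs_nonneg _).trans (hAf p₀)
  have hBg0 : 0 ≤ Bg := (abs_nonneg _).trans (hBg p₀)
  have hψc := continuous_psi hα hpos hψ
  set l := 1 / (T * y) with hl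
  set L := T * y ^ 2 with hL
  have hl0 : 0 < l := by positivity
  have hL0 : 0 < L := by positivity
  have hsT : 1 ≤ √T := Real.one_le_sqrt.2 hT
  obtain ⟨D, hD0, hD1, hD2, hD3⟩ := (hC.S (X := X) T).dir (T * X.1)
  have hD1' : D 1 = S X AY T + (X.1 : ℂ) • A X AZ T := by
    rw [← dir_S]
    refine hD3 (by omega) _ _ ?_
    rw [S_eq_W]
    exact hD.W continuous_const T
  have hDd : ‖D (d + 1)‖ * l ^ d ≤ ε * L := by
    have e1 : 1 + |X.1| * |T| + |T * X.1| ≤ (1 + 2 * |X.1|) * T := by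
      rw [abs_mul, abs_of_pos hT0]; nlinarith
    have e2 : ‖D (d + 1)‖ ≤ ((1 + 2 * |X.1|) * T) ^ (d + 1) * (C * T) := by
      refine (hD2 (d + 1) le_rfl).trans ?_
      rw [abs_of_pos hT0] at e1 ⊢
      gcongr
    have e3 : ((1 + 2 * |X.1|) * T) ^ (d + 1) * (C * T) * l ^ d =
        (1 + 2 * |X.1|) ^ (d + 1) * C * (T ^ 2 / y ^ d) := by
      rw [hl, mul_pow, div_pow, mul_pow]; field_simp; ring
    have e4 : T ^ 2 / y ^ d ≤ 1 := (div_le_one (by positivity)).2 hTy
    have e5 : y ≤ L := by rw [hL]; nlinarith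
    calc ‖D (d + 1)‖ * l ^ d ≤ ((1 + 2 * |X.1|) * T) ^ (d + 1) * (C * T) * l ^ d := by gcongr
      _ ≤ (1 + 2 * |X.1|) ^ (d + 1) * C * 1 := by rw [e3]; gcongr
      _ ≤ ε * y := by rwa [mul_one]
      _ ≤ ε * L := by gcongr
  have hcb := curve_bound hα hpos hψ hf hd hAf hBh (t := ab * T) (M := M * √T) hl0.le hL0
    (by positivity) hε0 hε (D := D) (fun p => by rw [hD0, S_eq_clock hA]) hD1 hDd
    (fun Q s ρ hs hρ => hsh Q s ρ (by
      have e1 : (1 + |ρ|) ^ 2 ≤ (1 + M) ^ 2 * T := by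
        have : 1 + |ρ| ≤ (1 + M) * √T := by nlinarith
        calc (1 + |ρ|) ^ 2 ≤ ((1 + M) * √T) ^ 2 := by gcongr
          _ = (1 + M) ^ 2 * T := by rw [mul_pow, Real.sq_sqrt hT0.le]
      rw [abs_of_nonneg hs.1]
      calc s * (1 + |ρ|) ^ 2 ≤ l * ((κ * y) * T) := by
            have := hs.2
            gcongr
            exact e1.trans (by gcongr)
        _ = κ := by rw [hl]; field_simp))
  set b1 : Nil → ℝ := fun p => (ab * T - clock X α p T) ^ 2 / (M * √T) ^ 2 with hb1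
  set b2 : Nil → ℝ := fun p => max 0 (min 1 (3 - ‖D 1 p‖ / L)) with hb2
  have hclk : Continuous fun p => clock X α p T :=
    (continuous_clock hα).comp (continuous_id.prodMk continuous_const)
  have hb1c : Continuous b1 := by fun_prop
  have hb2c : Continuous b2 := by fun_prop
  have hfψ : Continuous fun p => f (ψ (ab * T) p) :=
    hf.comp (hψc.comp (continuous_const.prodMk continuous_id))
  have hI1 : ∫ p, b1 p ∂haar ≤ ε := by
    have e1 : ∀ p, (ab * T - clock X α p T) ^ 2 = ‖S X (Ah - (ab : ℂ) • (1 : CN)) T p‖ ^ 2 := by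
      intro p
      rw [S_sub, S_smul, S_one, ContinuousMap.sub_apply, S_eq_clock hA]
      simp only [ContinuousMap.smul_apply, ContinuousMap.one_apply, smul_eq_mul, mul_one]
      rw [← Complex.ofReal_mul, ← Complex.ofReal_sub, Complex.norm_real, Real.norm_eq_abs, sq_abs]
      ring
    simp only [hb1, e1]
    rw [integral_div, ← n2_sq, div_le_iff₀ (by positivity)]
    calc n2 (S X (Ah - (ab : ℂ) • (1 : CN)) T) ^ 2 ≤ (K * √T) ^ 2 :=
          pow_le_pow_left₀ (n2_nonneg _) hK 2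
      _ = K ^ 2 * √T ^ 2 := mul_pow _ _ _
      _ ≤ ε * M ^ 2 * √T ^ 2 := by gcongr
      _ = ε * (M * √T) ^ 2 := by ring
  have hI2 : ∫ p, b2 p ∂haar ≤ ε := by
    refine (integral_bump_le hL0).trans (le_trans (measureReal_mono fun p hp => ?_) hAC)
    simp only [mem_ofPred_eq] at hp ⊢
    have e1 : (X.1 : ℂ) * A X AZ T p = D 1 p - S X AY T p := by rw [hD1']; simp
    have e2 : |X.1| * ‖A X AZ T p‖ ≤ 3 * L + ‖AY‖ * T := by
      have e3 := ((S X AY T).norm_coe_le_norm p).trans (norm_S_le AY T)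
      have e4 := norm_sub_le (D 1 p) (S X AY T p)
      rw [← e1, norm_mul, Complex.norm_real, Real.norm_eq_abs] at e4
      rw [abs_of_pos hT0] at e3
      linarith
    refine le_of_mul_le_mul_left (e2.trans ?_) ha0
    have e5 : 1 ≤ y ^ 2 := one_le_pow₀ hy
    have e6 : y ^ 3 ≤ y ^ 4 := pow_le_pow_right₀ hy (by norm_num)
    calc 3 * L + ‖AY‖ * T ≤ (3 + ‖AY‖) * (T * y ^ 2) := by
          rw [hL]; nlinarith [mul_nonneg (norm_nonneg AY) hT0.le]
      _ ≤ |X.1| * y * (T * y ^ 2) := by gcongr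
      _ = |X.1| * (T * y ^ 3) := by ring
      _ ≤ |X.1| * (T * y ^ 4) := by gcongr
  have hcd : (3 * d + 1) * (4 * Bh / L) ≤ ε * l := by
    rw [← mul_div_assoc, div_le_iff₀ hL0]
    refine h3.trans (le_of_eq ?_)
    rw [hl, hL]; field_simp
  have hpt : ∀ p, |∫ s in (0 : ℝ)..l, f (ψ (ab * T) (rmul (0, s, T * X.1 * s) p)) *
      g (rmul (0, s, T * X.1 * s) p)| ≤ (Af * ε * l + Bg * (2 * ε * l + Af * ε * l)) +
        (2 * Af * Bg * (∫ s in (0 : ℝ)..l, b1 (rmul (0, s, T * X.1 * s) p)) +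
          Af * Bg * (∫ s in (0 : ℝ)..l, b2 (rmul (0, s, T * X.1 * s) p))) := by
    intro p
    have hγc := continuous_curve' (T * X.1) p
    have c1 : Continuous fun s : ℝ => f (ψ (ab * T) (rmul (0, s, T * X.1 * s) p)) := hfψ.comp hγc
    have c2 : Continuous fun s : ℝ => g (rmul (0, s, T * X.1 * s) p) := hg.comp hγc
    have e1 : ∫ s in (0 : ℝ)..l, f (ψ (ab * T) (rmul (0, s, T * X.1 * s) p)) *
        g (rmul (0, s, T * X.1 * s) p) =
        (∫ s in (0 : ℝ)..l, f (ψ (ab * T) (rmul (0, s, T * X.1 * s) p)) *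
          (g (rmul (0, s, T * X.1 * s) p) - g p)) +
        (∫ s in (0 : ℝ)..l, f (ψ (ab * T) (rmul (0, s, T * X.1 * s) p))) * g p := by
      rw [← intervalIntegral.integral_mul_const, ← intervalIntegral.integral_add
        (Continuous.intervalIntegrable (by fun_prop) _ _)
        (Continuous.intervalIntegrable (by fun_prop) _ _)]
      congr 1; ext s; ring
    have e2 : |∫ s in (0 : ℝ)..l, f (ψ (ab * T) (rmul (0, s, T * X.1 * s) p)) *
          (g (rmul (0, s, T * X.1 * s) p) - g p)| ≤ Af * ε * l := by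
      have := intervalIntegral.norm_integral_le_of_norm_le_const (a := 0) (b := l) (C := Af * ε)
        (f := fun s => f (ψ (ab * T) (rmul (0, s, T * X.1 * s) p)) *
          (g (rmul (0, s, T * X.1 * s) p) - g p)) fun s hs => by
          rw [uIoc_of_le hl0.le] at hs
          rw [Real.norm_eq_abs, abs_mul]
          refine mul_le_mul (hAf _) (hun _ ?_ p) (abs_nonneg _) hAf0
          have e3 : (1 + |X.1|) * (T * l) ≤ δ := by
            calc (1 + |X.1|) * (T * l) ≤ δ * y * (T * l) := by gcongr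
              _ = δ := by rw [hl]; field_simp
          have e4 : s ≤ T * l := hs.2.trans (le_mul_of_one_le_left hl0.le hT)
          have e5 : |X.1| * (T * s) ≤ |X.1| * (T * l) := by gcongr; exact hs.2
          have e6 : 0 ≤ |X.1| * (T * l) := by positivity
          have e7 : 0 ≤ T * l := by positivity
          simp only [Prod.norm_def, norm_zero, Real.norm_eq_abs, max_le_iff, abs_mul,
            abs_of_pos hT0, abs_of_pos hs.1]
          refine ⟨?_, ?_, ?_⟩ <;> nlinarith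
      rwa [sub_zero, abs_of_pos hl0] at this
    have e3 := hcb p
    rw [e1]
    refine (abs_add_le _ _).trans ?_
    rw [abs_mul]
    have e4 := mul_le_mul e3 (hBg p) (abs_nonneg _) ((abs_nonneg _).trans e3)
    have e5 := mul_le_mul_of_nonneg_right hcd hBg0
    simp only [hb1, hb2]
    nlinarith
  have hmain := integral_curve (b := fun p => f (ψ (ab * T) p) * g p) (by fun_prop) (T * X.1) l
  have i1 := integrable_of_continuous (continuous_curve_integral hb1c (T * X.1) l)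
  have i2 := integrable_of_continuous (continuous_curve_integral hb2c (T * X.1) l)
  have hfin := norm_integral_le_of_norm_le (μ := haar)
    (f := fun p => ∫ s in (0 : ℝ)..l, f (ψ (ab * T) (rmul (0, s, T * X.1 * s) p)) *
      g (rmul (0, s, T * X.1 * s) p))
    ((integrable_const (Af * ε * l + Bg * (2 * ε * l + Af * ε * l))).add
      ((i1.const_mul (2 * Af * Bg)).add (i2.const_mul (Af * Bg))))
    (Eventually.of_forall hpt)
  rw [hmain, integral_add' (integrable_const _) ((i1.const_mul _).add (i2.const_mul _)),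
    integral_add' (i1.const_mul _) (i2.const_mul _), integral_const_mul, integral_const_mul,
    integral_curve hb1c, integral_curve hb2c, integral_const, probReal_univ, one_smul,
    Real.norm_eq_abs, abs_mul, abs_of_pos hl0] at hfin
  refine le_of_mul_le_mul_left (hfin.trans ?_) hl0
  have e1 : 2 * Af * Bg * (l * ∫ p, b1 p ∂haar) ≤ 2 * Af * Bg * (l * ε) := by gcongr
  have e2 : Af * Bg * (l * ∫ p, b2 p ∂haar) ≤ Af * Bg * (l * ε) := by gcongr
  nlinarith

theorem shear (ha : X.1 ≠ 0) (hα : Continuous α) (hpos : ∀ p, 0 < α p)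
    (hψ : IsTimeChange (nilflow X) α ψ) {Ah AY AZ : CN} (hA : ∀ p, Ah p = α p) (hS : Sm Ah)
    (hD : Der Ah AY AZ) {K ab : ℝ} (hab : 0 < ab)
    (hK : ∀ T, 1 ≤ T → n2 (S X (Ah - (ab : ℂ) • (1 : CN)) T) ≤ K * √T)
    (hAC : ∀ δ : ℝ, 0 < δ → ∃ η : ℝ, 0 < η ∧ ∀ᶠ t : ℝ in atTop,
      haar.real {p | ‖A X AZ t p‖ ≤ t ^ (1 + η)} ≤ δ)
    {f h g : Nil → ℝ} (hf : Continuous f) (hh : Continuous h) (hg : Continuous g)
    (hd : ∀ p s, HasDerivAt (fun s => h (nilflow X s p))
      (f (nilflow X s p) * α (nilflow X s p)) s) :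
    Tendsto (fun t => ∫ p, f (ψ t p) * g p ∂haar) atTop (𝓝 0) := by
  obtain ⟨Af, hAf0, hAf⟩ := exists_abs_le hf
  obtain ⟨Bh, -, hBh⟩ := exists_abs_le hh
  obtain ⟨Bg, hBg0, hBg⟩ := exists_abs_le hg
  have key : ∀ ε : ℝ, 0 < ε → ε ≤ 1 → ∀ᶠ T : ℝ in atTop,
      |∫ p, f (ψ (ab * T) p) * g p ∂haar| ≤ ε * (Af + 2 * Bg + 4 * Af * Bg) := by
    intro ε hε0 hε
    obtain ⟨η, hη, hAC⟩ := hAC ε hε0
    obtain ⟨κ, hκ, hsh⟩ := shadow hα hpos hψ hA hD hf hε0
    obtain ⟨δ, hδ, hun⟩ := unif_cont hg hε0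
    obtain ⟨d, hdη⟩ := exists_nat_ge (8 / η)
    obtain ⟨C, hC⟩ := hS (d + 1)
    have hy : Tendsto (fun T : ℝ => T ^ (η / 4)) atTop atTop := tendsto_rpow_atTop (by positivity)
    have hev : ∀ c c' : ℝ, 0 < c' → ∀ᶠ T : ℝ in atTop, c ≤ c' * T ^ (η / 4) := fun c c' hc' =>
      (hy.const_mul_atTop hc').eventually_ge_atTop c
    filter_upwards [hAC, eventually_ge_atTop 1, hy.eventually_ge_atTop 1,
      hev ((1 + (|K| / ε + 1)) ^ 2) κ hκ, hev (1 + |X.1|) δ hδ,
      hev ((3 * d + 1) * (4 * Bh)) ε hε0, hev (3 + ‖AY‖) |X.1| (abs_pos.2 ha),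
      hev ((1 + 2 * |X.1|) ^ (d + 1) * C) ε hε0] with T e0 hT hy1 e1 e2 e3 e4 e5
    have hT0 : 0 < T := by linarith
    refine shear_bound ha hα hpos hψ hA hD hC hf hg hd hAf hBh hBg hT hy1 ?_ hε0.le hε
      (by positivity) (hK T hT) ?_ hsh hun e1 e2 e3 e4 e5 ?_
    · rw [← Real.rpow_natCast, ← Real.rpow_natCast, ← Real.rpow_mul hT0.le]
      refine Real.rpow_le_rpow_of_exponent_le hT ?_
      rw [div_le_iff₀ hη] at hdη
      push_cast
      linarith
    · have e7 : 0 ≤ |K| / ε := by positivity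
      rw [← sq_abs K]
      calc |K| ^ 2 = ε * (ε * (|K| / ε) ^ 2) := by field_simp
        _ ≤ ε * (1 * (|K| / ε + 1) ^ 2) := by gcongr; linarith
        _ = ε * (|K| / ε + 1) ^ 2 := by ring
    · have : T * (T ^ (η / 4)) ^ 4 = T ^ (1 + η) := by
        rw [← Real.rpow_natCast, ← Real.rpow_mul hT0.le, Real.rpow_add hT0, Real.rpow_one]
        congr 2; push_cast; ring
      rwa [this]
  have h1 : Tendsto (fun T : ℝ => ∫ p, f (ψ (ab * T) p) * g p ∂haar) atTop (𝓝 0) := by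
    rw [Metric.tendsto_nhds]
    intro ε hε
    have hc : 0 < Af + 2 * Bg + 4 * Af * Bg := by positivity
    filter_upwards [key (min 1 (ε / 2 / (Af + 2 * Bg + 4 * Af * Bg))) (by positivity)
      (min_le_left _ _)] with T hT
    rw [Real.dist_0_eq_abs]
    refine hT.trans_lt ?_
    have := (le_div_iff₀ hc).1 (min_le_right 1 (ε / 2 / (Af + 2 * Bg + 4 * Af * Bg)))
    linarith
  refine (h1.comp (tendsto_id.atTop_div_const hab)).congr fun t => ?_
  simp only [Function.comp_apply, id, mul_div_cancel₀ _ hab.ne']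

end Pool.Agent.P.MP_442888_an.Mix
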