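import Pool.Agent.P.MP_442888_an.MixBd

set_option autoImplicit false

open MeasureTheory Filter Topology Set
open scoped ComplexConjugate Real

namespace Pool.Agent.P.MP_442888_an.Mix

open scoped ContDiff

/-- The derivative along a left-invariant direction of a function with smooth lift exists in the
uniform norm and has again a smooth lift. -/
lemma exists_dir_Smooth {F : CN} (h : ContDiff ℝ ∞ (fun g : G3 => F (proj g))) (a b : ℝ) :
    ∃ D : CN, ContDiff ℝ ∞ (fun g : G3 => D (proj g)) ∧
      HasDerivAt (fun s : ℝ => R (0, s * a, s * b) F) D 0 := by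
  set f : G3 → ℂ := fun g => F (proj g) with hf
  let d : G3 → ℂ := fun g => fderiv ℝ f g (0, a, b + g.1 * a)
  have hd : ContDiff ℝ ∞ d := by
    have h1 : ContDiff ℝ ∞ (fderiv ℝ f) := h.fderiv_right (m := ∞) le_rfl
    exact h1.clm_apply (by fun_prop)
  have key : ∀ (g : G3) (s : ℝ), HasDerivAt (fun s : ℝ => f (hmul g (0, s * a, s * b)))
      (d (hmul g (0, s * a, s * b))) s := by
    intro g s
    have h1 : HasDerivAt (fun s : ℝ => hmul g (0, s * a, s * b)) (0, a, b + g.1 * a) s := by
      have ha : HasDerivAt (fun s : ℝ => s * a) a s := by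
        simpa using (hasDerivAt_id s).mul_const a
      have hb : HasDerivAt (fun s : ℝ => s * b) b s := by
        simpa using (hasDerivAt_id s).mul_const b
      exact (hasDerivAt_const s (g.1 + 0)).prodMk ((ha.const_add g.2.1).prodMk
        ((hb.const_add g.2.2).add (ha.const_mul g.1)))
    have h2 := ((h.differentiable (by simp)) (hmul g (0, s * a, s * b))).hasFDerivAt
    have h3 := h2.comp_hasDerivAt s h1
    have h4 : (hmul g (0, s * a, s * b)).1 = g.1 := by simp [hmul]
    simp only [d, h4]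
    exact h3
  let D0 : Nil → ℂ := fun p => deriv (fun s : ℝ => F (rmul (0, s * a, s * b) p)) 0
  have hD0 : ∀ g, D0 (proj g) = d g := by
    intro g
    have h1 := (key g 0).deriv
    have h2 : hmul g (0, 0 * a, 0 * b) = g := by ext <;> simp [hmul]
    rw [h2] at h1
    exact h1
  have hc : Continuous D0 := by
    rw [isQuotientMap_proj.continuous_iff]
    have : D0 ∘ proj = d := funext hD0
    rw [this]
    exact hd.continuous
  let D : CN := ⟨D0, hc⟩
  have hDp : ∀ g, D (proj g) = d g := hD0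
  have hcont : Continuous fun s : ℝ => R (0, s * a, s * b) D :=
    (continuous_R D).comp (by fun_prop)
  have hint : ∀ t : ℝ,
      R (0, t * a, t * b) F = F + ∫ s in (0 : ℝ)..t, R (0, s * a, s * b) D := by
    intro t
    ext p
    obtain ⟨g, rfl⟩ := proj_surjective p
    rw [ContinuousMap.add_apply, integral_apply' hcont]
    simp only [R_apply, rmul_proj, hDp]
    have h1 := intervalIntegral.integral_eq_sub_of_hasDerivAt (a := 0) (b := t)
      (fun s _ => key g s)
      ((hd.continuous.comp (continuous_hmul.comp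
        (continuous_const.prodMk (by fun_prop)))).intervalIntegrable 0 t)
    have h2 : hmul g (0, 0 * a, 0 * b) = g := by ext <;> simp [hmul]
    rw [h2] at h1
    rw [h1]
    simp [f]
  refine ⟨D, ?_, ?_⟩
  · have : (fun g : G3 => D (proj g)) = d := funext hDp
    rw [this]
    exact hd
  · have h1 := ((hcont.integral_hasStrictDerivAt 0 0).hasDerivAt).const_add F
    have h2 : R (0, 0 * a, 0 * b) D = D := by
      rw [zero_mul, zero_mul, R_zero']
    rw [h2] at h1
    have h3 : (fun s : ℝ => R (0, s * a, s * b) F) =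
        fun t : ℝ => F + ∫ s in (0 : ℝ)..t, R (0, s * a, s * b) D := funext hint
    rw [h3]
    exact h1

lemma exists_der_Smooth {F : CN} (h : ContDiff ℝ ∞ (fun g : G3 => F (proj g))) :
    ∃ FY FZ : CN, Der F FY FZ ∧ ContDiff ℝ ∞ (fun g : G3 => FY (proj g)) ∧
      ContDiff ℝ ∞ (fun g : G3 => FZ (proj g)) := by
  obtain ⟨FY, hY, hY'⟩ := exists_dir_Smooth h 1 0
  obtain ⟨FZ, hZ, hZ'⟩ := exists_dir_Smooth h 0 1
  simp only [mul_one, mul_zero] at hY' hZ'
  exact ⟨FY, FZ, ⟨hY', hZ'⟩, hY, hZ⟩

lemma bd_eventually_Smooth (n : ℕ) : ∀ {F : CN}, ContDiff ℝ ∞ (fun g : G3 => F (proj g)) →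
    ∃ C₀ : ℝ, ∀ C, C₀ ≤ C → Bd 1 n F C := by
  induction n with
  | zero => exact fun {F} _ => ⟨‖F‖, fun C hC => hC⟩
  | succ n ih =>
    intro F h
    obtain ⟨FY, FZ, hD, hY, hZ⟩ := exists_der_Smooth h
    obtain ⟨CY, hCY⟩ := ih hY
    obtain ⟨CZ, hCZ⟩ := ih hZ
    refine ⟨max ‖F‖ (max CY CZ), fun C hC => ?_⟩
    rw [max_le_iff, max_le_iff] at hC
    exact ⟨hC.1, FY, FZ, hD, hCY _ (by rw [one_mul]; exact hC.2.1), hCZ _ hC.2.2⟩

/-- A function with smooth lift has bounded derivatives of all orders. -/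
theorem sm_of_contDiff {F : CN} (h : ContDiff ℝ ∞ (fun g : G3 => F (proj g))) : Sm F := by
  intro n
  obtain ⟨C, hC⟩ := bd_eventually_Smooth n h
  exact ⟨C, hC C le_rfl⟩

theorem exists_sm {α : Nil → ℝ} (h : ContDiff ℝ ∞ (α ∘ proj)) :
    Continuous α ∧ ∃ Ah : CN, (∀ p, Ah p = α p) ∧ Sm Ah := by
  have hc : Continuous α := by
    rw [isQuotientMap_proj.continuous_iff]
    exact h.continuous
  refine ⟨hc, ⟨fun p => (α p : ℂ), Complex.continuous_ofReal.comp hc⟩, fun _ => rfl,
    sm_of_contDiff ?_⟩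
  exact Complex.ofRealCLM.contDiff.comp h

end Pool.Agent.P.MP_442888_an.Mix
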