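import Pool.Agent.P.MP_442888_an.MixSigma
import Pool.Agent.P.MP_442888_an.MixSets
import Pool.Agent.P.MP_442888_an.MixReduce
import Pool.Agent.P.MP_442888_an.MixShear
import Pool.Agent.P.MP_442888_an.MixAC
import Pool.Agent.P.MP_442888_an.MixSmooth

set_option autoImplicit false

open MeasureTheory Filter Topology Set
open scoped ComplexConjugate Real

namespace Pool.Agent.P.MP_442888_an.Mix

open scoped ContDiff

theorem mixing_of_dio {X : G3} (hX : Dio X) {α : Nil → ℝ} (hs : ContDiff ℝ ∞ (α ∘ proj))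
    (hpos : ∀ p, 0 < α p) (hnt : ¬MeasurablyTrivial (nilflow X) haar α) {ψ : ℝ → Nil → Nil}
    (hψ : IsTimeChange (nilflow X) α ψ) : Mixing ψ (timeChangeMeasure α haar) := by
  obtain ⟨hα, Ah, hA, hS⟩ := exists_sm hs
  obtain ⟨AY, AZ, hD, -, hZ⟩ := hS.der
  obtain ⟨σ, K, hσ, hv⟩ := sigma_pos hX hα hA hS hD hnt
  obtain ⟨K', hK'⟩ := clock_dev hX hA hS
  obtain ⟨C, hC⟩ := hZ 5
  refine mixing_of_cont hα hpos hψ fun f g hf hg h0 => reduce_cob hX.irr hα hpos hψ ?_ hf hg h0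
  intro f h g hf hh hg hd
  exact shear hX.irr.ne hα hpos hψ hA hS hD (integral_pos hα hpos) hK'
    (fun δ hδ => anti_conc hX hC hD.Av_Z hσ hv hδ) hf hh hg hd

end Pool.Agent.P.MP_442888_an.Mix
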