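import Pool.Agent.P.MP_442888_an.MixTime
import Pool.Agent.P.MP_442888_an.MixBd

set_option autoImplicit false

open MeasureTheory Filter Topology Set
open scoped ComplexConjugate Real

namespace Pool.Agent.P.MP_442888_an.Mix

variable {X : G3} {α : Nil → ℝ} {ψ : ℝ → Nil → Nil}

lemma hexp_small_shadow (X : G3) {δ : ℝ} (hδ : 0 < δ) :
    ∃ η : ℝ, 0 < η ∧ ∀ e : ℝ, |e| ≤ η → ‖hexp X e‖ ≤ δ := by
  have h := (continuous_hexp X).continuousAt (x := 0)
  rw [Metric.continuousAt_iff] at h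
  obtain ⟨η, hη, h⟩ := h δ hδ
  refine ⟨η / 2, by positivity, fun e he => ?_⟩
  have h1 : dist e 0 < η := by rw [dist_zero_right, Real.norm_eq_abs]; linarith
  have h2 := h h1
  rw [hexp_zero, dist_zero_right] at h2
  exact h2.le

lemma clock_diff_shadow {Ah AY AZ : CN} (hA : ∀ p, Ah p = α p) (hD : Der Ah AY AZ) :
    ∃ C : ℝ, 0 ≤ C ∧ ∀ (Q : Nil) (s σ : ℝ),
      |clock X α (rmul (0, s, 0) Q) σ - clock X α Q σ| ≤ |s| * ((1 + |X.1| * |σ|) * (C * |σ|)) := by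
  set C : ℝ := ‖Ah‖ + ‖AY‖ + ‖AZ‖ with hC
  have h1 := norm_nonneg Ah
  have h2 := norm_nonneg AY
  have h3 := norm_nonneg AZ
  have hB : Bd 1 1 Ah C := by
    refine ⟨by linarith, AY, AZ, hD, ?_, ?_⟩
    · show ‖AY‖ ≤ 1 * C
      linarith
    · show ‖AZ‖ ≤ C
      linarith
  refine ⟨C, by linarith, fun Q s σ => ?_⟩
  obtain ⟨-, FY, FZ, hF, hY, -⟩ := hB.S (X := X) σ
  have hY' : ‖FY‖ ≤ (1 + |X.1| * |σ|) * (C * |σ|) := hY
  have h4 := hF.lip s 0
  have h5 := (R (0, s, 0) (S X Ah σ) - S X Ah σ).norm_coe_le_norm Q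
  rw [ContinuousMap.sub_apply, R_apply, S_eq_clock hA, S_eq_clock hA, ← Complex.ofReal_sub,
    Complex.norm_real, Real.norm_eq_abs] at h5
  have h6 : |s| * ‖FY‖ ≤ |s| * ((1 + |X.1| * |σ|) * (C * |σ|)) :=
    mul_le_mul_of_nonneg_left hY' (abs_nonneg s)
  simp only [abs_zero, zero_mul, add_zero] at h4
  linarith

/-- Two close points on a curve in the second direction stay close under the time change. -/
theorem shadow (hα : Continuous α) (hpos : ∀ p, 0 < α p) (hψ : IsTimeChange (nilflow X) α ψ)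
    {Ah AY AZ : CN} (hA : ∀ p, Ah p = α p) (hD : Der Ah AY AZ) {f : Nil → ℝ} (hf : Continuous f)
    {ε : ℝ} (hε : 0 < ε) : ∃ κ : ℝ, 0 < κ ∧ ∀ (Q : Nil) (s ρ : ℝ), |s| * (1 + |ρ|) ^ 2 ≤ κ →
      |f (ψ ρ (rmul (0, s, 0) Q)) - f (ψ ρ Q)| ≤ ε := by
  obtain ⟨α0, α1, h0, hb⟩ := exists_bounds hα hpos
  obtain ⟨δ, hδ, hu⟩ := unif_cont hf (half_pos hε)
  obtain ⟨η, hη, hη'⟩ := hexp_small_shadow X hδ
  obtain ⟨C, hC, hcl⟩ := clock_diff_shadow (X := X) hA hD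
  set M : ℝ := α0⁻¹ with hM
  have hM0 : 0 < M := inv_pos.2 h0
  have hinv : ∀ (p : Nil) (t : ℝ), |t| ≤ M * |clock X α p t| := fun p t => by
    have := abs_le_clock (X := X) hα h0 (fun p => (hb p).1) p t
    rw [hM, ← div_eq_inv_mul, le_div_iff₀ h0]
    linarith
  set a : ℝ := |X.1| with ha
  have ha0 : 0 ≤ a := abs_nonneg _
  set K1 : ℝ := 1 + a * M with hK1
  have hK10 : 1 ≤ K1 := by have := mul_nonneg ha0 hM0.le; linarith
  set K2 : ℝ := M * (K1 * (C * M)) + 1 with hK2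
  have hK20 : 0 < K2 := by positivity
  refine ⟨min (δ / K1) (η / K2), lt_min (by positivity) (by positivity), fun Q s ρ hκ => ?_⟩
  set u : ℝ := 1 + |ρ| with hu'
  have hu1 : 1 ≤ u := by have := abs_nonneg ρ; linarith
  have hs0 := abs_nonneg s
  have hκ1 : |s| * u ^ 2 * K1 ≤ δ := (le_div_iff₀ (by positivity)).1 (hκ.trans (min_le_left _ _))
  have hκ2 : |s| * u ^ 2 * K2 ≤ η := (le_div_iff₀ hK20).1 (hκ.trans (min_le_right _ _))
  obtain ⟨σ, hσ1, hσ2⟩ := psi_spec hα hpos hψ ρ (rmul (0, s, 0) Q)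
  have hσ : |σ| ≤ M * u := by
    have h1 := hinv (rmul (0, s, 0) Q) σ
    rw [hσ2] at h1
    have : M * |ρ| ≤ M * u := mul_le_mul_of_nonneg_left (by linarith) hM0.le
    linarith
  set e : ℝ := ρ - clock X α Q σ with he
  obtain ⟨e', he1, he2⟩ := psi_spec hα hpos hψ e (nilflow X σ Q)
  have hQ : ψ ρ Q = rmul (hexp X e') (nilflow X σ Q) := by
    have h1 : ρ = clock X α Q σ + e := by rw [he]; ring
    conv_lhs => rw [h1]
    rw [psi_add hα hpos hψ, psi_clock hα hpos hψ, he1]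
    rfl
  have hQ' : ψ ρ (rmul (0, s, 0) Q) = rmul (0, s, 0 - σ * X.1 * s) (nilflow X σ Q) := by
    rw [hσ1, nilflow_rmul]
  have hsu : |s| * u ≤ |s| * u ^ 2 := mul_le_mul_of_nonneg_left (by nlinarith) hs0
  have hs1 : |s| ≤ |s| * u ^ 2 := by nlinarith
  have hsu0 : 0 ≤ |s| * u ^ 2 := by positivity
  have hg1 : ‖((0, s, 0 - σ * X.1 * s) : G3)‖ ≤ δ := by
    have h1 : |s| ≤ δ := by nlinarith
    have h2 : |0 - σ * X.1 * s| ≤ δ := by
      rw [zero_sub, abs_neg, abs_mul, abs_mul, ← ha]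
      have h3 : |σ| * a * |s| ≤ M * u * a * |s| := by gcongr
      have h4 : M * u * a * |s| = a * M * (|s| * u) := by ring
      have h5 : a * M * (|s| * u) ≤ a * M * (|s| * u ^ 2) := by gcongr
      nlinarith
    simp only [Prod.norm_def, Real.norm_eq_abs, abs_zero]
    exact max_le hδ.le (max_le h1 h2)
  have hg2 : ‖hexp X e'‖ ≤ δ := by
    refine hη' e' ?_
    have h1 := hinv (nilflow X σ Q) e'
    rw [he2] at h1
    have h2 := hcl Q s σ
    rw [hσ2, ← he] at h2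
    have h3 : 1 + a * |σ| ≤ K1 * u := by
      have : a * |σ| ≤ a * (M * u) := by gcongr
      rw [hK1]; nlinarith
    have h4 : |s| * ((1 + a * |σ|) * (C * |σ|)) ≤ |s| * ((K1 * u) * (C * (M * u))) := by
      gcongr
    have h5 : M * |e| ≤ M * (|s| * ((K1 * u) * (C * (M * u)))) :=
      mul_le_mul_of_nonneg_left (h2.trans h4) hM0.le
    have h6 : M * (|s| * ((K1 * u) * (C * (M * u)))) = |s| * u ^ 2 * (K2 - 1) := by
      rw [hK2]; ring
    nlinarith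
  have h1 := hu _ hg1 (nilflow X σ Q)
  have h2 := hu _ hg2 (nilflow X σ Q)
  rw [hQ, hQ']
  rw [abs_le] at h1 h2 ⊢
  constructor <;> linarith [h1.1, h1.2, h2.1, h2.2]

end Pool.Agent.P.MP_442888_an.Mix
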