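import Pool.Agent.P.MP_442888_an.MixDefs

set_option autoImplicit false

open MeasureTheory Filter Topology Set
open scoped ComplexConjugate Real

namespace Pool.Agent.P.MP_442888_an.Mix

variable {X : G3} {α : Nil → ℝ} {ψ : ℝ → Nil → Nil}

lemma exists_bounds (hα : Continuous α) (hpos : ∀ p, 0 < α p) :
    ∃ α0 α1 : ℝ, 0 < α0 ∧ ∀ p, α0 ≤ α p ∧ α p ≤ α1 := by
  have hne : (univ : Set Nil).Nonempty := ⟨proj 0, mem_univ _⟩
  obtain ⟨p0, -, h0⟩ := isCompact_univ.exists_isMinOn hne hα.continuousOn
  obtain ⟨p1, -, h1⟩ := isCompact_univ.exists_isMaxOn hne hα.continuousOn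
  exact ⟨α p0, α p1, hpos p0, fun p => ⟨h0 (mem_univ p), h1 (mem_univ p)⟩⟩

lemma exists_abs_le {f : Nil → ℝ} (hf : Continuous f) : ∃ B : ℝ, 0 < B ∧ ∀ p, |f p| ≤ B := by
  obtain ⟨a, b, -, h⟩ := exists_bounds (α := fun p => |f p| + 1) (by fun_prop)
    (fun p => by positivity)
  refine ⟨b, ?_, fun p => ?_⟩
  · have := (h (proj 0)).2
    have h2 := abs_nonneg (f (proj 0))
    linarith
  · have := (h p).2
    linarith

lemma unif_cont {f : Nil → ℝ} (hf : Continuous f) {ε : ℝ} (hε : 0 < ε) :
    ∃ δ : ℝ, 0 < δ ∧ ∀ g : G3, ‖g‖ ≤ δ → ∀ p, |f (rmul g p) - f p| ≤ ε := by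
  let F : CN := ⟨fun p => (f p : ℂ), by fun_prop⟩
  have hc := (continuous_R F).continuousAt (x := 0)
  obtain ⟨δ, hδ, h⟩ := Metric.continuousAt_iff.1 hc ε hε
  refine ⟨δ / 2, by positivity, fun g hg p => ?_⟩
  have h1 : dist (R g F) (R 0 F) < ε := h (by rw [dist_zero_right]; linarith)
  rw [R_zero, dist_eq_norm] at h1
  have h2 := (R g F - F).norm_coe_le_norm p
  have h3 : (R g F - F) p = ((f (rmul g p) - f p : ℝ) : ℂ) := by
    simp [F]
  rw [h3, Complex.norm_real, Real.norm_eq_abs] at h2
  linarith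

lemma continuous_orbit_time (hα : Continuous α) (p : Nil) :
    Continuous fun s => α (nilflow X s p) :=
  hα.comp ((continuous_nilflow₂ X).comp (continuous_id.prodMk continuous_const))

lemma clock_hasDerivAt (hα : Continuous α) (p : Nil) (t : ℝ) :
    HasDerivAt (clock X α p) (α (nilflow X t p)) t :=
  ((continuous_orbit_time hα p).integral_hasStrictDerivAt 0 t).hasDerivAt

lemma clock_zero_time (p : Nil) : clock X α p 0 = 0 := by simp [clock]

lemma continuous_clock (hα : Continuous α) : Continuous fun x : Nil × ℝ => clock X α x.1 x.2 := by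
  have h : Continuous (Function.uncurry fun (p : Nil) (s : ℝ) => α (nilflow X s p)) :=
    hα.comp ((continuous_nilflow₂ X).comp (continuous_snd.prodMk continuous_fst))
  exact intervalIntegral.continuous_parametric_primitive_of_continuous h

lemma clock_add (hα : Continuous α) (p : Nil) (s t : ℝ) :
    clock X α p (s + t) = clock X α p s + clock X α (nilflow X s p) t := by
  simp only [clock, ← nilflow_add]
  rw [intervalIntegral.integral_comp_add_left (fun v => α (nilflow X v p)) s, add_zero,
    intervalIntegral.integral_add_adjacent_intervals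
      ((continuous_orbit_time hα p).intervalIntegrable _ _)
      ((continuous_orbit_time hα p).intervalIntegrable _ _)]

lemma monotone_clock_sub_time (hα : Continuous α) {α0 : ℝ} (h : ∀ p, α0 ≤ α p) (p : Nil) :
    Monotone fun t => clock X α p t - α0 * t :=
  monotone_of_hasDerivAt_nonneg
    (fun t => (clock_hasDerivAt hα p t).sub ((hasDerivAt_id t).const_mul α0))
    (fun t => by
      have := h (nilflow X t p)
      simp only [Pi.zero_apply, mul_one]
      linarith)

lemma abs_le_clock (hα : Continuous α) {α0 : ℝ} (h0 : 0 < α0) (h : ∀ p, α0 ≤ α p) (p : Nil)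
    (t : ℝ) : α0 * |t| ≤ |clock X α p t| := by
  have h1 := monotone_clock_sub_time (X := X) hα h p
  rcases le_total 0 t with ht | ht
  · have := h1 ht
    simp only [clock_zero_time] at this
    rw [abs_of_nonneg ht]
    have h2 := le_abs_self (clock X α p t)
    linarith
  · have := h1 ht
    simp only [clock_zero_time] at this
    rw [abs_of_nonpos ht]
    have h2 := neg_le_abs (clock X α p t)
    have h3 := h0.le
    linarith

lemma S_eq_clock {Ah : CN} (hA : ∀ p, Ah p = α p) (p : Nil) (t : ℝ) :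
    S X Ah t p = clock X α p t := by
  rw [S_apply, clock, ← intervalIntegral.integral_ofReal]
  simp only [hA]

lemma strictMono_clock_time (hα : Continuous α) (hpos : ∀ p, 0 < α p) (p : Nil) :
    StrictMono (clock X α p) :=
  strictMono_of_hasDerivAt_pos (clock_hasDerivAt hα p) (fun _ => hpos _)

lemma surjective_clock_time (hα : Continuous α) (hpos : ∀ p, 0 < α p) (p : Nil) :
    Function.Surjective (clock X α p) := by
  obtain ⟨ε, α1, hε, hb⟩ := exists_bounds hα hpos
  have h1 := monotone_clock_sub_time (X := X) hα (fun p => (hb p).1) p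
  have hc' : Continuous (clock X α p) :=
    continuous_iff_continuousAt.2 fun t => (clock_hasDerivAt hα p t).continuousAt
  refine hc'.surjective ?_ ?_
  · refine tendsto_atTop_mono' atTop ?_ (tendsto_id.const_mul_atTop hε)
    filter_upwards [eventually_ge_atTop 0] with t ht
    have := h1 ht
    simp only [clock_zero_time, id] at this ⊢
    linarith
  · refine tendsto_atBot_mono' atBot ?_ (tendsto_id.const_mul_atBot hε)
    filter_upwards [eventually_le_atBot 0] with t ht
    have := h1 ht
    simp only [clock_zero_time, id] at this ⊢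
    linarith

theorem exists_timeChange (hα : Continuous α) (hpos : ∀ p, 0 < α p) :
    ∃ ψ, IsTimeChange (nilflow X) α ψ := by
  let e : Nil → ℝ ≃o ℝ := fun m =>
    (strictMono_clock_time (X := X) hα hpos m).orderIsoOfSurjective _
      (surjective_clock_time hα hpos m)
  have he : ∀ m τ, clock X α m ((e m).symm τ) = τ := fun m τ => (e m).apply_symm_apply τ
  refine ⟨fun τ m => nilflow X ((e m).symm τ) m, fun τ m => (e m).symm τ, fun _ _ => rfl,
    fun m => ?_, fun τ m => ?_⟩
  · apply (strictMono_clock_time (X := X) hα hpos m).injective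
    rw [he, clock_zero_time]
  · exact HasDerivAt.of_local_left_inverse (e m).symm.continuous.continuousAt
      (clock_hasDerivAt hα m _) (hpos _).ne' (Eventually.of_forall (he m))

lemma clock_h_time (hα : Continuous α) (hpos : ∀ p, 0 < α p) {h : ℝ → Nil → ℝ}
    (h1 : ∀ τ p, ψ τ p = nilflow X (h τ p) p) (h2 : ∀ p, h 0 p = 0)
    (h3 : ∀ τ p, HasDerivAt (fun σ => h σ p) (α (ψ τ p))⁻¹ τ) (τ : ℝ) (m : Nil) :
    clock X α m (h τ m) = τ := by
  have hd : ∀ σ, HasDerivAt (fun σ => clock X α m (h σ m) - σ) 0 σ := fun σ => by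
    have a := ((clock_hasDerivAt (X := X) hα m (h σ m)).comp σ (h3 σ m)).sub (hasDerivAt_id σ)
    rw [← h1, mul_inv_cancel₀ (hpos (ψ σ m)).ne', sub_self] at a
    exact a
  have := is_const_of_deriv_eq_zero (fun σ => (hd σ).differentiableAt) (fun σ => (hd σ).deriv) τ 0
  simp only [h2, clock_zero_time, sub_zero] at this
  linarith

section
variable (hα : Continuous α) (hpos : ∀ p, 0 < α p) (hψ : IsTimeChange (nilflow X) α ψ)
include hα hpos hψ

lemma psi_spec (τ : ℝ) (p : Nil) : ∃ t, ψ τ p = nilflow X t p ∧ clock X α p t = τ := by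
  obtain ⟨h, h1, h2, h3⟩ := hψ
  exact ⟨h τ p, h1 τ p, clock_h_time hα hpos h1 h2 h3 τ p⟩

lemma psi_clock (p : Nil) (t : ℝ) : ψ (clock X α p t) p = nilflow X t p := by
  obtain ⟨s, h1, h2⟩ := psi_spec hα hpos hψ (clock X α p t) p
  rw [h1, (strictMono_clock_time (X := X) hα hpos p).injective h2]

lemma psi_zero (p : Nil) : ψ 0 p = p := by
  have := psi_clock hα hpos hψ p 0
  rwa [clock_zero_time, nilflow_zero] at this

lemma psi_add (σ τ : ℝ) (p : Nil) : ψ (σ + τ) p = ψ τ (ψ σ p) := by
  obtain ⟨s, h1, h2⟩ := psi_spec hα hpos hψ σ p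
  obtain ⟨t, h3, h4⟩ := psi_spec hα hpos hψ τ (ψ σ p)
  rw [h3, h1, ← nilflow_add, ← psi_clock hα hpos hψ, clock_add hα, h2, ← h1, h4]

lemma continuous_psi : Continuous fun x : ℝ × Nil => ψ x.1 x.2 := by
  obtain ⟨h, h1, h2, h3⟩ := hψ
  obtain ⟨α0, α1, h0, hb⟩ := exists_bounds hα hpos
  have hk := clock_h_time hα hpos h1 h2 h3
  have hc : Continuous fun x : ℝ × Nil => h x.1 x.2 := by
    refine continuous_iff_continuousAt.2 fun x0 => ?_
    rw [ContinuousAt, tendsto_iff_dist_tendsto_zero]
    have hB : Continuous fun x : ℝ × Nil => |x.1 - clock X α x.2 (h x0.1 x0.2)| / α0 :=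
      (continuous_fst.sub ((continuous_clock hα).comp
        (continuous_snd.prodMk continuous_const))).abs.div_const _
    have hT := hB.tendsto x0
    simp only [hk, sub_self, abs_zero, zero_div] at hT
    refine squeeze_zero (fun _ => dist_nonneg) (fun x => ?_) hT
    rw [le_div_iff₀ h0, Real.dist_eq, mul_comm]
    have a := abs_le_clock (X := X) hα h0 (fun p => (hb p).1) (nilflow X (h x0.1 x0.2) x.2)
      (h x.1 x.2 - h x0.1 x0.2)
    have b := clock_add (X := X) hα x.2 (h x0.1 x0.2) (h x.1 x.2 - h x0.1 x0.2)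
    rw [add_sub_cancel, hk] at b
    rwa [← sub_eq_iff_eq_add'.2 b] at a
  simp only [h1]
  exact (continuous_nilflow₂ X).comp (hc.prodMk continuous_snd)

lemma psi_deriv {f h : Nil → ℝ} (hh : ∀ p s, HasDerivAt (fun s => h (nilflow X s p))
    (f (nilflow X s p) * α (nilflow X s p)) s) (p : Nil) (τ : ℝ) :
    HasDerivAt (fun τ => h (ψ τ p)) (f (ψ τ p)) τ := by
  have _h := hα
  obtain ⟨k, h1, h2, h3⟩ := hψ
  have a := (hh p (k τ p)).comp τ (h3 τ p)
  rw [← h1, mul_assoc, mul_inv_cancel₀ (hpos _).ne', mul_one] at a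
  have e : (fun τ => h (ψ τ p)) = (fun s => h (nilflow X s p)) ∘ fun σ => k σ p := by
    ext σ
    simp only [Function.comp_apply, h1]
  rw [e]
  exact a

end

end Pool.Agent.P.MP_442888_an.Mix
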