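import Pool.Agent.P.MP_442888_an.MixErg
import Pool.Agent.P.MP_442888_an.MixCob
import Pool.Agent.P.MP_442888_an.MixTime

set_option autoImplicit false

open MeasureTheory Filter Topology Set
open scoped ComplexConjugate Real

namespace Pool.Agent.P.MP_442888_an.Mix

variable {X : G3} {α : Nil → ℝ} {Ah AY AZ : CN}

/-- Bounded ergodic integrals of a real function minus a constant give measurable triviality. -/
theorem trivial_of_bdd (hα : Continuous α) (hA : ∀ p, Ah p = α p) {c K : ℝ}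
    (h : ∀ T, 0 ≤ T → n2 (S X (Ah - (c : ℂ) • (1 : CN)) T) ≤ K) :
    MeasurablyTrivial (nilflow X) haar α := by
  have _ := hα
  obtain ⟨u, hu, h1⟩ := coboundary h
  refine ⟨c, fun p => (u p).re, (Complex.measurable_re.comp hu).aemeasurable, fun t => ?_⟩
  filter_upwards [h1 t] with p hp
  rw [← Complex.sub_re, hp, S_apply]
  have h2 : ∀ v, (Ah - (c : ℂ) • (1 : CN)) (nilflow X v p) =
      ((α (nilflow X v p) - c : ℝ) : ℂ) := fun v => by simp [hA]
  simp only [h2]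
  rw [intervalIntegral.integral_ofReal, Complex.ofReal_re]

lemma toral_part_sigma (hX : Dio X) (hA : ∀ p, Ah p = α p) (hS : Sm Ah) : ∃ K : ℝ, ∀ T,
    n2 (S X (Ah - ((∫ p, α p ∂haar : ℝ) : ℂ) • (1 : CN)) T) ≤ n2 (S X (Ah - Av Ah) T) + K := by
  have h1 : E (1 : CN) = 1 := by simp [E_apply]
  have h2 : E Ah = ((∫ p, α p ∂haar : ℝ) : ℂ) := by
    rw [E_apply]
    simp only [hA]
    exact integral_complex_ofReal
  obtain ⟨K, hK⟩ := toral_bdd (G := Av Ah - ((∫ p, α p ∂haar : ℝ) : ℂ) • (1 : CN)) hX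
    (hS.Av.sub (sm_one.smul _)) ((toral_Av Ah).sub (toral_one.smul _))
    (by rw [map_sub, map_smul, E_Av, h1, h2]; simp)
  refine ⟨K, fun T => ?_⟩
  rw [show Ah - ((∫ p, α p ∂haar : ℝ) : ℂ) • (1 : CN) =
    (Ah - Av Ah) + (Av Ah - ((∫ p, α p ∂haar : ℝ) : ℂ) • (1 : CN)) by abel, S_add]
  exact (n2_add_le _ _).trans (add_le_add le_rfl (hK T))

/-- A non-trivial function has positive asymptotic variance in the central direction. -/
theorem sigma_pos (hX : Dio X) (hα : Continuous α) (hA : ∀ p, Ah p = α p) (hS : Sm Ah)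
    (hD : Der Ah AY AZ) (hnt : ¬MeasurablyTrivial (nilflow X) haar α) :
    ∃ σ K : ℝ, 0 < σ ∧ ∀ T, 0 ≤ T → |n2 (S X AZ T) ^ 2 - σ * T| ≤ K := by
  obtain ⟨C, hC⟩ := (hS.of_der hD).2 3
  obtain ⟨σ, K, h⟩ := variance hX.irr.ne hC hD.Av_Z
  refine ⟨σ, K, ?_, h⟩
  by_contra hσ
  obtain ⟨K', hK'⟩ := toral_part_sigma hX hA hS
  refine hnt (trivial_of_bdd hα hA (K := √K + K') fun T hT => (hK' T).trans ?_)
  rw [← hD.Pr_Z, S_Pr]
  refine add_le_add ((n2_Pr_le _).trans (Real.le_sqrt_of_sq_le ?_)) le_rfl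
  have h1 := (abs_le.1 (h T hT)).2
  have h2 : σ * T ≤ 0 := mul_nonpos_of_nonpos_of_nonneg (not_lt.1 hσ) hT
  linarith

theorem clock_dev (hX : Dio X) (hA : ∀ p, Ah p = α p) (hS : Sm Ah) : ∃ K : ℝ, ∀ T, 1 ≤ T →
    n2 (S X (Ah - ((∫ p, α p ∂haar : ℝ) : ℂ) • (1 : CN)) T) ≤ K * √T := by
  obtain ⟨C, hC⟩ := (hS.sub hS.Av) 3
  obtain ⟨σ, K, h⟩ := variance hX.irr.ne hC (by rw [map_sub, Av_Av, sub_self])
  obtain ⟨K', hK'⟩ := toral_part_sigma hX hA hS
  refine ⟨√(|σ| + |K|) + |K'|, fun T hT => (hK' T).trans ?_⟩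
  have h0 : 1 ≤ √T := Real.one_le_sqrt.2 hT
  rw [add_mul, ← Real.sqrt_mul (by positivity)]
  refine add_le_add (Real.le_sqrt_of_sq_le ?_) ?_
  · have h1 := (abs_le.1 (h T (by linarith))).2
    have h2 : σ * T ≤ |σ| * T := mul_le_mul_of_nonneg_right (le_abs_self σ) (by linarith)
    have h3 : K ≤ |K| * T := (le_abs_self K).trans (le_mul_of_one_le_right (abs_nonneg K) hT)
    linarith
  · exact (le_abs_self K').trans (le_mul_of_one_le_right (abs_nonneg K') h0)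

end Pool.Agent.P.MP_442888_an.Mix
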