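import Pool.Agent.P.MP_442888_an.MixDefs

set_option autoImplicit false

open MeasureTheory Filter Topology Set
open scoped ComplexConjugate Real

namespace Pool.Agent.P.MP_442888_an.Mix

/-- With probability at least `c'`, a small central translation changes the clock by an amount
of any prescribed order. -/
def Spread (X : G3) (α : Nil → ℝ) : Prop :=
  ∃ c K c' : ℝ, 0 < c ∧ 0 < c' ∧ ∀ η z₀ : ℝ, 0 < η → 0 < z₀ → ∃ s z : ℝ, |z| ≤ z₀ ∧
    c' ≤ haar.real {p | c * η ≤ |clock X α (rmul (0, 0, z) p) s - clock X α p s| ∧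
      |clock X α (rmul (0, 0, z) p) s - clock X α p s| ≤ K * η}

/-- A continuous one-parameter group of linear isometries. -/
structure IsoFlow {H : Type} [NormedAddCommGroup H] [InnerProductSpace ℝ H]
    (V : ℝ → H →ₗᵢ[ℝ] H) : Prop where
  zero : ∀ x, V 0 x = x
  add : ∀ s t x, V (s + t) x = V s (V t x)
  cont : Continuous fun y : ℝ × H => V y.1 y.2

end Pool.Agent.P.MP_442888_an.Mix
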