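import Pool.Agent.P.MP_442888_an.MixErg
import Pool.Agent.P.MP_442888_an.MixInv

set_option autoImplicit false

open MeasureTheory Filter Topology Set
open scoped ComplexConjugate Real

namespace Pool.Agent.P.MP_442888_an.Mix

variable {X : G3} {α : Nil → ℝ} {ψ : ℝ → Nil → Nil}

lemma ee_half_wk : ee (1 / 2) = -1 := by
  rw [ee, ← Complex.exp_pi_mul_I]
  congr 1
  push_cast
  ring

lemma E_chi_wk {k : ℤ × ℤ} (hk : k ≠ 0) : E (chi k) = 0 := by
  have hpos : (0 : ℝ) < (k.1 : ℝ) ^ 2 + (k.2 : ℝ) ^ 2 := by
    by_contra hn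
    have h1 : (k.1 : ℝ) = 0 := by nlinarith [sq_nonneg (k.1 : ℝ), sq_nonneg (k.2 : ℝ)]
    have h2 : (k.2 : ℝ) = 0 := by nlinarith [sq_nonneg (k.1 : ℝ), sq_nonneg (k.2 : ℝ)]
    exact hk (Prod.ext (by exact_mod_cast h1) (by exact_mod_cast h2))
  set N : ℝ := (k.1 : ℝ) ^ 2 + (k.2 : ℝ) ^ 2 with hN
  have h := E_R ((k.1 : ℝ) / (2 * N), (k.2 : ℝ) / (2 * N), 0) (chi k)
  rw [R_chi] at h
  have e : (k.1 : ℝ) * ((k.1 : ℝ) / (2 * N)) + (k.2 : ℝ) * ((k.2 : ℝ) / (2 * N)) = 1 / 2 := by
    field_simp
    rw [hN]
  simp only at h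
  rw [e, ee_half_wk, map_smul, smul_eq_mul] at h
  linear_combination (-1 / 2 : ℂ) * h

lemma integral_re_chi_wk {k : ℤ × ℤ} (hk : k ≠ 0) : ∫ p, (chi k p).re ∂haar = 0 := by
  have h := E_chi_wk hk
  rw [E_apply] at h
  have h2 := integral_re (𝕜 := ℂ) (μ := haar) (integrable_of_continuous (chi k).continuous)
  rw [h] at h2
  simpa using h2

lemma re_chi_sq_wk (k : ℤ × ℤ) (p : Nil) :
    (chi k p).re * (chi k p).re = (1 + (chi (k + k) p).re) / 2 := by
  have h1 := norm_chi_apply k p
  have h2 : chi (k + k) p = chi k p * chi k p := by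
    obtain ⟨g, rfl⟩ := proj_surjective p
    rw [chi_proj, chi_proj, ← ee_add]
    congr 1
    simp only [Prod.fst_add, Prod.snd_add]
    push_cast
    ring
  have h3 : (chi k p).re * (chi k p).re + (chi k p).im * (chi k p).im = 1 := by
    rw [← Complex.normSq_apply, Complex.normSq_eq_norm_sq, h1, one_pow]
  rw [h2, Complex.mul_re]
  linarith

lemma integral_comp_flow_wk {f : Nil → ℝ} (hf : Continuous f) (t : ℝ) :
    ∫ p, f (nilflow X t p) ∂haar = ∫ p, f p ∂haar := by
  have := integral_map (μ := haar) (measurePreserving_nilflow X t).measurable.aemeasurable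
    (f := f) hf.aestronglyMeasurable
  rw [(measurePreserving_nilflow X t).map_eq] at this
  exact this.symm

theorem irr_of_ue (h : UniquelyErgodic (nilflow X) haar) : Irr X := by
  intro k hk h0
  have hf : Continuous fun p => (chi k p).re := Complex.continuous_re.comp (chi k).continuous
  set a : Nil → ℝ := fun p => 2 + (chi k p).re with ha
  have hac : Continuous a := continuous_const.add hf
  have hpos : ∀ p, 0 < a p := fun p => by
    have h1 := Complex.abs_re_le_norm (chi k p)
    rw [norm_chi_apply] at h1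
    have h2 := neg_abs_le (chi k p).re
    simp only [ha]
    linarith
  have hinv : ∀ t p, a (nilflow X t p) = a p := fun t p => by
    have h1 : chi k (nilflow X t p) = chi k p := by
      rw [← U_apply, U_chi, h0, zero_mul, ee_zero, one_smul]
    simp only [ha, h1]
  have hprob := isProb_tc hac hpos
  have hmp : ∀ t, MeasurePreserving (nilflow X t) (timeChangeMeasure a haar)
      (timeChangeMeasure a haar) := fun t => by
    have hc : Continuous (nilflow X t) :=
      (continuous_nilflow₂ X).comp (continuous_const.prodMk continuous_id)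
    refine ⟨hc.measurable, ?_⟩
    have : TopologicalSpace.MetrizableSpace Nil := inferInstance
    refine ext_of_forall_integral_eq_of_IsFiniteMeasure fun f => ?_
    rw [integral_map hc.measurable.aemeasurable f.continuous.aestronglyMeasurable,
      integral_tc hac hpos, integral_tc hac hpos,
      ← integral_comp_flow_wk (X := X) (f := fun p => f p * a p) (f.continuous.mul hac) t]
    simp only [hinv]
  have heq := h.2.2 _ hprob hmp
  have h1 := integral_tc hac hpos fun p => (chi k p).re
  rw [heq, integral_re_chi_wk hk, eq_comm, div_eq_zero_iff] at h1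
  have hkk : k + k ≠ 0 := fun h2 => hk (by
    have h3 := congrArg Prod.fst h2
    have h4 := congrArg Prod.snd h2
    simp only [Prod.fst_add, Prod.snd_add, Prod.fst_zero, Prod.snd_zero] at h3 h4
    exact Prod.ext (by simp only [Prod.fst_zero]; omega) (by simp only [Prod.snd_zero]; omega))
  have hf2 : Continuous fun p => (chi (k + k) p).re :=
    Complex.continuous_re.comp (chi (k + k)).continuous
  have h2 : ∫ p, (chi k p).re * a p ∂haar = 1 / 2 := by
    have e : ∀ p, (chi k p).re * a p =
        2 * (chi k p).re + (1 / 2 + 1 / 2 * (chi (k + k) p).re) := fun p => by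
      simp only [ha]
      linarith [re_chi_sq_wk k p]
    simp only [e]
    have i1 : Integrable (fun p => 2 * (chi k p).re) haar :=
      integrable_of_continuous (continuous_const.mul hf)
    have i2 : Integrable (fun p => 1 / 2 * (chi (k + k) p).re) haar :=
      integrable_of_continuous (continuous_const.mul hf2)
    have i3 : Integrable (fun p => 1 / 2 + 1 / 2 * (chi (k + k) p).re) haar :=
      (integrable_const _).add i2
    rw [integral_add i1 i3, integral_add (integrable_const _) i2,
      integral_const_mul, integral_const_mul, integral_re_chi_wk hk, integral_re_chi_wk hkk]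
    simp
  rcases h1 with h1 | h1
  · rw [h2] at h1
    norm_num at h1
  · exact (integral_pos hac hpos).ne' h1

/-- Integration over a set. -/
noncomputable def IB (B : Set Nil) : CN →L[ℂ] ℂ :=
  LinearMap.mkContinuous
    { toFun := fun F => ∫ p in B, F p ∂haar
      map_add' := fun F G =>
        integral_add (integrable_of_continuous F.continuous).integrableOn
          (integrable_of_continuous G.continuous).integrableOn
      map_smul' := fun c F => integral_smul c _ } 1 fun F => by
    have h1 : ‖∫ p in B, F p ∂haar‖ ≤ ∫ p in B, ‖F p‖ ∂haar := norm_integral_le_integral_norm _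
    have h2 : ∫ p in B, ‖F p‖ ∂haar ≤ ∫ p, ‖F p‖ ∂haar :=
      setIntegral_le_integral (integrable_of_continuous F.continuous.norm)
        (Eventually.of_forall fun p => norm_nonneg _)
    have h3 := (integral_norm_le_n2 F).trans (n2_le_norm F)
    simp only [LinearMap.coe_mk, AddHom.coe_mk, one_mul]
    linarith

lemma IB_apply (B : Set Nil) (F : CN) : IB B F = ∫ p in B, F p ∂haar := rfl

lemma norm_IB_le (B : Set Nil) (F : CN) : ‖IB B F‖ ≤ n2 F := by
  have h1 : ‖∫ p in B, F p ∂haar‖ ≤ ∫ p in B, ‖F p‖ ∂haar := norm_integral_le_integral_norm _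
  have h2 : ∫ p in B, ‖F p‖ ∂haar ≤ ∫ p, ‖F p‖ ∂haar :=
    setIntegral_le_integral (integrable_of_continuous F.continuous.norm)
      (Eventually.of_forall fun p => norm_nonneg _)
  rw [IB_apply]
  linarith [integral_norm_le_n2 F]

lemma IB_U {B : Set Nil} (hB : MeasurableSet B) {s : ℝ}
    (h : ∀ᵐ p ∂haar, (nilflow X s p ∈ B ↔ p ∈ B)) (F : CN) : IB B (U X s F) = IB B F := by
  rw [IB_apply, IB_apply, ← integral_indicator hB, ← integral_indicator hB]
  have h1 := integral_map (μ := haar) (measurePreserving_nilflow X s).measurable.aemeasurable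
    (f := B.indicator fun p => F p) (F.continuous.stronglyMeasurable.indicator hB).aestronglyMeasurable
  rw [(measurePreserving_nilflow X s).map_eq] at h1
  rw [h1]
  refine integral_congr_ae ?_
  filter_upwards [h] with p hp
  by_cases hpB : p ∈ B
  · rw [indicator_of_mem hpB, indicator_of_mem (hp.2 hpB), U_apply]
  · rw [indicator_of_notMem hpB, indicator_of_notMem (fun h' => hpB (hp.1 h'))]

lemma IB_eq_zero (hX : Irr X) {B : Set Nil} (hB : MeasurableSet B)
    (h : ∀ s, ∀ᵐ p ∂haar, (nilflow X s p ∈ B ↔ p ∈ B)) {G : CN} (h0 : E G = 0) :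
    IB B G = 0 := by
  have h1 : ∀ T : ℝ, IB B (S X G T) = (T : ℂ) * IB B G := fun T => by
    rw [S, clm_integral (IB B) (continuous_U G)]
    simp [IB_U hB (h _)]
  have h2 : ‖IB B G‖ ≤ 0 := by
    refine ge_of_tendsto (mean_erg hX h0) ?_
    filter_upwards [eventually_gt_atTop 0] with T hT
    rw [le_div_iff₀ hT]
    have h3 := norm_IB_le B (S X G T)
    rw [h1, norm_mul, Complex.norm_real, Real.norm_eq_abs, abs_of_pos hT] at h3
    linarith
  exact norm_le_zero_iff.1 h2

/-- Zero-one law for invariant sets. -/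
theorem ergodic_set (hX : Irr X) {B : Set Nil} (hB : MeasurableSet B)
    (h : ∀ s, ∀ᵐ p ∂haar, (nilflow X s p ∈ B ↔ p ∈ B)) : haar B = 0 ∨ haar Bᶜ = 0 := by
  have hfin : IsFiniteMeasure (haar B • haar : Measure Nil) :=
    ⟨by simp [measure_lt_top]⟩
  have h1 : haar.restrict B = haar B • haar := by
    have : TopologicalSpace.MetrizableSpace Nil := inferInstance
    refine ext_of_forall_integral_eq_of_IsFiniteMeasure fun f => ?_
    let F : CN := ⟨fun p => (f p : ℂ), Complex.continuous_ofReal.comp f.continuous⟩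
    have h2 := IB_eq_zero hX hB h (G := F - E F • (1 : CN))
      (by rw [map_sub, map_smul, E_one, smul_eq_mul, mul_one, sub_self])
    rw [map_sub, map_smul, IB_apply, IB_apply, E_apply] at h2
    simp only [F, ContinuousMap.coe_mk, ContinuousMap.one_apply, integral_complex_ofReal,
      integral_const, smul_eq_mul, Complex.real_smul, mul_one] at h2
    rw [integral_smul_measure, smul_eq_mul]
    have h3 : (∫ p in B, f p ∂haar) - (∫ p, f p ∂haar) * (haar.restrict B).real univ = 0 := by
      exact_mod_cast h2
    rw [measureReal_restrict_apply_univ] at h3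
    rw [mul_comm]
    exact sub_eq_zero.1 h3
  have h2 := congrArg (fun μ : Measure Nil => μ Bᶜ) h1
  simp only [Measure.restrict_apply hB.compl, compl_inter_self, measure_empty, Measure.smul_apply,
    smul_eq_mul] at h2
  exact mul_eq_zero.1 h2.symm

lemma real_mean_wk (hX : Irr X) {f : Nil → ℝ} (hf : Continuous f) (h0 : ∫ p, f p ∂haar = 0) :
    Tendsto (fun T : ℝ => (∫ p, (∫ s in (0 : ℝ)..T, f (nilflow X s p)) ^ 2 ∂haar) / T ^ 2)
      atTop (𝓝 0) := by
  let F : CN := ⟨fun p => (f p : ℂ), Complex.continuous_ofReal.comp hf⟩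
  have hF : E F = 0 := by
    rw [E_apply]
    simp only [F, ContinuousMap.coe_mk, integral_complex_ofReal, h0, Complex.ofReal_zero]
  have h1 := (mean_erg hX hF).pow 2
  rw [zero_pow two_ne_zero] at h1
  refine h1.congr fun T => ?_
  rw [div_pow, n2_sq]
  congr 2
  ext p
  rw [S_eq_clock (α := f) (fun _ => rfl), Complex.norm_real, Real.norm_eq_abs, sq_abs, clock]

theorem clock_mean (hX : Irr X) (hα : Continuous α) : Tendsto
    (fun T : ℝ => (∫ p, (clock X α p T - (∫ q, α q ∂haar) * T) ^ 2 ∂haar) / T ^ 2)
    atTop (𝓝 0) := by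
  have h1 := real_mean_wk hX (f := fun p => α p - ∫ q, α q ∂haar) (hα.sub continuous_const)
    (by rw [integral_sub (integrable_of_continuous hα) (integrable_const _)]; simp)
  refine h1.congr fun T => ?_
  congr 2
  ext p
  rw [intervalIntegral.integral_sub ((continuous_orbit_time hα p).intervalIntegrable _ _)
    (continuous_const.intervalIntegrable _ _), clock]
  simp [mul_comm]

/-- Change of time in an ergodic integral. -/
lemma integral_clock (hα : Continuous α) {u : ℝ → ℝ} (hu : Continuous u) (p : Nil) (T : ℝ) :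
    ∫ τ in (0 : ℝ)..clock X α p T, u τ =
      ∫ s in (0 : ℝ)..T, u (clock X α p s) * α (nilflow X s p) := by
  have h := intervalIntegral.integral_comp_mul_deriv (a := 0) (b := T) (f := clock X α p)
    (f' := fun s => α (nilflow X s p)) (g := u) (fun s _ => clock_hasDerivAt hα p s)
    (continuous_orbit_time hα p).continuousOn hu
  rw [clock_zero_time] at h
  exact h.symm

/-- Mean ergodic theorem for the time change. -/
theorem psi_mean (hX : Irr X) (hα : Continuous α) (hpos : ∀ p, 0 < α p)
    (hψ : IsTimeChange (nilflow X) α ψ) {g : Nil → ℝ} (hg : Continuous g)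
    (h0 : ∫ p, g p * α p ∂haar = 0) :
    Tendsto (fun T : ℝ => (∫ p, (∫ τ in (0 : ℝ)..T, g (ψ τ p)) ^ 2 ∂haar) / T ^ 2)
      atTop (𝓝 0) := by
  obtain ⟨B, hB0, hB⟩ := exists_abs_le hg
  have ha := integral_pos hα hpos
  set a : ℝ := ∫ p, α p ∂haar with hadef
  have hψc := continuous_psi hα hpos hψ
  have h1 := real_mean_wk hX (f := fun p => g p * α p) (hg.mul hα) h0
  have h2 := clock_mean hX hα
  rw [← hadef] at h2
  have h3 := ((h1.const_mul (2 / a ^ 2)).add (h2.const_mul (2 * B ^ 2 / a ^ 2))).comp
    (tendsto_id.atTop_div_const ha)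
  rw [mul_zero, mul_zero, add_zero] at h3
  refine squeeze_zero' (Eventually.of_forall fun T => ?_) ?_ h3
  · exact div_nonneg (integral_nonneg fun p => sq_nonneg _) (sq_nonneg _)
  filter_upwards [eventually_gt_atTop 0] with T hT
  simp only [Function.comp_apply, id]
  set T' : ℝ := T / a with hT'
  have hTT : T = a * T' := by rw [hT']; field_simp
  have hT'0 : 0 < T' := div_pos hT ha
  have c1 : Continuous fun p => ∫ s in (0 : ℝ)..T', g (nilflow X s p) * α (nilflow X s p) :=
    (continuous_clock (X := X) (α := fun p => g p * α p) (hg.mul hα)).comp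
      (continuous_id.prodMk continuous_const)
  have c2 : Continuous fun p => clock X α p T' - a * T' :=
    ((continuous_clock hα).comp (continuous_id.prodMk continuous_const)).sub continuous_const
  have key : ∀ p, (∫ τ in (0 : ℝ)..T, g (ψ τ p)) ^ 2 ≤
      2 * (∫ s in (0 : ℝ)..T', g (nilflow X s p) * α (nilflow X s p)) ^ 2 +
        2 * B ^ 2 * (clock X α p T' - a * T') ^ 2 := fun p => by
    have hu : Continuous fun τ => g (ψ τ p) :=
      hg.comp (hψc.comp (continuous_id.prodMk continuous_const))
    have e1 := integral_clock (X := X) hα hu p T'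
    simp only [psi_clock hα hpos hψ] at e1
    have e2 := intervalIntegral.integral_add_adjacent_intervals (μ := volume)
      (hu.intervalIntegrable 0 (clock X α p T')) (hu.intervalIntegrable (clock X α p T') T)
    have e3 := intervalIntegral.norm_integral_le_of_norm_le_const (a := clock X α p T') (b := T)
      (C := B) (f := fun τ => g (ψ τ p)) fun τ _ => hB _
    rw [Real.norm_eq_abs] at e3
    have e4 : (∫ τ in clock X α p T'..T, g (ψ τ p)) ^ 2 ≤
        B ^ 2 * (clock X α p T' - a * T') ^ 2 := by
      rw [← sq_abs, ← hTT, ← sq_abs (clock X α p T' - T), abs_sub_comm, ← mul_pow]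
      exact pow_le_pow_left₀ (abs_nonneg _) e3 2
    rw [← e2, e1]
    nlinarith [sq_nonneg ((∫ s in (0 : ℝ)..T', g (nilflow X s p) * α (nilflow X s p)) -
      ∫ τ in clock X α p T'..T, g (ψ τ p))]
  have i1 : Integrable (fun p =>
      2 * (∫ s in (0 : ℝ)..T', g (nilflow X s p) * α (nilflow X s p)) ^ 2) haar :=
    integrable_of_continuous (continuous_const.mul (c1.pow 2))
  have i2 : Integrable (fun p => 2 * B ^ 2 * (clock X α p T' - a * T') ^ 2) haar :=
    integrable_of_continuous (continuous_const.mul (c2.pow 2))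
  have h4 := integral_mono_of_nonneg (μ := haar)
    (f := fun p => (∫ τ in (0 : ℝ)..T, g (ψ τ p)) ^ 2)
    (Eventually.of_forall fun p => sq_nonneg _) (i1.add i2) (Eventually.of_forall key)
  simp only [Pi.add_apply] at h4
  rw [integral_add i1 i2, integral_const_mul, integral_const_mul] at h4
  refine (div_le_div_of_nonneg_right h4 (sq_nonneg T)).trans (le_of_eq ?_)
  rw [hTT]
  field_simp

end Pool.Agent.P.MP_442888_an.Mix
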