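import Pool.Agent.P.MP_442888_an.WkDefs

set_option autoImplicit false

open MeasureTheory Filter Topology Set
open scoped ComplexConjugate Real

namespace Pool.Agent.P.MP_442888_an.Mix

/-- A sublinear perturbation does not change the limit of `T⁻¹ • A T`. -/
theorem tendsto_inv_smul_bdd_flow {H : Type} [NormedAddCommGroup H] [NormedSpace ℝ H]
    (B : ℝ → H) (C : ℝ) (hB : ∀ T, ‖B T‖ ≤ C) :
    Tendsto (fun T : ℝ => T⁻¹ • B T) atTop (𝓝 0) := by
  have h0 : Tendsto (fun T : ℝ => T⁻¹ * C) atTop (𝓝 0) := by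
    simpa using tendsto_inv_atTop_zero.mul_const C
  refine squeeze_zero_norm' ?_ h0
  filter_upwards [eventually_gt_atTop (0 : ℝ)] with T hT
  rw [norm_smul, Real.norm_eq_abs, abs_of_pos (inv_pos.2 hT)]
  exact mul_le_mul_of_nonneg_left (hB T) (inv_pos.2 hT).le

/-- Mean ergodic theorem for one-parameter semigroups of contractions. -/
theorem flow_mean {H : Type} [NormedAddCommGroup H] [InnerProductSpace ℝ H] [CompleteSpace H]
    (Θ : ℝ → H →L[ℝ] H) (hn : ∀ t x, ‖Θ t x‖ ≤ ‖x‖) (hadd : ∀ s t x, Θ (s + t) x = Θ s (Θ t x))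
    {v : H} (hv : Continuous fun t => Θ t v) :
    ∃ κ : H, (∀ t, Θ t κ = κ) ∧
      Tendsto (fun T : ℝ => T⁻¹ • ∫ t in (0 : ℝ)..T, Θ t v) atTop (𝓝 κ) := by
  set A : ℝ → H := fun T => ∫ t in (0 : ℝ)..T, Θ t v with hA
  have hint : ∀ a b : ℝ, IntervalIntegrable (fun t => Θ t v) volume a b :=
    fun a b => hv.intervalIntegrable a b
  have hsub : ∀ a b : ℝ, A b - A a = ∫ t in a..b, Θ t v := fun a b =>
    intervalIntegral.integral_interval_sub_left (hint 0 b) (hint 0 a)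
  have hlip : ∀ a b : ℝ, ‖A b - A a‖ ≤ ‖v‖ * |b - a| := fun a b => by
    rw [hsub]
    exact intervalIntegral.norm_integral_le_of_norm_le_const fun t _ => hn t v
  have hshift : ∀ s T : ℝ, Θ s (A T) = A (T + s) - A s := fun s T => by
    rw [hsub]
    have h1 : Θ s (A T) = ∫ t in (0 : ℝ)..T, Θ s (Θ t v) :=
      ((Θ s).intervalIntegral_comp_comm (hint 0 T)).symm
    have h2 : ∀ t, Θ s (Θ t v) = (fun u => Θ u v) (t + s) := fun t => by
      rw [add_comm t s]; exact (hadd s t v).symm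
    rw [h1]
    simp_rw [h2]
    rw [intervalIntegral.integral_comp_add_right (fun u => Θ u v) s, zero_add]
  have hA0 : A 0 = 0 := by simp [hA]
  have hiter : ∀ k : ℕ, (Θ 1)^[k] (A 1) = A ((k : ℝ) + 1) - A k := fun k => by
    induction k with
    | zero => simp [hA0]
    | succ k ih =>
      rw [Function.iterate_succ_apply', ih, map_sub, hshift, hshift]
      push_cast
      abel
  have hsum : ∀ N : ℕ, birkhoffSum (Θ 1) _root_.id N (A 1) = A N := fun N => by
    induction N with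
    | zero => simp [hA0]
    | succ N ih =>
      rw [birkhoffSum_succ, ih, _root_.id, hiter]
      push_cast
      abel
  have hop : ‖Θ 1‖ ≤ 1 :=
    ContinuousLinearMap.opNorm_le_bound _ zero_le_one fun x => by simpa using hn 1 x
  obtain ⟨κ, hκ⟩ : ∃ κ : H, Tendsto (fun N : ℕ => (N : ℝ)⁻¹ • A N) atTop (𝓝 κ) := by
    refine ⟨_, (ContinuousLinearMap.tendsto_birkhoffAverage_orthogonalProjection (Θ 1) hop
      (A 1)).congr fun N => ?_⟩
    rw [birkhoffAverage, hsum]
  have hlim : Tendsto (fun T : ℝ => T⁻¹ • A T) atTop (𝓝 κ) := by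
    have h1 : Tendsto (fun T : ℝ => ((⌊T⌋₊ : ℕ) : ℝ)⁻¹ • A (⌊T⌋₊ : ℕ)) atTop (𝓝 κ) :=
      hκ.comp tendsto_nat_floor_atTop
    have h2 : Tendsto (fun T : ℝ => ((⌊T⌋₊ : ℕ) : ℝ) / T) atTop (𝓝 1) :=
      tendsto_nat_floor_div_atTop
    have h3 := h2.smul h1
    have h4 : Tendsto (fun T : ℝ => T⁻¹ • (A (max T 0) - A (⌊max T 0⌋₊ : ℕ))) atTop (𝓝 0) := by
      refine tendsto_inv_smul_bdd_flow _ ‖v‖ fun T => (hlip _ _).trans ?_
      refine mul_le_of_le_one_right (norm_nonneg _) ?_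
      have h0 : (0 : ℝ) ≤ max T 0 := le_max_right _ _
      have a1 := Nat.floor_le h0
      have a2 := Nat.lt_floor_add_one (max T 0)
      rw [abs_le]
      constructor <;> linarith
    have h5 := h3.add h4
    rw [one_smul, add_zero] at h5
    refine h5.congr' ?_
    filter_upwards [eventually_ge_atTop (1 : ℝ)] with T hT
    have hT0 : (0 : ℝ) < T := by linarith
    have hfl : ((⌊T⌋₊ : ℕ) : ℝ) ≠ 0 := by
      have : 0 < ⌊T⌋₊ := Nat.floor_pos.2 hT
      exact_mod_cast this.ne'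
    rw [max_eq_left hT0.le, smul_smul, div_mul_eq_mul_div, mul_inv_cancel₀ hfl, one_div,
      ← smul_add]
    congr 1
    abel
  refine ⟨κ, fun t => ?_, hlim⟩
  have h1 : Tendsto (fun T : ℝ => Θ t (T⁻¹ • A T)) atTop (𝓝 (Θ t κ)) :=
    ((Θ t).continuous.tendsto κ).comp hlim
  have h2 : Tendsto (fun T : ℝ => T⁻¹ • (A (T + t) - A T - A t)) atTop (𝓝 0) := by
    refine tendsto_inv_smul_bdd_flow _ (‖v‖ * |t| + ‖A t‖) fun T => ?_
    refine (norm_sub_le _ _).trans (add_le_add ?_ le_rfl)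
    simpa using hlip T (T + t)
  have h3 := hlim.add h2
  rw [add_zero] at h3
  refine tendsto_nhds_unique h1 (h3.congr fun T => ?_)
  rw [map_smul, hshift, ← smul_add]
  congr 1
  abel

end Pool.Agent.P.MP_442888_an.Mix
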