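import Pool.Agent.P.MP_442888_an.WkZero

set_option autoImplicit false

open MeasureTheory Filter Topology Set
open scoped ComplexConjugate Real

namespace Pool.Agent.P.MP_442888_an.Mix

variable {X : G3} {α : Nil → ℝ} {ψ : ℝ → Nil → Nil}

lemma comp_toLp_koop (ν : Measure Nil) [IsProbabilityMeasure ν] {φ : Nil → Nil}
    (hφc : Continuous φ) (hφ : MeasurePreserving φ ν ν) (F : C(Nil, ℝ)) :
    Lp.compMeasurePreservingₗᵢ ℝ φ hφ (ContinuousMap.toLp 2 ν ℝ F) =
      ContinuousMap.toLp 2 ν ℝ (F.comp ⟨φ, hφc⟩) := by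
  have h1 := Lp.coeFn_compMeasurePreserving (ContinuousMap.toLp 2 ν ℝ F) hφ
  have h2 := hφ.quasiMeasurePreserving.ae_eq_comp
    (ContinuousMap.coeFn_toLp (p := 2) (𝕜 := ℝ) ν F)
  have h3 := ContinuousMap.coeFn_toLp (p := 2) (𝕜 := ℝ) ν (F.comp ⟨φ, hφc⟩)
  exact Lp.ext (h1.trans (h2.trans h3.symm))

lemma inner_toLp_koop (ν : Measure Nil) [IsProbabilityMeasure ν] (F G : C(Nil, ℝ)) :
    inner ℝ (ContinuousMap.toLp 2 ν ℝ F) (ContinuousMap.toLp 2 ν ℝ G) = ∫ p, F p * G p ∂ν := by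
  rw [ContinuousMap.inner_toLp]
  refine integral_congr_ae (Eventually.of_forall fun p => ?_)
  simp [mul_comm]

lemma isoFlow_koop (ν : Measure Nil) [IsProbabilityMeasure ν]
    (hc : Continuous fun x : ℝ × Nil => ψ x.1 x.2) (hm : ∀ t, MeasurePreserving (ψ t) ν ν)
    (h0 : ∀ p, ψ 0 p = p) (hadd : ∀ σ τ p, ψ (σ + τ) p = ψ τ (ψ σ p)) :
    IsoFlow fun t => Lp.compMeasurePreservingₗᵢ (E := ℝ) (p := 2) ℝ (ψ t) (hm t) := by
  refine ⟨fun x => ?_, fun s t x => ?_, ?_⟩
  · refine Lp.ext ((Lp.coeFn_compMeasurePreserving x (hm 0)).trans ?_)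
    exact Eventually.of_forall fun p => by simp [h0]
  · have h1 := Lp.coeFn_compMeasurePreserving x (hm (s + t))
    have h2 := Lp.coeFn_compMeasurePreserving (Lp.compMeasurePreserving (ψ t) (hm t) x) (hm s)
    have h3 := (hm s).quasiMeasurePreserving.ae_eq_comp
      (Lp.coeFn_compMeasurePreserving x (hm t))
    refine Lp.ext (h1.trans (EventuallyEq.trans ?_ (h2.trans h3).symm))
    exact Eventually.of_forall fun p => by simp [hadd]
  · let Ψ : C(ℝ, C(Nil, Nil)) := ContinuousMap.curry ⟨fun x : ℝ × Nil => ψ x.1 x.2, hc⟩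
    have hΨ : Continuous fun y : ℝ × Lp ℝ 2 ν => Ψ y.1 := Ψ.continuous.comp continuous_fst
    have : TopologicalSpace.MetrizableSpace Nil := inferInstance
    exact Continuous.compMeasurePreservingLp (μ := ν) (ν := ν) (E := ℝ) (p := 2)
      (f := fun y : ℝ × Lp ℝ 2 ν => y.2) (g := fun y : ℝ × Lp ℝ 2 ν => Ψ y.1) continuous_snd hΨ
      (fun y => hm y.1) (by simp)

lemma mean_koop (hX : Irr X) (hα : Continuous α) (hpos : ∀ p, 0 < α p)
    (hψ : IsTimeChange (nilflow X) α ψ) [IsProbabilityMeasure (timeChangeMeasure α haar)]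
    (G : C(Nil, ℝ)) (h0 : ∫ p, G p * α p ∂haar = 0) :
    Tendsto (fun T : ℝ => T⁻¹ • ∫ t in (0 : ℝ)..T,
      Lp.compMeasurePreservingₗᵢ ℝ (ψ t) (measurePreserving_psi hα hpos hψ t)
        (ContinuousMap.toLp 2 (timeChangeMeasure α haar) ℝ G)) atTop (𝓝 0) := by
  have hc := continuous_psi hα hpos hψ
  have hct : ∀ t, Continuous (ψ t) := fun t => hc.comp (continuous_const.prodMk continuous_id)
  let Φ : C(ℝ, C(Nil, ℝ)) :=
    ContinuousMap.curry ⟨fun x : ℝ × Nil => G (ψ x.1 x.2), G.continuous.comp hc⟩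
  have hΦ : ∀ t, G.comp ⟨ψ t, hct t⟩ = Φ t := fun t => rfl
  obtain ⟨α0, α1, hα0, hb⟩ := exists_bounds hα hpos
  have ha := integral_pos hα hpos
  have hev : ∀ (T : ℝ) (p : Nil), (∫ t in (0 : ℝ)..T, Φ t) p = ∫ t in (0 : ℝ)..T, G (ψ t p) :=
    fun T p => ((ContinuousMap.evalCLM ℝ p).intervalIntegral_comp_comm
      (Φ.continuous.intervalIntegrable 0 T)).symm
  have hlim := (psi_mean hX hα hpos hψ G.continuous h0).const_mul (α1 / ∫ p, α p ∂haar)
  rw [mul_zero] at hlim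
  rw [tendsto_zero_iff_norm_tendsto_zero]
  have hsq := (Real.continuous_sqrt.tendsto 0).comp hlim
  rw [Real.sqrt_zero] at hsq
  refine squeeze_zero (fun _ => norm_nonneg _) (fun T => ?_) hsq
  refine Real.le_sqrt_of_sq_le ?_
  simp only [comp_toLp_koop _ (hct _), hΦ]
  rw [(ContinuousMap.toLp 2 (timeChangeMeasure α haar) ℝ).intervalIntegral_comp_comm
    (Φ.continuous.intervalIntegrable 0 T), norm_smul, mul_pow, ← real_inner_self_eq_norm_sq
    (ContinuousMap.toLp 2 (timeChangeMeasure α haar) ℝ _), inner_toLp_koop, integral_tc hα hpos]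
  have hI : Continuous fun p => ∫ t in (0 : ℝ)..T, G (ψ t p) := by
    simpa only [← hev] using (∫ t in (0 : ℝ)..T, Φ t).continuous
  have hle : ∫ p, (∫ t in (0 : ℝ)..T, Φ t) p * (∫ t in (0 : ℝ)..T, Φ t) p * α p ∂haar ≤
      α1 * ∫ p, (∫ t in (0 : ℝ)..T, G (ψ t p)) ^ 2 ∂haar := by
    rw [← integral_const_mul]
    simp only [hev]
    refine integral_mono (integrable_of_continuous ((hI.mul hI).mul hα))
      (integrable_of_continuous (continuous_const.mul (hI.pow 2))) fun p => ?_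
    have h1 := (hb p).2
    have h2 := sq_nonneg (∫ t in (0 : ℝ)..T, G (ψ t p))
    simp only
    nlinarith
  rw [Real.norm_eq_abs, sq_abs]
  calc T⁻¹ ^ 2 * ((∫ p, (∫ t in (0 : ℝ)..T, Φ t) p * (∫ t in (0 : ℝ)..T, Φ t) p * α p ∂haar) /
        ∫ p, α p ∂haar)
      ≤ T⁻¹ ^ 2 * ((α1 * ∫ p, (∫ t in (0 : ℝ)..T, G (ψ t p)) ^ 2 ∂haar) / ∫ p, α p ∂haar) := by
        gcongr
    _ = _ := by rw [inv_pow]; ring

/-- The Koopman representation of the time change. -/
theorem exists_koopman (hX : Irr X) (hα : Continuous α) (hpos : ∀ p, 0 < α p)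
    (hψ : IsTimeChange (nilflow X) α ψ) {f g : Nil → ℝ} (hf : Continuous f) (hg : Continuous g)
    (h0 : ∫ p, f p * α p ∂haar = 0) :
    ∃ (V : ℝ → Lp ℝ 2 (timeChangeMeasure α haar) →ₗᵢ[ℝ] Lp ℝ 2 (timeChangeMeasure α haar))
      (w w' : Lp ℝ 2 (timeChangeMeasure α haar)), IsoFlow V ∧
      Tendsto (fun T : ℝ => T⁻¹ • ∫ t in (0 : ℝ)..T, V t w') atTop (𝓝 0) ∧
      ∀ t, inner ℝ (V t w) w' = ∫ p, f (ψ t p) * g p ∂haar := by
  have := isProb_tc hα hpos
  have hc := continuous_psi hα hpos hψ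
  have hct : ∀ t, Continuous (ψ t) := fun t => hc.comp (continuous_const.prodMk continuous_id)
  have ha := integral_pos hα hpos
  have hG : Continuous fun p => (∫ q, α q ∂haar) * g p / α p - ∫ q, g q ∂haar :=
    ((continuous_const.mul hg).div hα fun p => (hpos p).ne').sub continuous_const
  have hGα : ∀ p, ((∫ q, α q ∂haar) * g p / α p - ∫ q, g q ∂haar) * α p =
      (∫ q, α q ∂haar) * g p - (∫ q, g q ∂haar) * α p := fun p => by
    have := (hpos p).ne'
    field_simp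
  refine ⟨fun t => Lp.compMeasurePreservingₗᵢ ℝ (ψ t) (measurePreserving_psi hα hpos hψ t),
    ContinuousMap.toLp 2 _ ℝ ⟨f, hf⟩, ContinuousMap.toLp 2 _ ℝ ⟨_, hG⟩,
    isoFlow_koop _ hc _ (psi_zero hα hpos hψ) (psi_add hα hpos hψ),
    mean_koop hX hα hpos hψ _ ?_, fun t => ?_⟩
  · simp only [ContinuousMap.coe_mk, hGα]
    rw [integral_sub ((integrable_of_continuous hg).const_mul _)
      ((integrable_of_continuous hα).const_mul _), integral_const_mul, integral_const_mul]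
    ring
  · rw [comp_toLp_koop _ (hct t), inner_toLp_koop, integral_tc hα hpos]
    simp only [ContinuousMap.comp_apply, ContinuousMap.coe_mk, mul_assoc, hGα]
    have hft : Continuous fun p => f (ψ t p) := hf.comp (hct t)
    have h1 : ∀ p, f (ψ t p) * ((∫ q, α q ∂haar) * g p - (∫ q, g q ∂haar) * α p) =
        (∫ q, α q ∂haar) * (f (ψ t p) * g p) - (∫ q, g q ∂haar) * (f (ψ t p) * α p) :=
      fun p => by ring
    simp only [h1]
    have h2 : Continuous fun p => f (ψ t p) * g p := hft.mul hg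
    have h3 : Continuous fun p => f (ψ t p) * α p := hft.mul hα
    rw [integral_sub ((integrable_of_continuous h2).const_mul _)
      ((integrable_of_continuous h3).const_mul _), integral_const_mul,
      integral_const_mul, psi_invariant hα hpos hψ hf, h0]
    field_simp
    ring

theorem cesaro_sq (hX : Irr X) (hα : Continuous α) (hpos : ∀ p, 0 < α p)
    (hψ : IsTimeChange (nilflow X) α ψ) (hs : Spread X α) {f g : Nil → ℝ} (hf : Continuous f)
    (hg : Continuous g) (h0 : ∫ p, f p * α p ∂haar = 0) :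
    Tendsto (fun T : ℝ => T⁻¹ * ∫ t in (0 : ℝ)..T, (∫ p, f (ψ t p) * g p ∂haar) ^ 2)
      atTop (𝓝 0) := by
  obtain ⟨V, w, w', hV, hw, h⟩ := exists_koopman hX hα hpos hψ hf hg h0
  simpa only [h, sq] using product_zero hX hα hpos hψ hs hV w hw hf hg

end Pool.Agent.P.MP_442888_an.Mix
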