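import Pool.Agent.P.MP_442888_an.WkDefs
import Pool.Agent.P.MP_442888_an.MixCov
import Pool.Agent.P.MP_442888_an.MixScale
import Pool.Agent.P.MP_442888_an.MixTime

set_option autoImplicit false

open MeasureTheory Filter Topology Set
open scoped ComplexConjugate Real

namespace Pool.Agent.P.MP_442888_an.Mix

variable {X : G3} {α : Nil → ℝ} {Ah AY AZ : CN}

lemma paley_zygmund {Q : Nil → ℝ} (hQ : Continuous Q) {s K : ℝ} (hs : 0 < s) (hK : 0 < K)
    (h1 : s ≤ ∫ p, Q p ∂haar) (h2 : ∫ p, Q p ^ 2 ∂haar ≤ K) :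
    s ^ 2 / (4 * K) ≤ haar.real {p | s / 2 ≤ Q p} := by
  have hm : MeasurableSet {p | s / 2 ≤ Q p} := (isClosed_le continuous_const hQ).measurableSet
  have hi : Integrable ({p | s / 2 ≤ Q p}.indicator fun _ : Nil => K / s) haar :=
    (integrable_const _).indicator hm
  have hq : Integrable (fun p => s / (4 * K) * Q p ^ 2) haar :=
    integrable_of_continuous (by fun_prop)
  have h3 : ∫ p, Q p ∂haar ≤ ∫ p, (s / 2 + s / (4 * K) * Q p ^ 2 +
      {p | s / 2 ≤ Q p}.indicator (fun _ : Nil => K / s) p) ∂haar := by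
    refine integral_mono (integrable_of_continuous hQ) (((integrable_const _).add hq).add hi)
      fun p => ?_
    have h4 : 0 ≤ s / (4 * K) * Q p ^ 2 := by positivity
    by_cases hp : s / 2 ≤ Q p
    · have h5 : s / (4 * K) * Q p ^ 2 + K / s - Q p = (s * Q p - 2 * K) ^ 2 / (4 * K * s) := by
        field_simp; ring
      have h6 : 0 ≤ (s * Q p - 2 * K) ^ 2 / (4 * K * s) := by positivity
      simp only [indicator, mem_ofPred_eq, hp, if_true]
      linarith
    · simp only [indicator, mem_ofPred_eq, hp, if_false]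
      linarith
  have hq' : Integrable (fun p => s / 2 + s / (4 * K) * Q p ^ 2) haar :=
    integrable_of_continuous (by fun_prop)
  rw [integral_add hq' hi, integral_add (integrable_const _) hq,
    integral_const_mul, integral_indicator_const _ hm] at h3
  simp only [integral_const, probReal_univ, smul_eq_mul, one_mul] at h3
  have h7 : s / (4 * K) * ∫ p, Q p ^ 2 ∂haar ≤ s / 4 := by
    refine (mul_le_mul_of_nonneg_left h2 (by positivity)).trans (le_of_eq ?_)
    field_simp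
  have h8 : s / 4 ≤ haar.real {p | s / 2 ≤ Q p} * (K / s) := by linarith
  rw [← mul_div_assoc, le_div_iff₀ hs] at h8
  rw [div_le_iff₀ (by positivity)]
  nlinarith

lemma n2_lip_spread {F FY FZ : CN} (h : Der F FY FZ) (z : ℝ) :
    n2 (R (0, 0, z) F - F) ≤ |z| * n2 FZ := by
  have := norm_image_sub_le_of_norm_deriv_le_segment_01'
    (f := fun s : ℝ => L2 (R (0, 0 * s, z * s) F)) (C := |z| * n2 FZ)
    (fun s _ => ((L2.restrictScalars ℝ).hasFDerivAt.comp_hasDerivAt s
      (h.dir 0 z s)).hasDerivWithinAt) fun s _ => by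
      change n2 _ ≤ _
      rw [n2_R, Complex.ofReal_zero, zero_smul, zero_add, n2_smul, Complex.norm_real,
        Real.norm_eq_abs]
  simpa only [mul_one, mul_zero, R_zero', ← map_sub, n2] using this

lemma taylor_spread {F FY FZ GY GZ : CN} (h : Der F FY FZ) (h' : Der FZ GY GZ) (z : ℝ) :
    n2 (R (0, 0, z) F - F - (z : ℂ) • FZ) ≤ z ^ 2 * n2 GZ := by
  have hd : ∀ s : ℝ, HasDerivAt (fun s : ℝ => R (0, 0 * s, z * s) F - ((z * s : ℝ) : ℂ) • FZ)
      ((z : ℂ) • (R (0, 0, z * s) FZ - FZ)) s := fun s => by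
    have h1 : HasDerivAt (fun s : ℝ => z * s) z s := by simpa using (hasDerivAt_id s).const_mul z
    have h2 := (h.dir 0 z s).fun_sub (h1.ofReal_comp.smul_const FZ)
    rwa [Complex.ofReal_zero, zero_smul, zero_add, map_smul, ← smul_sub, zero_mul s] at h2
  have := norm_image_sub_le_of_norm_deriv_le_segment_01'
    (f := fun s : ℝ => L2 (R (0, 0 * s, z * s) F - ((z * s : ℝ) : ℂ) • FZ)) (C := z ^ 2 * n2 GZ)
    (fun s _ => ((L2.restrictScalars ℝ).hasFDerivAt.comp_hasDerivAt s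
      (hd s)).hasDerivWithinAt) fun s hs => by
      change n2 _ ≤ _
      rw [n2_smul, Complex.norm_real, Real.norm_eq_abs, ← sq_abs, sq, mul_assoc]
      refine mul_le_mul_of_nonneg_left ((n2_lip_spread h' _).trans ?_) (abs_nonneg _)
      refine mul_le_mul_of_nonneg_right ?_ (n2_nonneg _)
      rw [abs_mul, abs_of_nonneg hs.1]
      exact mul_le_of_le_one_right (abs_nonneg _) hs.2.le
  simp only [mul_one, mul_zero, R_zero', ← map_sub, Complex.ofReal_zero, zero_smul,
    sub_zero] at this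
  rw [sub_right_comm]
  exact this

lemma der_S_spread {F FY FZ : CN} (h : Der F FY FZ) (t : ℝ) :
    ∃ GY, Der (S X F t) GY (S X FZ t) := by
  rw [S_eq_W, S_eq_W]
  exact ⟨_, h.W continuous_const t⟩

theorem spread_of_sigma (hX : Irr X) (hA : ∀ p, Ah p = α p) (hS : Sm Ah) (hD : Der Ah AY AZ)
    {σ K : ℝ} (hσ : 0 < σ) (hv : ∀ T, 0 ≤ T → |n2 (S X AZ T) ^ 2 - σ * T| ≤ K) : Spread X α := by
  have hZ := (hS.of_der hD).2
  obtain ⟨BY, BZ, hD', -, hZZ⟩ := hZ.der
  obtain ⟨C, hC⟩ := hZ 5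
  obtain ⟨C', hC'⟩ := hZZ 3
  obtain ⟨K4, hK4, h4⟩ := four hX.ne hC hD.Av_Z
  obtain ⟨K2, hK2, h2⟩ := sqrt_Cov hX.ne hC' hD'.Av_Z
  set c1 := (σ / 2) ^ 2 / (4 * (K4 ^ 2 + 1)) with hc1
  have hc10 : 0 < c1 := by positivity
  set a := √σ / 4 with ha
  have ha0 : 0 < a := by positivity
  have ha2 : a ^ 2 = σ / 16 := by rw [ha, div_pow, Real.sq_sqrt hσ.le]; norm_num
  set M := √(8 * σ / c1) with hM
  have hM0 : 0 < M := by positivity
  have hM2 : M ^ 2 = 8 * σ / c1 := Real.sq_sqrt (by positivity)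
  refine ⟨a, M + a, c1 / 2, ha0, by positivity, fun η z₀ hη hz₀ => ?_⟩
  obtain ⟨q, hq, hx⟩ := good_unbounded hX
    (max (max (2 * K / σ) ((η / z₀) ^ 2)) (4 * (η * K2) ^ 2 / (c1 * a ^ 2)))
  have hq1 : (1 : ℝ) ≤ q := by exact_mod_cast hq.1
  have hq0 : (0 : ℝ) < q := one_pos.trans_le hq1
  have hr0 : 0 < √(q : ℝ) := Real.sqrt_pos.2 hq0
  have hr2 : √(q : ℝ) ^ 2 = q := Real.sq_sqrt hq0.le
  have hx1 : 2 * K ≤ q * σ :=
    (div_le_iff₀ hσ).1 (((le_max_left _ _).trans (le_max_left _ _)).trans hx)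
  have hx2 : η / z₀ ≤ √(q : ℝ) :=
    Real.le_sqrt_of_sq_le (((le_max_right _ _).trans (le_max_left _ _)).trans hx)
  have hx3 : 4 * (η * K2) ^ 2 ≤ q * (c1 * a ^ 2) :=
    (div_le_iff₀ (by positivity)).1 ((le_max_right _ _).trans hx)
  set z := η / √(q : ℝ) with hz
  have hz0 : 0 < z := by positivity
  refine ⟨q, z, ?_, ?_⟩
  · rw [abs_of_pos hz0, hz, div_le_iff₀ hr0]
    rw [div_le_iff₀ hz₀] at hx2
    linarith
  obtain ⟨h5, h6⟩ := abs_le.1 (hv q hq0.le)
  have hA1 : c1 ≤ haar.real {p | σ / 2 / 2 ≤ Qf X AZ q p} := by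
    refine paley_zygmund (continuous_Qf _ _) (by positivity) (by positivity) ?_ ?_
    · rw [integral_Qf, le_div_iff₀ hq0]; linarith
    · rw [integral_Qf_sq, div_le_iff₀ (by positivity)]
      have := pow_le_pow_left₀ (n2_nonneg _) (h4 q hq) 2
      nlinarith
  have hA2 : haar.real {p | M * √(q : ℝ) ≤ ‖S X AZ q p‖} ≤ c1 / 4 := by
    refine (cheb _ (by positivity)).trans ?_
    rw [mul_pow, hr2, hM2, div_le_iff₀ (by positivity)]
    have : c1 / 4 * (8 * σ / c1 * q) = 2 * (σ * q) := by field_simp; ring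
    rw [this]
    nlinarith
  set Rem := R (0, 0, z) (S X Ah q) - S X Ah q - (z : ℂ) • S X AZ q with hRem
  have hA3 : haar.real {p | a * η ≤ ‖Rem p‖} ≤ c1 / 4 := by
    refine (cheb _ (by positivity)).trans ?_
    obtain ⟨GY, hG⟩ := der_S_spread (X := X) hD q
    obtain ⟨GY', hG'⟩ := der_S_spread (X := X) hD' q
    have h7 := (taylor_spread hG hG' z).trans
      (mul_le_mul_of_nonneg_left (h2 q q hq1 hq0.le le_rfl) (sq_nonneg z))
    have h8 := pow_le_pow_left₀ (n2_nonneg _) h7 2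
    have h9 : (z ^ 2 * (K2 * √(q : ℝ))) ^ 2 = η ^ 2 * (η * K2) ^ 2 / q := by
      rw [hz, mul_pow, mul_pow, div_pow, hr2]; field_simp
    rw [div_le_iff₀ (by positivity)]
    refine h8.trans ?_
    rw [h9, div_le_iff₀ hq0]
    nlinarith [mul_le_mul_of_nonneg_left hx3 (sq_nonneg η)]
  have hsub : {p | σ / 2 / 2 ≤ Qf X AZ q p} ⊆
      ({p | a * η ≤ |clock X α (rmul (0, 0, z) p) q - clock X α p q| ∧
        |clock X α (rmul (0, 0, z) p) q - clock X α p q| ≤ (M + a) * η} ∪
      {p | M * √(q : ℝ) ≤ ‖S X AZ q p‖}) ∪ {p | a * η ≤ ‖Rem p‖} := fun p hp => by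
    by_contra hcon
    simp only [mem_union, mem_ofPred_eq, not_or, not_le] at hcon hp
    obtain ⟨⟨h7, h8⟩, h9⟩ := hcon
    have e : ((clock X α (rmul (0, 0, z) p) q - clock X α p q : ℝ) : ℂ) =
        z * S X AZ q p + Rem p := by
      simp [hRem, S_eq_clock hA]
    have e' : |clock X α (rmul (0, 0, z) p) q - clock X α p q| = ‖z * S X AZ q p + Rem p‖ := by
      rw [← e, Complex.norm_real, Real.norm_eq_abs]
    have e1 : ‖z * S X AZ q p‖ = z * ‖S X AZ q p‖ := by
      rw [norm_mul, Complex.norm_real, Real.norm_eq_abs, abs_of_pos hz0]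
    have e2 : z * √(q : ℝ) = η := by rw [hz]; field_simp
    have h10 : 2 * a * √(q : ℝ) ≤ ‖S X AZ q p‖ := by
      refine (pow_le_pow_iff_left₀ (by positivity) (norm_nonneg _) two_ne_zero).1 ?_
      rw [Qf, le_div_iff₀ hq0] at hp
      rw [mul_pow, mul_pow, hr2, ha2]
      linarith
    have h11 := mul_le_mul_of_nonneg_left h10 hz0.le
    have h12 := mul_le_mul_of_nonneg_left h8.le hz0.le
    have h13 := norm_add_le (z * S X AZ q p) (Rem p)
    have h14 := norm_sub_le (z * S X AZ q p + Rem p) (Rem p)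
    rw [add_sub_cancel_right] at h14
    apply h7
    rw [e']
    have e3 : z * (2 * a * √(q : ℝ)) = 2 * a * η := by rw [← e2]; ring
    have e4 : z * (M * √(q : ℝ)) = M * η := by rw [← e2]; ring
    constructor <;> nlinarith
  have := (measureReal_mono (μ := haar) hsub).trans ((measureReal_union_le _ _).trans
    (add_le_add (measureReal_union_le _ _) le_rfl))
  linarith

end Pool.Agent.P.MP_442888_an.Mix
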