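import Pool.Agent.P.MP_442888_an.WkSets
import Pool.Agent.P.MP_442888_an.WkKoop
import Pool.Agent.P.MP_442888_an.WkSpread
import Pool.Agent.P.MP_442888_an.MixSigma
import Pool.Agent.P.MP_442888_an.MixSmooth

set_option autoImplicit false

open MeasureTheory Filter Topology Set
open scoped ComplexConjugate Real

namespace Pool.Agent.P.MP_442888_an.Mix

open scoped ContDiff

variable {X : G3} {α : Nil → ℝ} {Ah AY AZ : CN}

theorem sigma_pos_fibre (ha : X.1 ≠ 0) (hα : Continuous α) (hA : ∀ p, Ah p = α p) (hS : Sm Ah)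
    (hD : Der Ah AY AZ) (hnt : ¬MeasurablyTrivial (nilflow X) haar
      fun p => α p - ∫ z in (0 : ℝ)..1, α (rmul (0, 0, z) p)) :
    ∃ σ K : ℝ, 0 < σ ∧ ∀ T, 0 ≤ T → |n2 (S X AZ T) ^ 2 - σ * T| ≤ K := by
  obtain ⟨C, hC⟩ := (hS.of_der hD).2 3
  obtain ⟨σ, K, h⟩ := variance ha hC hD.Av_Z
  refine ⟨σ, K, ?_, h⟩
  by_contra hσ
  apply hnt
  have hav : ∀ p, Av Ah p = ((∫ z in (0 : ℝ)..1, α (rmul (0, 0, z) p) : ℝ) : ℂ) := fun p => by
    rw [Av, Zc_apply, integral_apply' (continuous_fibre 1 Ah), ← intervalIntegral.integral_ofReal]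
    simp [hA]
  have hc : Continuous fun p => ∫ z in (0 : ℝ)..1, α (rmul (0, 0, z) p) := by
    have : Continuous fun p => (Av Ah p).re := by fun_prop
    simpa only [hav, Complex.ofReal_re] using this
  refine trivial_of_bdd (Ah := Ah - Av Ah) (c := 0) (K := √K) (hα.sub hc)
    (fun p => by simp [hA, hav]) fun T hT => ?_
  rw [Complex.ofReal_zero, zero_smul, sub_zero, ← hD.Pr_Z, S_Pr]
  refine (n2_Pr_le _).trans (Real.le_sqrt_of_sq_le ?_)
  have h1 := (abs_le.1 (h T hT)).2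
  have h2 : σ * T ≤ 0 := mul_nonpos_of_nonpos_of_nonneg (not_lt.1 hσ) hT
  linarith

theorem weaklyMixing_of_ue (hX : UniquelyErgodic (nilflow X) haar) (hs : ContDiff ℝ ∞ (α ∘ proj))
    (hpos : ∀ p, 0 < α p) (hnt : ¬MeasurablyTrivial (nilflow X) haar
      fun p => α p - ∫ z in (0 : ℝ)..1, α (rmul (0, 0, z) p)) {ψ : ℝ → Nil → Nil}
    (hψ : IsTimeChange (nilflow X) α ψ) : WeaklyMixing ψ (timeChangeMeasure α haar) := by
  obtain ⟨hα, Ah, hA, hS⟩ := exists_sm hs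
  obtain ⟨AY, AZ, hD, -, -⟩ := hS.der
  have hI := irr_of_ue hX
  obtain ⟨σ, K, hσ, hv⟩ := sigma_pos_fibre hI.ne hα hA hS hD hnt
  exact weaklyMixing_of_cont hα hpos hψ fun f g hf hg h0 =>
    cesaro_sq hI hα hpos hψ (spread_of_sigma hI hA hS hD hσ hv) hf hg h0

end Pool.Agent.P.MP_442888_an.Mix
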