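import Pool.Agent.P.MP_442888_an.WkDefs
import Pool.Agent.P.MP_442888_an.WkErg

set_option autoImplicit false

open MeasureTheory Filter Topology Set
open scoped ComplexConjugate Real

namespace Pool.Agent.P.MP_442888_an.Mix

variable {X : G3} {α : Nil → ℝ} {H : Type} [NormedAddCommGroup H] [InnerProductSpace ℝ H]

omit [InnerProductSpace ℝ H] in
lemma integrable_rmul_sec {κ : Nil → H} (hκ : Integrable κ haar) (g : G3) :
    Integrable (fun p => κ (rmul g p)) haar :=
  (measurePreserving_rmul g).integrable_comp_of_integrable hκ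

lemma integral_mp_sec {T : Nil → Nil} (hT : MeasurePreserving T haar haar) {f : Nil → ℝ}
    (hf : Integrable f haar) : ∫ p, f (T p) ∂haar = ∫ p, f p ∂haar := by
  have h1 : AEStronglyMeasurable f (Measure.map T haar) := by
    rw [hT.map_eq]; exact hf.aestronglyMeasurable
  have := integral_map (μ := haar) hT.measurable.aemeasurable h1
  rw [hT.map_eq] at this
  exact this.symm

lemma tendsto_translate {κ : Nil → H} (hκ : Integrable κ haar) :
    Tendsto (fun z : ℝ => ∫ p, ‖κ (rmul (0, 0, z) p) - κ p‖ ∂haar) (𝓝 0) (𝓝 0) := by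
  rw [Metric.tendsto_nhds]
  intro ε hε
  obtain ⟨g, hg, hgi⟩ := hκ.exists_boundedContinuous_integral_sub_le (ε := ε / 4) (by positivity)
  have hr : Continuous fun x : ℝ × Nil => rmul (0, 0, x.1) x.2 :=
    continuous_rmul₂.comp (Continuous.prodMk (by fun_prop) continuous_snd)
  have hF : Continuous fun x : ℝ × Nil => ‖g (rmul (0, 0, x.1) x.2) - g x.2‖ :=
    ((g.continuous.comp hr).sub (g.continuous.comp continuous_snd)).norm
  have hc : Continuous fun z : ℝ => ∫ p, ‖g (rmul (0, 0, z) p) - g p‖ ∂haar := by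
    refine continuous_of_dominated (bound := fun _ => 2 * ‖g‖) (fun z => ?_) (fun z => ?_)
      (integrable_const _) (Eventually.of_forall fun p => ?_)
    · exact (hF.comp (continuous_const.prodMk continuous_id)).aestronglyMeasurable
    · refine Eventually.of_forall fun p => ?_
      rw [norm_norm]
      have h1 := g.norm_coe_le_norm (rmul (0, 0, z) p)
      have h2 := g.norm_coe_le_norm p
      linarith [norm_sub_le (g (rmul (0, 0, z) p)) (g p)]
    · exact hF.comp (continuous_id.prodMk continuous_const)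
  have h0 : ∫ p, ‖g (rmul (0, 0, (0 : ℝ)) p) - g p‖ ∂haar = 0 := by
    have : ∀ p, rmul ((0, 0, (0 : ℝ)) : G3) p = p := rmul_zero
    simp [this]
  have h1 := hc.tendsto 0
  rw [h0] at h1
  filter_upwards [h1.eventually (gt_mem_nhds (show (0 : ℝ) < ε / 4 by positivity))] with z hz
  have hd : Integrable (fun p => ‖κ p - g p‖) haar := (hκ.sub hgi).norm
  have hdz : Integrable (fun p => ‖κ (rmul (0, 0, z) p) - g (rmul (0, 0, z) p)‖) haar :=
    (measurePreserving_rmul (0, 0, z)).integrable_comp_of_integrable hd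
  have hgz : Integrable (fun p => ‖g (rmul (0, 0, z) p) - g p‖) haar :=
    ((integrable_rmul_sec hgi _).sub hgi).norm
  have h2 : ∫ p, ‖κ (rmul (0, 0, z) p) - κ p‖ ∂haar ≤
      ∫ p, (‖κ (rmul (0, 0, z) p) - g (rmul (0, 0, z) p)‖ + ‖g (rmul (0, 0, z) p) - g p‖
        + ‖κ p - g p‖) ∂haar := by
    refine integral_mono ((integrable_rmul_sec hκ _).sub hκ).norm ((hdz.add hgz).add hd) fun p => ?_
    have e : κ (rmul (0, 0, z) p) - κ p = (κ (rmul (0, 0, z) p) - g (rmul (0, 0, z) p)) +
        (g (rmul (0, 0, z) p) - g p) - (κ p - g p) := by abel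
    simp only
    rw [e]
    exact (norm_sub_le _ _).trans (add_le_add_left (norm_add_le _ _) _)
  have hs : Integrable (fun p => ‖κ (rmul (0, 0, z) p) - g (rmul (0, 0, z) p)‖ +
      ‖g (rmul (0, 0, z) p) - g p‖) haar := hdz.add hgz
  rw [integral_add hs hd, integral_add hdz hgz,
    integral_mp_sec (measurePreserving_rmul (0, 0, z)) hd] at h2
  rw [Real.dist_eq, sub_zero, abs_of_nonneg (integral_nonneg fun p => norm_nonneg _)]
  linarith

lemma IsoFlow.cont_time_sec {V : ℝ → H →ₗᵢ[ℝ] H} (hV : IsoFlow V) (x : H) :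
    Continuous fun t => V t x :=
  hV.cont.comp (continuous_id.prodMk continuous_const)

lemma fixed_of_small {V : ℝ → H →ₗᵢ[ℝ] H} (hV : IsoFlow V) {x : H}
    (h : ∀ ε : ℝ, 0 < ε → ∃ δ : ℝ, δ ≠ 0 ∧ |δ| ≤ ε ∧ V δ x = x) (t : ℝ) : V t x = x := by
  let S : AddSubgroup ℝ :=
    { carrier := {δ | V δ x = x}
      zero_mem' := hV.zero x
      add_mem' := fun {a b} ha hb => by
        have ha' : V a x = x := ha
        have hb' : V b x = x := hb
        show V (a + b) x = x
        rw [hV.add, hb', ha']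
      neg_mem' := fun {a} ha => by
        have ha' : V a x = x := ha
        show V (-a) x = x
        have := hV.add (-a) a x
        rw [neg_add_cancel, hV.zero, ha'] at this
        exact this.symm }
  have hcl : IsClosed (S : Set ℝ) := isClosed_eq (hV.cont_time_sec x) continuous_const
  have hd : Dense (S : Set ℝ) := by
    refine S.dense_of_not_isolated_zero fun ε hε => ?_
    obtain ⟨δ, h0, h1, h2⟩ := h (ε / 2) (by positivity)
    have h3 : δ ∈ S := h2
    refine ⟨|δ|, ?_, abs_pos.2 h0, by linarith⟩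
    rcases abs_choice δ with h4 | h4
    · rw [h4]; exact h3
    · rw [h4]; exact S.neg_mem h3
  have : t ∈ (S : Set ℝ) := by
    rw [← hcl.closure_eq, hd.closure_eq]; trivial
  exact this

lemma IsoFlow.norm_comm_sec {V : ℝ → H →ₗᵢ[ℝ] H} (hV : IsoFlow V) (δ t : ℝ) (x : H) :
    ‖V δ (V t x) - V t x‖ = ‖V δ x - x‖ := by
  rw [← hV.add, add_comm, hV.add, ← map_sub, LinearIsometry.norm_map]

lemma near_fixed_sec (hX : Irr X) (hα : Continuous α) {c K c' : ℝ} (hc' : 0 < c')
    {η : ℝ} (hs : ∀ z₀ : ℝ, 0 < z₀ → ∃ s z : ℝ, |z| ≤ z₀ ∧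
      c' ≤ haar.real {p | c * η ≤ |clock X α (rmul (0, 0, z) p) s - clock X α p s| ∧
        |clock X α (rmul (0, 0, z) p) s - clock X α p s| ≤ K * η})
    {V : ℝ → H →ₗᵢ[ℝ] H} (hV : IsoFlow V) {κ : Nil → H} (hm : StronglyMeasurable κ)
    (hκ : Integrable κ haar)
    (h : ∀ s, ∀ᵐ p ∂haar, V (clock X α p s) (κ (nilflow X s p)) = κ p) {r : ℝ} (hr : 0 < r) :
    ∀ᵐ p ∂haar, ∃ δ : ℝ, (c * η ≤ |δ| ∧ |δ| ≤ K * η) ∧ ‖V δ (κ p) - κ p‖ < r := by
  let C : Set H := {x | ∀ δ : ℝ, (c * η ≤ |δ| ∧ |δ| ≤ K * η) → r ≤ ‖V δ x - x‖}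
  have hC : IsClosed C := by
    have : C = ⋂ δ : ℝ, ⋂ _ : (c * η ≤ |δ| ∧ |δ| ≤ K * η), {x | r ≤ ‖V δ x - x‖} := by
      ext x; simp [C]
    rw [this]
    exact isClosed_iInter fun δ => isClosed_iInter fun _ =>
      isClosed_le continuous_const ((V δ).continuous.sub continuous_id).norm
  have hCV : ∀ t x, V t x ∈ C ↔ x ∈ C := fun t x => by
    simp only [C, mem_ofPred_eq, hV.norm_comm_sec]
  let _ : MeasurableSpace H := borel H
  have _ : BorelSpace H := ⟨rfl⟩
  have hB : MeasurableSet (κ ⁻¹' C) := hm.measurable hC.measurableSet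
  have hinv : ∀ s, ∀ᵐ p ∂haar, (nilflow X s p ∈ κ ⁻¹' C ↔ p ∈ κ ⁻¹' C) := fun s => by
    filter_upwards [h s] with p hp
    rw [mem_preimage, mem_preimage, ← hp, hCV]
  rcases ergodic_set hX hB hinv with h0 | h0
  · have : ∀ᵐ p ∂haar, p ∉ κ ⁻¹' C := measure_eq_zero_iff_ae_notMem.1 h0
    filter_upwards [this] with p hp
    by_contra hn
    push Not at hn
    exact hp hn
  · exfalso
    have hae : ∀ᵐ p ∂haar, p ∈ κ ⁻¹' C := by
      filter_upwards [measure_eq_zero_iff_ae_notMem.1 h0] with p hp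
      simpa using hp
    have ht := (tendsto_translate hκ).eventually
      (gt_mem_nhds (show (0 : ℝ) < r * c' / 2 by positivity))
    obtain ⟨z₁, hz₁, hz⟩ := Metric.eventually_nhds_iff.1 ht
    obtain ⟨s, z, hzz, hG⟩ := hs (z₁ / 2) (by positivity)
    have hz' := hz (y := z) (by rw [Real.dist_eq, sub_zero]; linarith)
    set G : Set Nil := {p | c * η ≤ |clock X α (rmul (0, 0, z) p) s - clock X α p s| ∧
        |clock X α (rmul (0, 0, z) p) s - clock X α p s| ≤ K * η} with hGdef
    have hcl : Continuous fun p => clock X α p s :=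
      (continuous_clock hα).comp (continuous_id.prodMk continuous_const)
    have hd : Continuous fun p => |clock X α (rmul (0, 0, z) p) s - clock X α p s| :=
      ((hcl.comp (continuous_rmul _)).sub hcl).abs
    have hGm : MeasurableSet G :=
      ((isClosed_le continuous_const hd).inter (isClosed_le hd continuous_const)).measurableSet
    let f : Nil → ℝ := fun p => ‖κ (rmul (0, 0, z) p) - κ p‖
    have hf : Integrable f haar := ((integrable_rmul_sec hκ _).sub hκ).norm
    have hf' : Integrable (fun p => f (nilflow X s p)) haar :=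
      (measurePreserving_nilflow X s).integrable_comp_of_integrable hf
    have h2 := (measurePreserving_rmul ((0, 0, z) : G3)).quasiMeasurePreserving.ae (h s)
    have hle : ∀ᵐ p ∂haar, G.indicator (fun _ => r) p ≤ f (nilflow X s p) + f p := by
      filter_upwards [hae, h s, h2] with p hp h1 h3
      by_cases hpG : p ∈ G
      · rw [indicator_of_mem hpG]
        refine (hp _ hpG).trans ?_
        have e1 : nilflow X s (rmul (0, 0, z) p) = rmul (0, 0, z) (nilflow X s p) := by
          rw [nilflow_rmul]; simp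
        rw [e1] at h3
        have e2 : V (clock X α (rmul (0, 0, z) p) s - clock X α p s) (κ p) =
            V (clock X α (rmul (0, 0, z) p) s) (κ (nilflow X s p)) := by
          conv_lhs => rw [← h1]
          rw [← hV.add, sub_add_cancel]
        have e3 : V (clock X α (rmul (0, 0, z) p) s) (κ (nilflow X s p)) - κ p =
            (κ (rmul (0, 0, z) p) - κ p) - V (clock X α (rmul (0, 0, z) p) s)
              (κ (rmul (0, 0, z) (nilflow X s p)) - κ (nilflow X s p)) := by
          rw [map_sub, h3]; abel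
        rw [e2, e3]
        refine (norm_sub_le _ _).trans (le_of_eq ?_)
        rw [LinearIsometry.norm_map, add_comm]
      · rw [indicator_of_notMem hpG]
        exact add_nonneg (norm_nonneg _) (norm_nonneg _)
    have hs' : Integrable (fun p => f (nilflow X s p) + f p) haar := hf'.add hf
    have h4 := integral_mono_ae ((integrable_const r).indicator hGm) hs' hle
    rw [integral_indicator_const r hGm, integral_add hf' hf,
      integral_mp_sec (measurePreserving_nilflow X s) hf, smul_eq_mul] at h4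
    have h5 : c' * r ≤ haar.real G * r := mul_le_mul_of_nonneg_right hG hr.le
    have h6 : ∫ p, f p ∂haar < r * c' / 2 := hz'
    linarith

/-- An invariant section takes values in the invariant vectors. -/
theorem invariant_section (hX : Irr X) (hα : Continuous α) (hs : Spread X α)
    {V : ℝ → H →ₗᵢ[ℝ] H} (hV : IsoFlow V) {κ : Nil → H} (hm : StronglyMeasurable κ)
    (hκ : Integrable κ haar)
    (h : ∀ s, ∀ᵐ p ∂haar, V (clock X α p s) (κ (nilflow X s p)) = κ p) :
    ∀ᵐ p ∂haar, ∀ δ, V δ (κ p) = κ p := by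
  obtain ⟨c, K, c', hc, hc', hs⟩ := hs
  have h1 : ∀ᵐ p ∂haar, ∀ n m : ℕ, ∃ δ : ℝ,
      (c * (1 / ((n : ℝ) + 1)) ≤ |δ| ∧ |δ| ≤ K * (1 / ((n : ℝ) + 1))) ∧
        ‖V δ (κ p) - κ p‖ < 1 / ((m : ℝ) + 1) := by
    refine ae_all_iff.2 fun n => ae_all_iff.2 fun m => ?_
    exact near_fixed_sec hX hα hc' (fun z₀ hz₀ => hs _ z₀ (by positivity) hz₀) hV hm hκ h
      (by positivity)
  filter_upwards [h1] with p hp
  refine fixed_of_small hV fun ε hε => ?_
  obtain ⟨n, hn⟩ := exists_nat_one_div_lt (show 0 < ε / (|K| + 1) by positivity)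
  set η : ℝ := 1 / ((n : ℝ) + 1) with hη
  have hη0 : 0 < η := by positivity
  let D : Set ℝ := {δ | c * η ≤ |δ| ∧ |δ| ≤ K * η}
  have hD : IsCompact D := by
    refine (isCompact_Icc (a := -(K * η)) (b := K * η)).of_isClosed_subset
      ((isClosed_le continuous_const continuous_abs).inter
        (isClosed_le continuous_abs continuous_const)) fun δ hδ => ?_
    exact abs_le.1 hδ.2
  have hne : D.Nonempty := by
    obtain ⟨δ, hδ, -⟩ := hp n 0
    exact ⟨δ, hδ⟩
  have hcont : Continuous fun δ => ‖V δ (κ p) - κ p‖ :=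
    ((hV.cont_time_sec _).sub continuous_const).norm
  obtain ⟨δ, hδ, hmin⟩ := hD.exists_isMinOn hne hcont.continuousOn
  refine ⟨δ, ?_, ?_, ?_⟩
  · rintro rfl
    have h2 := hδ.1
    rw [abs_zero] at h2
    exact absurd h2 (not_le.2 (by positivity))
  · have h2 : K * η ≤ (|K| + 1) * η :=
      mul_le_mul_of_nonneg_right (by linarith [le_abs_self K]) hη0.le
    have h3 : η * (|K| + 1) < ε := (lt_div_iff₀ (by positivity)).1 hn
    linarith [hδ.2]
  · by_contra hne'
    have hpos : 0 < ‖V δ (κ p) - κ p‖ := norm_pos_iff.2 (sub_ne_zero.2 hne')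
    obtain ⟨m, hm'⟩ := exists_nat_one_div_lt hpos
    obtain ⟨δ', hδ', h4⟩ := hp n m
    have h5 : ‖V δ (κ p) - κ p‖ ≤ ‖V δ' (κ p) - κ p‖ := hmin (show δ' ∈ D from hδ')
    linarith

end Pool.Agent.P.MP_442888_an.Mix
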