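import Pool.Agent.P.MP_442888_an.MixSets

set_option autoImplicit false

open MeasureTheory Filter Topology Set
open scoped ComplexConjugate Real

namespace Pool.Agent.P.MP_442888_an.Mix

variable {X : G3} {α : Nil → ℝ} {ψ : ℝ → Nil → Nil}

/-- Abstract form: a function uniformly close to functions with small mean square has small
mean absolute value. -/
lemma mean_abs_wkSets {c : ℝ → ℝ}
    (h : ∀ ε : ℝ, 0 < ε → ∃ r : ℝ → ℝ, Continuous r ∧ (∀ t, |c t - r t| ≤ ε) ∧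
      Tendsto (fun T : ℝ => T⁻¹ * ∫ t in (0 : ℝ)..T, (r t) ^ 2) atTop (𝓝 0)) :
    Tendsto (fun t : ℝ => (∫⁻ s in Ioc 0 t, ENNReal.ofReal |c s|) / ENNReal.ofReal t)
      atTop (𝓝 0) := by
  rw [ENNReal.tendsto_nhds_zero]
  intro e he
  obtain ⟨δ, hδ0, hδ⟩ : ∃ δ : ℝ, 0 < δ ∧ ENNReal.ofReal δ ≤ e := by
    by_cases ht : e = ⊤
    · exact ⟨1, one_pos, by rw [ht]; exact le_top⟩
    · exact ⟨e.toReal, ENNReal.toReal_pos he.ne' ht, by rw [ENNReal.ofReal_toReal ht]⟩
  obtain ⟨r, hr, hcr, hlim⟩ := h (δ / 3) (by positivity)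
  have hev := (tendsto_order.1 hlim).2 (4 * (δ / 3) ^ 2) (by positivity)
  filter_upwards [hev, eventually_gt_atTop (0 : ℝ)] with T hT hT0
  refine le_trans ?_ hδ
  have hb : ∀ s, |c s| ≤ 2 * (δ / 3) + (4 * (δ / 3))⁻¹ * (r s) ^ 2 := fun s => by
    have h1 : |c s| ≤ δ / 3 + |r s| := by
      have := abs_add_le (c s - r s) (r s)
      rw [sub_add_cancel] at this
      linarith [hcr s]
    have h2 : |r s| ≤ δ / 3 + (4 * (δ / 3))⁻¹ * (r s) ^ 2 := by
      rw [← sq_abs (r s), ← sub_nonneg]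
      have e : δ / 3 + (4 * (δ / 3))⁻¹ * |r s| ^ 2 - |r s| =
          (4 * (δ / 3))⁻¹ * (|r s| - 2 * (δ / 3)) ^ 2 := by
        field_simp
        ring
      rw [e]
      positivity
    linarith
  have hF : Continuous fun s => 2 * (δ / 3) + (4 * (δ / 3))⁻¹ * (r s) ^ 2 := by fun_prop
  have hI : IntegrableOn (fun s => 2 * (δ / 3) + (4 * (δ / 3))⁻¹ * (r s) ^ 2) (Ioc 0 T) volume :=
    (hF.intervalIntegrable 0 T).1
  have h1 : (∫⁻ s in Ioc 0 T, ENNReal.ofReal |c s|) ≤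
      ENNReal.ofReal (∫ s in Ioc 0 T, (2 * (δ / 3) + (4 * (δ / 3))⁻¹ * (r s) ^ 2)) := by
    rw [ofReal_integral_eq_lintegral_ofReal hI (Eventually.of_forall fun s => by positivity)]
    exact lintegral_mono fun s => ENNReal.ofReal_le_ofReal (hb s)
  have h2 : ∫ s in Ioc 0 T, (2 * (δ / 3) + (4 * (δ / 3))⁻¹ * (r s) ^ 2) ≤ δ * T := by
    have hG : Continuous fun s => (4 * (δ / 3))⁻¹ * (r s) ^ 2 := by fun_prop
    rw [← intervalIntegral.integral_of_le hT0.le, intervalIntegral.integral_add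
      (continuous_const.intervalIntegrable _ _) (hG.intervalIntegrable _ _),
      intervalIntegral.integral_const, intervalIntegral.integral_const_mul]
    have h3 : ∫ t in (0 : ℝ)..T, (r t) ^ 2 ≤ T * (4 * (δ / 3) ^ 2) := by
      rw [inv_mul_lt_iff₀ hT0] at hT
      exact hT.le
    have h4 : (4 * (δ / 3))⁻¹ * ∫ t in (0 : ℝ)..T, (r t) ^ 2 ≤ T * (δ / 3) := by
      refine (mul_le_mul_of_nonneg_left h3 (by positivity)).trans (le_of_eq ?_)
      field_simp
    simp only [sub_zero, smul_eq_mul]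
    linarith
  refine ENNReal.div_le_of_le_mul (h1.trans ?_)
  rw [← ENNReal.ofReal_mul hδ0.le]
  exact ENNReal.ofReal_le_ofReal h2

theorem weaklyMixing_of_cont (hα : Continuous α) (hpos : ∀ p, 0 < α p)
    (hψ : IsTimeChange (nilflow X) α ψ)
    (hc : ∀ f g : Nil → ℝ, Continuous f → Continuous g → ∫ p, f p * α p ∂haar = 0 →
      Tendsto (fun T : ℝ => T⁻¹ * ∫ t in (0 : ℝ)..T, (∫ p, f (ψ t p) * g p ∂haar) ^ 2)
        atTop (𝓝 0)) :
    WeaklyMixing ψ (timeChangeMeasure α haar) := by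
  intro A B hA hB
  refine mean_abs_wkSets fun ε hε => ?_
  obtain ⟨f, g, hf, hg, h0, h⟩ := approx_corr hα hpos hψ hA hB hε
  refine ⟨fun t => ∫ p, f (ψ t p) * g p ∂haar, ?_, h, hc f g hf hg h0⟩
  have hψc := continuous_psi hα hpos hψ
  have hj : Continuous (Function.uncurry fun (t : ℝ) (p : Nil) => f (ψ t p) * g p) :=
    (hf.comp hψc).mul (hg.comp continuous_snd)
  have := continuous_parametric_integral_of_continuous (μ := haar) hj isCompact_univ
  simpa using this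

end Pool.Agent.P.MP_442888_an.Mix
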