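import Pool.Agent.P.MP_442888_an.WkFlow
import Pool.Agent.P.MP_442888_an.MixTime

set_option autoImplicit false

open MeasureTheory Filter Topology Set
open scoped ComplexConjugate Real

namespace Pool.Agent.P.MP_442888_an.Mix

variable {X : G3} {α : Nil → ℝ} {H : Type} [NormedAddCommGroup H] [InnerProductSpace ℝ H]

lemma memLp_twist (hα : Continuous α) {V : ℝ → H →ₗᵢ[ℝ] H} (hV : IsoFlow V) (s : ℝ)
    (κ : Lp H 2 haar) :
    MemLp (fun p => V (clock X α p s) (κ (nilflow X s p))) 2 haar := by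
  have h1 : MemLp (fun p => κ (nilflow X s p)) 2 haar :=
    (Lp.memLp κ).comp_measurePreserving (measurePreserving_nilflow X s)
  have h2 : Continuous fun p => clock X α p s :=
    (continuous_clock hα).comp (continuous_id.prodMk continuous_const)
  refine h1.congr_norm ?_ (Eventually.of_forall fun p => by rw [LinearIsometry.norm_map])
  exact hV.cont.comp_aestronglyMeasurable (h2.aestronglyMeasurable.prodMk h1.aestronglyMeasurable)

/-- The twisted Koopman operator as a linear map. -/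
noncomputable def twistLin (X : G3) (hα : Continuous α) {V : ℝ → H →ₗᵢ[ℝ] H} (hV : IsoFlow V)
    (s : ℝ) : Lp H 2 haar →ₗ[ℝ] Lp H 2 haar where
  toFun κ := (memLp_twist (X := X) hα hV s κ).toLp _
  map_add' κ κ' := by
    refine Lp.ext ?_
    filter_upwards [(memLp_twist (X := X) hα hV s (κ + κ')).coeFn_toLp,
      (memLp_twist (X := X) hα hV s κ).coeFn_toLp, (memLp_twist (X := X) hα hV s κ').coeFn_toLp,
      Lp.coeFn_add ((memLp_twist (X := X) hα hV s κ).toLp _)
        ((memLp_twist (X := X) hα hV s κ').toLp _),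
      (measurePreserving_nilflow X s).quasiMeasurePreserving.ae (Lp.coeFn_add κ κ')]
      with p h1 h2 h3 h4 h5
    rw [h1, h4, Pi.add_apply, h2, h3, h5, Pi.add_apply, map_add]
  map_smul' c κ := by
    refine Lp.ext ?_
    filter_upwards [(memLp_twist (X := X) hα hV s (c • κ)).coeFn_toLp,
      (memLp_twist (X := X) hα hV s κ).coeFn_toLp,
      Lp.coeFn_smul c ((memLp_twist (X := X) hα hV s κ).toLp _),
      (measurePreserving_nilflow X s).quasiMeasurePreserving.ae (Lp.coeFn_smul c κ)]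
      with p h1 h2 h4 h5
    rw [h1, RingHom.id_apply, h4, Pi.smul_apply, h2, h5, Pi.smul_apply, map_smul]

lemma coeFn_twistLin (hα : Continuous α) {V : ℝ → H →ₗᵢ[ℝ] H} (hV : IsoFlow V) (s : ℝ)
    (κ : Lp H 2 haar) :
    twistLin X hα hV s κ =ᵐ[haar] fun p => V (clock X α p s) (κ (nilflow X s p)) :=
  (memLp_twist (X := X) hα hV s κ).coeFn_toLp

lemma norm_twistLin (hα : Continuous α) {V : ℝ → H →ₗᵢ[ℝ] H} (hV : IsoFlow V) (s : ℝ)
    (κ : Lp H 2 haar) : ‖twistLin X hα hV s κ‖ ≤ ‖κ‖ := by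
  rw [← Lp.norm_compMeasurePreserving κ (measurePreserving_nilflow X s)]
  refine Lp.norm_le_norm_of_ae_le ?_
  filter_upwards [coeFn_twistLin (X := X) hα hV s κ,
    Lp.coeFn_compMeasurePreserving κ (measurePreserving_nilflow X s)] with p h1 h2
  rw [h1, h2, LinearIsometry.norm_map]
  rfl

/-- The twisted Koopman operator. -/
noncomputable def twistCLM (X : G3) (hα : Continuous α) {V : ℝ → H →ₗᵢ[ℝ] H} (hV : IsoFlow V)
    (s : ℝ) : Lp H 2 haar →L[ℝ] Lp H 2 haar :=
  (twistLin X hα hV s).mkContinuous 1 fun κ => by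
    rw [one_mul]; exact norm_twistLin hα hV s κ

lemma coeFn_twistCLM (hα : Continuous α) {V : ℝ → H →ₗᵢ[ℝ] H} (hV : IsoFlow V) (s : ℝ)
    (κ : Lp H 2 haar) :
    twistCLM X hα hV s κ =ᵐ[haar] fun p => V (clock X α p s) (κ (nilflow X s p)) :=
  coeFn_twistLin hα hV s κ

lemma add_twistCLM (hα : Continuous α) {V : ℝ → H →ₗᵢ[ℝ] H} (hV : IsoFlow V) (s t : ℝ)
    (κ : Lp H 2 haar) :
    twistCLM X hα hV (s + t) κ = twistCLM X hα hV s (twistCLM X hα hV t κ) := by
  refine Lp.ext ?_
  filter_upwards [coeFn_twistCLM (X := X) hα hV (s + t) κ,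
    coeFn_twistCLM (X := X) hα hV s (twistCLM X hα hV t κ),
    (measurePreserving_nilflow X s).quasiMeasurePreserving.ae
      (coeFn_twistCLM (X := X) hα hV t κ)] with p h1 h2 h3
  rw [h1, h2, h3, clock_add hα, hV.add, nilflow_add]

/-- Mean ergodic theorem for the twisted flow on sections. -/
theorem twisted_mean [CompleteSpace H] (hα : Continuous α) {V : ℝ → H →ₗᵢ[ℝ] H} (hV : IsoFlow V)
    {G G' : Nil → H} (hG : Continuous G) (hG' : Continuous G') :
    ∃ κ : Nil → H, StronglyMeasurable κ ∧ MemLp κ 2 haar ∧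
      (∀ s, ∀ᵐ p ∂haar, V (clock X α p s) (κ (nilflow X s p)) = κ p) ∧
      Tendsto (fun T : ℝ => T⁻¹ * ∫ s in (0 : ℝ)..T,
        ∫ p, inner ℝ (V (clock X α p s) (G (nilflow X s p))) (G' p) ∂haar) atTop
        (𝓝 (∫ p, inner ℝ (κ p) (G' p) ∂haar)) := by
  let L : C(Nil, H) →L[ℝ] Lp H 2 haar := ContinuousMap.toLp 2 haar ℝ
  have hL : ∀ F : C(Nil, H), L F =ᵐ[haar] F := fun F => ContinuousMap.coeFn_toLp haar F
  let v : Lp H 2 haar := L ⟨G, hG⟩
  let w : Lp H 2 haar := L ⟨G', hG'⟩
  let Φ : C(ℝ × Nil, H) := ⟨fun x => V (clock X α x.2 x.1) (G (nilflow X x.1 x.2)),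
    hV.cont.comp (((continuous_clock hα).comp (continuous_snd.prodMk continuous_fst)).prodMk
      (hG.comp (continuous_nilflow₂ X)))⟩
  have h1 : ∀ s, twistCLM X hα hV s v = L (Φ.curry s) := by
    intro s
    refine Lp.ext ?_
    filter_upwards [coeFn_twistCLM (X := X) hα hV s v, hL (Φ.curry s),
      (measurePreserving_nilflow X s).quasiMeasurePreserving.ae (hL ⟨G, hG⟩)] with p k1 k2 k3
    rw [k1, k2]
    exact congrArg _ k3
  have h2 : Continuous fun s => twistCLM X hα hV s v := by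
    simp only [h1]
    exact L.continuous.comp Φ.curry.continuous
  obtain ⟨κ, hκ, hlim⟩ := flow_mean (twistCLM X hα hV) (fun t x => norm_twistLin hα hV t x)
    (add_twistCLM hα hV) h2
  have h3 : ∀ u : Lp H 2 haar, innerSL ℝ w u = ∫ p, inner ℝ (u p) (G' p) ∂haar := by
    intro u
    rw [innerSL_apply_apply, real_inner_comm, MeasureTheory.L2.inner_def]
    refine integral_congr_ae ?_
    filter_upwards [hL ⟨G', hG'⟩] with p k
    exact congrArg _ k
  refine ⟨κ, Lp.stronglyMeasurable κ, Lp.memLp κ, fun s => ?_, ?_⟩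
  · have k := coeFn_twistCLM (X := X) hα hV s κ
    rw [hκ s] at k
    filter_upwards [k] with p hp using hp.symm
  · have k := ((innerSL ℝ w).continuous.tendsto κ).comp hlim
    rw [h3] at k
    refine k.congr fun T => ?_
    rw [Function.comp_apply, map_smul, smul_eq_mul,
      ← (innerSL ℝ w).intervalIntegral_comp_comm (h2.intervalIntegrable 0 T)]
    congr 1
    refine intervalIntegral.integral_congr fun s _ => ?_
    show innerSL ℝ w (twistCLM X hα hV s v) = _
    rw [h3, h1]
    refine integral_congr_ae ?_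
    filter_upwards [hL (Φ.curry s)] with p k1
    rw [k1]
    rfl

end Pool.Agent.P.MP_442888_an.Mix
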