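import Pool.Agent.P.MP_442888_an.WkTwist
import Pool.Agent.P.MP_442888_an.WkSec

set_option autoImplicit false

open MeasureTheory Filter Topology Set
open scoped ComplexConjugate Real

namespace Pool.Agent.P.MP_442888_an.Mix

variable {X : G3} {α : Nil → ℝ} {ψ : ℝ → Nil → Nil}
  {H : Type} [NormedAddCommGroup H] [InnerProductSpace ℝ H]

lemma inner_fixed_wkz [CompleteSpace H] {V : ℝ → H →ₗᵢ[ℝ] H} (hV : IsoFlow V) {w' : H}
    (hw : Tendsto (fun T : ℝ => T⁻¹ • ∫ t in (0 : ℝ)..T, V t w') atTop (𝓝 0))
    {x : H} (hx : ∀ δ, V δ x = x) : inner ℝ x w' = 0 := by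
  have hc : Continuous fun t : ℝ => V t w' :=
    hV.cont.comp (continuous_id.prodMk continuous_const)
  have h1 : Tendsto (fun T : ℝ => innerSL ℝ x (T⁻¹ • ∫ t in (0 : ℝ)..T, V t w')) atTop
      (𝓝 (innerSL ℝ x 0)) := ((innerSL ℝ x).continuous.tendsto 0).comp hw
  rw [map_zero] at h1
  have h2 : (fun T : ℝ => innerSL ℝ x (T⁻¹ • ∫ t in (0 : ℝ)..T, V t w')) =ᶠ[atTop]
      fun _ => inner ℝ x w' := by
    filter_upwards [eventually_gt_atTop (0 : ℝ)] with T hT
    have h3 : ∀ t : ℝ, innerSL ℝ x (V t w') = inner ℝ x w' := fun t => by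
      rw [innerSL_apply_apply, ← (V t).inner_map_map x w', hx t]
    rw [map_smul, ← (innerSL ℝ x).intervalIntegral_comp_comm (hc.intervalIntegrable _ _)]
    simp only [h3, intervalIntegral.integral_const, sub_zero, smul_eq_mul]
    field_simp
  exact tendsto_nhds_unique tendsto_const_nhds (h1.congr' h2)

theorem twisted_zero [CompleteSpace H] (hX : Irr X) (hα : Continuous α) (hs : Spread X α)
    {V : ℝ → H →ₗᵢ[ℝ] H} (hV : IsoFlow V) (w : H) {w' : H}
    (hw : Tendsto (fun T : ℝ => T⁻¹ • ∫ t in (0 : ℝ)..T, V t w') atTop (𝓝 0))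
    {F g : Nil → ℝ} (hF : Continuous F) (hg : Continuous g) :
    Tendsto (fun T : ℝ => T⁻¹ * ∫ s in (0 : ℝ)..T,
      ∫ p, F (nilflow X s p) * g p * inner ℝ (V (clock X α p s) w) w' ∂haar) atTop (𝓝 0) := by
  obtain ⟨κ, hm, hκ, hinv, hlim⟩ := twisted_mean (X := X) hα hV (G := fun p => F p • w)
    (G' := fun p => g p • w') (hF.smul continuous_const) (hg.smul continuous_const)
  have hfix := invariant_section hX hα hs hV hm (hκ.integrable (by norm_num)) hinv
  have h0 : ∫ p, inner ℝ (κ p) (g p • w') ∂haar = 0 := by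
    refine integral_eq_zero_of_ae ?_
    filter_upwards [hfix] with p hp
    rw [real_inner_smul_right, inner_fixed_wkz hV hw hp, mul_zero, Pi.zero_apply]
  rw [h0] at hlim
  refine hlim.congr fun T => ?_
  simp only [map_smul, real_inner_smul_left, real_inner_smul_right]
  refine congrArg _ (intervalIntegral.integral_congr fun s _ => ?_)
  refine integral_congr_ae (Eventually.of_forall fun p => ?_)
  ring

lemma swap_wkz {K : ℝ → Nil → ℝ} (hK : Continuous (Function.uncurry K)) (T : ℝ) :
    ∫ t in (0 : ℝ)..T, ∫ p, K t p ∂haar = ∫ p, (∫ t in (0 : ℝ)..T, K t p) ∂haar := by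
  refine intervalIntegral_integral_swap ?_
  have h1 : IntegrableOn (Function.uncurry K) (uIcc 0 T ×ˢ univ) (volume.prod haar) :=
    hK.continuousOn.integrableOn_compact' (isCompact_uIcc.prod isCompact_univ)
      (measurableSet_uIcc.prod MeasurableSet.univ)
  have h2 := h1.mono_set (prod_mono (uIoc_subset_uIcc (a := 0) (b := T)) Subset.rfl)
  rwa [IntegrableOn, ← Measure.restrict_prod_eq_prod_univ] at h2

lemma abs_le_sqrt_wkz {x : Nil → ℝ} (hx : Continuous x) :
    ∫ p, |x p| ∂haar ≤ √(∫ p, x p ^ 2 ∂haar) := by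
  set m := ∫ p, |x p| ∂haar with hm
  have i1 : Integrable (fun p => |x p|) haar := integrable_of_continuous hx.abs
  have i2 : Integrable (fun p => x p ^ 2) haar := integrable_of_continuous (hx.pow 2)
  have h1 : ∫ p, (2 * m * |x p| - m ^ 2) ∂haar ≤ ∫ p, x p ^ 2 ∂haar :=
    integral_mono ((i1.const_mul _).sub (integrable_const _)) i2 fun p => by
      have := sq_nonneg (|x p| - m)
      have h2 := sq_abs (x p)
      simp only
      nlinarith
  rw [integral_sub (i1.const_mul _) (integrable_const _), integral_const_mul, integral_const,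
    probReal_univ, one_smul, ← hm] at h1
  exact Real.le_sqrt_of_sq_le (by linarith)

/-- The time change is disjoint from every flow without invariant vectors. -/
theorem product_zero [CompleteSpace H] (hX : Irr X) (hα : Continuous α) (hpos : ∀ p, 0 < α p)
    (hψ : IsTimeChange (nilflow X) α ψ) (hs : Spread X α)
    {V : ℝ → H →ₗᵢ[ℝ] H} (hV : IsoFlow V) (w : H) {w' : H}
    (hw : Tendsto (fun T : ℝ => T⁻¹ • ∫ t in (0 : ℝ)..T, V t w') atTop (𝓝 0))
    {f g : Nil → ℝ} (hf : Continuous f) (hg : Continuous g) :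
    Tendsto (fun T : ℝ => T⁻¹ * ∫ t in (0 : ℝ)..T,
      (∫ p, f (ψ t p) * g p ∂haar) * inner ℝ (V t w) w') atTop (𝓝 0) := by
  set a := ∫ q, α q ∂haar with ha
  have ha0 : 0 < a := integral_pos hα hpos
  obtain ⟨B, hB0, hB⟩ := exists_abs_le hf
  obtain ⟨B', hB0', hB'⟩ := exists_abs_le hg
  set u : ℝ → ℝ := fun t => inner ℝ (V t w) w' with hu
  have huc : Continuous u :=
    (hV.cont.comp (continuous_id.prodMk continuous_const)).inner continuous_const
  have hub : ∀ t, |u t| ≤ ‖w‖ * ‖w'‖ := fun t => by
    have := abs_real_inner_le_norm (V t w) w'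
    rwa [(V t).norm_map] at this
  set C := B * B' * (‖w‖ * ‖w'‖) with hC
  have hC0 : 0 ≤ C := by positivity
  let K : ℝ → Nil → ℝ := fun t p => f (ψ t p) * g p * u t
  have hKc : Continuous (Function.uncurry K) :=
    ((hf.comp (continuous_psi hα hpos hψ)).mul (hg.comp continuous_snd)).mul
      (huc.comp continuous_fst)
  have hKp : ∀ p, Continuous fun t => K t p := fun p =>
    hKc.comp (continuous_id.prodMk continuous_const)
  have hKb : ∀ t p, |K t p| ≤ C := fun t p => by
    simp only [K, abs_mul]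
    exact mul_le_mul (mul_le_mul (hB _) (hB' _) (abs_nonneg _) hB0.le) (hub t) (abs_nonneg _)
      (by positivity)
  have hprim : Continuous fun y : Nil × ℝ => ∫ t in (0 : ℝ)..y.2, K t y.1 :=
    intervalIntegral.continuous_parametric_primitive_of_continuous (f := fun p t => K t p)
      (hKc.comp continuous_swap)
  have hcl : ∀ T, Continuous fun p => clock X α p T := fun T =>
    (continuous_clock hα).comp (continuous_id.prodMk continuous_const)
  -- the main term
  let M : ℝ → ℝ := fun T => ∫ s in (0 : ℝ)..T,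
    ∫ p, (f (nilflow X s p) * α (nilflow X s p)) * g p * u (clock X α p s) ∂haar
  have hM : Tendsto (fun T : ℝ => T⁻¹ * M T) atTop (𝓝 0) :=
    twisted_zero hX hα hs hV w hw (F := fun p => f p * α p) (hf.mul hα) hg
  have hMeq : ∀ T, M T = ∫ p, (∫ t in (0 : ℝ)..clock X α p T, K t p) ∂haar := fun T => by
    have hc : Continuous (Function.uncurry fun (s : ℝ) (p : Nil) =>
        (f (nilflow X s p) * α (nilflow X s p)) * g p * u (clock X α p s)) :=
      ((((hf.mul hα).comp (continuous_nilflow₂ X))).mul (hg.comp continuous_snd)).mul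
        (huc.comp ((continuous_clock hα).comp continuous_swap))
    simp only [M]
    rw [swap_wkz hc]
    refine integral_congr_ae (Eventually.of_forall fun p => ?_)
    simp only
    rw [integral_clock hα (hKp p)]
    refine intervalIntegral.integral_congr fun s _ => ?_
    simp only [K, psi_clock hα hpos hψ]
    ring
  let A : ℝ → ℝ := fun T => ∫ t in (0 : ℝ)..T, (∫ p, f (ψ t p) * g p ∂haar) * u t
  have hAeq : ∀ T, A T = ∫ p, (∫ t in (0 : ℝ)..T, K t p) ∂haar := fun T => by
    rw [← swap_wkz hKc]
    refine intervalIntegral.integral_congr fun s _ => ?_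
    simp only [K]
    rw [integral_mul_const]
  have hdiff : ∀ T, |A (a * T) - M T| ≤ C * √(∫ p, (clock X α p T - a * T) ^ 2 ∂haar) :=
    fun T => by
    have c1 : Continuous fun p => ∫ t in (0 : ℝ)..a * T, K t p :=
      hprim.comp (continuous_id.prodMk continuous_const)
    have c2 : Continuous fun p => ∫ t in (0 : ℝ)..clock X α p T, K t p :=
      hprim.comp (continuous_id.prodMk (hcl T))
    have c3 : Continuous fun p => clock X α p T - a * T := (hcl T).sub continuous_const
    rw [hAeq, hMeq, ← integral_sub (integrable_of_continuous c1) (integrable_of_continuous c2)]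
    refine abs_integral_le_integral_abs.trans ?_
    refine le_trans ?_ (mul_le_mul_of_nonneg_left (abs_le_sqrt_wkz c3) hC0)
    rw [← integral_const_mul]
    refine integral_mono (integrable_of_continuous (c1.sub c2).abs)
      (integrable_of_continuous (continuous_const.mul c3.abs)) fun p => ?_
    simp only
    rw [intervalIntegral.integral_interval_sub_left ((hKp p).intervalIntegrable _ _)
      ((hKp p).intervalIntegrable _ _), abs_sub_comm (clock X α p T)]
    exact intervalIntegral.norm_integral_le_of_norm_le_const (C := C) (f := fun t => K t p)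
      fun t _ => hKb t p
  have hcm := ((clock_mean hX hα).sqrt).const_mul C
  rw [Real.sqrt_zero, mul_zero] at hcm
  have h1 : Tendsto (fun T : ℝ => T⁻¹ * (A (a * T) - M T)) atTop (𝓝 0) := by
    refine squeeze_zero_norm' ?_ hcm
    filter_upwards [eventually_gt_atTop (0 : ℝ)] with T hT
    rw [Real.sqrt_div' _ (sq_nonneg T), Real.sqrt_sq hT.le, Real.norm_eq_abs, abs_mul,
      abs_of_pos (inv_pos.2 hT), ← mul_div_assoc, div_eq_inv_mul]
    exact mul_le_mul_of_nonneg_left (hdiff T) (inv_pos.2 hT).le
  have h2 := ((h1.add hM).const_mul a⁻¹).comp (tendsto_id.atTop_div_const ha0)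
  rw [add_zero, mul_zero] at h2
  refine h2.congr fun T => ?_
  have h3 : a * (T / a) = T := by field_simp
  simp only [Function.comp, id, h3]
  rw [← mul_add, sub_add_cancel, ← mul_assoc, ← mul_inv, h3]

end Pool.Agent.P.MP_442888_an.Mix
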